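import Pool.Agent.TH142.WF.Three

set_option autoImplicit false
set_option maxHeartbeats 4000000

/-!
# Empty systems in low dimension
-/

namespace Pool.Agent.TH142.WF

theorem big_5_11 {d : ℕ} (hd : 14 ≤ d) :
    lvdim 5 d (fun _ : Fin 11 => 2 * d / 3) < 0 := by
  rw [lvdim_pairs (by norm_num) (fun c hc hcn => by
    rcases (by omega : c = 3 ∨ c = 4 ∨ c = 5) with rfl | rfl | rfl <;> omega),
    show ((11 : ℕ).choose 2 : ℤ) = 55 by decide +kernel]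
  rcases (by omega : d % 3 = 0 ∨ d % 3 = 1 ∨ d % 3 = 2) with h | h | h
  · obtain ⟨u, rfl⟩ : ∃ u, d = 3 * (u + 1) + 0 := ⟨d / 3 - 1, by omega⟩
    rw [show 5 + (3 * (u + 1) + 0) = 3 * u + 8 by ring,
      show 5 + 2 * (3 * (u + 1) + 0) / 3 - 1 = 2 * u + 6 by omega,
      show 5 + (2 * (2 * (3 * (u + 1) + 0) / 3) - (3 * (u + 1) + 0)) - 2 = u + 4 by omega]
    have h0 : (0 : ℤ) < 1200 * (u : ℤ) ^ 0 + 3816 * (u : ℤ) ^ 1 + 4140 * (u : ℤ) ^ 2 + 2130 * (u : ℤ) ^ 3 + 540 * (u : ℤ) ^ 4 + 54 * (u : ℤ) ^ 5 := by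
      clear h hd
      positivity
    have e1 := choose5 (3 * u + 8)
    have e2 := choose5 (2 * u + 6)
    have e3 := choose5 (u + 4)
    push_cast at e1 e2 e3 ⊢
    have key : 120 * (((3 * u + 8).choose 5 : ℤ) - 11 * ((2 * u + 6).choose 5 : ℤ) +
        55 * ((u + 4).choose 5 : ℤ)) = -(1200 * (u : ℤ) ^ 0 + 3816 * (u : ℤ) ^ 1 + 4140 * (u : ℤ) ^ 2 + 2130 * (u : ℤ) ^ 3 + 540 * (u : ℤ) ^ 4 + 54 * (u : ℤ) ^ 5) := by
      linear_combination e1 - 11 * e2 + 55 * e3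
    linarith only [key, h0]
  · obtain ⟨u, rfl⟩ : ∃ u, d = 3 * (u + 5) + 1 := ⟨d / 3 - 5, by omega⟩
    rw [show 5 + (3 * (u + 5) + 1) = 3 * u + 21 by ring,
      show 5 + 2 * (3 * (u + 5) + 1) / 3 - 1 = 2 * u + 14 by omega,
      show 5 + (2 * (2 * (3 * (u + 5) + 1) / 3) - (3 * (u + 5) + 1)) - 2 = u + 7 by omega]
    have h0 : (0 : ℤ) < 62160 * (u : ℤ) ^ 0 + 143476 * (u : ℤ) ^ 1 + 73030 * (u : ℤ) ^ 2 + 15470 * (u : ℤ) ^ 3 + 1490 * (u : ℤ) ^ 4 + 54 * (u : ℤ) ^ 5 := by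
      clear h hd
      positivity
    have e1 := choose5 (3 * u + 21)
    have e2 := choose5 (2 * u + 14)
    have e3 := choose5 (u + 7)
    push_cast at e1 e2 e3 ⊢
    have key : 120 * (((3 * u + 21).choose 5 : ℤ) - 11 * ((2 * u + 14).choose 5 : ℤ) +
        55 * ((u + 7).choose 5 : ℤ)) = -(62160 * (u : ℤ) ^ 0 + 143476 * (u : ℤ) ^ 1 + 73030 * (u : ℤ) ^ 2 + 15470 * (u : ℤ) ^ 3 + 1490 * (u : ℤ) ^ 4 + 54 * (u : ℤ) ^ 5) := by
      linear_combination e1 - 11 * e2 + 55 * e3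
    linarith only [key, h0]
  · obtain ⟨u, rfl⟩ : ∃ u, d = 3 * (u + 2) + 2 := ⟨d / 3 - 2, by omega⟩
    rw [show 5 + (3 * (u + 2) + 2) = 3 * u + 13 by ring,
      show 5 + 2 * (3 * (u + 2) + 2) / 3 - 1 = 2 * u + 9 by omega,
      show 5 + (2 * (2 * (3 * (u + 2) + 2) / 3) - (3 * (u + 2) + 2)) - 2 = u + 5 by omega]
    have h0 : (0 : ℤ) < 5280 * (u : ℤ) ^ 0 + 18776 * (u : ℤ) ^ 1 + 15620 * (u : ℤ) ^ 2 + 5470 * (u : ℤ) ^ 3 + 880 * (u : ℤ) ^ 4 + 54 * (u : ℤ) ^ 5 := by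
      clear h hd
      positivity
    have e1 := choose5 (3 * u + 13)
    have e2 := choose5 (2 * u + 9)
    have e3 := choose5 (u + 5)
    push_cast at e1 e2 e3 ⊢
    have key : 120 * (((3 * u + 13).choose 5 : ℤ) - 11 * ((2 * u + 9).choose 5 : ℤ) +
        55 * ((u + 5).choose 5 : ℤ)) = -(5280 * (u : ℤ) ^ 0 + 18776 * (u : ℤ) ^ 1 + 15620 * (u : ℤ) ^ 2 + 5470 * (u : ℤ) ^ 3 + 880 * (u : ℤ) ^ 4 + 54 * (u : ℤ) ^ 5) := by
      linear_combination e1 - 11 * e2 + 55 * e3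
    linarith only [key, h0]

theorem all_5_11 {d m : ℕ} (hd : 3 ≤ d) (h2 : d + 2 ≤ 2 * m) (h3 : 2 * d + 3 < 3 * m + 5) :
    ldim 5 d (fun _ : Fin 11 => m) = 0 := by
  rcases Nat.lt_or_ge d 14 with h | h
  · interval_cases d
    · exact ldim_zero (fun _ => 3) (fun _ => by omega) (by
        rw [lvdim_const]
        decide +kernel)
    · exact ldim_zero (fun _ => 3) (fun _ => by omega) (by
        rw [lvdim_const]
        decide +kernel)
    · exact ldim_zero (fun _ => 4) (fun _ => by omega) (by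
        rw [lvdim_const]
        decide +kernel)
    · exact ldim_zero (fun _ => 4) (fun _ => by omega) (by
        rw [lvdim_const]
        decide +kernel)
    · exact ldim_zero (fun _ => 5) (fun _ => by omega) (by
        rw [lvdim_const]
        decide +kernel)
    · exact ldim_zero (fun _ => 5) (fun _ => by omega) (by
        rw [lvdim_const]
        decide +kernel)
    · exact ldim_zero (fun _ => 6) (fun _ => by omega) (by
        rw [lvdim_const]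
        decide +kernel)
    · exact ldim_zero (fun _ => 7) (fun _ => by omega) (by
        rw [lvdim_const]
        decide +kernel)
    · exact ldim_zero (fun _ => 7) (fun _ => by omega) (by
        rw [lvdim_const]
        decide +kernel)
    · exact ldim_zero (fun _ => 8) (fun _ => by omega) (by
        rw [lvdim_const]
        decide +kernel)
    · exact ldim_zero (fun _ => 9) (fun _ => by omega) (by
        rw [lvdim_const]
        decide +kernel)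
  · exact ldim_zero (fun _ => 2 * d / 3) (fun _ => by omega) (big_5_11 h)

theorem big_5_12 {d : ℕ} (hd : 11 ≤ d) :
    lvdim 5 d (fun _ : Fin 12 => 2 * d / 3) < 0 := by
  rw [lvdim_pairs (by norm_num) (fun c hc hcn => by
    rcases (by omega : c = 3 ∨ c = 4 ∨ c = 5) with rfl | rfl | rfl <;> omega),
    show ((12 : ℕ).choose 2 : ℤ) = 66 by decide +kernel]
  rcases (by omega : d % 3 = 0 ∨ d % 3 = 1 ∨ d % 3 = 2) with h | h | h
  · obtain ⟨u, rfl⟩ : ∃ u, d = 3 * (u + 1) + 0 := ⟨d / 3 - 1, by omega⟩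
    rw [show 5 + (3 * (u + 1) + 0) = 3 * u + 8 by ring,
      show 5 + 2 * (3 * (u + 1) + 0) / 3 - 1 = 2 * u + 6 by omega,
      show 5 + (2 * (2 * (3 * (u + 1) + 0) / 3) - (3 * (u + 1) + 0)) - 2 = u + 4 by omega]
    have h0 : (0 : ℤ) < 1920 * (u : ℤ) ^ 0 + 5640 * (u : ℤ) ^ 1 + 5910 * (u : ℤ) ^ 2 + 2985 * (u : ℤ) ^ 3 + 750 * (u : ℤ) ^ 4 + 75 * (u : ℤ) ^ 5 := by
      clear h hd
      positivity
    have e1 := choose5 (3 * u + 8)
    have e2 := choose5 (2 * u + 6)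
    have e3 := choose5 (u + 4)
    push_cast at e1 e2 e3 ⊢
    have key : 120 * (((3 * u + 8).choose 5 : ℤ) - 12 * ((2 * u + 6).choose 5 : ℤ) +
        66 * ((u + 4).choose 5 : ℤ)) = -(1920 * (u : ℤ) ^ 0 + 5640 * (u : ℤ) ^ 1 + 5910 * (u : ℤ) ^ 2 + 2985 * (u : ℤ) ^ 3 + 750 * (u : ℤ) ^ 4 + 75 * (u : ℤ) ^ 5) := by
      linear_combination e1 - 12 * e2 + 66 * e3
    linarith only [key, h0]
  · obtain ⟨u, rfl⟩ : ∃ u, d = 3 * (u + 4) + 1 := ⟨d / 3 - 4, by omega⟩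
    rw [show 5 + (3 * (u + 4) + 1) = 3 * u + 18 by ring,
      show 5 + 2 * (3 * (u + 4) + 1) / 3 - 1 = 2 * u + 12 by omega,
      show 5 + (2 * (2 * (3 * (u + 4) + 1) / 3) - (3 * (u + 4) + 1)) - 2 = u + 6 by omega]
    have h0 : (0 : ℤ) < 64800 * (u : ℤ) ^ 0 + 123660 * (u : ℤ) ^ 1 + 68040 * (u : ℤ) ^ 2 + 16305 * (u : ℤ) ^ 3 + 1800 * (u : ℤ) ^ 4 + 75 * (u : ℤ) ^ 5 := by
      clear h hd
      positivity
    have e1 := choose5 (3 * u + 18)
    have e2 := choose5 (2 * u + 12)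
    have e3 := choose5 (u + 6)
    push_cast at e1 e2 e3 ⊢
    have key : 120 * (((3 * u + 18).choose 5 : ℤ) - 12 * ((2 * u + 12).choose 5 : ℤ) +
        66 * ((u + 6).choose 5 : ℤ)) = -(64800 * (u : ℤ) ^ 0 + 123660 * (u : ℤ) ^ 1 + 68040 * (u : ℤ) ^ 2 + 16305 * (u : ℤ) ^ 3 + 1800 * (u : ℤ) ^ 4 + 75 * (u : ℤ) ^ 5) := by
      linear_combination e1 - 12 * e2 + 66 * e3
    linarith only [key, h0]
  · obtain ⟨u, rfl⟩ : ∃ u, d = 3 * (u + 2) + 2 := ⟨d / 3 - 2, by omega⟩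
    rw [show 5 + (3 * (u + 2) + 2) = 3 * u + 13 by ring,
      show 5 + 2 * (3 * (u + 2) + 2) / 3 - 1 = 2 * u + 9 by omega,
      show 5 + (2 * (2 * (3 * (u + 2) + 2) / 3) - (3 * (u + 2) + 2)) - 2 = u + 5 by omega]
    have h0 : (0 : ℤ) < 19080 * (u : ℤ) ^ 0 + 38310 * (u : ℤ) ^ 1 + 26445 * (u : ℤ) ^ 2 + 8415 * (u : ℤ) ^ 3 + 1275 * (u : ℤ) ^ 4 + 75 * (u : ℤ) ^ 5 := by
      clear h hd
      positivity
    have e1 := choose5 (3 * u + 13)
    have e2 := choose5 (2 * u + 9)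
    have e3 := choose5 (u + 5)
    push_cast at e1 e2 e3 ⊢
    have key : 120 * (((3 * u + 13).choose 5 : ℤ) - 12 * ((2 * u + 9).choose 5 : ℤ) +
        66 * ((u + 5).choose 5 : ℤ)) = -(19080 * (u : ℤ) ^ 0 + 38310 * (u : ℤ) ^ 1 + 26445 * (u : ℤ) ^ 2 + 8415 * (u : ℤ) ^ 3 + 1275 * (u : ℤ) ^ 4 + 75 * (u : ℤ) ^ 5) := by
      linear_combination e1 - 12 * e2 + 66 * e3
    linarith only [key, h0]

theorem all_5_12 {d m : ℕ} (hd : 3 ≤ d) (h2 : d + 2 ≤ 2 * m) (h3 : 2 * d + 3 < 3 * m + 5) :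
    ldim 5 d (fun _ : Fin 12 => m) = 0 := by
  rcases Nat.lt_or_ge d 11 with h | h
  · interval_cases d
    · exact ldim_zero (fun _ => 3) (fun _ => by omega) (by
        rw [lvdim_const]
        decide +kernel)
    · exact ldim_zero (fun _ => 3) (fun _ => by omega) (by
        rw [lvdim_const]
        decide +kernel)
    · exact ldim_zero (fun _ => 4) (fun _ => by omega) (by
        rw [lvdim_const]
        decide +kernel)
    · exact ldim_zero (fun _ => 4) (fun _ => by omega) (by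
        rw [lvdim_const]
        decide +kernel)
    · exact ldim_zero (fun _ => 5) (fun _ => by omega) (by
        rw [lvdim_const]
        decide +kernel)
    · exact ldim_zero (fun _ => 5) (fun _ => by omega) (by
        rw [lvdim_const]
        decide +kernel)
    · exact ldim_zero (fun _ => 6) (fun _ => by omega) (by
        rw [lvdim_const]
        decide +kernel)
    · exact ldim_zero (fun _ => 7) (fun _ => by omega) (by
        rw [lvdim_const]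
        decide +kernel)
  · exact ldim_zero (fun _ => 2 * d / 3) (fun _ => by omega) (big_5_12 h)

theorem big_5_13 {d : ℕ} (hd : 8 ≤ d) :
    lvdim 5 d (fun _ : Fin 13 => 2 * d / 3) < 0 := by
  rw [lvdim_pairs (by norm_num) (fun c hc hcn => by
    rcases (by omega : c = 3 ∨ c = 4 ∨ c = 5) with rfl | rfl | rfl <;> omega),
    show ((13 : ℕ).choose 2 : ℤ) = 78 by decide +kernel]
  rcases (by omega : d % 3 = 0 ∨ d % 3 = 1 ∨ d % 3 = 2) with h | h | h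
  · obtain ⟨u, rfl⟩ : ∃ u, d = 3 * (u + 1) + 0 := ⟨d / 3 - 1, by omega⟩
    rw [show 5 + (3 * (u + 1) + 0) = 3 * u + 8 by ring,
      show 5 + 2 * (3 * (u + 1) + 0) / 3 - 1 = 2 * u + 6 by omega,
      show 5 + (2 * (2 * (3 * (u + 1) + 0) / 3) - (3 * (u + 1) + 0)) - 2 = u + 4 by omega]
    have h0 : (0 : ℤ) < 2640 * (u : ℤ) ^ 0 + 7440 * (u : ℤ) ^ 1 + 7630 * (u : ℤ) ^ 2 + 3805 * (u : ℤ) ^ 3 + 950 * (u : ℤ) ^ 4 + 95 * (u : ℤ) ^ 5 := by
      clear h hd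
      positivity
    have e1 := choose5 (3 * u + 8)
    have e2 := choose5 (2 * u + 6)
    have e3 := choose5 (u + 4)
    push_cast at e1 e2 e3 ⊢
    have key : 120 * (((3 * u + 8).choose 5 : ℤ) - 13 * ((2 * u + 6).choose 5 : ℤ) +
        78 * ((u + 4).choose 5 : ℤ)) = -(2640 * (u : ℤ) ^ 0 + 7440 * (u : ℤ) ^ 1 + 7630 * (u : ℤ) ^ 2 + 3805 * (u : ℤ) ^ 3 + 950 * (u : ℤ) ^ 4 + 95 * (u : ℤ) ^ 5) := by
      linear_combination e1 - 13 * e2 + 78 * e3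
    linarith only [key, h0]
  · obtain ⟨u, rfl⟩ : ∃ u, d = 3 * (u + 3) + 1 := ⟨d / 3 - 3, by omega⟩
    rw [show 5 + (3 * (u + 3) + 1) = 3 * u + 15 by ring,
      show 5 + 2 * (3 * (u + 3) + 1) / 3 - 1 = 2 * u + 10 by omega,
      show 5 + (2 * (2 * (3 * (u + 3) + 1) / 3) - (3 * (u + 3) + 1)) - 2 = u + 5 by omega]
    have h0 : (0 : ℤ) < 23400 * (u : ℤ) ^ 0 + 65430 * (u : ℤ) ^ 1 + 46475 * (u : ℤ) ^ 2 + 13915 * (u : ℤ) ^ 3 + 1885 * (u : ℤ) ^ 4 + 95 * (u : ℤ) ^ 5 := by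
      clear h hd
      positivity
    have e1 := choose5 (3 * u + 15)
    have e2 := choose5 (2 * u + 10)
    have e3 := choose5 (u + 5)
    push_cast at e1 e2 e3 ⊢
    have key : 120 * (((3 * u + 15).choose 5 : ℤ) - 13 * ((2 * u + 10).choose 5 : ℤ) +
        78 * ((u + 5).choose 5 : ℤ)) = -(23400 * (u : ℤ) ^ 0 + 65430 * (u : ℤ) ^ 1 + 46475 * (u : ℤ) ^ 2 + 13915 * (u : ℤ) ^ 3 + 1885 * (u : ℤ) ^ 4 + 95 * (u : ℤ) ^ 5) := by
      linear_combination e1 - 13 * e2 + 78 * e3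
    linarith only [key, h0]
  · obtain ⟨u, rfl⟩ : ∃ u, d = 3 * (u + 1) + 2 := ⟨d / 3 - 1, by omega⟩
    rw [show 5 + (3 * (u + 1) + 2) = 3 * u + 10 by ring,
      show 5 + 2 * (3 * (u + 1) + 2) / 3 - 1 = 2 * u + 7 by omega,
      show 5 + (2 * (2 * (3 * (u + 1) + 2) / 3) - (3 * (u + 1) + 2)) - 2 = u + 4 by omega]
    have h0 : (0 : ℤ) < 2520 * (u : ℤ) ^ 0 + 11160 * (u : ℤ) ^ 1 + 12200 * (u : ℤ) ^ 2 + 5605 * (u : ℤ) ^ 3 + 1180 * (u : ℤ) ^ 4 + 95 * (u : ℤ) ^ 5 := by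
      clear h hd
      positivity
    have e1 := choose5 (3 * u + 10)
    have e2 := choose5 (2 * u + 7)
    have e3 := choose5 (u + 4)
    push_cast at e1 e2 e3 ⊢
    have key : 120 * (((3 * u + 10).choose 5 : ℤ) - 13 * ((2 * u + 7).choose 5 : ℤ) +
        78 * ((u + 4).choose 5 : ℤ)) = -(2520 * (u : ℤ) ^ 0 + 11160 * (u : ℤ) ^ 1 + 12200 * (u : ℤ) ^ 2 + 5605 * (u : ℤ) ^ 3 + 1180 * (u : ℤ) ^ 4 + 95 * (u : ℤ) ^ 5) := by
      linear_combination e1 - 13 * e2 + 78 * e3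
    linarith only [key, h0]

theorem all_5_13 {d m : ℕ} (hd : 3 ≤ d) (h2 : d + 2 ≤ 2 * m) (h3 : 2 * d + 3 < 3 * m + 5) :
    ldim 5 d (fun _ : Fin 13 => m) = 0 := by
  rcases Nat.lt_or_ge d 8 with h | h
  · interval_cases d
    · exact ldim_zero (fun _ => 3) (fun _ => by omega) (by
        rw [lvdim_const]
        decide +kernel)
    · exact ldim_zero (fun _ => 3) (fun _ => by omega) (by
        rw [lvdim_const]
        decide +kernel)
    · exact ldim_zero (fun _ => 4) (fun _ => by omega) (by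
        rw [lvdim_const]
        decide +kernel)
    · exact ldim_zero (fun _ => 4) (fun _ => by omega) (by
        rw [lvdim_const]
        decide +kernel)
    · exact ldim_zero (fun _ => 5) (fun _ => by omega) (by
        rw [lvdim_const]
        decide +kernel)
  · exact ldim_zero (fun _ => 2 * d / 3) (fun _ => by omega) (big_5_13 h)

theorem big_5_14 {d : ℕ} (hd : 8 ≤ d) :
    lvdim 5 d (fun _ : Fin 14 => 2 * d / 3) < 0 := by
  rw [lvdim_pairs (by norm_num) (fun c hc hcn => by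
    rcases (by omega : c = 3 ∨ c = 4 ∨ c = 5) with rfl | rfl | rfl <;> omega),
    show ((14 : ℕ).choose 2 : ℤ) = 91 by decide +kernel]
  rcases (by omega : d % 3 = 0 ∨ d % 3 = 1 ∨ d % 3 = 2) with h | h | h
  · obtain ⟨u, rfl⟩ : ∃ u, d = 3 * (u + 1) + 0 := ⟨d / 3 - 1, by omega⟩
    rw [show 5 + (3 * (u + 1) + 0) = 3 * u + 8 by ring,
      show 5 + 2 * (3 * (u + 1) + 0) / 3 - 1 = 2 * u + 6 by omega,
      show 5 + (2 * (2 * (3 * (u + 1) + 0) / 3) - (3 * (u + 1) + 0)) - 2 = u + 4 by omega]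
    have h0 : (0 : ℤ) < 3360 * (u : ℤ) ^ 0 + 9216 * (u : ℤ) ^ 1 + 9300 * (u : ℤ) ^ 2 + 4590 * (u : ℤ) ^ 3 + 1140 * (u : ℤ) ^ 4 + 114 * (u : ℤ) ^ 5 := by
      clear h hd
      positivity
    have e1 := choose5 (3 * u + 8)
    have e2 := choose5 (2 * u + 6)
    have e3 := choose5 (u + 4)
    push_cast at e1 e2 e3 ⊢
    have key : 120 * (((3 * u + 8).choose 5 : ℤ) - 14 * ((2 * u + 6).choose 5 : ℤ) +
        91 * ((u + 4).choose 5 : ℤ)) = -(3360 * (u : ℤ) ^ 0 + 9216 * (u : ℤ) ^ 1 + 9300 * (u : ℤ) ^ 2 + 4590 * (u : ℤ) ^ 3 + 1140 * (u : ℤ) ^ 4 + 114 * (u : ℤ) ^ 5) := by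
      linear_combination e1 - 14 * e2 + 91 * e3
    linarith only [key, h0]
  · obtain ⟨u, rfl⟩ : ∃ u, d = 3 * (u + 3) + 1 := ⟨d / 3 - 3, by omega⟩
    rw [show 5 + (3 * (u + 3) + 1) = 3 * u + 15 by ring,
      show 5 + 2 * (3 * (u + 3) + 1) / 3 - 1 = 2 * u + 10 by omega,
      show 5 + (2 * (2 * (3 * (u + 3) + 1) / 3) - (3 * (u + 3) + 1)) - 2 = u + 5 by omega]
    have h0 : (0 : ℤ) < 52080 * (u : ℤ) ^ 0 + 100916 * (u : ℤ) ^ 1 + 63550 * (u : ℤ) ^ 2 + 17890 * (u : ℤ) ^ 3 + 2330 * (u : ℤ) ^ 4 + 114 * (u : ℤ) ^ 5 := by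
      clear h hd
      positivity
    have e1 := choose5 (3 * u + 15)
    have e2 := choose5 (2 * u + 10)
    have e3 := choose5 (u + 5)
    push_cast at e1 e2 e3 ⊢
    have key : 120 * (((3 * u + 15).choose 5 : ℤ) - 14 * ((2 * u + 10).choose 5 : ℤ) +
        91 * ((u + 5).choose 5 : ℤ)) = -(52080 * (u : ℤ) ^ 0 + 100916 * (u : ℤ) ^ 1 + 63550 * (u : ℤ) ^ 2 + 17890 * (u : ℤ) ^ 3 + 2330 * (u : ℤ) ^ 4 + 114 * (u : ℤ) ^ 5) := by
      linear_combination e1 - 14 * e2 + 91 * e3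
    linarith only [key, h0]
  · obtain ⟨u, rfl⟩ : ∃ u, d = 3 * (u + 1) + 2 := ⟨d / 3 - 1, by omega⟩
    rw [show 5 + (3 * (u + 1) + 2) = 3 * u + 10 by ring,
      show 5 + 2 * (3 * (u + 1) + 2) / 3 - 1 = 2 * u + 7 by omega,
      show 5 + (2 * (2 * (3 * (u + 1) + 2) / 3) - (3 * (u + 1) + 2)) - 2 = u + 4 by omega]
    have h0 : (0 : ℤ) < 5040 * (u : ℤ) ^ 0 + 16356 * (u : ℤ) ^ 1 + 16250 * (u : ℤ) ^ 2 + 7110 * (u : ℤ) ^ 3 + 1450 * (u : ℤ) ^ 4 + 114 * (u : ℤ) ^ 5 := by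
      clear h hd
      positivity
    have e1 := choose5 (3 * u + 10)
    have e2 := choose5 (2 * u + 7)
    have e3 := choose5 (u + 4)
    push_cast at e1 e2 e3 ⊢
    have key : 120 * (((3 * u + 10).choose 5 : ℤ) - 14 * ((2 * u + 7).choose 5 : ℤ) +
        91 * ((u + 4).choose 5 : ℤ)) = -(5040 * (u : ℤ) ^ 0 + 16356 * (u : ℤ) ^ 1 + 16250 * (u : ℤ) ^ 2 + 7110 * (u : ℤ) ^ 3 + 1450 * (u : ℤ) ^ 4 + 114 * (u : ℤ) ^ 5) := by
      linear_combination e1 - 14 * e2 + 91 * e3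
    linarith only [key, h0]

theorem all_5_14 {d m : ℕ} (hd : 3 ≤ d) (h2 : d + 2 ≤ 2 * m) (h3 : 2 * d + 3 < 3 * m + 5) :
    ldim 5 d (fun _ : Fin 14 => m) = 0 := by
  rcases Nat.lt_or_ge d 8 with h | h
  · interval_cases d
    · exact ldim_zero (fun _ => 3) (fun _ => by omega) (by
        rw [lvdim_const]
        decide +kernel)
    · exact ldim_zero (fun _ => 3) (fun _ => by omega) (by
        rw [lvdim_const]
        decide +kernel)
    · exact ldim_zero (fun _ => 3) (fun _ => by omega) (by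
        rw [lvdim_const]
        decide +kernel)
    · exact ldim_zero (fun _ => 4) (fun _ => by omega) (by
        rw [lvdim_const]
        decide +kernel)
    · exact ldim_zero (fun _ => 5) (fun _ => by omega) (by
        rw [lvdim_const]
        decide +kernel)
  · exact ldim_zero (fun _ => 2 * d / 3) (fun _ => by omega) (big_5_14 h)

theorem big_5_15 {d : ℕ} (hd : 5 ≤ d) :
    lvdim 5 d (fun _ : Fin 15 => 2 * d / 3) < 0 := by
  rw [lvdim_pairs (by norm_num) (fun c hc hcn => by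
    rcases (by omega : c = 3 ∨ c = 4 ∨ c = 5) with rfl | rfl | rfl <;> omega),
    show ((15 : ℕ).choose 2 : ℤ) = 105 by decide +kernel]
  rcases (by omega : d % 3 = 0 ∨ d % 3 = 1 ∨ d % 3 = 2) with h | h | h
  · obtain ⟨u, rfl⟩ : ∃ u, d = 3 * (u + 1) + 0 := ⟨d / 3 - 1, by omega⟩
    rw [show 5 + (3 * (u + 1) + 0) = 3 * u + 8 by ring,
      show 5 + 2 * (3 * (u + 1) + 0) / 3 - 1 = 2 * u + 6 by omega,
      show 5 + (2 * (2 * (3 * (u + 1) + 0) / 3) - (3 * (u + 1) + 0)) - 2 = u + 4 by omega]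
    have h0 : (0 : ℤ) < 4080 * (u : ℤ) ^ 0 + 10968 * (u : ℤ) ^ 1 + 10920 * (u : ℤ) ^ 2 + 5340 * (u : ℤ) ^ 3 + 1320 * (u : ℤ) ^ 4 + 132 * (u : ℤ) ^ 5 := by
      clear h hd
      positivity
    have e1 := choose5 (3 * u + 8)
    have e2 := choose5 (2 * u + 6)
    have e3 := choose5 (u + 4)
    push_cast at e1 e2 e3 ⊢
    have key : 120 * (((3 * u + 8).choose 5 : ℤ) - 15 * ((2 * u + 6).choose 5 : ℤ) +
        105 * ((u + 4).choose 5 : ℤ)) = -(4080 * (u : ℤ) ^ 0 + 10968 * (u : ℤ) ^ 1 + 10920 * (u : ℤ) ^ 2 + 5340 * (u : ℤ) ^ 3 + 1320 * (u : ℤ) ^ 4 + 132 * (u : ℤ) ^ 5) := by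
      linear_combination e1 - 15 * e2 + 105 * e3
    linarith only [key, h0]
  · obtain ⟨u, rfl⟩ : ∃ u, d = 3 * (u + 2) + 1 := ⟨d / 3 - 2, by omega⟩
    rw [show 5 + (3 * (u + 2) + 1) = 3 * u + 12 by ring,
      show 5 + 2 * (3 * (u + 2) + 1) / 3 - 1 = 2 * u + 8 by omega,
      show 5 + (2 * (2 * (3 * (u + 2) + 1) / 3) - (3 * (u + 2) + 1)) - 2 = u + 4 by omega]
    have h0 : (0 : ℤ) < 5760 * (u : ℤ) ^ 0 + 30288 * (u : ℤ) ^ 1 + 30300 * (u : ℤ) ^ 2 + 12060 * (u : ℤ) ^ 3 + 2100 * (u : ℤ) ^ 4 + 132 * (u : ℤ) ^ 5 := by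
      clear h hd
      positivity
    have e1 := choose5 (3 * u + 12)
    have e2 := choose5 (2 * u + 8)
    have e3 := choose5 (u + 4)
    push_cast at e1 e2 e3 ⊢
    have key : 120 * (((3 * u + 12).choose 5 : ℤ) - 15 * ((2 * u + 8).choose 5 : ℤ) +
        105 * ((u + 4).choose 5 : ℤ)) = -(5760 * (u : ℤ) ^ 0 + 30288 * (u : ℤ) ^ 1 + 30300 * (u : ℤ) ^ 2 + 12060 * (u : ℤ) ^ 3 + 2100 * (u : ℤ) ^ 4 + 132 * (u : ℤ) ^ 5) := by
      linear_combination e1 - 15 * e2 + 105 * e3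
    linarith only [key, h0]
  · obtain ⟨u, rfl⟩ : ∃ u, d = 3 * (u + 1) + 2 := ⟨d / 3 - 1, by omega⟩
    rw [show 5 + (3 * (u + 1) + 2) = 3 * u + 10 by ring,
      show 5 + 2 * (3 * (u + 1) + 2) / 3 - 1 = 2 * u + 7 by omega,
      show 5 + (2 * (2 * (3 * (u + 1) + 2) / 3) - (3 * (u + 1) + 2)) - 2 = u + 4 by omega]
    have h0 : (0 : ℤ) < 7560 * (u : ℤ) ^ 0 + 21528 * (u : ℤ) ^ 1 + 20250 * (u : ℤ) ^ 2 + 8580 * (u : ℤ) ^ 3 + 1710 * (u : ℤ) ^ 4 + 132 * (u : ℤ) ^ 5 := by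
      clear h hd
      positivity
    have e1 := choose5 (3 * u + 10)
    have e2 := choose5 (2 * u + 7)
    have e3 := choose5 (u + 4)
    push_cast at e1 e2 e3 ⊢
    have key : 120 * (((3 * u + 10).choose 5 : ℤ) - 15 * ((2 * u + 7).choose 5 : ℤ) +
        105 * ((u + 4).choose 5 : ℤ)) = -(7560 * (u : ℤ) ^ 0 + 21528 * (u : ℤ) ^ 1 + 20250 * (u : ℤ) ^ 2 + 8580 * (u : ℤ) ^ 3 + 1710 * (u : ℤ) ^ 4 + 132 * (u : ℤ) ^ 5) := by
      linear_combination e1 - 15 * e2 + 105 * e3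
    linarith only [key, h0]

theorem all_5_15 {d m : ℕ} (hd : 3 ≤ d) (h2 : d + 2 ≤ 2 * m) (h3 : 2 * d + 3 < 3 * m + 5) :
    ldim 5 d (fun _ : Fin 15 => m) = 0 := by
  rcases Nat.lt_or_ge d 5 with h | h
  · interval_cases d
    · exact ldim_zero (fun _ => 3) (fun _ => by omega) (by
        rw [lvdim_const]
        decide +kernel)
    · exact ldim_zero (fun _ => 3) (fun _ => by omega) (by
        rw [lvdim_const]
        decide +kernel)
  · exact ldim_zero (fun _ => 2 * d / 3) (fun _ => by omega) (big_5_15 h)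

theorem big_5_16 {d : ℕ} (hd : 5 ≤ d) :
    lvdim 5 d (fun _ : Fin 16 => 2 * d / 3) < 0 := by
  rw [lvdim_pairs (by norm_num) (fun c hc hcn => by
    rcases (by omega : c = 3 ∨ c = 4 ∨ c = 5) with rfl | rfl | rfl <;> omega),
    show ((16 : ℕ).choose 2 : ℤ) = 120 by decide +kernel]
  rcases (by omega : d % 3 = 0 ∨ d % 3 = 1 ∨ d % 3 = 2) with h | h | h
  · obtain ⟨u, rfl⟩ : ∃ u, d = 3 * (u + 1) + 0 := ⟨d / 3 - 1, by omega⟩
    rw [show 5 + (3 * (u + 1) + 0) = 3 * u + 8 by ring,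
      show 5 + 2 * (3 * (u + 1) + 0) / 3 - 1 = 2 * u + 6 by omega,
      show 5 + (2 * (2 * (3 * (u + 1) + 0) / 3) - (3 * (u + 1) + 0)) - 2 = u + 4 by omega]
    have h0 : (0 : ℤ) < 4800 * (u : ℤ) ^ 0 + 12696 * (u : ℤ) ^ 1 + 12490 * (u : ℤ) ^ 2 + 6055 * (u : ℤ) ^ 3 + 1490 * (u : ℤ) ^ 4 + 149 * (u : ℤ) ^ 5 := by
      clear h hd
      positivity
    have e1 := choose5 (3 * u + 8)
    have e2 := choose5 (2 * u + 6)
    have e3 := choose5 (u + 4)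
    push_cast at e1 e2 e3 ⊢
    have key : 120 * (((3 * u + 8).choose 5 : ℤ) - 16 * ((2 * u + 6).choose 5 : ℤ) +
        120 * ((u + 4).choose 5 : ℤ)) = -(4800 * (u : ℤ) ^ 0 + 12696 * (u : ℤ) ^ 1 + 12490 * (u : ℤ) ^ 2 + 6055 * (u : ℤ) ^ 3 + 1490 * (u : ℤ) ^ 4 + 149 * (u : ℤ) ^ 5) := by
      linear_combination e1 - 16 * e2 + 120 * e3
    linarith only [key, h0]
  · obtain ⟨u, rfl⟩ : ∃ u, d = 3 * (u + 2) + 1 := ⟨d / 3 - 2, by omega⟩
    rw [show 5 + (3 * (u + 2) + 1) = 3 * u + 12 by ring,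
      show 5 + 2 * (3 * (u + 2) + 1) / 3 - 1 = 2 * u + 8 by omega,
      show 5 + (2 * (2 * (3 * (u + 2) + 1) / 3) - (3 * (u + 2) + 1)) - 2 = u + 4 by omega]
    have h0 : (0 : ℤ) < 12480 * (u : ℤ) ^ 0 + 41816 * (u : ℤ) ^ 1 + 37830 * (u : ℤ) ^ 2 + 14375 * (u : ℤ) ^ 3 + 2430 * (u : ℤ) ^ 4 + 149 * (u : ℤ) ^ 5 := by
      clear h hd
      positivity
    have e1 := choose5 (3 * u + 12)
    have e2 := choose5 (2 * u + 8)
    have e3 := choose5 (u + 4)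
    push_cast at e1 e2 e3 ⊢
    have key : 120 * (((3 * u + 12).choose 5 : ℤ) - 16 * ((2 * u + 8).choose 5 : ℤ) +
        120 * ((u + 4).choose 5 : ℤ)) = -(12480 * (u : ℤ) ^ 0 + 41816 * (u : ℤ) ^ 1 + 37830 * (u : ℤ) ^ 2 + 14375 * (u : ℤ) ^ 3 + 2430 * (u : ℤ) ^ 4 + 149 * (u : ℤ) ^ 5) := by
      linear_combination e1 - 16 * e2 + 120 * e3
    linarith only [key, h0]
  · obtain ⟨u, rfl⟩ : ∃ u, d = 3 * (u + 1) + 2 := ⟨d / 3 - 1, by omega⟩
    rw [show 5 + (3 * (u + 1) + 2) = 3 * u + 10 by ring,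
      show 5 + 2 * (3 * (u + 1) + 2) / 3 - 1 = 2 * u + 7 by omega,
      show 5 + (2 * (2 * (3 * (u + 1) + 2) / 3) - (3 * (u + 1) + 2)) - 2 = u + 4 by omega]
    have h0 : (0 : ℤ) < 10080 * (u : ℤ) ^ 0 + 26676 * (u : ℤ) ^ 1 + 24200 * (u : ℤ) ^ 2 + 10015 * (u : ℤ) ^ 3 + 1960 * (u : ℤ) ^ 4 + 149 * (u : ℤ) ^ 5 := by
      clear h hd
      positivity
    have e1 := choose5 (3 * u + 10)
    have e2 := choose5 (2 * u + 7)
    have e3 := choose5 (u + 4)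
    push_cast at e1 e2 e3 ⊢
    have key : 120 * (((3 * u + 10).choose 5 : ℤ) - 16 * ((2 * u + 7).choose 5 : ℤ) +
        120 * ((u + 4).choose 5 : ℤ)) = -(10080 * (u : ℤ) ^ 0 + 26676 * (u : ℤ) ^ 1 + 24200 * (u : ℤ) ^ 2 + 10015 * (u : ℤ) ^ 3 + 1960 * (u : ℤ) ^ 4 + 149 * (u : ℤ) ^ 5) := by
      linear_combination e1 - 16 * e2 + 120 * e3
    linarith only [key, h0]

theorem all_5_16 {d m : ℕ} (hd : 3 ≤ d) (h2 : d + 2 ≤ 2 * m) (h3 : 2 * d + 3 < 3 * m + 5) :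
    ldim 5 d (fun _ : Fin 16 => m) = 0 := by
  rcases Nat.lt_or_ge d 5 with h | h
  · interval_cases d
    · exact ldim_zero (fun _ => 3) (fun _ => by omega) (by
        rw [lvdim_const]
        decide +kernel)
    · exact ldim_zero (fun _ => 3) (fun _ => by omega) (by
        rw [lvdim_const]
        decide +kernel)
  · exact ldim_zero (fun _ => 2 * d / 3) (fun _ => by omega) (big_5_16 h)

end Pool.Agent.TH142.WF
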