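import Pool.Agent.TH142.WF.Three

set_option autoImplicit false
set_option maxHeartbeats 4000000

/-!
# Empty systems in low dimension
-/

namespace Pool.Agent.TH142.WF

theorem big_5_17 {d : ℕ} (hd : 5 ≤ d) :
    lvdim 5 d (fun _ : Fin 17 => 2 * d / 3) < 0 := by
  rw [lvdim_pairs (by norm_num) (fun c hc hcn => by
    rcases (by omega : c = 3 ∨ c = 4 ∨ c = 5) with rfl | rfl | rfl <;> omega),
    show ((17 : ℕ).choose 2 : ℤ) = 136 by decide +kernel]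
  rcases (by omega : d % 3 = 0 ∨ d % 3 = 1 ∨ d % 3 = 2) with h | h | h
  · obtain ⟨u, rfl⟩ : ∃ u, d = 3 * (u + 1) + 0 := ⟨d / 3 - 1, by omega⟩
    rw [show 5 + (3 * (u + 1) + 0) = 3 * u + 8 by ring,
      show 5 + 2 * (3 * (u + 1) + 0) / 3 - 1 = 2 * u + 6 by omega,
      show 5 + (2 * (2 * (3 * (u + 1) + 0) / 3) - (3 * (u + 1) + 0)) - 2 = u + 4 by omega]
    have h0 : (0 : ℤ) < 5520 * (u : ℤ) ^ 0 + 14400 * (u : ℤ) ^ 1 + 14010 * (u : ℤ) ^ 2 + 6735 * (u : ℤ) ^ 3 + 1650 * (u : ℤ) ^ 4 + 165 * (u : ℤ) ^ 5 := by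
      clear h hd
      positivity
    have e1 := choose5 (3 * u + 8)
    have e2 := choose5 (2 * u + 6)
    have e3 := choose5 (u + 4)
    push_cast at e1 e2 e3 ⊢
    have key : 120 * (((3 * u + 8).choose 5 : ℤ) - 17 * ((2 * u + 6).choose 5 : ℤ) +
        136 * ((u + 4).choose 5 : ℤ)) = -(5520 * (u : ℤ) ^ 0 + 14400 * (u : ℤ) ^ 1 + 14010 * (u : ℤ) ^ 2 + 6735 * (u : ℤ) ^ 3 + 1650 * (u : ℤ) ^ 4 + 165 * (u : ℤ) ^ 5) := by
      linear_combination e1 - 17 * e2 + 136 * e3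
    linarith only [key, h0]
  · obtain ⟨u, rfl⟩ : ∃ u, d = 3 * (u + 2) + 1 := ⟨d / 3 - 2, by omega⟩
    rw [show 5 + (3 * (u + 2) + 1) = 3 * u + 12 by ring,
      show 5 + 2 * (3 * (u + 2) + 1) / 3 - 1 = 2 * u + 8 by omega,
      show 5 + (2 * (2 * (3 * (u + 2) + 1) / 3) - (3 * (u + 2) + 1)) - 2 = u + 4 by omega]
    have h0 : (0 : ℤ) < 19200 * (u : ℤ) ^ 0 + 53320 * (u : ℤ) ^ 1 + 45310 * (u : ℤ) ^ 2 + 16655 * (u : ℤ) ^ 3 + 2750 * (u : ℤ) ^ 4 + 165 * (u : ℤ) ^ 5 := by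
      clear h hd
      positivity
    have e1 := choose5 (3 * u + 12)
    have e2 := choose5 (2 * u + 8)
    have e3 := choose5 (u + 4)
    push_cast at e1 e2 e3 ⊢
    have key : 120 * (((3 * u + 12).choose 5 : ℤ) - 17 * ((2 * u + 8).choose 5 : ℤ) +
        136 * ((u + 4).choose 5 : ℤ)) = -(19200 * (u : ℤ) ^ 0 + 53320 * (u : ℤ) ^ 1 + 45310 * (u : ℤ) ^ 2 + 16655 * (u : ℤ) ^ 3 + 2750 * (u : ℤ) ^ 4 + 165 * (u : ℤ) ^ 5) := by
      linear_combination e1 - 17 * e2 + 136 * e3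
    linarith only [key, h0]
  · obtain ⟨u, rfl⟩ : ∃ u, d = 3 * (u + 1) + 2 := ⟨d / 3 - 1, by omega⟩
    rw [show 5 + (3 * (u + 1) + 2) = 3 * u + 10 by ring,
      show 5 + 2 * (3 * (u + 1) + 2) / 3 - 1 = 2 * u + 7 by omega,
      show 5 + (2 * (2 * (3 * (u + 1) + 2) / 3) - (3 * (u + 1) + 2)) - 2 = u + 4 by omega]
    have h0 : (0 : ℤ) < 12600 * (u : ℤ) ^ 0 + 31800 * (u : ℤ) ^ 1 + 28100 * (u : ℤ) ^ 2 + 11415 * (u : ℤ) ^ 3 + 2200 * (u : ℤ) ^ 4 + 165 * (u : ℤ) ^ 5 := by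
      clear h hd
      positivity
    have e1 := choose5 (3 * u + 10)
    have e2 := choose5 (2 * u + 7)
    have e3 := choose5 (u + 4)
    push_cast at e1 e2 e3 ⊢
    have key : 120 * (((3 * u + 10).choose 5 : ℤ) - 17 * ((2 * u + 7).choose 5 : ℤ) +
        136 * ((u + 4).choose 5 : ℤ)) = -(12600 * (u : ℤ) ^ 0 + 31800 * (u : ℤ) ^ 1 + 28100 * (u : ℤ) ^ 2 + 11415 * (u : ℤ) ^ 3 + 2200 * (u : ℤ) ^ 4 + 165 * (u : ℤ) ^ 5) := by
      linear_combination e1 - 17 * e2 + 136 * e3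
    linarith only [key, h0]

theorem all_5_17 {d m : ℕ} (hd : 3 ≤ d) (h2 : d + 2 ≤ 2 * m) (h3 : 2 * d + 3 < 3 * m + 5) :
    ldim 5 d (fun _ : Fin 17 => m) = 0 := by
  rcases Nat.lt_or_ge d 5 with h | h
  · interval_cases d
    · exact ldim_zero (fun _ => 3) (fun _ => by omega) (by
        rw [lvdim_const]
        decide +kernel)
    · exact ldim_zero (fun _ => 3) (fun _ => by omega) (by
        rw [lvdim_const]
        decide +kernel)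
  · exact ldim_zero (fun _ => 2 * d / 3) (fun _ => by omega) (big_5_17 h)

theorem big_5_18 {d : ℕ} (hd : 5 ≤ d) :
    lvdim 5 d (fun _ : Fin 18 => 2 * d / 3) < 0 := by
  rw [lvdim_pairs (by norm_num) (fun c hc hcn => by
    rcases (by omega : c = 3 ∨ c = 4 ∨ c = 5) with rfl | rfl | rfl <;> omega),
    show ((18 : ℕ).choose 2 : ℤ) = 153 by decide +kernel]
  rcases (by omega : d % 3 = 0 ∨ d % 3 = 1 ∨ d % 3 = 2) with h | h | h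
  · obtain ⟨u, rfl⟩ : ∃ u, d = 3 * (u + 1) + 0 := ⟨d / 3 - 1, by omega⟩
    rw [show 5 + (3 * (u + 1) + 0) = 3 * u + 8 by ring,
      show 5 + 2 * (3 * (u + 1) + 0) / 3 - 1 = 2 * u + 6 by omega,
      show 5 + (2 * (2 * (3 * (u + 1) + 0) / 3) - (3 * (u + 1) + 0)) - 2 = u + 4 by omega]
    have h0 : (0 : ℤ) < 6240 * (u : ℤ) ^ 0 + 16080 * (u : ℤ) ^ 1 + 15480 * (u : ℤ) ^ 2 + 7380 * (u : ℤ) ^ 3 + 1800 * (u : ℤ) ^ 4 + 180 * (u : ℤ) ^ 5 := by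
      clear h hd
      positivity
    have e1 := choose5 (3 * u + 8)
    have e2 := choose5 (2 * u + 6)
    have e3 := choose5 (u + 4)
    push_cast at e1 e2 e3 ⊢
    have key : 120 * (((3 * u + 8).choose 5 : ℤ) - 18 * ((2 * u + 6).choose 5 : ℤ) +
        153 * ((u + 4).choose 5 : ℤ)) = -(6240 * (u : ℤ) ^ 0 + 16080 * (u : ℤ) ^ 1 + 15480 * (u : ℤ) ^ 2 + 7380 * (u : ℤ) ^ 3 + 1800 * (u : ℤ) ^ 4 + 180 * (u : ℤ) ^ 5) := by
      linear_combination e1 - 18 * e2 + 153 * e3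
    linarith only [key, h0]
  · obtain ⟨u, rfl⟩ : ∃ u, d = 3 * (u + 2) + 1 := ⟨d / 3 - 2, by omega⟩
    rw [show 5 + (3 * (u + 2) + 1) = 3 * u + 12 by ring,
      show 5 + 2 * (3 * (u + 2) + 1) / 3 - 1 = 2 * u + 8 by omega,
      show 5 + (2 * (2 * (3 * (u + 2) + 1) / 3) - (3 * (u + 2) + 1)) - 2 = u + 4 by omega]
    have h0 : (0 : ℤ) < 25920 * (u : ℤ) ^ 0 + 64800 * (u : ℤ) ^ 1 + 52740 * (u : ℤ) ^ 2 + 18900 * (u : ℤ) ^ 3 + 3060 * (u : ℤ) ^ 4 + 180 * (u : ℤ) ^ 5 := by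
      clear h hd
      positivity
    have e1 := choose5 (3 * u + 12)
    have e2 := choose5 (2 * u + 8)
    have e3 := choose5 (u + 4)
    push_cast at e1 e2 e3 ⊢
    have key : 120 * (((3 * u + 12).choose 5 : ℤ) - 18 * ((2 * u + 8).choose 5 : ℤ) +
        153 * ((u + 4).choose 5 : ℤ)) = -(25920 * (u : ℤ) ^ 0 + 64800 * (u : ℤ) ^ 1 + 52740 * (u : ℤ) ^ 2 + 18900 * (u : ℤ) ^ 3 + 3060 * (u : ℤ) ^ 4 + 180 * (u : ℤ) ^ 5) := by
      linear_combination e1 - 18 * e2 + 153 * e3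
    linarith only [key, h0]
  · obtain ⟨u, rfl⟩ : ∃ u, d = 3 * (u + 1) + 2 := ⟨d / 3 - 1, by omega⟩
    rw [show 5 + (3 * (u + 1) + 2) = 3 * u + 10 by ring,
      show 5 + 2 * (3 * (u + 1) + 2) / 3 - 1 = 2 * u + 7 by omega,
      show 5 + (2 * (2 * (3 * (u + 1) + 2) / 3) - (3 * (u + 1) + 2)) - 2 = u + 4 by omega]
    have h0 : (0 : ℤ) < 15120 * (u : ℤ) ^ 0 + 36900 * (u : ℤ) ^ 1 + 31950 * (u : ℤ) ^ 2 + 12780 * (u : ℤ) ^ 3 + 2430 * (u : ℤ) ^ 4 + 180 * (u : ℤ) ^ 5 := by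
      clear h hd
      positivity
    have e1 := choose5 (3 * u + 10)
    have e2 := choose5 (2 * u + 7)
    have e3 := choose5 (u + 4)
    push_cast at e1 e2 e3 ⊢
    have key : 120 * (((3 * u + 10).choose 5 : ℤ) - 18 * ((2 * u + 7).choose 5 : ℤ) +
        153 * ((u + 4).choose 5 : ℤ)) = -(15120 * (u : ℤ) ^ 0 + 36900 * (u : ℤ) ^ 1 + 31950 * (u : ℤ) ^ 2 + 12780 * (u : ℤ) ^ 3 + 2430 * (u : ℤ) ^ 4 + 180 * (u : ℤ) ^ 5) := by
      linear_combination e1 - 18 * e2 + 153 * e3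
    linarith only [key, h0]

theorem all_5_18 {d m : ℕ} (hd : 3 ≤ d) (h2 : d + 2 ≤ 2 * m) (h3 : 2 * d + 3 < 3 * m + 5) :
    ldim 5 d (fun _ : Fin 18 => m) = 0 := by
  rcases Nat.lt_or_ge d 5 with h | h
  · interval_cases d
    · exact ldim_zero (fun _ => 3) (fun _ => by omega) (by
        rw [lvdim_const]
        decide +kernel)
    · exact ldim_zero (fun _ => 3) (fun _ => by omega) (by
        rw [lvdim_const]
        decide +kernel)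
  · exact ldim_zero (fun _ => 2 * d / 3) (fun _ => by omega) (big_5_18 h)

theorem big_5_19 {d : ℕ} (hd : 5 ≤ d) :
    lvdim 5 d (fun _ : Fin 19 => 2 * d / 3) < 0 := by
  rw [lvdim_pairs (by norm_num) (fun c hc hcn => by
    rcases (by omega : c = 3 ∨ c = 4 ∨ c = 5) with rfl | rfl | rfl <;> omega),
    show ((19 : ℕ).choose 2 : ℤ) = 171 by decide +kernel]
  rcases (by omega : d % 3 = 0 ∨ d % 3 = 1 ∨ d % 3 = 2) with h | h | h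
  · obtain ⟨u, rfl⟩ : ∃ u, d = 3 * (u + 1) + 0 := ⟨d / 3 - 1, by omega⟩
    rw [show 5 + (3 * (u + 1) + 0) = 3 * u + 8 by ring,
      show 5 + 2 * (3 * (u + 1) + 0) / 3 - 1 = 2 * u + 6 by omega,
      show 5 + (2 * (2 * (3 * (u + 1) + 0) / 3) - (3 * (u + 1) + 0)) - 2 = u + 4 by omega]
    have h0 : (0 : ℤ) < 6960 * (u : ℤ) ^ 0 + 17736 * (u : ℤ) ^ 1 + 16900 * (u : ℤ) ^ 2 + 7990 * (u : ℤ) ^ 3 + 1940 * (u : ℤ) ^ 4 + 194 * (u : ℤ) ^ 5 := by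
      clear h hd
      positivity
    have e1 := choose5 (3 * u + 8)
    have e2 := choose5 (2 * u + 6)
    have e3 := choose5 (u + 4)
    push_cast at e1 e2 e3 ⊢
    have key : 120 * (((3 * u + 8).choose 5 : ℤ) - 19 * ((2 * u + 6).choose 5 : ℤ) +
        171 * ((u + 4).choose 5 : ℤ)) = -(6960 * (u : ℤ) ^ 0 + 17736 * (u : ℤ) ^ 1 + 16900 * (u : ℤ) ^ 2 + 7990 * (u : ℤ) ^ 3 + 1940 * (u : ℤ) ^ 4 + 194 * (u : ℤ) ^ 5) := by
      linear_combination e1 - 19 * e2 + 171 * e3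
    linarith only [key, h0]
  · obtain ⟨u, rfl⟩ : ∃ u, d = 3 * (u + 2) + 1 := ⟨d / 3 - 2, by omega⟩
    rw [show 5 + (3 * (u + 2) + 1) = 3 * u + 12 by ring,
      show 5 + 2 * (3 * (u + 2) + 1) / 3 - 1 = 2 * u + 8 by omega,
      show 5 + (2 * (2 * (3 * (u + 2) + 1) / 3) - (3 * (u + 2) + 1)) - 2 = u + 4 by omega]
    have h0 : (0 : ℤ) < 32640 * (u : ℤ) ^ 0 + 76256 * (u : ℤ) ^ 1 + 60120 * (u : ℤ) ^ 2 + 21110 * (u : ℤ) ^ 3 + 3360 * (u : ℤ) ^ 4 + 194 * (u : ℤ) ^ 5 := by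
      clear h hd
      positivity
    have e1 := choose5 (3 * u + 12)
    have e2 := choose5 (2 * u + 8)
    have e3 := choose5 (u + 4)
    push_cast at e1 e2 e3 ⊢
    have key : 120 * (((3 * u + 12).choose 5 : ℤ) - 19 * ((2 * u + 8).choose 5 : ℤ) +
        171 * ((u + 4).choose 5 : ℤ)) = -(32640 * (u : ℤ) ^ 0 + 76256 * (u : ℤ) ^ 1 + 60120 * (u : ℤ) ^ 2 + 21110 * (u : ℤ) ^ 3 + 3360 * (u : ℤ) ^ 4 + 194 * (u : ℤ) ^ 5) := by
      linear_combination e1 - 19 * e2 + 171 * e3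
    linarith only [key, h0]
  · obtain ⟨u, rfl⟩ : ∃ u, d = 3 * (u + 1) + 2 := ⟨d / 3 - 1, by omega⟩
    rw [show 5 + (3 * (u + 1) + 2) = 3 * u + 10 by ring,
      show 5 + 2 * (3 * (u + 1) + 2) / 3 - 1 = 2 * u + 7 by omega,
      show 5 + (2 * (2 * (3 * (u + 1) + 2) / 3) - (3 * (u + 1) + 2)) - 2 = u + 4 by omega]
    have h0 : (0 : ℤ) < 17640 * (u : ℤ) ^ 0 + 41976 * (u : ℤ) ^ 1 + 35750 * (u : ℤ) ^ 2 + 14110 * (u : ℤ) ^ 3 + 2650 * (u : ℤ) ^ 4 + 194 * (u : ℤ) ^ 5 := by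
      clear h hd
      positivity
    have e1 := choose5 (3 * u + 10)
    have e2 := choose5 (2 * u + 7)
    have e3 := choose5 (u + 4)
    push_cast at e1 e2 e3 ⊢
    have key : 120 * (((3 * u + 10).choose 5 : ℤ) - 19 * ((2 * u + 7).choose 5 : ℤ) +
        171 * ((u + 4).choose 5 : ℤ)) = -(17640 * (u : ℤ) ^ 0 + 41976 * (u : ℤ) ^ 1 + 35750 * (u : ℤ) ^ 2 + 14110 * (u : ℤ) ^ 3 + 2650 * (u : ℤ) ^ 4 + 194 * (u : ℤ) ^ 5) := by
      linear_combination e1 - 19 * e2 + 171 * e3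
    linarith only [key, h0]

theorem all_5_19 {d m : ℕ} (hd : 3 ≤ d) (h2 : d + 2 ≤ 2 * m) (h3 : 2 * d + 3 < 3 * m + 5) :
    ldim 5 d (fun _ : Fin 19 => m) = 0 := by
  rcases Nat.lt_or_ge d 5 with h | h
  · interval_cases d
    · exact ldim_zero (fun _ => 3) (fun _ => by omega) (by
        rw [lvdim_const]
        decide +kernel)
    · exact ldim_zero (fun _ => 3) (fun _ => by omega) (by
        rw [lvdim_const]
        decide +kernel)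
  · exact ldim_zero (fun _ => 2 * d / 3) (fun _ => by omega) (big_5_19 h)

theorem big_5_20 {d : ℕ} (hd : 5 ≤ d) :
    lvdim 5 d (fun _ : Fin 20 => 2 * d / 3) < 0 := by
  rw [lvdim_pairs (by norm_num) (fun c hc hcn => by
    rcases (by omega : c = 3 ∨ c = 4 ∨ c = 5) with rfl | rfl | rfl <;> omega),
    show ((20 : ℕ).choose 2 : ℤ) = 190 by decide +kernel]
  rcases (by omega : d % 3 = 0 ∨ d % 3 = 1 ∨ d % 3 = 2) with h | h | h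
  · obtain ⟨u, rfl⟩ : ∃ u, d = 3 * (u + 1) + 0 := ⟨d / 3 - 1, by omega⟩
    rw [show 5 + (3 * (u + 1) + 0) = 3 * u + 8 by ring,
      show 5 + 2 * (3 * (u + 1) + 0) / 3 - 1 = 2 * u + 6 by omega,
      show 5 + (2 * (2 * (3 * (u + 1) + 0) / 3) - (3 * (u + 1) + 0)) - 2 = u + 4 by omega]
    have h0 : (0 : ℤ) < 7680 * (u : ℤ) ^ 0 + 19368 * (u : ℤ) ^ 1 + 18270 * (u : ℤ) ^ 2 + 8565 * (u : ℤ) ^ 3 + 2070 * (u : ℤ) ^ 4 + 207 * (u : ℤ) ^ 5 := by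
      clear h hd
      positivity
    have e1 := choose5 (3 * u + 8)
    have e2 := choose5 (2 * u + 6)
    have e3 := choose5 (u + 4)
    push_cast at e1 e2 e3 ⊢
    have key : 120 * (((3 * u + 8).choose 5 : ℤ) - 20 * ((2 * u + 6).choose 5 : ℤ) +
        190 * ((u + 4).choose 5 : ℤ)) = -(7680 * (u : ℤ) ^ 0 + 19368 * (u : ℤ) ^ 1 + 18270 * (u : ℤ) ^ 2 + 8565 * (u : ℤ) ^ 3 + 2070 * (u : ℤ) ^ 4 + 207 * (u : ℤ) ^ 5) := by
      linear_combination e1 - 20 * e2 + 190 * e3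
    linarith only [key, h0]
  · obtain ⟨u, rfl⟩ : ∃ u, d = 3 * (u + 2) + 1 := ⟨d / 3 - 2, by omega⟩
    rw [show 5 + (3 * (u + 2) + 1) = 3 * u + 12 by ring,
      show 5 + 2 * (3 * (u + 2) + 1) / 3 - 1 = 2 * u + 8 by omega,
      show 5 + (2 * (2 * (3 * (u + 2) + 1) / 3) - (3 * (u + 2) + 1)) - 2 = u + 4 by omega]
    have h0 : (0 : ℤ) < 39360 * (u : ℤ) ^ 0 + 87688 * (u : ℤ) ^ 1 + 67450 * (u : ℤ) ^ 2 + 23285 * (u : ℤ) ^ 3 + 3650 * (u : ℤ) ^ 4 + 207 * (u : ℤ) ^ 5 := by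
      clear h hd
      positivity
    have e1 := choose5 (3 * u + 12)
    have e2 := choose5 (2 * u + 8)
    have e3 := choose5 (u + 4)
    push_cast at e1 e2 e3 ⊢
    have key : 120 * (((3 * u + 12).choose 5 : ℤ) - 20 * ((2 * u + 8).choose 5 : ℤ) +
        190 * ((u + 4).choose 5 : ℤ)) = -(39360 * (u : ℤ) ^ 0 + 87688 * (u : ℤ) ^ 1 + 67450 * (u : ℤ) ^ 2 + 23285 * (u : ℤ) ^ 3 + 3650 * (u : ℤ) ^ 4 + 207 * (u : ℤ) ^ 5) := by
      linear_combination e1 - 20 * e2 + 190 * e3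
    linarith only [key, h0]
  · obtain ⟨u, rfl⟩ : ∃ u, d = 3 * (u + 1) + 2 := ⟨d / 3 - 1, by omega⟩
    rw [show 5 + (3 * (u + 1) + 2) = 3 * u + 10 by ring,
      show 5 + 2 * (3 * (u + 1) + 2) / 3 - 1 = 2 * u + 7 by omega,
      show 5 + (2 * (2 * (3 * (u + 1) + 2) / 3) - (3 * (u + 1) + 2)) - 2 = u + 4 by omega]
    have h0 : (0 : ℤ) < 20160 * (u : ℤ) ^ 0 + 47028 * (u : ℤ) ^ 1 + 39500 * (u : ℤ) ^ 2 + 15405 * (u : ℤ) ^ 3 + 2860 * (u : ℤ) ^ 4 + 207 * (u : ℤ) ^ 5 := by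
      clear h hd
      positivity
    have e1 := choose5 (3 * u + 10)
    have e2 := choose5 (2 * u + 7)
    have e3 := choose5 (u + 4)
    push_cast at e1 e2 e3 ⊢
    have key : 120 * (((3 * u + 10).choose 5 : ℤ) - 20 * ((2 * u + 7).choose 5 : ℤ) +
        190 * ((u + 4).choose 5 : ℤ)) = -(20160 * (u : ℤ) ^ 0 + 47028 * (u : ℤ) ^ 1 + 39500 * (u : ℤ) ^ 2 + 15405 * (u : ℤ) ^ 3 + 2860 * (u : ℤ) ^ 4 + 207 * (u : ℤ) ^ 5) := by
      linear_combination e1 - 20 * e2 + 190 * e3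
    linarith only [key, h0]

theorem all_5_20 {d m : ℕ} (hd : 3 ≤ d) (h2 : d + 2 ≤ 2 * m) (h3 : 2 * d + 3 < 3 * m + 5) :
    ldim 5 d (fun _ : Fin 20 => m) = 0 := by
  rcases Nat.lt_or_ge d 5 with h | h
  · interval_cases d
    · exact ldim_zero (fun _ => 3) (fun _ => by omega) (by
        rw [lvdim_const]
        decide +kernel)
    · exact ldim_zero (fun _ => 3) (fun _ => by omega) (by
        rw [lvdim_const]
        decide +kernel)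
  · exact ldim_zero (fun _ => 2 * d / 3) (fun _ => by omega) (big_5_20 h)

theorem big_5_21 {d : ℕ} (hd : 5 ≤ d) :
    lvdim 5 d (fun _ : Fin 21 => 2 * d / 3) < 0 := by
  rw [lvdim_pairs (by norm_num) (fun c hc hcn => by
    rcases (by omega : c = 3 ∨ c = 4 ∨ c = 5) with rfl | rfl | rfl <;> omega),
    show ((21 : ℕ).choose 2 : ℤ) = 210 by decide +kernel]
  rcases (by omega : d % 3 = 0 ∨ d % 3 = 1 ∨ d % 3 = 2) with h | h | h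
  · obtain ⟨u, rfl⟩ : ∃ u, d = 3 * (u + 1) + 0 := ⟨d / 3 - 1, by omega⟩
    rw [show 5 + (3 * (u + 1) + 0) = 3 * u + 8 by ring,
      show 5 + 2 * (3 * (u + 1) + 0) / 3 - 1 = 2 * u + 6 by omega,
      show 5 + (2 * (2 * (3 * (u + 1) + 0) / 3) - (3 * (u + 1) + 0)) - 2 = u + 4 by omega]
    have h0 : (0 : ℤ) < 8400 * (u : ℤ) ^ 0 + 20976 * (u : ℤ) ^ 1 + 19590 * (u : ℤ) ^ 2 + 9105 * (u : ℤ) ^ 3 + 2190 * (u : ℤ) ^ 4 + 219 * (u : ℤ) ^ 5 := by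
      clear h hd
      positivity
    have e1 := choose5 (3 * u + 8)
    have e2 := choose5 (2 * u + 6)
    have e3 := choose5 (u + 4)
    push_cast at e1 e2 e3 ⊢
    have key : 120 * (((3 * u + 8).choose 5 : ℤ) - 21 * ((2 * u + 6).choose 5 : ℤ) +
        210 * ((u + 4).choose 5 : ℤ)) = -(8400 * (u : ℤ) ^ 0 + 20976 * (u : ℤ) ^ 1 + 19590 * (u : ℤ) ^ 2 + 9105 * (u : ℤ) ^ 3 + 2190 * (u : ℤ) ^ 4 + 219 * (u : ℤ) ^ 5) := by
      linear_combination e1 - 21 * e2 + 210 * e3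
    linarith only [key, h0]
  · obtain ⟨u, rfl⟩ : ∃ u, d = 3 * (u + 2) + 1 := ⟨d / 3 - 2, by omega⟩
    rw [show 5 + (3 * (u + 2) + 1) = 3 * u + 12 by ring,
      show 5 + 2 * (3 * (u + 2) + 1) / 3 - 1 = 2 * u + 8 by omega,
      show 5 + (2 * (2 * (3 * (u + 2) + 1) / 3) - (3 * (u + 2) + 1)) - 2 = u + 4 by omega]
    have h0 : (0 : ℤ) < 46080 * (u : ℤ) ^ 0 + 99096 * (u : ℤ) ^ 1 + 74730 * (u : ℤ) ^ 2 + 25425 * (u : ℤ) ^ 3 + 3930 * (u : ℤ) ^ 4 + 219 * (u : ℤ) ^ 5 := by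
      clear h hd
      positivity
    have e1 := choose5 (3 * u + 12)
    have e2 := choose5 (2 * u + 8)
    have e3 := choose5 (u + 4)
    push_cast at e1 e2 e3 ⊢
    have key : 120 * (((3 * u + 12).choose 5 : ℤ) - 21 * ((2 * u + 8).choose 5 : ℤ) +
        210 * ((u + 4).choose 5 : ℤ)) = -(46080 * (u : ℤ) ^ 0 + 99096 * (u : ℤ) ^ 1 + 74730 * (u : ℤ) ^ 2 + 25425 * (u : ℤ) ^ 3 + 3930 * (u : ℤ) ^ 4 + 219 * (u : ℤ) ^ 5) := by
      linear_combination e1 - 21 * e2 + 210 * e3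
    linarith only [key, h0]
  · obtain ⟨u, rfl⟩ : ∃ u, d = 3 * (u + 1) + 2 := ⟨d / 3 - 1, by omega⟩
    rw [show 5 + (3 * (u + 1) + 2) = 3 * u + 10 by ring,
      show 5 + 2 * (3 * (u + 1) + 2) / 3 - 1 = 2 * u + 7 by omega,
      show 5 + (2 * (2 * (3 * (u + 1) + 2) / 3) - (3 * (u + 1) + 2)) - 2 = u + 4 by omega]
    have h0 : (0 : ℤ) < 22680 * (u : ℤ) ^ 0 + 52056 * (u : ℤ) ^ 1 + 43200 * (u : ℤ) ^ 2 + 16665 * (u : ℤ) ^ 3 + 3060 * (u : ℤ) ^ 4 + 219 * (u : ℤ) ^ 5 := by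
      clear h hd
      positivity
    have e1 := choose5 (3 * u + 10)
    have e2 := choose5 (2 * u + 7)
    have e3 := choose5 (u + 4)
    push_cast at e1 e2 e3 ⊢
    have key : 120 * (((3 * u + 10).choose 5 : ℤ) - 21 * ((2 * u + 7).choose 5 : ℤ) +
        210 * ((u + 4).choose 5 : ℤ)) = -(22680 * (u : ℤ) ^ 0 + 52056 * (u : ℤ) ^ 1 + 43200 * (u : ℤ) ^ 2 + 16665 * (u : ℤ) ^ 3 + 3060 * (u : ℤ) ^ 4 + 219 * (u : ℤ) ^ 5) := by
      linear_combination e1 - 21 * e2 + 210 * e3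
    linarith only [key, h0]

theorem all_5_21 {d m : ℕ} (hd : 3 ≤ d) (h2 : d + 2 ≤ 2 * m) (h3 : 2 * d + 3 < 3 * m + 5) :
    ldim 5 d (fun _ : Fin 21 => m) = 0 := by
  rcases Nat.lt_or_ge d 5 with h | h
  · interval_cases d
    · exact ldim_zero (fun _ => 3) (fun _ => by omega) (by
        rw [lvdim_const]
        decide +kernel)
    · exact ldim_zero (fun _ => 3) (fun _ => by omega) (by
        rw [lvdim_const]
        decide +kernel)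
  · exact ldim_zero (fun _ => 2 * d / 3) (fun _ => by omega) (big_5_21 h)

theorem big_5_22 {d : ℕ} (hd : 3 ≤ d) :
    lvdim 5 d (fun _ : Fin 22 => 2 * d / 3) < 0 := by
  rw [lvdim_pairs (by norm_num) (fun c hc hcn => by
    rcases (by omega : c = 3 ∨ c = 4 ∨ c = 5) with rfl | rfl | rfl <;> omega),
    show ((22 : ℕ).choose 2 : ℤ) = 231 by decide +kernel]
  rcases (by omega : d % 3 = 0 ∨ d % 3 = 1 ∨ d % 3 = 2) with h | h | h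
  · obtain ⟨u, rfl⟩ : ∃ u, d = 3 * (u + 1) + 0 := ⟨d / 3 - 1, by omega⟩
    rw [show 5 + (3 * (u + 1) + 0) = 3 * u + 8 by ring,
      show 5 + 2 * (3 * (u + 1) + 0) / 3 - 1 = 2 * u + 6 by omega,
      show 5 + (2 * (2 * (3 * (u + 1) + 0) / 3) - (3 * (u + 1) + 0)) - 2 = u + 4 by omega]
    have h0 : (0 : ℤ) < 9120 * (u : ℤ) ^ 0 + 22560 * (u : ℤ) ^ 1 + 20860 * (u : ℤ) ^ 2 + 9610 * (u : ℤ) ^ 3 + 2300 * (u : ℤ) ^ 4 + 230 * (u : ℤ) ^ 5 := by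
      clear h hd
      positivity
    have e1 := choose5 (3 * u + 8)
    have e2 := choose5 (2 * u + 6)
    have e3 := choose5 (u + 4)
    push_cast at e1 e2 e3 ⊢
    have key : 120 * (((3 * u + 8).choose 5 : ℤ) - 22 * ((2 * u + 6).choose 5 : ℤ) +
        231 * ((u + 4).choose 5 : ℤ)) = -(9120 * (u : ℤ) ^ 0 + 22560 * (u : ℤ) ^ 1 + 20860 * (u : ℤ) ^ 2 + 9610 * (u : ℤ) ^ 3 + 2300 * (u : ℤ) ^ 4 + 230 * (u : ℤ) ^ 5) := by
      linear_combination e1 - 22 * e2 + 231 * e3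
    linarith only [key, h0]
  · obtain ⟨u, rfl⟩ : ∃ u, d = 3 * (u + 1) + 1 := ⟨d / 3 - 1, by omega⟩
    rw [show 5 + (3 * (u + 1) + 1) = 3 * u + 9 by ring,
      show 5 + 2 * (3 * (u + 1) + 1) / 3 - 1 = 2 * u + 6 by omega,
      show 5 + (2 * (2 * (3 * (u + 1) + 1) / 3) - (3 * (u + 1) + 1)) - 2 = u + 3 by omega]
    have h0 : (0 : ℤ) < 720 * (u : ℤ) ^ 0 + 13500 * (u : ℤ) ^ 1 + 22270 * (u : ℤ) ^ 2 + 13030 * (u : ℤ) ^ 3 + 3050 * (u : ℤ) ^ 4 + 230 * (u : ℤ) ^ 5 := by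
      clear h hd
      positivity
    have e1 := choose5 (3 * u + 9)
    have e2 := choose5 (2 * u + 6)
    have e3 := choose5 (u + 3)
    push_cast at e1 e2 e3 ⊢
    have key : 120 * (((3 * u + 9).choose 5 : ℤ) - 22 * ((2 * u + 6).choose 5 : ℤ) +
        231 * ((u + 3).choose 5 : ℤ)) = -(720 * (u : ℤ) ^ 0 + 13500 * (u : ℤ) ^ 1 + 22270 * (u : ℤ) ^ 2 + 13030 * (u : ℤ) ^ 3 + 3050 * (u : ℤ) ^ 4 + 230 * (u : ℤ) ^ 5) := by
      linear_combination e1 - 22 * e2 + 231 * e3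
    linarith only [key, h0]
  · obtain ⟨u, rfl⟩ : ∃ u, d = 3 * (u + 1) + 2 := ⟨d / 3 - 1, by omega⟩
    rw [show 5 + (3 * (u + 1) + 2) = 3 * u + 10 by ring,
      show 5 + 2 * (3 * (u + 1) + 2) / 3 - 1 = 2 * u + 7 by omega,
      show 5 + (2 * (2 * (3 * (u + 1) + 2) / 3) - (3 * (u + 1) + 2)) - 2 = u + 4 by omega]
    have h0 : (0 : ℤ) < 25200 * (u : ℤ) ^ 0 + 57060 * (u : ℤ) ^ 1 + 46850 * (u : ℤ) ^ 2 + 17890 * (u : ℤ) ^ 3 + 3250 * (u : ℤ) ^ 4 + 230 * (u : ℤ) ^ 5 := by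
      clear h hd
      positivity
    have e1 := choose5 (3 * u + 10)
    have e2 := choose5 (2 * u + 7)
    have e3 := choose5 (u + 4)
    push_cast at e1 e2 e3 ⊢
    have key : 120 * (((3 * u + 10).choose 5 : ℤ) - 22 * ((2 * u + 7).choose 5 : ℤ) +
        231 * ((u + 4).choose 5 : ℤ)) = -(25200 * (u : ℤ) ^ 0 + 57060 * (u : ℤ) ^ 1 + 46850 * (u : ℤ) ^ 2 + 17890 * (u : ℤ) ^ 3 + 3250 * (u : ℤ) ^ 4 + 230 * (u : ℤ) ^ 5) := by
      linear_combination e1 - 22 * e2 + 231 * e3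
    linarith only [key, h0]

theorem all_5_22 {d m : ℕ} (hd : 3 ≤ d) (h2 : d + 2 ≤ 2 * m) (h3 : 2 * d + 3 < 3 * m + 5) :
    ldim 5 d (fun _ : Fin 22 => m) = 0 := by
  exact ldim_zero (fun _ => 2 * d / 3) (fun _ => by omega) (big_5_22 hd)

theorem big_5_23 {d : ℕ} (hd : 3 ≤ d) :
    lvdim 5 d (fun _ : Fin 23 => 2 * d / 3) < 0 := by
  rw [lvdim_pairs (by norm_num) (fun c hc hcn => by
    rcases (by omega : c = 3 ∨ c = 4 ∨ c = 5) with rfl | rfl | rfl <;> omega),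
    show ((23 : ℕ).choose 2 : ℤ) = 253 by decide +kernel]
  rcases (by omega : d % 3 = 0 ∨ d % 3 = 1 ∨ d % 3 = 2) with h | h | h
  · obtain ⟨u, rfl⟩ : ∃ u, d = 3 * (u + 1) + 0 := ⟨d / 3 - 1, by omega⟩
    rw [show 5 + (3 * (u + 1) + 0) = 3 * u + 8 by ring,
      show 5 + 2 * (3 * (u + 1) + 0) / 3 - 1 = 2 * u + 6 by omega,
      show 5 + (2 * (2 * (3 * (u + 1) + 0) / 3) - (3 * (u + 1) + 0)) - 2 = u + 4 by omega]
    have h0 : (0 : ℤ) < 9840 * (u : ℤ) ^ 0 + 24120 * (u : ℤ) ^ 1 + 22080 * (u : ℤ) ^ 2 + 10080 * (u : ℤ) ^ 3 + 2400 * (u : ℤ) ^ 4 + 240 * (u : ℤ) ^ 5 := by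
      clear h hd
      positivity
    have e1 := choose5 (3 * u + 8)
    have e2 := choose5 (2 * u + 6)
    have e3 := choose5 (u + 4)
    push_cast at e1 e2 e3 ⊢
    have key : 120 * (((3 * u + 8).choose 5 : ℤ) - 23 * ((2 * u + 6).choose 5 : ℤ) +
        253 * ((u + 4).choose 5 : ℤ)) = -(9840 * (u : ℤ) ^ 0 + 24120 * (u : ℤ) ^ 1 + 22080 * (u : ℤ) ^ 2 + 10080 * (u : ℤ) ^ 3 + 2400 * (u : ℤ) ^ 4 + 240 * (u : ℤ) ^ 5) := by
      linear_combination e1 - 23 * e2 + 253 * e3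
    linarith only [key, h0]
  · obtain ⟨u, rfl⟩ : ∃ u, d = 3 * (u + 1) + 1 := ⟨d / 3 - 1, by omega⟩
    rw [show 5 + (3 * (u + 1) + 1) = 3 * u + 9 by ring,
      show 5 + 2 * (3 * (u + 1) + 1) / 3 - 1 = 2 * u + 6 by omega,
      show 5 + (2 * (2 * (3 * (u + 1) + 1) / 3) - (3 * (u + 1) + 1)) - 2 = u + 3 by omega]
    have h0 : (0 : ℤ) < 1440 * (u : ℤ) ^ 0 + 15720 * (u : ℤ) ^ 1 + 24700 * (u : ℤ) ^ 2 + 14160 * (u : ℤ) ^ 3 + 3260 * (u : ℤ) ^ 4 + 240 * (u : ℤ) ^ 5 := by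
      clear h hd
      positivity
    have e1 := choose5 (3 * u + 9)
    have e2 := choose5 (2 * u + 6)
    have e3 := choose5 (u + 3)
    push_cast at e1 e2 e3 ⊢
    have key : 120 * (((3 * u + 9).choose 5 : ℤ) - 23 * ((2 * u + 6).choose 5 : ℤ) +
        253 * ((u + 3).choose 5 : ℤ)) = -(1440 * (u : ℤ) ^ 0 + 15720 * (u : ℤ) ^ 1 + 24700 * (u : ℤ) ^ 2 + 14160 * (u : ℤ) ^ 3 + 3260 * (u : ℤ) ^ 4 + 240 * (u : ℤ) ^ 5) := by
      linear_combination e1 - 23 * e2 + 253 * e3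
    linarith only [key, h0]
  · obtain ⟨u, rfl⟩ : ∃ u, d = 3 * (u + 1) + 2 := ⟨d / 3 - 1, by omega⟩
    rw [show 5 + (3 * (u + 1) + 2) = 3 * u + 10 by ring,
      show 5 + 2 * (3 * (u + 1) + 2) / 3 - 1 = 2 * u + 7 by omega,
      show 5 + (2 * (2 * (3 * (u + 1) + 2) / 3) - (3 * (u + 1) + 2)) - 2 = u + 4 by omega]
    have h0 : (0 : ℤ) < 27720 * (u : ℤ) ^ 0 + 62040 * (u : ℤ) ^ 1 + 50450 * (u : ℤ) ^ 2 + 19080 * (u : ℤ) ^ 3 + 3430 * (u : ℤ) ^ 4 + 240 * (u : ℤ) ^ 5 := by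
      clear h hd
      positivity
    have e1 := choose5 (3 * u + 10)
    have e2 := choose5 (2 * u + 7)
    have e3 := choose5 (u + 4)
    push_cast at e1 e2 e3 ⊢
    have key : 120 * (((3 * u + 10).choose 5 : ℤ) - 23 * ((2 * u + 7).choose 5 : ℤ) +
        253 * ((u + 4).choose 5 : ℤ)) = -(27720 * (u : ℤ) ^ 0 + 62040 * (u : ℤ) ^ 1 + 50450 * (u : ℤ) ^ 2 + 19080 * (u : ℤ) ^ 3 + 3430 * (u : ℤ) ^ 4 + 240 * (u : ℤ) ^ 5) := by
      linear_combination e1 - 23 * e2 + 253 * e3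
    linarith only [key, h0]

theorem all_5_23 {d m : ℕ} (hd : 3 ≤ d) (h2 : d + 2 ≤ 2 * m) (h3 : 2 * d + 3 < 3 * m + 5) :
    ldim 5 d (fun _ : Fin 23 => m) = 0 := by
  exact ldim_zero (fun _ => 2 * d / 3) (fun _ => by omega) (big_5_23 hd)

theorem big_5_24 {d : ℕ} (hd : 3 ≤ d) :
    lvdim 5 d (fun _ : Fin 24 => 2 * d / 3) < 0 := by
  rw [lvdim_pairs (by norm_num) (fun c hc hcn => by
    rcases (by omega : c = 3 ∨ c = 4 ∨ c = 5) with rfl | rfl | rfl <;> omega),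
    show ((24 : ℕ).choose 2 : ℤ) = 276 by decide +kernel]
  rcases (by omega : d % 3 = 0 ∨ d % 3 = 1 ∨ d % 3 = 2) with h | h | h
  · obtain ⟨u, rfl⟩ : ∃ u, d = 3 * (u + 1) + 0 := ⟨d / 3 - 1, by omega⟩
    rw [show 5 + (3 * (u + 1) + 0) = 3 * u + 8 by ring,
      show 5 + 2 * (3 * (u + 1) + 0) / 3 - 1 = 2 * u + 6 by omega,
      show 5 + (2 * (2 * (3 * (u + 1) + 0) / 3) - (3 * (u + 1) + 0)) - 2 = u + 4 by omega]
    have h0 : (0 : ℤ) < 10560 * (u : ℤ) ^ 0 + 25656 * (u : ℤ) ^ 1 + 23250 * (u : ℤ) ^ 2 + 10515 * (u : ℤ) ^ 3 + 2490 * (u : ℤ) ^ 4 + 249 * (u : ℤ) ^ 5 := by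
      clear h hd
      positivity
    have e1 := choose5 (3 * u + 8)
    have e2 := choose5 (2 * u + 6)
    have e3 := choose5 (u + 4)
    push_cast at e1 e2 e3 ⊢
    have key : 120 * (((3 * u + 8).choose 5 : ℤ) - 24 * ((2 * u + 6).choose 5 : ℤ) +
        276 * ((u + 4).choose 5 : ℤ)) = -(10560 * (u : ℤ) ^ 0 + 25656 * (u : ℤ) ^ 1 + 23250 * (u : ℤ) ^ 2 + 10515 * (u : ℤ) ^ 3 + 2490 * (u : ℤ) ^ 4 + 249 * (u : ℤ) ^ 5) := by
      linear_combination e1 - 24 * e2 + 276 * e3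
    linarith only [key, h0]
  · obtain ⟨u, rfl⟩ : ∃ u, d = 3 * (u + 1) + 1 := ⟨d / 3 - 1, by omega⟩
    rw [show 5 + (3 * (u + 1) + 1) = 3 * u + 9 by ring,
      show 5 + 2 * (3 * (u + 1) + 1) / 3 - 1 = 2 * u + 6 by omega,
      show 5 + (2 * (2 * (3 * (u + 1) + 1) / 3) - (3 * (u + 1) + 1)) - 2 = u + 3 by omega]
    have h0 : (0 : ℤ) < 2160 * (u : ℤ) ^ 0 + 17946 * (u : ℤ) ^ 1 + 27135 * (u : ℤ) ^ 2 + 15285 * (u : ℤ) ^ 3 + 3465 * (u : ℤ) ^ 4 + 249 * (u : ℤ) ^ 5 := by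
      clear h hd
      positivity
    have e1 := choose5 (3 * u + 9)
    have e2 := choose5 (2 * u + 6)
    have e3 := choose5 (u + 3)
    push_cast at e1 e2 e3 ⊢
    have key : 120 * (((3 * u + 9).choose 5 : ℤ) - 24 * ((2 * u + 6).choose 5 : ℤ) +
        276 * ((u + 3).choose 5 : ℤ)) = -(2160 * (u : ℤ) ^ 0 + 17946 * (u : ℤ) ^ 1 + 27135 * (u : ℤ) ^ 2 + 15285 * (u : ℤ) ^ 3 + 3465 * (u : ℤ) ^ 4 + 249 * (u : ℤ) ^ 5) := by
      linear_combination e1 - 24 * e2 + 276 * e3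
    linarith only [key, h0]
  · obtain ⟨u, rfl⟩ : ∃ u, d = 3 * (u + 1) + 2 := ⟨d / 3 - 1, by omega⟩
    rw [show 5 + (3 * (u + 1) + 2) = 3 * u + 10 by ring,
      show 5 + 2 * (3 * (u + 1) + 2) / 3 - 1 = 2 * u + 7 by omega,
      show 5 + (2 * (2 * (3 * (u + 1) + 2) / 3) - (3 * (u + 1) + 2)) - 2 = u + 4 by omega]
    have h0 : (0 : ℤ) < 30240 * (u : ℤ) ^ 0 + 66996 * (u : ℤ) ^ 1 + 54000 * (u : ℤ) ^ 2 + 20235 * (u : ℤ) ^ 3 + 3600 * (u : ℤ) ^ 4 + 249 * (u : ℤ) ^ 5 := by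
      clear h hd
      positivity
    have e1 := choose5 (3 * u + 10)
    have e2 := choose5 (2 * u + 7)
    have e3 := choose5 (u + 4)
    push_cast at e1 e2 e3 ⊢
    have key : 120 * (((3 * u + 10).choose 5 : ℤ) - 24 * ((2 * u + 7).choose 5 : ℤ) +
        276 * ((u + 4).choose 5 : ℤ)) = -(30240 * (u : ℤ) ^ 0 + 66996 * (u : ℤ) ^ 1 + 54000 * (u : ℤ) ^ 2 + 20235 * (u : ℤ) ^ 3 + 3600 * (u : ℤ) ^ 4 + 249 * (u : ℤ) ^ 5) := by
      linear_combination e1 - 24 * e2 + 276 * e3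
    linarith only [key, h0]

theorem all_5_24 {d m : ℕ} (hd : 3 ≤ d) (h2 : d + 2 ≤ 2 * m) (h3 : 2 * d + 3 < 3 * m + 5) :
    ldim 5 d (fun _ : Fin 24 => m) = 0 := by
  exact ldim_zero (fun _ => 2 * d / 3) (fun _ => by omega) (big_5_24 hd)

end Pool.Agent.TH142.WF
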