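import Pool.Agent.TH142.WF.Three

set_option autoImplicit false
set_option maxHeartbeats 4000000

/-!
# Empty systems in low dimension
-/

namespace Pool.Agent.TH142.WF

theorem big_5_25 {d : ℕ} (hd : 3 ≤ d) :
    lvdim 5 d (fun _ : Fin 25 => 2 * d / 3) < 0 := by
  rw [lvdim_pairs (by norm_num) (fun c hc hcn => by
    rcases (by omega : c = 3 ∨ c = 4 ∨ c = 5) with rfl | rfl | rfl <;> omega),
    show ((25 : ℕ).choose 2 : ℤ) = 300 by decide +kernel]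
  rcases (by omega : d % 3 = 0 ∨ d % 3 = 1 ∨ d % 3 = 2) with h | h | h
  · obtain ⟨u, rfl⟩ : ∃ u, d = 3 * (u + 1) + 0 := ⟨d / 3 - 1, by omega⟩
    rw [show 5 + (3 * (u + 1) + 0) = 3 * u + 8 by ring,
      show 5 + 2 * (3 * (u + 1) + 0) / 3 - 1 = 2 * u + 6 by omega,
      show 5 + (2 * (2 * (3 * (u + 1) + 0) / 3) - (3 * (u + 1) + 0)) - 2 = u + 4 by omega]
    have h0 : (0 : ℤ) < 11280 * (u : ℤ) ^ 0 + 27168 * (u : ℤ) ^ 1 + 24370 * (u : ℤ) ^ 2 + 10915 * (u : ℤ) ^ 3 + 2570 * (u : ℤ) ^ 4 + 257 * (u : ℤ) ^ 5 := by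
      clear h hd
      positivity
    have e1 := choose5 (3 * u + 8)
    have e2 := choose5 (2 * u + 6)
    have e3 := choose5 (u + 4)
    push_cast at e1 e2 e3 ⊢
    have key : 120 * (((3 * u + 8).choose 5 : ℤ) - 25 * ((2 * u + 6).choose 5 : ℤ) +
        300 * ((u + 4).choose 5 : ℤ)) = -(11280 * (u : ℤ) ^ 0 + 27168 * (u : ℤ) ^ 1 + 24370 * (u : ℤ) ^ 2 + 10915 * (u : ℤ) ^ 3 + 2570 * (u : ℤ) ^ 4 + 257 * (u : ℤ) ^ 5) := by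
      linear_combination e1 - 25 * e2 + 300 * e3
    linarith only [key, h0]
  · obtain ⟨u, rfl⟩ : ∃ u, d = 3 * (u + 1) + 1 := ⟨d / 3 - 1, by omega⟩
    rw [show 5 + (3 * (u + 1) + 1) = 3 * u + 9 by ring,
      show 5 + 2 * (3 * (u + 1) + 1) / 3 - 1 = 2 * u + 6 by omega,
      show 5 + (2 * (2 * (3 * (u + 1) + 1) / 3) - (3 * (u + 1) + 1)) - 2 = u + 3 by omega]
    have h0 : (0 : ℤ) < 2880 * (u : ℤ) ^ 0 + 20178 * (u : ℤ) ^ 1 + 29575 * (u : ℤ) ^ 2 + 16405 * (u : ℤ) ^ 3 + 3665 * (u : ℤ) ^ 4 + 257 * (u : ℤ) ^ 5 := by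
      clear h hd
      positivity
    have e1 := choose5 (3 * u + 9)
    have e2 := choose5 (2 * u + 6)
    have e3 := choose5 (u + 3)
    push_cast at e1 e2 e3 ⊢
    have key : 120 * (((3 * u + 9).choose 5 : ℤ) - 25 * ((2 * u + 6).choose 5 : ℤ) +
        300 * ((u + 3).choose 5 : ℤ)) = -(2880 * (u : ℤ) ^ 0 + 20178 * (u : ℤ) ^ 1 + 29575 * (u : ℤ) ^ 2 + 16405 * (u : ℤ) ^ 3 + 3665 * (u : ℤ) ^ 4 + 257 * (u : ℤ) ^ 5) := by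
      linear_combination e1 - 25 * e2 + 300 * e3
    linarith only [key, h0]
  · obtain ⟨u, rfl⟩ : ∃ u, d = 3 * (u + 1) + 2 := ⟨d / 3 - 1, by omega⟩
    rw [show 5 + (3 * (u + 1) + 2) = 3 * u + 10 by ring,
      show 5 + 2 * (3 * (u + 1) + 2) / 3 - 1 = 2 * u + 7 by omega,
      show 5 + (2 * (2 * (3 * (u + 1) + 2) / 3) - (3 * (u + 1) + 2)) - 2 = u + 4 by omega]
    have h0 : (0 : ℤ) < 32760 * (u : ℤ) ^ 0 + 71928 * (u : ℤ) ^ 1 + 57500 * (u : ℤ) ^ 2 + 21355 * (u : ℤ) ^ 3 + 3760 * (u : ℤ) ^ 4 + 257 * (u : ℤ) ^ 5 := by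
      clear h hd
      positivity
    have e1 := choose5 (3 * u + 10)
    have e2 := choose5 (2 * u + 7)
    have e3 := choose5 (u + 4)
    push_cast at e1 e2 e3 ⊢
    have key : 120 * (((3 * u + 10).choose 5 : ℤ) - 25 * ((2 * u + 7).choose 5 : ℤ) +
        300 * ((u + 4).choose 5 : ℤ)) = -(32760 * (u : ℤ) ^ 0 + 71928 * (u : ℤ) ^ 1 + 57500 * (u : ℤ) ^ 2 + 21355 * (u : ℤ) ^ 3 + 3760 * (u : ℤ) ^ 4 + 257 * (u : ℤ) ^ 5) := by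
      linear_combination e1 - 25 * e2 + 300 * e3
    linarith only [key, h0]

theorem all_5_25 {d m : ℕ} (hd : 3 ≤ d) (h2 : d + 2 ≤ 2 * m) (h3 : 2 * d + 3 < 3 * m + 5) :
    ldim 5 d (fun _ : Fin 25 => m) = 0 := by
  exact ldim_zero (fun _ => 2 * d / 3) (fun _ => by omega) (big_5_25 hd)

theorem big_5_26 {d : ℕ} (hd : 3 ≤ d) :
    lvdim 5 d (fun _ : Fin 26 => 2 * d / 3) < 0 := by
  rw [lvdim_pairs (by norm_num) (fun c hc hcn => by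
    rcases (by omega : c = 3 ∨ c = 4 ∨ c = 5) with rfl | rfl | rfl <;> omega),
    show ((26 : ℕ).choose 2 : ℤ) = 325 by decide +kernel]
  rcases (by omega : d % 3 = 0 ∨ d % 3 = 1 ∨ d % 3 = 2) with h | h | h
  · obtain ⟨u, rfl⟩ : ∃ u, d = 3 * (u + 1) + 0 := ⟨d / 3 - 1, by omega⟩
    rw [show 5 + (3 * (u + 1) + 0) = 3 * u + 8 by ring,
      show 5 + 2 * (3 * (u + 1) + 0) / 3 - 1 = 2 * u + 6 by omega,
      show 5 + (2 * (2 * (3 * (u + 1) + 0) / 3) - (3 * (u + 1) + 0)) - 2 = u + 4 by omega]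
    have h0 : (0 : ℤ) < 12000 * (u : ℤ) ^ 0 + 28656 * (u : ℤ) ^ 1 + 25440 * (u : ℤ) ^ 2 + 11280 * (u : ℤ) ^ 3 + 2640 * (u : ℤ) ^ 4 + 264 * (u : ℤ) ^ 5 := by
      clear h hd
      positivity
    have e1 := choose5 (3 * u + 8)
    have e2 := choose5 (2 * u + 6)
    have e3 := choose5 (u + 4)
    push_cast at e1 e2 e3 ⊢
    have key : 120 * (((3 * u + 8).choose 5 : ℤ) - 26 * ((2 * u + 6).choose 5 : ℤ) +
        325 * ((u + 4).choose 5 : ℤ)) = -(12000 * (u : ℤ) ^ 0 + 28656 * (u : ℤ) ^ 1 + 25440 * (u : ℤ) ^ 2 + 11280 * (u : ℤ) ^ 3 + 2640 * (u : ℤ) ^ 4 + 264 * (u : ℤ) ^ 5) := by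
      linear_combination e1 - 26 * e2 + 325 * e3
    linarith only [key, h0]
  · obtain ⟨u, rfl⟩ : ∃ u, d = 3 * (u + 1) + 1 := ⟨d / 3 - 1, by omega⟩
    rw [show 5 + (3 * (u + 1) + 1) = 3 * u + 9 by ring,
      show 5 + 2 * (3 * (u + 1) + 1) / 3 - 1 = 2 * u + 6 by omega,
      show 5 + (2 * (2 * (3 * (u + 1) + 1) / 3) - (3 * (u + 1) + 1)) - 2 = u + 3 by omega]
    have h0 : (0 : ℤ) < 3600 * (u : ℤ) ^ 0 + 22416 * (u : ℤ) ^ 1 + 32020 * (u : ℤ) ^ 2 + 17520 * (u : ℤ) ^ 3 + 3860 * (u : ℤ) ^ 4 + 264 * (u : ℤ) ^ 5 := by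
      clear h hd
      positivity
    have e1 := choose5 (3 * u + 9)
    have e2 := choose5 (2 * u + 6)
    have e3 := choose5 (u + 3)
    push_cast at e1 e2 e3 ⊢
    have key : 120 * (((3 * u + 9).choose 5 : ℤ) - 26 * ((2 * u + 6).choose 5 : ℤ) +
        325 * ((u + 3).choose 5 : ℤ)) = -(3600 * (u : ℤ) ^ 0 + 22416 * (u : ℤ) ^ 1 + 32020 * (u : ℤ) ^ 2 + 17520 * (u : ℤ) ^ 3 + 3860 * (u : ℤ) ^ 4 + 264 * (u : ℤ) ^ 5) := by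
      linear_combination e1 - 26 * e2 + 325 * e3
    linarith only [key, h0]
  · obtain ⟨u, rfl⟩ : ∃ u, d = 3 * (u + 1) + 2 := ⟨d / 3 - 1, by omega⟩
    rw [show 5 + (3 * (u + 1) + 2) = 3 * u + 10 by ring,
      show 5 + 2 * (3 * (u + 1) + 2) / 3 - 1 = 2 * u + 7 by omega,
      show 5 + (2 * (2 * (3 * (u + 1) + 2) / 3) - (3 * (u + 1) + 2)) - 2 = u + 4 by omega]
    have h0 : (0 : ℤ) < 35280 * (u : ℤ) ^ 0 + 76836 * (u : ℤ) ^ 1 + 60950 * (u : ℤ) ^ 2 + 22440 * (u : ℤ) ^ 3 + 3910 * (u : ℤ) ^ 4 + 264 * (u : ℤ) ^ 5 := by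
      clear h hd
      positivity
    have e1 := choose5 (3 * u + 10)
    have e2 := choose5 (2 * u + 7)
    have e3 := choose5 (u + 4)
    push_cast at e1 e2 e3 ⊢
    have key : 120 * (((3 * u + 10).choose 5 : ℤ) - 26 * ((2 * u + 7).choose 5 : ℤ) +
        325 * ((u + 4).choose 5 : ℤ)) = -(35280 * (u : ℤ) ^ 0 + 76836 * (u : ℤ) ^ 1 + 60950 * (u : ℤ) ^ 2 + 22440 * (u : ℤ) ^ 3 + 3910 * (u : ℤ) ^ 4 + 264 * (u : ℤ) ^ 5) := by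
      linear_combination e1 - 26 * e2 + 325 * e3
    linarith only [key, h0]

theorem all_5_26 {d m : ℕ} (hd : 3 ≤ d) (h2 : d + 2 ≤ 2 * m) (h3 : 2 * d + 3 < 3 * m + 5) :
    ldim 5 d (fun _ : Fin 26 => m) = 0 := by
  exact ldim_zero (fun _ => 2 * d / 3) (fun _ => by omega) (big_5_26 hd)

theorem big_5_27 {d : ℕ} (hd : 3 ≤ d) :
    lvdim 5 d (fun _ : Fin 27 => 2 * d / 3) < 0 := by
  rw [lvdim_pairs (by norm_num) (fun c hc hcn => by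
    rcases (by omega : c = 3 ∨ c = 4 ∨ c = 5) with rfl | rfl | rfl <;> omega),
    show ((27 : ℕ).choose 2 : ℤ) = 351 by decide +kernel]
  rcases (by omega : d % 3 = 0 ∨ d % 3 = 1 ∨ d % 3 = 2) with h | h | h
  · obtain ⟨u, rfl⟩ : ∃ u, d = 3 * (u + 1) + 0 := ⟨d / 3 - 1, by omega⟩
    rw [show 5 + (3 * (u + 1) + 0) = 3 * u + 8 by ring,
      show 5 + 2 * (3 * (u + 1) + 0) / 3 - 1 = 2 * u + 6 by omega,
      show 5 + (2 * (2 * (3 * (u + 1) + 0) / 3) - (3 * (u + 1) + 0)) - 2 = u + 4 by omega]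
    have h0 : (0 : ℤ) < 12720 * (u : ℤ) ^ 0 + 30120 * (u : ℤ) ^ 1 + 26460 * (u : ℤ) ^ 2 + 11610 * (u : ℤ) ^ 3 + 2700 * (u : ℤ) ^ 4 + 270 * (u : ℤ) ^ 5 := by
      clear h hd
      positivity
    have e1 := choose5 (3 * u + 8)
    have e2 := choose5 (2 * u + 6)
    have e3 := choose5 (u + 4)
    push_cast at e1 e2 e3 ⊢
    have key : 120 * (((3 * u + 8).choose 5 : ℤ) - 27 * ((2 * u + 6).choose 5 : ℤ) +
        351 * ((u + 4).choose 5 : ℤ)) = -(12720 * (u : ℤ) ^ 0 + 30120 * (u : ℤ) ^ 1 + 26460 * (u : ℤ) ^ 2 + 11610 * (u : ℤ) ^ 3 + 2700 * (u : ℤ) ^ 4 + 270 * (u : ℤ) ^ 5) := by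
      linear_combination e1 - 27 * e2 + 351 * e3
    linarith only [key, h0]
  · obtain ⟨u, rfl⟩ : ∃ u, d = 3 * (u + 1) + 1 := ⟨d / 3 - 1, by omega⟩
    rw [show 5 + (3 * (u + 1) + 1) = 3 * u + 9 by ring,
      show 5 + 2 * (3 * (u + 1) + 1) / 3 - 1 = 2 * u + 6 by omega,
      show 5 + (2 * (2 * (3 * (u + 1) + 1) / 3) - (3 * (u + 1) + 1)) - 2 = u + 3 by omega]
    have h0 : (0 : ℤ) < 4320 * (u : ℤ) ^ 0 + 24660 * (u : ℤ) ^ 1 + 34470 * (u : ℤ) ^ 2 + 18630 * (u : ℤ) ^ 3 + 4050 * (u : ℤ) ^ 4 + 270 * (u : ℤ) ^ 5 := by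
      clear h hd
      positivity
    have e1 := choose5 (3 * u + 9)
    have e2 := choose5 (2 * u + 6)
    have e3 := choose5 (u + 3)
    push_cast at e1 e2 e3 ⊢
    have key : 120 * (((3 * u + 9).choose 5 : ℤ) - 27 * ((2 * u + 6).choose 5 : ℤ) +
        351 * ((u + 3).choose 5 : ℤ)) = -(4320 * (u : ℤ) ^ 0 + 24660 * (u : ℤ) ^ 1 + 34470 * (u : ℤ) ^ 2 + 18630 * (u : ℤ) ^ 3 + 4050 * (u : ℤ) ^ 4 + 270 * (u : ℤ) ^ 5) := by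
      linear_combination e1 - 27 * e2 + 351 * e3
    linarith only [key, h0]
  · obtain ⟨u, rfl⟩ : ∃ u, d = 3 * (u + 1) + 2 := ⟨d / 3 - 1, by omega⟩
    rw [show 5 + (3 * (u + 1) + 2) = 3 * u + 10 by ring,
      show 5 + 2 * (3 * (u + 1) + 2) / 3 - 1 = 2 * u + 7 by omega,
      show 5 + (2 * (2 * (3 * (u + 1) + 2) / 3) - (3 * (u + 1) + 2)) - 2 = u + 4 by omega]
    have h0 : (0 : ℤ) < 37800 * (u : ℤ) ^ 0 + 81720 * (u : ℤ) ^ 1 + 64350 * (u : ℤ) ^ 2 + 23490 * (u : ℤ) ^ 3 + 4050 * (u : ℤ) ^ 4 + 270 * (u : ℤ) ^ 5 := by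
      clear h hd
      positivity
    have e1 := choose5 (3 * u + 10)
    have e2 := choose5 (2 * u + 7)
    have e3 := choose5 (u + 4)
    push_cast at e1 e2 e3 ⊢
    have key : 120 * (((3 * u + 10).choose 5 : ℤ) - 27 * ((2 * u + 7).choose 5 : ℤ) +
        351 * ((u + 4).choose 5 : ℤ)) = -(37800 * (u : ℤ) ^ 0 + 81720 * (u : ℤ) ^ 1 + 64350 * (u : ℤ) ^ 2 + 23490 * (u : ℤ) ^ 3 + 4050 * (u : ℤ) ^ 4 + 270 * (u : ℤ) ^ 5) := by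
      linear_combination e1 - 27 * e2 + 351 * e3
    linarith only [key, h0]

theorem all_5_27 {d m : ℕ} (hd : 3 ≤ d) (h2 : d + 2 ≤ 2 * m) (h3 : 2 * d + 3 < 3 * m + 5) :
    ldim 5 d (fun _ : Fin 27 => m) = 0 := by
  exact ldim_zero (fun _ => 2 * d / 3) (fun _ => by omega) (big_5_27 hd)

theorem big_5_28 {d : ℕ} (hd : 3 ≤ d) :
    lvdim 5 d (fun _ : Fin 28 => 2 * d / 3) < 0 := by
  rw [lvdim_pairs (by norm_num) (fun c hc hcn => by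
    rcases (by omega : c = 3 ∨ c = 4 ∨ c = 5) with rfl | rfl | rfl <;> omega),
    show ((28 : ℕ).choose 2 : ℤ) = 378 by decide +kernel]
  rcases (by omega : d % 3 = 0 ∨ d % 3 = 1 ∨ d % 3 = 2) with h | h | h
  · obtain ⟨u, rfl⟩ : ∃ u, d = 3 * (u + 1) + 0 := ⟨d / 3 - 1, by omega⟩
    rw [show 5 + (3 * (u + 1) + 0) = 3 * u + 8 by ring,
      show 5 + 2 * (3 * (u + 1) + 0) / 3 - 1 = 2 * u + 6 by omega,
      show 5 + (2 * (2 * (3 * (u + 1) + 0) / 3) - (3 * (u + 1) + 0)) - 2 = u + 4 by omega]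
    have h0 : (0 : ℤ) < 13440 * (u : ℤ) ^ 0 + 31560 * (u : ℤ) ^ 1 + 27430 * (u : ℤ) ^ 2 + 11905 * (u : ℤ) ^ 3 + 2750 * (u : ℤ) ^ 4 + 275 * (u : ℤ) ^ 5 := by
      clear h hd
      positivity
    have e1 := choose5 (3 * u + 8)
    have e2 := choose5 (2 * u + 6)
    have e3 := choose5 (u + 4)
    push_cast at e1 e2 e3 ⊢
    have key : 120 * (((3 * u + 8).choose 5 : ℤ) - 28 * ((2 * u + 6).choose 5 : ℤ) +
        378 * ((u + 4).choose 5 : ℤ)) = -(13440 * (u : ℤ) ^ 0 + 31560 * (u : ℤ) ^ 1 + 27430 * (u : ℤ) ^ 2 + 11905 * (u : ℤ) ^ 3 + 2750 * (u : ℤ) ^ 4 + 275 * (u : ℤ) ^ 5) := by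
      linear_combination e1 - 28 * e2 + 378 * e3
    linarith only [key, h0]
  · obtain ⟨u, rfl⟩ : ∃ u, d = 3 * (u + 1) + 1 := ⟨d / 3 - 1, by omega⟩
    rw [show 5 + (3 * (u + 1) + 1) = 3 * u + 9 by ring,
      show 5 + 2 * (3 * (u + 1) + 1) / 3 - 1 = 2 * u + 6 by omega,
      show 5 + (2 * (2 * (3 * (u + 1) + 1) / 3) - (3 * (u + 1) + 1)) - 2 = u + 3 by omega]
    have h0 : (0 : ℤ) < 5040 * (u : ℤ) ^ 0 + 26910 * (u : ℤ) ^ 1 + 36925 * (u : ℤ) ^ 2 + 19735 * (u : ℤ) ^ 3 + 4235 * (u : ℤ) ^ 4 + 275 * (u : ℤ) ^ 5 := by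
      clear h hd
      positivity
    have e1 := choose5 (3 * u + 9)
    have e2 := choose5 (2 * u + 6)
    have e3 := choose5 (u + 3)
    push_cast at e1 e2 e3 ⊢
    have key : 120 * (((3 * u + 9).choose 5 : ℤ) - 28 * ((2 * u + 6).choose 5 : ℤ) +
        378 * ((u + 3).choose 5 : ℤ)) = -(5040 * (u : ℤ) ^ 0 + 26910 * (u : ℤ) ^ 1 + 36925 * (u : ℤ) ^ 2 + 19735 * (u : ℤ) ^ 3 + 4235 * (u : ℤ) ^ 4 + 275 * (u : ℤ) ^ 5) := by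
      linear_combination e1 - 28 * e2 + 378 * e3
    linarith only [key, h0]
  · obtain ⟨u, rfl⟩ : ∃ u, d = 3 * (u + 1) + 2 := ⟨d / 3 - 1, by omega⟩
    rw [show 5 + (3 * (u + 1) + 2) = 3 * u + 10 by ring,
      show 5 + 2 * (3 * (u + 1) + 2) / 3 - 1 = 2 * u + 7 by omega,
      show 5 + (2 * (2 * (3 * (u + 1) + 2) / 3) - (3 * (u + 1) + 2)) - 2 = u + 4 by omega]
    have h0 : (0 : ℤ) < 40320 * (u : ℤ) ^ 0 + 86580 * (u : ℤ) ^ 1 + 67700 * (u : ℤ) ^ 2 + 24505 * (u : ℤ) ^ 3 + 4180 * (u : ℤ) ^ 4 + 275 * (u : ℤ) ^ 5 := by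
      clear h hd
      positivity
    have e1 := choose5 (3 * u + 10)
    have e2 := choose5 (2 * u + 7)
    have e3 := choose5 (u + 4)
    push_cast at e1 e2 e3 ⊢
    have key : 120 * (((3 * u + 10).choose 5 : ℤ) - 28 * ((2 * u + 7).choose 5 : ℤ) +
        378 * ((u + 4).choose 5 : ℤ)) = -(40320 * (u : ℤ) ^ 0 + 86580 * (u : ℤ) ^ 1 + 67700 * (u : ℤ) ^ 2 + 24505 * (u : ℤ) ^ 3 + 4180 * (u : ℤ) ^ 4 + 275 * (u : ℤ) ^ 5) := by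
      linear_combination e1 - 28 * e2 + 378 * e3
    linarith only [key, h0]

theorem all_5_28 {d m : ℕ} (hd : 3 ≤ d) (h2 : d + 2 ≤ 2 * m) (h3 : 2 * d + 3 < 3 * m + 5) :
    ldim 5 d (fun _ : Fin 28 => m) = 0 := by
  exact ldim_zero (fun _ => 2 * d / 3) (fun _ => by omega) (big_5_28 hd)

theorem big_5_29 {d : ℕ} (hd : 3 ≤ d) :
    lvdim 5 d (fun _ : Fin 29 => 2 * d / 3) < 0 := by
  rw [lvdim_pairs (by norm_num) (fun c hc hcn => by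
    rcases (by omega : c = 3 ∨ c = 4 ∨ c = 5) with rfl | rfl | rfl <;> omega),
    show ((29 : ℕ).choose 2 : ℤ) = 406 by decide +kernel]
  rcases (by omega : d % 3 = 0 ∨ d % 3 = 1 ∨ d % 3 = 2) with h | h | h
  · obtain ⟨u, rfl⟩ : ∃ u, d = 3 * (u + 1) + 0 := ⟨d / 3 - 1, by omega⟩
    rw [show 5 + (3 * (u + 1) + 0) = 3 * u + 8 by ring,
      show 5 + 2 * (3 * (u + 1) + 0) / 3 - 1 = 2 * u + 6 by omega,
      show 5 + (2 * (2 * (3 * (u + 1) + 0) / 3) - (3 * (u + 1) + 0)) - 2 = u + 4 by omega]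
    have h0 : (0 : ℤ) < 14160 * (u : ℤ) ^ 0 + 32976 * (u : ℤ) ^ 1 + 28350 * (u : ℤ) ^ 2 + 12165 * (u : ℤ) ^ 3 + 2790 * (u : ℤ) ^ 4 + 279 * (u : ℤ) ^ 5 := by
      clear h hd
      positivity
    have e1 := choose5 (3 * u + 8)
    have e2 := choose5 (2 * u + 6)
    have e3 := choose5 (u + 4)
    push_cast at e1 e2 e3 ⊢
    have key : 120 * (((3 * u + 8).choose 5 : ℤ) - 29 * ((2 * u + 6).choose 5 : ℤ) +
        406 * ((u + 4).choose 5 : ℤ)) = -(14160 * (u : ℤ) ^ 0 + 32976 * (u : ℤ) ^ 1 + 28350 * (u : ℤ) ^ 2 + 12165 * (u : ℤ) ^ 3 + 2790 * (u : ℤ) ^ 4 + 279 * (u : ℤ) ^ 5) := by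
      linear_combination e1 - 29 * e2 + 406 * e3
    linarith only [key, h0]
  · obtain ⟨u, rfl⟩ : ∃ u, d = 3 * (u + 1) + 1 := ⟨d / 3 - 1, by omega⟩
    rw [show 5 + (3 * (u + 1) + 1) = 3 * u + 9 by ring,
      show 5 + 2 * (3 * (u + 1) + 1) / 3 - 1 = 2 * u + 6 by omega,
      show 5 + (2 * (2 * (3 * (u + 1) + 1) / 3) - (3 * (u + 1) + 1)) - 2 = u + 3 by omega]
    have h0 : (0 : ℤ) < 5760 * (u : ℤ) ^ 0 + 29166 * (u : ℤ) ^ 1 + 39385 * (u : ℤ) ^ 2 + 20835 * (u : ℤ) ^ 3 + 4415 * (u : ℤ) ^ 4 + 279 * (u : ℤ) ^ 5 := by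
      clear h hd
      positivity
    have e1 := choose5 (3 * u + 9)
    have e2 := choose5 (2 * u + 6)
    have e3 := choose5 (u + 3)
    push_cast at e1 e2 e3 ⊢
    have key : 120 * (((3 * u + 9).choose 5 : ℤ) - 29 * ((2 * u + 6).choose 5 : ℤ) +
        406 * ((u + 3).choose 5 : ℤ)) = -(5760 * (u : ℤ) ^ 0 + 29166 * (u : ℤ) ^ 1 + 39385 * (u : ℤ) ^ 2 + 20835 * (u : ℤ) ^ 3 + 4415 * (u : ℤ) ^ 4 + 279 * (u : ℤ) ^ 5) := by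
      linear_combination e1 - 29 * e2 + 406 * e3
    linarith only [key, h0]
  · obtain ⟨u, rfl⟩ : ∃ u, d = 3 * (u + 1) + 2 := ⟨d / 3 - 1, by omega⟩
    rw [show 5 + (3 * (u + 1) + 2) = 3 * u + 10 by ring,
      show 5 + 2 * (3 * (u + 1) + 2) / 3 - 1 = 2 * u + 7 by omega,
      show 5 + (2 * (2 * (3 * (u + 1) + 2) / 3) - (3 * (u + 1) + 2)) - 2 = u + 4 by omega]
    have h0 : (0 : ℤ) < 42840 * (u : ℤ) ^ 0 + 91416 * (u : ℤ) ^ 1 + 71000 * (u : ℤ) ^ 2 + 25485 * (u : ℤ) ^ 3 + 4300 * (u : ℤ) ^ 4 + 279 * (u : ℤ) ^ 5 := by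
      clear h hd
      positivity
    have e1 := choose5 (3 * u + 10)
    have e2 := choose5 (2 * u + 7)
    have e3 := choose5 (u + 4)
    push_cast at e1 e2 e3 ⊢
    have key : 120 * (((3 * u + 10).choose 5 : ℤ) - 29 * ((2 * u + 7).choose 5 : ℤ) +
        406 * ((u + 4).choose 5 : ℤ)) = -(42840 * (u : ℤ) ^ 0 + 91416 * (u : ℤ) ^ 1 + 71000 * (u : ℤ) ^ 2 + 25485 * (u : ℤ) ^ 3 + 4300 * (u : ℤ) ^ 4 + 279 * (u : ℤ) ^ 5) := by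
      linear_combination e1 - 29 * e2 + 406 * e3
    linarith only [key, h0]

theorem all_5_29 {d m : ℕ} (hd : 3 ≤ d) (h2 : d + 2 ≤ 2 * m) (h3 : 2 * d + 3 < 3 * m + 5) :
    ldim 5 d (fun _ : Fin 29 => m) = 0 := by
  exact ldim_zero (fun _ => 2 * d / 3) (fun _ => by omega) (big_5_29 hd)

theorem big_5_30 {d : ℕ} (hd : 3 ≤ d) :
    lvdim 5 d (fun _ : Fin 30 => 2 * d / 3) < 0 := by
  rw [lvdim_pairs (by norm_num) (fun c hc hcn => by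
    rcases (by omega : c = 3 ∨ c = 4 ∨ c = 5) with rfl | rfl | rfl <;> omega),
    show ((30 : ℕ).choose 2 : ℤ) = 435 by decide +kernel]
  rcases (by omega : d % 3 = 0 ∨ d % 3 = 1 ∨ d % 3 = 2) with h | h | h
  · obtain ⟨u, rfl⟩ : ∃ u, d = 3 * (u + 1) + 0 := ⟨d / 3 - 1, by omega⟩
    rw [show 5 + (3 * (u + 1) + 0) = 3 * u + 8 by ring,
      show 5 + 2 * (3 * (u + 1) + 0) / 3 - 1 = 2 * u + 6 by omega,
      show 5 + (2 * (2 * (3 * (u + 1) + 0) / 3) - (3 * (u + 1) + 0)) - 2 = u + 4 by omega]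
    have h0 : (0 : ℤ) < 14880 * (u : ℤ) ^ 0 + 34368 * (u : ℤ) ^ 1 + 29220 * (u : ℤ) ^ 2 + 12390 * (u : ℤ) ^ 3 + 2820 * (u : ℤ) ^ 4 + 282 * (u : ℤ) ^ 5 := by
      clear h hd
      positivity
    have e1 := choose5 (3 * u + 8)
    have e2 := choose5 (2 * u + 6)
    have e3 := choose5 (u + 4)
    push_cast at e1 e2 e3 ⊢
    have key : 120 * (((3 * u + 8).choose 5 : ℤ) - 30 * ((2 * u + 6).choose 5 : ℤ) +
        435 * ((u + 4).choose 5 : ℤ)) = -(14880 * (u : ℤ) ^ 0 + 34368 * (u : ℤ) ^ 1 + 29220 * (u : ℤ) ^ 2 + 12390 * (u : ℤ) ^ 3 + 2820 * (u : ℤ) ^ 4 + 282 * (u : ℤ) ^ 5) := by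
      linear_combination e1 - 30 * e2 + 435 * e3
    linarith only [key, h0]
  · obtain ⟨u, rfl⟩ : ∃ u, d = 3 * (u + 1) + 1 := ⟨d / 3 - 1, by omega⟩
    rw [show 5 + (3 * (u + 1) + 1) = 3 * u + 9 by ring,
      show 5 + 2 * (3 * (u + 1) + 1) / 3 - 1 = 2 * u + 6 by omega,
      show 5 + (2 * (2 * (3 * (u + 1) + 1) / 3) - (3 * (u + 1) + 1)) - 2 = u + 3 by omega]
    have h0 : (0 : ℤ) < 6480 * (u : ℤ) ^ 0 + 31428 * (u : ℤ) ^ 1 + 41850 * (u : ℤ) ^ 2 + 21930 * (u : ℤ) ^ 3 + 4590 * (u : ℤ) ^ 4 + 282 * (u : ℤ) ^ 5 := by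
      clear h hd
      positivity
    have e1 := choose5 (3 * u + 9)
    have e2 := choose5 (2 * u + 6)
    have e3 := choose5 (u + 3)
    push_cast at e1 e2 e3 ⊢
    have key : 120 * (((3 * u + 9).choose 5 : ℤ) - 30 * ((2 * u + 6).choose 5 : ℤ) +
        435 * ((u + 3).choose 5 : ℤ)) = -(6480 * (u : ℤ) ^ 0 + 31428 * (u : ℤ) ^ 1 + 41850 * (u : ℤ) ^ 2 + 21930 * (u : ℤ) ^ 3 + 4590 * (u : ℤ) ^ 4 + 282 * (u : ℤ) ^ 5) := by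
      linear_combination e1 - 30 * e2 + 435 * e3
    linarith only [key, h0]
  · obtain ⟨u, rfl⟩ : ∃ u, d = 3 * (u + 1) + 2 := ⟨d / 3 - 1, by omega⟩
    rw [show 5 + (3 * (u + 1) + 2) = 3 * u + 10 by ring,
      show 5 + 2 * (3 * (u + 1) + 2) / 3 - 1 = 2 * u + 7 by omega,
      show 5 + (2 * (2 * (3 * (u + 1) + 2) / 3) - (3 * (u + 1) + 2)) - 2 = u + 4 by omega]
    have h0 : (0 : ℤ) < 45360 * (u : ℤ) ^ 0 + 96228 * (u : ℤ) ^ 1 + 74250 * (u : ℤ) ^ 2 + 26430 * (u : ℤ) ^ 3 + 4410 * (u : ℤ) ^ 4 + 282 * (u : ℤ) ^ 5 := by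
      clear h hd
      positivity
    have e1 := choose5 (3 * u + 10)
    have e2 := choose5 (2 * u + 7)
    have e3 := choose5 (u + 4)
    push_cast at e1 e2 e3 ⊢
    have key : 120 * (((3 * u + 10).choose 5 : ℤ) - 30 * ((2 * u + 7).choose 5 : ℤ) +
        435 * ((u + 4).choose 5 : ℤ)) = -(45360 * (u : ℤ) ^ 0 + 96228 * (u : ℤ) ^ 1 + 74250 * (u : ℤ) ^ 2 + 26430 * (u : ℤ) ^ 3 + 4410 * (u : ℤ) ^ 4 + 282 * (u : ℤ) ^ 5) := by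
      linear_combination e1 - 30 * e2 + 435 * e3
    linarith only [key, h0]

theorem all_5_30 {d m : ℕ} (hd : 3 ≤ d) (h2 : d + 2 ≤ 2 * m) (h3 : 2 * d + 3 < 3 * m + 5) :
    ldim 5 d (fun _ : Fin 30 => m) = 0 := by
  exact ldim_zero (fun _ => 2 * d / 3) (fun _ => by omega) (big_5_30 hd)

theorem big_5_31 {d : ℕ} (hd : 3 ≤ d) :
    lvdim 5 d (fun _ : Fin 31 => 2 * d / 3) < 0 := by
  rw [lvdim_pairs (by norm_num) (fun c hc hcn => by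
    rcases (by omega : c = 3 ∨ c = 4 ∨ c = 5) with rfl | rfl | rfl <;> omega),
    show ((31 : ℕ).choose 2 : ℤ) = 465 by decide +kernel]
  rcases (by omega : d % 3 = 0 ∨ d % 3 = 1 ∨ d % 3 = 2) with h | h | h
  · obtain ⟨u, rfl⟩ : ∃ u, d = 3 * (u + 1) + 0 := ⟨d / 3 - 1, by omega⟩
    rw [show 5 + (3 * (u + 1) + 0) = 3 * u + 8 by ring,
      show 5 + 2 * (3 * (u + 1) + 0) / 3 - 1 = 2 * u + 6 by omega,
      show 5 + (2 * (2 * (3 * (u + 1) + 0) / 3) - (3 * (u + 1) + 0)) - 2 = u + 4 by omega]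
    have h0 : (0 : ℤ) < 15600 * (u : ℤ) ^ 0 + 35736 * (u : ℤ) ^ 1 + 30040 * (u : ℤ) ^ 2 + 12580 * (u : ℤ) ^ 3 + 2840 * (u : ℤ) ^ 4 + 284 * (u : ℤ) ^ 5 := by
      clear h hd
      positivity
    have e1 := choose5 (3 * u + 8)
    have e2 := choose5 (2 * u + 6)
    have e3 := choose5 (u + 4)
    push_cast at e1 e2 e3 ⊢
    have key : 120 * (((3 * u + 8).choose 5 : ℤ) - 31 * ((2 * u + 6).choose 5 : ℤ) +
        465 * ((u + 4).choose 5 : ℤ)) = -(15600 * (u : ℤ) ^ 0 + 35736 * (u : ℤ) ^ 1 + 30040 * (u : ℤ) ^ 2 + 12580 * (u : ℤ) ^ 3 + 2840 * (u : ℤ) ^ 4 + 284 * (u : ℤ) ^ 5) := by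
      linear_combination e1 - 31 * e2 + 465 * e3
    linarith only [key, h0]
  · obtain ⟨u, rfl⟩ : ∃ u, d = 3 * (u + 1) + 1 := ⟨d / 3 - 1, by omega⟩
    rw [show 5 + (3 * (u + 1) + 1) = 3 * u + 9 by ring,
      show 5 + 2 * (3 * (u + 1) + 1) / 3 - 1 = 2 * u + 6 by omega,
      show 5 + (2 * (2 * (3 * (u + 1) + 1) / 3) - (3 * (u + 1) + 1)) - 2 = u + 3 by omega]
    have h0 : (0 : ℤ) < 7200 * (u : ℤ) ^ 0 + 33696 * (u : ℤ) ^ 1 + 44320 * (u : ℤ) ^ 2 + 23020 * (u : ℤ) ^ 3 + 4760 * (u : ℤ) ^ 4 + 284 * (u : ℤ) ^ 5 := by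
      clear h hd
      positivity
    have e1 := choose5 (3 * u + 9)
    have e2 := choose5 (2 * u + 6)
    have e3 := choose5 (u + 3)
    push_cast at e1 e2 e3 ⊢
    have key : 120 * (((3 * u + 9).choose 5 : ℤ) - 31 * ((2 * u + 6).choose 5 : ℤ) +
        465 * ((u + 3).choose 5 : ℤ)) = -(7200 * (u : ℤ) ^ 0 + 33696 * (u : ℤ) ^ 1 + 44320 * (u : ℤ) ^ 2 + 23020 * (u : ℤ) ^ 3 + 4760 * (u : ℤ) ^ 4 + 284 * (u : ℤ) ^ 5) := by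
      linear_combination e1 - 31 * e2 + 465 * e3
    linarith only [key, h0]
  · obtain ⟨u, rfl⟩ : ∃ u, d = 3 * (u + 1) + 2 := ⟨d / 3 - 1, by omega⟩
    rw [show 5 + (3 * (u + 1) + 2) = 3 * u + 10 by ring,
      show 5 + 2 * (3 * (u + 1) + 2) / 3 - 1 = 2 * u + 7 by omega,
      show 5 + (2 * (2 * (3 * (u + 1) + 2) / 3) - (3 * (u + 1) + 2)) - 2 = u + 4 by omega]
    have h0 : (0 : ℤ) < 47880 * (u : ℤ) ^ 0 + 101016 * (u : ℤ) ^ 1 + 77450 * (u : ℤ) ^ 2 + 27340 * (u : ℤ) ^ 3 + 4510 * (u : ℤ) ^ 4 + 284 * (u : ℤ) ^ 5 := by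
      clear h hd
      positivity
    have e1 := choose5 (3 * u + 10)
    have e2 := choose5 (2 * u + 7)
    have e3 := choose5 (u + 4)
    push_cast at e1 e2 e3 ⊢
    have key : 120 * (((3 * u + 10).choose 5 : ℤ) - 31 * ((2 * u + 7).choose 5 : ℤ) +
        465 * ((u + 4).choose 5 : ℤ)) = -(47880 * (u : ℤ) ^ 0 + 101016 * (u : ℤ) ^ 1 + 77450 * (u : ℤ) ^ 2 + 27340 * (u : ℤ) ^ 3 + 4510 * (u : ℤ) ^ 4 + 284 * (u : ℤ) ^ 5) := by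
      linear_combination e1 - 31 * e2 + 465 * e3
    linarith only [key, h0]

theorem all_5_31 {d m : ℕ} (hd : 3 ≤ d) (h2 : d + 2 ≤ 2 * m) (h3 : 2 * d + 3 < 3 * m + 5) :
    ldim 5 d (fun _ : Fin 31 => m) = 0 := by
  exact ldim_zero (fun _ => 2 * d / 3) (fun _ => by omega) (big_5_31 hd)

end Pool.Agent.TH142.WF
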