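import Pool.Agent.TH142.WF.Three

set_option autoImplicit false
set_option maxHeartbeats 4000000

/-!
# Empty systems in low dimension
-/

namespace Pool.Agent.TH142.WF

theorem special_5_9_3 {m : ℕ} (h2 : 3 + 2 ≤ 2 * m) : ldim 5 3 (fun _ : Fin 9 => m) = 0 := by
  refine ldim_zero (fun i => if i.1 < 3 then 3 else 2) (fun i => ?_) (by decide +kernel)
  split_ifs <;> omega

theorem bigc_5_9 {d : ℕ} (hd : 4 ≤ d) :
    lvdim 5 d (fun _ : Fin 9 => (2 * d + 2) / 3) < 0 := by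
  rw [lvdim_pairs (by norm_num) (fun c hc hcn => by
    rcases (by omega : c = 3 ∨ c = 4 ∨ c = 5) with rfl | rfl | rfl <;> omega),
    show ((9 : ℕ).choose 2 : ℤ) = 36 by decide +kernel]
  rcases (by omega : d % 3 = 0 ∨ d % 3 = 1 ∨ d % 3 = 2) with h | h | h
  · obtain ⟨u, rfl⟩ : ∃ u, d = 3 * (u + 2) + 0 := ⟨d / 3 - 2, by omega⟩
    rw [show 5 + (3 * (u + 2) + 0) = 3 * u + 11 by ring,
      show 5 + (2 * (3 * (u + 2) + 0) + 2) / 3 - 1 = 2 * u + 8 by omega,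
      show 5 + (2 * ((2 * (3 * (u + 2) + 0) + 2) / 3) - (3 * (u + 2) + 0)) - 2 = u + 5 by omega]
    have h0 : (0 : ℤ) < 720 * (u : ℤ) ^ 0 + 2346 * (u : ℤ) ^ 1 + 2025 * (u : ℤ) ^ 2 + 765 * (u : ℤ) ^ 3 + 135 * (u : ℤ) ^ 4 + 9 * (u : ℤ) ^ 5 := by
      clear h hd
      positivity
    have e1 := choose5 (3 * u + 11)
    have e2 := choose5 (2 * u + 8)
    have e3 := choose5 (u + 5)
    push_cast at e1 e2 e3 ⊢
    have key : 120 * (((3 * u + 11).choose 5 : ℤ) - 9 * ((2 * u + 8).choose 5 : ℤ) +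
        36 * ((u + 5).choose 5 : ℤ)) = -(720 * (u : ℤ) ^ 0 + 2346 * (u : ℤ) ^ 1 + 2025 * (u : ℤ) ^ 2 + 765 * (u : ℤ) ^ 3 + 135 * (u : ℤ) ^ 4 + 9 * (u : ℤ) ^ 5) := by
      linear_combination e1 - 9 * e2 + 36 * e3
    linarith only [key, h0]
  · obtain ⟨u, rfl⟩ : ∃ u, d = 3 * (u + 1) + 1 := ⟨d / 3 - 1, by omega⟩
    rw [show 5 + (3 * (u + 1) + 1) = 3 * u + 9 by ring,
      show 5 + (2 * (3 * (u + 1) + 1) + 2) / 3 - 1 = 2 * u + 7 by omega,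
      show 5 + (2 * ((2 * (3 * (u + 1) + 1) + 2) / 3) - (3 * (u + 1) + 1)) - 2 = u + 5 by omega]
    have h0 : (0 : ℤ) < 3240 * (u : ℤ) ^ 0 + 5886 * (u : ℤ) ^ 1 + 4275 * (u : ℤ) ^ 2 + 1485 * (u : ℤ) ^ 3 + 225 * (u : ℤ) ^ 4 + 9 * (u : ℤ) ^ 5 := by
      clear h hd
      positivity
    have e1 := choose5 (3 * u + 9)
    have e2 := choose5 (2 * u + 7)
    have e3 := choose5 (u + 5)
    push_cast at e1 e2 e3 ⊢
    have key : 120 * (((3 * u + 9).choose 5 : ℤ) - 9 * ((2 * u + 7).choose 5 : ℤ) +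
        36 * ((u + 5).choose 5 : ℤ)) = -(3240 * (u : ℤ) ^ 0 + 5886 * (u : ℤ) ^ 1 + 4275 * (u : ℤ) ^ 2 + 1485 * (u : ℤ) ^ 3 + 225 * (u : ℤ) ^ 4 + 9 * (u : ℤ) ^ 5) := by
      linear_combination e1 - 9 * e2 + 36 * e3
    linarith only [key, h0]
  · obtain ⟨u, rfl⟩ : ∃ u, d = 3 * (u + 1) + 2 := ⟨d / 3 - 1, by omega⟩
    rw [show 5 + (3 * (u + 1) + 2) = 3 * u + 10 by ring,
      show 5 + (2 * (3 * (u + 1) + 2) + 2) / 3 - 1 = 2 * u + 8 by omega,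
      show 5 + (2 * ((2 * (3 * (u + 1) + 2) + 2) / 3) - (3 * (u + 1) + 2)) - 2 = u + 6 by omega]
    have h0 : (0 : ℤ) < 4320 * (u : ℤ) ^ 0 + 10836 * (u : ℤ) ^ 1 + 8640 * (u : ℤ) ^ 2 + 2835 * (u : ℤ) ^ 3 + 360 * (u : ℤ) ^ 4 + 9 * (u : ℤ) ^ 5 := by
      clear h hd
      positivity
    have e1 := choose5 (3 * u + 10)
    have e2 := choose5 (2 * u + 8)
    have e3 := choose5 (u + 6)
    push_cast at e1 e2 e3 ⊢
    have key : 120 * (((3 * u + 10).choose 5 : ℤ) - 9 * ((2 * u + 8).choose 5 : ℤ) +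
        36 * ((u + 6).choose 5 : ℤ)) = -(4320 * (u : ℤ) ^ 0 + 10836 * (u : ℤ) ^ 1 + 8640 * (u : ℤ) ^ 2 + 2835 * (u : ℤ) ^ 3 + 360 * (u : ℤ) ^ 4 + 9 * (u : ℤ) ^ 5) := by
      linear_combination e1 - 9 * e2 + 36 * e3
    linarith only [key, h0]

theorem allc_5_9 {d m : ℕ} (hd : 3 ≤ d) (h2 : d + 2 ≤ 2 * m) (h3 : 2 * d + 3 < 3 * m + 3) :
    ldim 5 d (fun _ : Fin 9 => m) = 0 := by
  rcases Nat.lt_or_ge d 4 with h | h
  · interval_cases d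
    · exact ldim_zero (fun _ => 3) (fun _ => by omega) (by
        rw [lvdim_const]
        decide +kernel)
  · exact ldim_zero (fun _ => (2 * d + 2) / 3) (fun _ => by omega) (bigc_5_9 h)

theorem bigc_5_10 {d : ℕ} (hd : 3 ≤ d) :
    lvdim 5 d (fun _ : Fin 10 => (2 * d + 2) / 3) < 0 := by
  rw [lvdim_pairs (by norm_num) (fun c hc hcn => by
    rcases (by omega : c = 3 ∨ c = 4 ∨ c = 5) with rfl | rfl | rfl <;> omega),
    show ((10 : ℕ).choose 2 : ℤ) = 45 by decide +kernel]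
  rcases (by omega : d % 3 = 0 ∨ d % 3 = 1 ∨ d % 3 = 2) with h | h | h
  · obtain ⟨u, rfl⟩ : ∃ u, d = 3 * (u + 1) + 0 := ⟨d / 3 - 1, by omega⟩
    rw [show 5 + (3 * (u + 1) + 0) = 3 * u + 8 by ring,
      show 5 + (2 * (3 * (u + 1) + 0) + 2) / 3 - 1 = 2 * u + 6 by omega,
      show 5 + (2 * ((2 * (3 * (u + 1) + 0) + 2) / 3) - (3 * (u + 1) + 0)) - 2 = u + 4 by omega]
    have h0 : (0 : ℤ) < 480 * (u : ℤ) ^ 0 + 1968 * (u : ℤ) ^ 1 + 2320 * (u : ℤ) ^ 2 + 1240 * (u : ℤ) ^ 3 + 320 * (u : ℤ) ^ 4 + 32 * (u : ℤ) ^ 5 := by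
      clear h hd
      positivity
    have e1 := choose5 (3 * u + 8)
    have e2 := choose5 (2 * u + 6)
    have e3 := choose5 (u + 4)
    push_cast at e1 e2 e3 ⊢
    have key : 120 * (((3 * u + 8).choose 5 : ℤ) - 10 * ((2 * u + 6).choose 5 : ℤ) +
        45 * ((u + 4).choose 5 : ℤ)) = -(480 * (u : ℤ) ^ 0 + 1968 * (u : ℤ) ^ 1 + 2320 * (u : ℤ) ^ 2 + 1240 * (u : ℤ) ^ 3 + 320 * (u : ℤ) ^ 4 + 32 * (u : ℤ) ^ 5) := by
      linear_combination e1 - 10 * e2 + 45 * e3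
    linarith only [key, h0]
  · obtain ⟨u, rfl⟩ : ∃ u, d = 3 * (u + 1) + 1 := ⟨d / 3 - 1, by omega⟩
    rw [show 5 + (3 * (u + 1) + 1) = 3 * u + 9 by ring,
      show 5 + (2 * (3 * (u + 1) + 1) + 2) / 3 - 1 = 2 * u + 7 by omega,
      show 5 + (2 * ((2 * (3 * (u + 1) + 1) + 2) / 3) - (3 * (u + 1) + 1)) - 2 = u + 5 by omega]
    have h0 : (0 : ℤ) < 4680 * (u : ℤ) ^ 0 + 8928 * (u : ℤ) ^ 1 + 6950 * (u : ℤ) ^ 2 + 2680 * (u : ℤ) ^ 3 + 490 * (u : ℤ) ^ 4 + 32 * (u : ℤ) ^ 5 := by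
      clear h hd
      positivity
    have e1 := choose5 (3 * u + 9)
    have e2 := choose5 (2 * u + 7)
    have e3 := choose5 (u + 5)
    push_cast at e1 e2 e3 ⊢
    have key : 120 * (((3 * u + 9).choose 5 : ℤ) - 10 * ((2 * u + 7).choose 5 : ℤ) +
        45 * ((u + 5).choose 5 : ℤ)) = -(4680 * (u : ℤ) ^ 0 + 8928 * (u : ℤ) ^ 1 + 6950 * (u : ℤ) ^ 2 + 2680 * (u : ℤ) ^ 3 + 490 * (u : ℤ) ^ 4 + 32 * (u : ℤ) ^ 5) := by
      linear_combination e1 - 10 * e2 + 45 * e3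
    linarith only [key, h0]
  · obtain ⟨u, rfl⟩ : ∃ u, d = 3 * (u + 1) + 2 := ⟨d / 3 - 1, by omega⟩
    rw [show 5 + (3 * (u + 1) + 2) = 3 * u + 10 by ring,
      show 5 + (2 * (3 * (u + 1) + 2) + 2) / 3 - 1 = 2 * u + 8 by omega,
      show 5 + (2 * ((2 * (3 * (u + 1) + 2) + 2) / 3) - (3 * (u + 1) + 2)) - 2 = u + 6 by omega]
    have h0 : (0 : ℤ) < 4560 * (u : ℤ) ^ 0 + 13328 * (u : ℤ) ^ 1 + 11700 * (u : ℤ) ^ 2 + 4280 * (u : ℤ) ^ 3 + 660 * (u : ℤ) ^ 4 + 32 * (u : ℤ) ^ 5 := by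
      clear h hd
      positivity
    have e1 := choose5 (3 * u + 10)
    have e2 := choose5 (2 * u + 8)
    have e3 := choose5 (u + 6)
    push_cast at e1 e2 e3 ⊢
    have key : 120 * (((3 * u + 10).choose 5 : ℤ) - 10 * ((2 * u + 8).choose 5 : ℤ) +
        45 * ((u + 6).choose 5 : ℤ)) = -(4560 * (u : ℤ) ^ 0 + 13328 * (u : ℤ) ^ 1 + 11700 * (u : ℤ) ^ 2 + 4280 * (u : ℤ) ^ 3 + 660 * (u : ℤ) ^ 4 + 32 * (u : ℤ) ^ 5) := by
      linear_combination e1 - 10 * e2 + 45 * e3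
    linarith only [key, h0]

theorem allc_5_10 {d m : ℕ} (hd : 3 ≤ d) (h2 : d + 2 ≤ 2 * m) (h3 : 2 * d + 3 < 3 * m + 4) :
    ldim 5 d (fun _ : Fin 10 => m) = 0 := by
  exact ldim_zero (fun _ => (2 * d + 2) / 3) (fun _ => by omega) (bigc_5_10 hd)

end Pool.Agent.TH142.WF
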