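import Pool.Agent.TH142.WF.Three

set_option autoImplicit false
set_option maxHeartbeats 4000000

/-!
# Empty systems in low dimension
-/

namespace Pool.Agent.TH142.WF

theorem special_4_7_3 {m : ℕ} (h2 : 3 + 2 ≤ 2 * m) : ldim 4 3 (fun _ : Fin 7 => m) = 0 := by
  refine ldim_zero (fun i => if i.1 < 3 then 3 else 2) (fun i => ?_) (by decide +kernel)
  split_ifs <;> omega

theorem big_4_7 {d : ℕ} (hd : 20 ≤ d) :
    lvdim 4 d (fun _ : Fin 7 => 2 * d / 3) < 0 := by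
  rw [lvdim_pairs (by norm_num) (fun c hc hcn => by
    rcases (by omega : c = 3 ∨ c = 4) with rfl | rfl <;> omega),
    show ((7 : ℕ).choose 2 : ℤ) = 21 by decide +kernel]
  rcases (by omega : d % 3 = 0 ∨ d % 3 = 1 ∨ d % 3 = 2) with h | h | h
  · obtain ⟨u, rfl⟩ : ∃ u, d = 3 * (u + 2) + 0 := ⟨d / 3 - 2, by omega⟩
    rw [show 4 + (3 * (u + 2) + 0) = 3 * u + 10 by ring,
      show 4 + 2 * (3 * (u + 2) + 0) / 3 - 1 = 2 * u + 7 by omega,
      show 4 + (2 * (2 * (3 * (u + 2) + 0) / 3) - (3 * (u + 2) + 0)) - 2 = u + 4 by omega]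
    have h0 : (0 : ℤ) < 336 * (u : ℤ) ^ 0 + 640 * (u : ℤ) ^ 1 + 398 * (u : ℤ) ^ 2 + 104 * (u : ℤ) ^ 3 + 10 * (u : ℤ) ^ 4 := by
      clear h hd
      positivity
    have e1 := choose4 (3 * u + 10)
    have e2 := choose4 (2 * u + 7)
    have e3 := choose4 (u + 4)
    push_cast at e1 e2 e3 ⊢
    have key : 24 * (((3 * u + 10).choose 4 : ℤ) - 7 * ((2 * u + 7).choose 4 : ℤ) +
        21 * ((u + 4).choose 4 : ℤ)) = -(336 * (u : ℤ) ^ 0 + 640 * (u : ℤ) ^ 1 + 398 * (u : ℤ) ^ 2 + 104 * (u : ℤ) ^ 3 + 10 * (u : ℤ) ^ 4) := by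
      linear_combination e1 - 7 * e2 + 21 * e3
    linarith only [key, h0]
  · obtain ⟨u, rfl⟩ : ∃ u, d = 3 * (u + 7) + 1 := ⟨d / 3 - 7, by omega⟩
    rw [show 4 + (3 * (u + 7) + 1) = 3 * u + 26 by ring,
      show 4 + 2 * (3 * (u + 7) + 1) / 3 - 1 = 2 * u + 17 by omega,
      show 4 + (2 * (2 * (3 * (u + 7) + 1) / 3) - (3 * (u + 7) + 1)) - 2 = u + 8 by omega]
    have h0 : (0 : ℤ) < 5760 * (u : ℤ) ^ 0 + 8960 * (u : ℤ) ^ 1 + 2630 * (u : ℤ) ^ 2 + 280 * (u : ℤ) ^ 3 + 10 * (u : ℤ) ^ 4 := by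
      clear h hd
      positivity
    have e1 := choose4 (3 * u + 26)
    have e2 := choose4 (2 * u + 17)
    have e3 := choose4 (u + 8)
    push_cast at e1 e2 e3 ⊢
    have key : 24 * (((3 * u + 26).choose 4 : ℤ) - 7 * ((2 * u + 17).choose 4 : ℤ) +
        21 * ((u + 8).choose 4 : ℤ)) = -(5760 * (u : ℤ) ^ 0 + 8960 * (u : ℤ) ^ 1 + 2630 * (u : ℤ) ^ 2 + 280 * (u : ℤ) ^ 3 + 10 * (u : ℤ) ^ 4) := by
      linear_combination e1 - 7 * e2 + 21 * e3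
    linarith only [key, h0]
  · obtain ⟨u, rfl⟩ : ∃ u, d = 3 * (u + 4) + 2 := ⟨d / 3 - 4, by omega⟩
    rw [show 4 + (3 * (u + 4) + 2) = 3 * u + 18 by ring,
      show 4 + 2 * (3 * (u + 4) + 2) / 3 - 1 = 2 * u + 12 by omega,
      show 4 + (2 * (2 * (3 * (u + 4) + 2) / 3) - (3 * (u + 4) + 2)) - 2 = u + 6 by omega]
    have h0 : (0 : ℤ) < 2160 * (u : ℤ) ^ 0 + 3252 * (u : ℤ) ^ 1 + 1274 * (u : ℤ) ^ 2 + 192 * (u : ℤ) ^ 3 + 10 * (u : ℤ) ^ 4 := by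
      clear h hd
      positivity
    have e1 := choose4 (3 * u + 18)
    have e2 := choose4 (2 * u + 12)
    have e3 := choose4 (u + 6)
    push_cast at e1 e2 e3 ⊢
    have key : 24 * (((3 * u + 18).choose 4 : ℤ) - 7 * ((2 * u + 12).choose 4 : ℤ) +
        21 * ((u + 6).choose 4 : ℤ)) = -(2160 * (u : ℤ) ^ 0 + 3252 * (u : ℤ) ^ 1 + 1274 * (u : ℤ) ^ 2 + 192 * (u : ℤ) ^ 3 + 10 * (u : ℤ) ^ 4) := by
      linear_combination e1 - 7 * e2 + 21 * e3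
    linarith only [key, h0]

theorem all_4_7 {d m : ℕ} (hd : 3 ≤ d) (h2 : d + 2 ≤ 2 * m) (h3 : 2 * d + 3 < 3 * m + 4) :
    ldim 4 d (fun _ : Fin 7 => m) = 0 := by
  rcases Nat.lt_or_ge d 20 with h | h
  · interval_cases d
    · exact special_4_7_3 h2
    · exact ldim_zero (fun _ => 3) (fun _ => by omega) (by
        rw [lvdim_const]
        decide +kernel)
    · exact ldim_zero (fun _ => 4) (fun _ => by omega) (by
        rw [lvdim_const]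
        decide +kernel)
    · exact ldim_zero (fun _ => 4) (fun _ => by omega) (by
        rw [lvdim_const]
        decide +kernel)
    · exact ldim_zero (fun _ => 5) (fun _ => by omega) (by
        rw [lvdim_const]
        decide +kernel)
    · exact ldim_zero (fun _ => 6) (fun _ => by omega) (by
        rw [lvdim_const]
        decide +kernel)
    · exact ldim_zero (fun _ => 6) (fun _ => by omega) (by
        rw [lvdim_const]
        decide +kernel)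
    · exact ldim_zero (fun _ => 7) (fun _ => by omega) (by
        rw [lvdim_const]
        decide +kernel)
    · exact ldim_zero (fun _ => 8) (fun _ => by omega) (by
        rw [lvdim_const]
        decide +kernel)
    · exact ldim_zero (fun _ => 8) (fun _ => by omega) (by
        rw [lvdim_const]
        decide +kernel)
    · exact ldim_zero (fun _ => 9) (fun _ => by omega) (by
        rw [lvdim_const]
        decide +kernel)
    · exact ldim_zero (fun _ => 10) (fun _ => by omega) (by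
        rw [lvdim_const]
        decide +kernel)
    · exact ldim_zero (fun _ => 10) (fun _ => by omega) (by
        rw [lvdim_const]
        decide +kernel)
    · exact ldim_zero (fun _ => 11) (fun _ => by omega) (by
        rw [lvdim_const]
        decide +kernel)
    · exact ldim_zero (fun _ => 12) (fun _ => by omega) (by
        rw [lvdim_const]
        decide +kernel)
    · exact ldim_zero (fun _ => 12) (fun _ => by omega) (by
        rw [lvdim_const]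
        decide +kernel)
    · exact ldim_zero (fun _ => 13) (fun _ => by omega) (by
        rw [lvdim_const]
        decide +kernel)
  · exact ldim_zero (fun _ => 2 * d / 3) (fun _ => by omega) (big_4_7 h)

theorem big_4_8 {d : ℕ} (hd : 11 ≤ d) :
    lvdim 4 d (fun _ : Fin 8 => 2 * d / 3) < 0 := by
  rw [lvdim_pairs (by norm_num) (fun c hc hcn => by
    rcases (by omega : c = 3 ∨ c = 4) with rfl | rfl <;> omega),
    show ((8 : ℕ).choose 2 : ℤ) = 28 by decide +kernel]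
  rcases (by omega : d % 3 = 0 ∨ d % 3 = 1 ∨ d % 3 = 2) with h | h | h
  · obtain ⟨u, rfl⟩ : ∃ u, d = 3 * (u + 1) + 0 := ⟨d / 3 - 1, by omega⟩
    rw [show 4 + (3 * (u + 1) + 0) = 3 * u + 7 by ring,
      show 4 + 2 * (3 * (u + 1) + 0) / 3 - 1 = 2 * u + 5 by omega,
      show 4 + (2 * (2 * (3 * (u + 1) + 0) / 3) - (3 * (u + 1) + 0)) - 2 = u + 3 by omega]
    have h0 : (0 : ℤ) < 120 * (u : ℤ) ^ 0 + 382 * (u : ℤ) ^ 1 + 353 * (u : ℤ) ^ 2 + 134 * (u : ℤ) ^ 3 + 19 * (u : ℤ) ^ 4 := by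
      clear h hd
      positivity
    have e1 := choose4 (3 * u + 7)
    have e2 := choose4 (2 * u + 5)
    have e3 := choose4 (u + 3)
    push_cast at e1 e2 e3 ⊢
    have key : 24 * (((3 * u + 7).choose 4 : ℤ) - 8 * ((2 * u + 5).choose 4 : ℤ) +
        28 * ((u + 3).choose 4 : ℤ)) = -(120 * (u : ℤ) ^ 0 + 382 * (u : ℤ) ^ 1 + 353 * (u : ℤ) ^ 2 + 134 * (u : ℤ) ^ 3 + 19 * (u : ℤ) ^ 4) := by
      linear_combination e1 - 8 * e2 + 28 * e3
    linarith only [key, h0]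
  · obtain ⟨u, rfl⟩ : ∃ u, d = 3 * (u + 4) + 1 := ⟨d / 3 - 4, by omega⟩
    rw [show 4 + (3 * (u + 4) + 1) = 3 * u + 17 by ring,
      show 4 + 2 * (3 * (u + 4) + 1) / 3 - 1 = 2 * u + 11 by omega,
      show 4 + (2 * (2 * (3 * (u + 4) + 1) / 3) - (3 * (u + 4) + 1)) - 2 = u + 5 by omega]
    have h0 : (0 : ℤ) < 2880 * (u : ℤ) ^ 0 + 5346 * (u : ℤ) ^ 1 + 2309 * (u : ℤ) ^ 2 + 366 * (u : ℤ) ^ 3 + 19 * (u : ℤ) ^ 4 := by
      clear h hd
      positivity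
    have e1 := choose4 (3 * u + 17)
    have e2 := choose4 (2 * u + 11)
    have e3 := choose4 (u + 5)
    push_cast at e1 e2 e3 ⊢
    have key : 24 * (((3 * u + 17).choose 4 : ℤ) - 8 * ((2 * u + 11).choose 4 : ℤ) +
        28 * ((u + 5).choose 4 : ℤ)) = -(2880 * (u : ℤ) ^ 0 + 5346 * (u : ℤ) ^ 1 + 2309 * (u : ℤ) ^ 2 + 366 * (u : ℤ) ^ 3 + 19 * (u : ℤ) ^ 4) := by
      linear_combination e1 - 8 * e2 + 28 * e3
    linarith only [key, h0]
  · obtain ⟨u, rfl⟩ : ∃ u, d = 3 * (u + 2) + 2 := ⟨d / 3 - 2, by omega⟩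
    rw [show 4 + (3 * (u + 2) + 2) = 3 * u + 12 by ring,
      show 4 + 2 * (3 * (u + 2) + 2) / 3 - 1 = 2 * u + 8 by omega,
      show 4 + (2 * (2 * (3 * (u + 2) + 2) / 3) - (3 * (u + 2) + 2)) - 2 = u + 4 by omega]
    have h0 : (0 : ℤ) < 888 * (u : ℤ) ^ 0 + 1922 * (u : ℤ) ^ 1 + 1121 * (u : ℤ) ^ 2 + 250 * (u : ℤ) ^ 3 + 19 * (u : ℤ) ^ 4 := by
      clear h hd
      positivity
    have e1 := choose4 (3 * u + 12)
    have e2 := choose4 (2 * u + 8)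
    have e3 := choose4 (u + 4)
    push_cast at e1 e2 e3 ⊢
    have key : 24 * (((3 * u + 12).choose 4 : ℤ) - 8 * ((2 * u + 8).choose 4 : ℤ) +
        28 * ((u + 4).choose 4 : ℤ)) = -(888 * (u : ℤ) ^ 0 + 1922 * (u : ℤ) ^ 1 + 1121 * (u : ℤ) ^ 2 + 250 * (u : ℤ) ^ 3 + 19 * (u : ℤ) ^ 4) := by
      linear_combination e1 - 8 * e2 + 28 * e3
    linarith only [key, h0]

theorem all_4_8 {d m : ℕ} (hd : 3 ≤ d) (h2 : d + 2 ≤ 2 * m) (h3 : 2 * d + 3 < 3 * m + 4) :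
    ldim 4 d (fun _ : Fin 8 => m) = 0 := by
  rcases Nat.lt_or_ge d 11 with h | h
  · interval_cases d
    · exact ldim_zero (fun _ => 3) (fun _ => by omega) (by
        rw [lvdim_const]
        decide +kernel)
    · exact ldim_zero (fun _ => 3) (fun _ => by omega) (by
        rw [lvdim_const]
        decide +kernel)
    · exact ldim_zero (fun _ => 4) (fun _ => by omega) (by
        rw [lvdim_const]
        decide +kernel)
    · exact ldim_zero (fun _ => 4) (fun _ => by omega) (by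
        rw [lvdim_const]
        decide +kernel)
    · exact ldim_zero (fun _ => 5) (fun _ => by omega) (by
        rw [lvdim_const]
        decide +kernel)
    · exact ldim_zero (fun _ => 6) (fun _ => by omega) (by
        rw [lvdim_const]
        decide +kernel)
    · exact ldim_zero (fun _ => 6) (fun _ => by omega) (by
        rw [lvdim_const]
        decide +kernel)
    · exact ldim_zero (fun _ => 7) (fun _ => by omega) (by
        rw [lvdim_const]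
        decide +kernel)
  · exact ldim_zero (fun _ => 2 * d / 3) (fun _ => by omega) (big_4_8 h)

theorem big_4_9 {d : ℕ} (hd : 8 ≤ d) :
    lvdim 4 d (fun _ : Fin 9 => 2 * d / 3) < 0 := by
  rw [lvdim_pairs (by norm_num) (fun c hc hcn => by
    rcases (by omega : c = 3 ∨ c = 4) with rfl | rfl <;> omega),
    show ((9 : ℕ).choose 2 : ℤ) = 36 by decide +kernel]
  rcases (by omega : d % 3 = 0 ∨ d % 3 = 1 ∨ d % 3 = 2) with h | h | h
  · obtain ⟨u, rfl⟩ : ∃ u, d = 3 * (u + 1) + 0 := ⟨d / 3 - 1, by omega⟩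
    rw [show 4 + (3 * (u + 1) + 0) = 3 * u + 7 by ring,
      show 4 + 2 * (3 * (u + 1) + 0) / 3 - 1 = 2 * u + 5 by omega,
      show 4 + (2 * (2 * (3 * (u + 1) + 0) / 3) - (3 * (u + 1) + 0)) - 2 = u + 3 by omega]
    have h0 : (0 : ℤ) < 240 * (u : ℤ) ^ 0 + 642 * (u : ℤ) ^ 1 + 549 * (u : ℤ) ^ 2 + 198 * (u : ℤ) ^ 3 + 27 * (u : ℤ) ^ 4 := by
      clear h hd
      positivity
    have e1 := choose4 (3 * u + 7)
    have e2 := choose4 (2 * u + 5)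
    have e3 := choose4 (u + 3)
    push_cast at e1 e2 e3 ⊢
    have key : 24 * (((3 * u + 7).choose 4 : ℤ) - 9 * ((2 * u + 5).choose 4 : ℤ) +
        36 * ((u + 3).choose 4 : ℤ)) = -(240 * (u : ℤ) ^ 0 + 642 * (u : ℤ) ^ 1 + 549 * (u : ℤ) ^ 2 + 198 * (u : ℤ) ^ 3 + 27 * (u : ℤ) ^ 4) := by
      linear_combination e1 - 9 * e2 + 36 * e3
    linarith only [key, h0]
  · obtain ⟨u, rfl⟩ : ∃ u, d = 3 * (u + 3) + 1 := ⟨d / 3 - 3, by omega⟩
    rw [show 4 + (3 * (u + 3) + 1) = 3 * u + 14 by ring,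
      show 4 + 2 * (3 * (u + 3) + 1) / 3 - 1 = 2 * u + 9 by omega,
      show 4 + (2 * (2 * (3 * (u + 3) + 1) / 3) - (3 * (u + 3) + 1)) - 2 = u + 4 by omega]
    have h0 : (0 : ℤ) < 2328 * (u : ℤ) ^ 0 + 4650 * (u : ℤ) ^ 1 + 2385 * (u : ℤ) ^ 2 + 450 * (u : ℤ) ^ 3 + 27 * (u : ℤ) ^ 4 := by
      clear h hd
      positivity
    have e1 := choose4 (3 * u + 14)
    have e2 := choose4 (2 * u + 9)
    have e3 := choose4 (u + 4)
    push_cast at e1 e2 e3 ⊢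
    have key : 24 * (((3 * u + 14).choose 4 : ℤ) - 9 * ((2 * u + 9).choose 4 : ℤ) +
        36 * ((u + 4).choose 4 : ℤ)) = -(2328 * (u : ℤ) ^ 0 + 4650 * (u : ℤ) ^ 1 + 2385 * (u : ℤ) ^ 2 + 450 * (u : ℤ) ^ 3 + 27 * (u : ℤ) ^ 4) := by
      linear_combination e1 - 9 * e2 + 36 * e3
    linarith only [key, h0]
  · obtain ⟨u, rfl⟩ : ∃ u, d = 3 * (u + 1) + 2 := ⟨d / 3 - 1, by omega⟩
    rw [show 4 + (3 * (u + 1) + 2) = 3 * u + 9 by ring,
      show 4 + 2 * (3 * (u + 1) + 2) / 3 - 1 = 2 * u + 6 by omega,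
      show 4 + (2 * (2 * (3 * (u + 1) + 2) / 3) - (3 * (u + 1) + 2)) - 2 = u + 3 by omega]
    have h0 : (0 : ℤ) < 216 * (u : ℤ) ^ 0 + 990 * (u : ℤ) ^ 1 + 873 * (u : ℤ) ^ 2 + 270 * (u : ℤ) ^ 3 + 27 * (u : ℤ) ^ 4 := by
      clear h hd
      positivity
    have e1 := choose4 (3 * u + 9)
    have e2 := choose4 (2 * u + 6)
    have e3 := choose4 (u + 3)
    push_cast at e1 e2 e3 ⊢
    have key : 24 * (((3 * u + 9).choose 4 : ℤ) - 9 * ((2 * u + 6).choose 4 : ℤ) +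
        36 * ((u + 3).choose 4 : ℤ)) = -(216 * (u : ℤ) ^ 0 + 990 * (u : ℤ) ^ 1 + 873 * (u : ℤ) ^ 2 + 270 * (u : ℤ) ^ 3 + 27 * (u : ℤ) ^ 4) := by
      linear_combination e1 - 9 * e2 + 36 * e3
    linarith only [key, h0]

theorem all_4_9 {d m : ℕ} (hd : 3 ≤ d) (h2 : d + 2 ≤ 2 * m) (h3 : 2 * d + 3 < 3 * m + 4) :
    ldim 4 d (fun _ : Fin 9 => m) = 0 := by
  rcases Nat.lt_or_ge d 8 with h | h
  · interval_cases d
    · exact ldim_zero (fun _ => 3) (fun _ => by omega) (by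
        rw [lvdim_const]
        decide +kernel)
    · exact ldim_zero (fun _ => 3) (fun _ => by omega) (by
        rw [lvdim_const]
        decide +kernel)
    · exact ldim_zero (fun _ => 4) (fun _ => by omega) (by
        rw [lvdim_const]
        decide +kernel)
    · exact ldim_zero (fun _ => 4) (fun _ => by omega) (by
        rw [lvdim_const]
        decide +kernel)
    · exact ldim_zero (fun _ => 5) (fun _ => by omega) (by
        rw [lvdim_const]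
        decide +kernel)
  · exact ldim_zero (fun _ => 2 * d / 3) (fun _ => by omega) (big_4_9 h)

theorem big_4_10 {d : ℕ} (hd : 5 ≤ d) :
    lvdim 4 d (fun _ : Fin 10 => 2 * d / 3) < 0 := by
  rw [lvdim_pairs (by norm_num) (fun c hc hcn => by
    rcases (by omega : c = 3 ∨ c = 4) with rfl | rfl <;> omega),
    show ((10 : ℕ).choose 2 : ℤ) = 45 by decide +kernel]
  rcases (by omega : d % 3 = 0 ∨ d % 3 = 1 ∨ d % 3 = 2) with h | h | h
  · obtain ⟨u, rfl⟩ : ∃ u, d = 3 * (u + 1) + 0 := ⟨d / 3 - 1, by omega⟩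
    rw [show 4 + (3 * (u + 1) + 0) = 3 * u + 7 by ring,
      show 4 + 2 * (3 * (u + 1) + 0) / 3 - 1 = 2 * u + 5 by omega,
      show 4 + (2 * (2 * (3 * (u + 1) + 0) / 3) - (3 * (u + 1) + 0)) - 2 = u + 3 by omega]
    have h0 : (0 : ℤ) < 360 * (u : ℤ) ^ 0 + 896 * (u : ℤ) ^ 1 + 734 * (u : ℤ) ^ 2 + 256 * (u : ℤ) ^ 3 + 34 * (u : ℤ) ^ 4 := by
      clear h hd
      positivity
    have e1 := choose4 (3 * u + 7)
    have e2 := choose4 (2 * u + 5)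
    have e3 := choose4 (u + 3)
    push_cast at e1 e2 e3 ⊢
    have key : 24 * (((3 * u + 7).choose 4 : ℤ) - 10 * ((2 * u + 5).choose 4 : ℤ) +
        45 * ((u + 3).choose 4 : ℤ)) = -(360 * (u : ℤ) ^ 0 + 896 * (u : ℤ) ^ 1 + 734 * (u : ℤ) ^ 2 + 256 * (u : ℤ) ^ 3 + 34 * (u : ℤ) ^ 4) := by
      linear_combination e1 - 10 * e2 + 45 * e3
    linarith only [key, h0]
  · obtain ⟨u, rfl⟩ : ∃ u, d = 3 * (u + 2) + 1 := ⟨d / 3 - 2, by omega⟩
    rw [show 4 + (3 * (u + 2) + 1) = 3 * u + 11 by ring,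
      show 4 + 2 * (3 * (u + 2) + 1) / 3 - 1 = 2 * u + 7 by omega,
      show 4 + (2 * (2 * (3 * (u + 2) + 1) / 3) - (3 * (u + 2) + 1)) - 2 = u + 3 by omega]
    have h0 : (0 : ℤ) < 480 * (u : ℤ) ^ 0 + 2344 * (u : ℤ) ^ 1 + 1814 * (u : ℤ) ^ 2 + 464 * (u : ℤ) ^ 3 + 34 * (u : ℤ) ^ 4 := by
      clear h hd
      positivity
    have e1 := choose4 (3 * u + 11)
    have e2 := choose4 (2 * u + 7)
    have e3 := choose4 (u + 3)
    push_cast at e1 e2 e3 ⊢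
    have key : 24 * (((3 * u + 11).choose 4 : ℤ) - 10 * ((2 * u + 7).choose 4 : ℤ) +
        45 * ((u + 3).choose 4 : ℤ)) = -(480 * (u : ℤ) ^ 0 + 2344 * (u : ℤ) ^ 1 + 1814 * (u : ℤ) ^ 2 + 464 * (u : ℤ) ^ 3 + 34 * (u : ℤ) ^ 4) := by
      linear_combination e1 - 10 * e2 + 45 * e3
    linarith only [key, h0]
  · obtain ⟨u, rfl⟩ : ∃ u, d = 3 * (u + 1) + 2 := ⟨d / 3 - 1, by omega⟩
    rw [show 4 + (3 * (u + 1) + 2) = 3 * u + 9 by ring,
      show 4 + 2 * (3 * (u + 1) + 2) / 3 - 1 = 2 * u + 6 by omega,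
      show 4 + (2 * (2 * (3 * (u + 1) + 2) / 3) - (3 * (u + 1) + 2)) - 2 = u + 3 by omega]
    have h0 : (0 : ℤ) < 576 * (u : ℤ) ^ 0 + 1620 * (u : ℤ) ^ 1 + 1250 * (u : ℤ) ^ 2 + 360 * (u : ℤ) ^ 3 + 34 * (u : ℤ) ^ 4 := by
      clear h hd
      positivity
    have e1 := choose4 (3 * u + 9)
    have e2 := choose4 (2 * u + 6)
    have e3 := choose4 (u + 3)
    push_cast at e1 e2 e3 ⊢
    have key : 24 * (((3 * u + 9).choose 4 : ℤ) - 10 * ((2 * u + 6).choose 4 : ℤ) +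
        45 * ((u + 3).choose 4 : ℤ)) = -(576 * (u : ℤ) ^ 0 + 1620 * (u : ℤ) ^ 1 + 1250 * (u : ℤ) ^ 2 + 360 * (u : ℤ) ^ 3 + 34 * (u : ℤ) ^ 4) := by
      linear_combination e1 - 10 * e2 + 45 * e3
    linarith only [key, h0]

theorem all_4_10 {d m : ℕ} (hd : 3 ≤ d) (h2 : d + 2 ≤ 2 * m) (h3 : 2 * d + 3 < 3 * m + 4) :
    ldim 4 d (fun _ : Fin 10 => m) = 0 := by
  rcases Nat.lt_or_ge d 5 with h | h
  · interval_cases d
    · exact ldim_zero (fun _ => 3) (fun _ => by omega) (by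
        rw [lvdim_const]
        decide +kernel)
    · exact ldim_zero (fun _ => 3) (fun _ => by omega) (by
        rw [lvdim_const]
        decide +kernel)
  · exact ldim_zero (fun _ => 2 * d / 3) (fun _ => by omega) (big_4_10 h)

theorem big_4_11 {d : ℕ} (hd : 5 ≤ d) :
    lvdim 4 d (fun _ : Fin 11 => 2 * d / 3) < 0 := by
  rw [lvdim_pairs (by norm_num) (fun c hc hcn => by
    rcases (by omega : c = 3 ∨ c = 4) with rfl | rfl <;> omega),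
    show ((11 : ℕ).choose 2 : ℤ) = 55 by decide +kernel]
  rcases (by omega : d % 3 = 0 ∨ d % 3 = 1 ∨ d % 3 = 2) with h | h | h
  · obtain ⟨u, rfl⟩ : ∃ u, d = 3 * (u + 1) + 0 := ⟨d / 3 - 1, by omega⟩
    rw [show 4 + (3 * (u + 1) + 0) = 3 * u + 7 by ring,
      show 4 + 2 * (3 * (u + 1) + 0) / 3 - 1 = 2 * u + 5 by omega,
      show 4 + (2 * (2 * (3 * (u + 1) + 0) / 3) - (3 * (u + 1) + 0)) - 2 = u + 3 by omega]
    have h0 : (0 : ℤ) < 480 * (u : ℤ) ^ 0 + 1144 * (u : ℤ) ^ 1 + 908 * (u : ℤ) ^ 2 + 308 * (u : ℤ) ^ 3 + 40 * (u : ℤ) ^ 4 := by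
      clear h hd
      positivity
    have e1 := choose4 (3 * u + 7)
    have e2 := choose4 (2 * u + 5)
    have e3 := choose4 (u + 3)
    push_cast at e1 e2 e3 ⊢
    have key : 24 * (((3 * u + 7).choose 4 : ℤ) - 11 * ((2 * u + 5).choose 4 : ℤ) +
        55 * ((u + 3).choose 4 : ℤ)) = -(480 * (u : ℤ) ^ 0 + 1144 * (u : ℤ) ^ 1 + 908 * (u : ℤ) ^ 2 + 308 * (u : ℤ) ^ 3 + 40 * (u : ℤ) ^ 4) := by
      linear_combination e1 - 11 * e2 + 55 * e3
    linarith only [key, h0]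
  · obtain ⟨u, rfl⟩ : ∃ u, d = 3 * (u + 2) + 1 := ⟨d / 3 - 2, by omega⟩
    rw [show 4 + (3 * (u + 2) + 1) = 3 * u + 11 by ring,
      show 4 + 2 * (3 * (u + 2) + 1) / 3 - 1 = 2 * u + 7 by omega,
      show 4 + (2 * (2 * (3 * (u + 2) + 1) / 3) - (3 * (u + 2) + 1)) - 2 = u + 3 by omega]
    have h0 : (0 : ℤ) < 1320 * (u : ℤ) ^ 0 + 3560 * (u : ℤ) ^ 1 + 2420 * (u : ℤ) ^ 2 + 580 * (u : ℤ) ^ 3 + 40 * (u : ℤ) ^ 4 := by
      clear h hd
      positivity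
    have e1 := choose4 (3 * u + 11)
    have e2 := choose4 (2 * u + 7)
    have e3 := choose4 (u + 3)
    push_cast at e1 e2 e3 ⊢
    have key : 24 * (((3 * u + 11).choose 4 : ℤ) - 11 * ((2 * u + 7).choose 4 : ℤ) +
        55 * ((u + 3).choose 4 : ℤ)) = -(1320 * (u : ℤ) ^ 0 + 3560 * (u : ℤ) ^ 1 + 2420 * (u : ℤ) ^ 2 + 580 * (u : ℤ) ^ 3 + 40 * (u : ℤ) ^ 4) := by
      linear_combination e1 - 11 * e2 + 55 * e3
    linarith only [key, h0]
  · obtain ⟨u, rfl⟩ : ∃ u, d = 3 * (u + 1) + 2 := ⟨d / 3 - 1, by omega⟩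
    rw [show 4 + (3 * (u + 1) + 2) = 3 * u + 9 by ring,
      show 4 + 2 * (3 * (u + 1) + 2) / 3 - 1 = 2 * u + 6 by omega,
      show 4 + (2 * (2 * (3 * (u + 1) + 2) / 3) - (3 * (u + 1) + 2)) - 2 = u + 3 by omega]
    have h0 : (0 : ℤ) < 936 * (u : ℤ) ^ 0 + 2244 * (u : ℤ) ^ 1 + 1616 * (u : ℤ) ^ 2 + 444 * (u : ℤ) ^ 3 + 40 * (u : ℤ) ^ 4 := by
      clear h hd
      positivity
    have e1 := choose4 (3 * u + 9)
    have e2 := choose4 (2 * u + 6)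
    have e3 := choose4 (u + 3)
    push_cast at e1 e2 e3 ⊢
    have key : 24 * (((3 * u + 9).choose 4 : ℤ) - 11 * ((2 * u + 6).choose 4 : ℤ) +
        55 * ((u + 3).choose 4 : ℤ)) = -(936 * (u : ℤ) ^ 0 + 2244 * (u : ℤ) ^ 1 + 1616 * (u : ℤ) ^ 2 + 444 * (u : ℤ) ^ 3 + 40 * (u : ℤ) ^ 4) := by
      linear_combination e1 - 11 * e2 + 55 * e3
    linarith only [key, h0]

theorem all_4_11 {d m : ℕ} (hd : 3 ≤ d) (h2 : d + 2 ≤ 2 * m) (h3 : 2 * d + 3 < 3 * m + 4) :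
    ldim 4 d (fun _ : Fin 11 => m) = 0 := by
  rcases Nat.lt_or_ge d 5 with h | h
  · interval_cases d
    · exact ldim_zero (fun _ => 3) (fun _ => by omega) (by
        rw [lvdim_const]
        decide +kernel)
    · exact ldim_zero (fun _ => 3) (fun _ => by omega) (by
        rw [lvdim_const]
        decide +kernel)
  · exact ldim_zero (fun _ => 2 * d / 3) (fun _ => by omega) (big_4_11 h)

theorem big_4_12 {d : ℕ} (hd : 5 ≤ d) :
    lvdim 4 d (fun _ : Fin 12 => 2 * d / 3) < 0 := by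
  rw [lvdim_pairs (by norm_num) (fun c hc hcn => by
    rcases (by omega : c = 3 ∨ c = 4) with rfl | rfl <;> omega),
    show ((12 : ℕ).choose 2 : ℤ) = 66 by decide +kernel]
  rcases (by omega : d % 3 = 0 ∨ d % 3 = 1 ∨ d % 3 = 2) with h | h | h
  · obtain ⟨u, rfl⟩ : ∃ u, d = 3 * (u + 1) + 0 := ⟨d / 3 - 1, by omega⟩
    rw [show 4 + (3 * (u + 1) + 0) = 3 * u + 7 by ring,
      show 4 + 2 * (3 * (u + 1) + 0) / 3 - 1 = 2 * u + 5 by omega,
      show 4 + (2 * (2 * (3 * (u + 1) + 0) / 3) - (3 * (u + 1) + 0)) - 2 = u + 3 by omega]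
    have h0 : (0 : ℤ) < 600 * (u : ℤ) ^ 0 + 1386 * (u : ℤ) ^ 1 + 1071 * (u : ℤ) ^ 2 + 354 * (u : ℤ) ^ 3 + 45 * (u : ℤ) ^ 4 := by
      clear h hd
      positivity
    have e1 := choose4 (3 * u + 7)
    have e2 := choose4 (2 * u + 5)
    have e3 := choose4 (u + 3)
    push_cast at e1 e2 e3 ⊢
    have key : 24 * (((3 * u + 7).choose 4 : ℤ) - 12 * ((2 * u + 5).choose 4 : ℤ) +
        66 * ((u + 3).choose 4 : ℤ)) = -(600 * (u : ℤ) ^ 0 + 1386 * (u : ℤ) ^ 1 + 1071 * (u : ℤ) ^ 2 + 354 * (u : ℤ) ^ 3 + 45 * (u : ℤ) ^ 4) := by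
      linear_combination e1 - 12 * e2 + 66 * e3
    linarith only [key, h0]
  · obtain ⟨u, rfl⟩ : ∃ u, d = 3 * (u + 2) + 1 := ⟨d / 3 - 2, by omega⟩
    rw [show 4 + (3 * (u + 2) + 1) = 3 * u + 11 by ring,
      show 4 + 2 * (3 * (u + 2) + 1) / 3 - 1 = 2 * u + 7 by omega,
      show 4 + (2 * (2 * (3 * (u + 2) + 1) / 3) - (3 * (u + 2) + 1)) - 2 = u + 3 by omega]
    have h0 : (0 : ℤ) < 2160 * (u : ℤ) ^ 0 + 4770 * (u : ℤ) ^ 1 + 3015 * (u : ℤ) ^ 2 + 690 * (u : ℤ) ^ 3 + 45 * (u : ℤ) ^ 4 := by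
      clear h hd
      positivity
    have e1 := choose4 (3 * u + 11)
    have e2 := choose4 (2 * u + 7)
    have e3 := choose4 (u + 3)
    push_cast at e1 e2 e3 ⊢
    have key : 24 * (((3 * u + 11).choose 4 : ℤ) - 12 * ((2 * u + 7).choose 4 : ℤ) +
        66 * ((u + 3).choose 4 : ℤ)) = -(2160 * (u : ℤ) ^ 0 + 4770 * (u : ℤ) ^ 1 + 3015 * (u : ℤ) ^ 2 + 690 * (u : ℤ) ^ 3 + 45 * (u : ℤ) ^ 4) := by
      linear_combination e1 - 12 * e2 + 66 * e3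
    linarith only [key, h0]
  · obtain ⟨u, rfl⟩ : ∃ u, d = 3 * (u + 1) + 2 := ⟨d / 3 - 1, by omega⟩
    rw [show 4 + (3 * (u + 1) + 2) = 3 * u + 9 by ring,
      show 4 + 2 * (3 * (u + 1) + 2) / 3 - 1 = 2 * u + 6 by omega,
      show 4 + (2 * (2 * (3 * (u + 1) + 2) / 3) - (3 * (u + 1) + 2)) - 2 = u + 3 by omega]
    have h0 : (0 : ℤ) < 1296 * (u : ℤ) ^ 0 + 2862 * (u : ℤ) ^ 1 + 1971 * (u : ℤ) ^ 2 + 522 * (u : ℤ) ^ 3 + 45 * (u : ℤ) ^ 4 := by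
      clear h hd
      positivity
    have e1 := choose4 (3 * u + 9)
    have e2 := choose4 (2 * u + 6)
    have e3 := choose4 (u + 3)
    push_cast at e1 e2 e3 ⊢
    have key : 24 * (((3 * u + 9).choose 4 : ℤ) - 12 * ((2 * u + 6).choose 4 : ℤ) +
        66 * ((u + 3).choose 4 : ℤ)) = -(1296 * (u : ℤ) ^ 0 + 2862 * (u : ℤ) ^ 1 + 1971 * (u : ℤ) ^ 2 + 522 * (u : ℤ) ^ 3 + 45 * (u : ℤ) ^ 4) := by
      linear_combination e1 - 12 * e2 + 66 * e3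
    linarith only [key, h0]

theorem all_4_12 {d m : ℕ} (hd : 3 ≤ d) (h2 : d + 2 ≤ 2 * m) (h3 : 2 * d + 3 < 3 * m + 4) :
    ldim 4 d (fun _ : Fin 12 => m) = 0 := by
  rcases Nat.lt_or_ge d 5 with h | h
  · interval_cases d
    · exact ldim_zero (fun _ => 3) (fun _ => by omega) (by
        rw [lvdim_const]
        decide +kernel)
    · exact ldim_zero (fun _ => 3) (fun _ => by omega) (by
        rw [lvdim_const]
        decide +kernel)
  · exact ldim_zero (fun _ => 2 * d / 3) (fun _ => by omega) (big_4_12 h)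

theorem big_4_13 {d : ℕ} (hd : 5 ≤ d) :
    lvdim 4 d (fun _ : Fin 13 => 2 * d / 3) < 0 := by
  rw [lvdim_pairs (by norm_num) (fun c hc hcn => by
    rcases (by omega : c = 3 ∨ c = 4) with rfl | rfl <;> omega),
    show ((13 : ℕ).choose 2 : ℤ) = 78 by decide +kernel]
  rcases (by omega : d % 3 = 0 ∨ d % 3 = 1 ∨ d % 3 = 2) with h | h | h
  · obtain ⟨u, rfl⟩ : ∃ u, d = 3 * (u + 1) + 0 := ⟨d / 3 - 1, by omega⟩
    rw [show 4 + (3 * (u + 1) + 0) = 3 * u + 7 by ring,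
      show 4 + 2 * (3 * (u + 1) + 0) / 3 - 1 = 2 * u + 5 by omega,
      show 4 + (2 * (2 * (3 * (u + 1) + 0) / 3) - (3 * (u + 1) + 0)) - 2 = u + 3 by omega]
    have h0 : (0 : ℤ) < 720 * (u : ℤ) ^ 0 + 1622 * (u : ℤ) ^ 1 + 1223 * (u : ℤ) ^ 2 + 394 * (u : ℤ) ^ 3 + 49 * (u : ℤ) ^ 4 := by
      clear h hd
      positivity
    have e1 := choose4 (3 * u + 7)
    have e2 := choose4 (2 * u + 5)
    have e3 := choose4 (u + 3)
    push_cast at e1 e2 e3 ⊢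
    have key : 24 * (((3 * u + 7).choose 4 : ℤ) - 13 * ((2 * u + 5).choose 4 : ℤ) +
        78 * ((u + 3).choose 4 : ℤ)) = -(720 * (u : ℤ) ^ 0 + 1622 * (u : ℤ) ^ 1 + 1223 * (u : ℤ) ^ 2 + 394 * (u : ℤ) ^ 3 + 49 * (u : ℤ) ^ 4) := by
      linear_combination e1 - 13 * e2 + 78 * e3
    linarith only [key, h0]
  · obtain ⟨u, rfl⟩ : ∃ u, d = 3 * (u + 2) + 1 := ⟨d / 3 - 2, by omega⟩
    rw [show 4 + (3 * (u + 2) + 1) = 3 * u + 11 by ring,
      show 4 + 2 * (3 * (u + 2) + 1) / 3 - 1 = 2 * u + 7 by omega,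
      show 4 + (2 * (2 * (3 * (u + 2) + 1) / 3) - (3 * (u + 2) + 1)) - 2 = u + 3 by omega]
    have h0 : (0 : ℤ) < 3000 * (u : ℤ) ^ 0 + 5974 * (u : ℤ) ^ 1 + 3599 * (u : ℤ) ^ 2 + 794 * (u : ℤ) ^ 3 + 49 * (u : ℤ) ^ 4 := by
      clear h hd
      positivity
    have e1 := choose4 (3 * u + 11)
    have e2 := choose4 (2 * u + 7)
    have e3 := choose4 (u + 3)
    push_cast at e1 e2 e3 ⊢
    have key : 24 * (((3 * u + 11).choose 4 : ℤ) - 13 * ((2 * u + 7).choose 4 : ℤ) +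
        78 * ((u + 3).choose 4 : ℤ)) = -(3000 * (u : ℤ) ^ 0 + 5974 * (u : ℤ) ^ 1 + 3599 * (u : ℤ) ^ 2 + 794 * (u : ℤ) ^ 3 + 49 * (u : ℤ) ^ 4) := by
      linear_combination e1 - 13 * e2 + 78 * e3
    linarith only [key, h0]
  · obtain ⟨u, rfl⟩ : ∃ u, d = 3 * (u + 1) + 2 := ⟨d / 3 - 1, by omega⟩
    rw [show 4 + (3 * (u + 1) + 2) = 3 * u + 9 by ring,
      show 4 + 2 * (3 * (u + 1) + 2) / 3 - 1 = 2 * u + 6 by omega,
      show 4 + (2 * (2 * (3 * (u + 1) + 2) / 3) - (3 * (u + 1) + 2)) - 2 = u + 3 by omega]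
    have h0 : (0 : ℤ) < 1656 * (u : ℤ) ^ 0 + 3474 * (u : ℤ) ^ 1 + 2315 * (u : ℤ) ^ 2 + 594 * (u : ℤ) ^ 3 + 49 * (u : ℤ) ^ 4 := by
      clear h hd
      positivity
    have e1 := choose4 (3 * u + 9)
    have e2 := choose4 (2 * u + 6)
    have e3 := choose4 (u + 3)
    push_cast at e1 e2 e3 ⊢
    have key : 24 * (((3 * u + 9).choose 4 : ℤ) - 13 * ((2 * u + 6).choose 4 : ℤ) +
        78 * ((u + 3).choose 4 : ℤ)) = -(1656 * (u : ℤ) ^ 0 + 3474 * (u : ℤ) ^ 1 + 2315 * (u : ℤ) ^ 2 + 594 * (u : ℤ) ^ 3 + 49 * (u : ℤ) ^ 4) := by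
      linear_combination e1 - 13 * e2 + 78 * e3
    linarith only [key, h0]

theorem all_4_13 {d m : ℕ} (hd : 3 ≤ d) (h2 : d + 2 ≤ 2 * m) (h3 : 2 * d + 3 < 3 * m + 4) :
    ldim 4 d (fun _ : Fin 13 => m) = 0 := by
  rcases Nat.lt_or_ge d 5 with h | h
  · interval_cases d
    · exact ldim_zero (fun _ => 3) (fun _ => by omega) (by
        rw [lvdim_const]
        decide +kernel)
    · exact ldim_zero (fun _ => 3) (fun _ => by omega) (by
        rw [lvdim_const]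
        decide +kernel)
  · exact ldim_zero (fun _ => 2 * d / 3) (fun _ => by omega) (big_4_13 h)

theorem big_4_14 {d : ℕ} (hd : 5 ≤ d) :
    lvdim 4 d (fun _ : Fin 14 => 2 * d / 3) < 0 := by
  rw [lvdim_pairs (by norm_num) (fun c hc hcn => by
    rcases (by omega : c = 3 ∨ c = 4) with rfl | rfl <;> omega),
    show ((14 : ℕ).choose 2 : ℤ) = 91 by decide +kernel]
  rcases (by omega : d % 3 = 0 ∨ d % 3 = 1 ∨ d % 3 = 2) with h | h | h
  · obtain ⟨u, rfl⟩ : ∃ u, d = 3 * (u + 1) + 0 := ⟨d / 3 - 1, by omega⟩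
    rw [show 4 + (3 * (u + 1) + 0) = 3 * u + 7 by ring,
      show 4 + 2 * (3 * (u + 1) + 0) / 3 - 1 = 2 * u + 5 by omega,
      show 4 + (2 * (2 * (3 * (u + 1) + 0) / 3) - (3 * (u + 1) + 0)) - 2 = u + 3 by omega]
    have h0 : (0 : ℤ) < 840 * (u : ℤ) ^ 0 + 1852 * (u : ℤ) ^ 1 + 1364 * (u : ℤ) ^ 2 + 428 * (u : ℤ) ^ 3 + 52 * (u : ℤ) ^ 4 := by
      clear h hd
      positivity
    have e1 := choose4 (3 * u + 7)
    have e2 := choose4 (2 * u + 5)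
    have e3 := choose4 (u + 3)
    push_cast at e1 e2 e3 ⊢
    have key : 24 * (((3 * u + 7).choose 4 : ℤ) - 14 * ((2 * u + 5).choose 4 : ℤ) +
        91 * ((u + 3).choose 4 : ℤ)) = -(840 * (u : ℤ) ^ 0 + 1852 * (u : ℤ) ^ 1 + 1364 * (u : ℤ) ^ 2 + 428 * (u : ℤ) ^ 3 + 52 * (u : ℤ) ^ 4) := by
      linear_combination e1 - 14 * e2 + 91 * e3
    linarith only [key, h0]
  · obtain ⟨u, rfl⟩ : ∃ u, d = 3 * (u + 2) + 1 := ⟨d / 3 - 2, by omega⟩
    rw [show 4 + (3 * (u + 2) + 1) = 3 * u + 11 by ring,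
      show 4 + 2 * (3 * (u + 2) + 1) / 3 - 1 = 2 * u + 7 by omega,
      show 4 + (2 * (2 * (3 * (u + 2) + 1) / 3) - (3 * (u + 2) + 1)) - 2 = u + 3 by omega]
    have h0 : (0 : ℤ) < 3840 * (u : ℤ) ^ 0 + 7172 * (u : ℤ) ^ 1 + 4172 * (u : ℤ) ^ 2 + 892 * (u : ℤ) ^ 3 + 52 * (u : ℤ) ^ 4 := by
      clear h hd
      positivity
    have e1 := choose4 (3 * u + 11)
    have e2 := choose4 (2 * u + 7)
    have e3 := choose4 (u + 3)
    push_cast at e1 e2 e3 ⊢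
    have key : 24 * (((3 * u + 11).choose 4 : ℤ) - 14 * ((2 * u + 7).choose 4 : ℤ) +
        91 * ((u + 3).choose 4 : ℤ)) = -(3840 * (u : ℤ) ^ 0 + 7172 * (u : ℤ) ^ 1 + 4172 * (u : ℤ) ^ 2 + 892 * (u : ℤ) ^ 3 + 52 * (u : ℤ) ^ 4) := by
      linear_combination e1 - 14 * e2 + 91 * e3
    linarith only [key, h0]
  · obtain ⟨u, rfl⟩ : ∃ u, d = 3 * (u + 1) + 2 := ⟨d / 3 - 1, by omega⟩
    rw [show 4 + (3 * (u + 1) + 2) = 3 * u + 9 by ring,
      show 4 + 2 * (3 * (u + 1) + 2) / 3 - 1 = 2 * u + 6 by omega,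
      show 4 + (2 * (2 * (3 * (u + 1) + 2) / 3) - (3 * (u + 1) + 2)) - 2 = u + 3 by omega]
    have h0 : (0 : ℤ) < 2016 * (u : ℤ) ^ 0 + 4080 * (u : ℤ) ^ 1 + 2648 * (u : ℤ) ^ 2 + 660 * (u : ℤ) ^ 3 + 52 * (u : ℤ) ^ 4 := by
      clear h hd
      positivity
    have e1 := choose4 (3 * u + 9)
    have e2 := choose4 (2 * u + 6)
    have e3 := choose4 (u + 3)
    push_cast at e1 e2 e3 ⊢
    have key : 24 * (((3 * u + 9).choose 4 : ℤ) - 14 * ((2 * u + 6).choose 4 : ℤ) +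
        91 * ((u + 3).choose 4 : ℤ)) = -(2016 * (u : ℤ) ^ 0 + 4080 * (u : ℤ) ^ 1 + 2648 * (u : ℤ) ^ 2 + 660 * (u : ℤ) ^ 3 + 52 * (u : ℤ) ^ 4) := by
      linear_combination e1 - 14 * e2 + 91 * e3
    linarith only [key, h0]

theorem all_4_14 {d m : ℕ} (hd : 3 ≤ d) (h2 : d + 2 ≤ 2 * m) (h3 : 2 * d + 3 < 3 * m + 4) :
    ldim 4 d (fun _ : Fin 14 => m) = 0 := by
  rcases Nat.lt_or_ge d 5 with h | h
  · interval_cases d
    · exact ldim_zero (fun _ => 3) (fun _ => by omega) (by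
        rw [lvdim_const]
        decide +kernel)
    · exact ldim_zero (fun _ => 3) (fun _ => by omega) (by
        rw [lvdim_const]
        decide +kernel)
  · exact ldim_zero (fun _ => 2 * d / 3) (fun _ => by omega) (big_4_14 h)

theorem big_4_15 {d : ℕ} (hd : 3 ≤ d) :
    lvdim 4 d (fun _ : Fin 15 => 2 * d / 3) < 0 := by
  rw [lvdim_pairs (by norm_num) (fun c hc hcn => by
    rcases (by omega : c = 3 ∨ c = 4) with rfl | rfl <;> omega),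
    show ((15 : ℕ).choose 2 : ℤ) = 105 by decide +kernel]
  rcases (by omega : d % 3 = 0 ∨ d % 3 = 1 ∨ d % 3 = 2) with h | h | h
  · obtain ⟨u, rfl⟩ : ∃ u, d = 3 * (u + 1) + 0 := ⟨d / 3 - 1, by omega⟩
    rw [show 4 + (3 * (u + 1) + 0) = 3 * u + 7 by ring,
      show 4 + 2 * (3 * (u + 1) + 0) / 3 - 1 = 2 * u + 5 by omega,
      show 4 + (2 * (2 * (3 * (u + 1) + 0) / 3) - (3 * (u + 1) + 0)) - 2 = u + 3 by omega]
    have h0 : (0 : ℤ) < 960 * (u : ℤ) ^ 0 + 2076 * (u : ℤ) ^ 1 + 1494 * (u : ℤ) ^ 2 + 456 * (u : ℤ) ^ 3 + 54 * (u : ℤ) ^ 4 := by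
      clear h hd
      positivity
    have e1 := choose4 (3 * u + 7)
    have e2 := choose4 (2 * u + 5)
    have e3 := choose4 (u + 3)
    push_cast at e1 e2 e3 ⊢
    have key : 24 * (((3 * u + 7).choose 4 : ℤ) - 15 * ((2 * u + 5).choose 4 : ℤ) +
        105 * ((u + 3).choose 4 : ℤ)) = -(960 * (u : ℤ) ^ 0 + 2076 * (u : ℤ) ^ 1 + 1494 * (u : ℤ) ^ 2 + 456 * (u : ℤ) ^ 3 + 54 * (u : ℤ) ^ 4) := by
      linear_combination e1 - 15 * e2 + 105 * e3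
    linarith only [key, h0]
  · obtain ⟨u, rfl⟩ : ∃ u, d = 3 * (u + 1) + 1 := ⟨d / 3 - 1, by omega⟩
    rw [show 4 + (3 * (u + 1) + 1) = 3 * u + 8 by ring,
      show 4 + 2 * (3 * (u + 1) + 1) / 3 - 1 = 2 * u + 5 by omega,
      show 4 + (2 * (2 * (3 * (u + 1) + 1) / 3) - (3 * (u + 1) + 1)) - 2 = u + 2 by omega]
    have h0 : (0 : ℤ) < 120 * (u : ℤ) ^ 0 + 1632 * (u : ℤ) ^ 1 + 2106 * (u : ℤ) ^ 2 + 768 * (u : ℤ) ^ 3 + 54 * (u : ℤ) ^ 4 := by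
      clear h hd
      positivity
    have e1 := choose4 (3 * u + 8)
    have e2 := choose4 (2 * u + 5)
    have e3 := choose4 (u + 2)
    push_cast at e1 e2 e3 ⊢
    have key : 24 * (((3 * u + 8).choose 4 : ℤ) - 15 * ((2 * u + 5).choose 4 : ℤ) +
        105 * ((u + 2).choose 4 : ℤ)) = -(120 * (u : ℤ) ^ 0 + 1632 * (u : ℤ) ^ 1 + 2106 * (u : ℤ) ^ 2 + 768 * (u : ℤ) ^ 3 + 54 * (u : ℤ) ^ 4) := by
      linear_combination e1 - 15 * e2 + 105 * e3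
    linarith only [key, h0]
  · obtain ⟨u, rfl⟩ : ∃ u, d = 3 * (u + 1) + 2 := ⟨d / 3 - 1, by omega⟩
    rw [show 4 + (3 * (u + 1) + 2) = 3 * u + 9 by ring,
      show 4 + 2 * (3 * (u + 1) + 2) / 3 - 1 = 2 * u + 6 by omega,
      show 4 + (2 * (2 * (3 * (u + 1) + 2) / 3) - (3 * (u + 1) + 2)) - 2 = u + 3 by omega]
    have h0 : (0 : ℤ) < 2376 * (u : ℤ) ^ 0 + 4680 * (u : ℤ) ^ 1 + 2970 * (u : ℤ) ^ 2 + 720 * (u : ℤ) ^ 3 + 54 * (u : ℤ) ^ 4 := by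
      clear h hd
      positivity
    have e1 := choose4 (3 * u + 9)
    have e2 := choose4 (2 * u + 6)
    have e3 := choose4 (u + 3)
    push_cast at e1 e2 e3 ⊢
    have key : 24 * (((3 * u + 9).choose 4 : ℤ) - 15 * ((2 * u + 6).choose 4 : ℤ) +
        105 * ((u + 3).choose 4 : ℤ)) = -(2376 * (u : ℤ) ^ 0 + 4680 * (u : ℤ) ^ 1 + 2970 * (u : ℤ) ^ 2 + 720 * (u : ℤ) ^ 3 + 54 * (u : ℤ) ^ 4) := by
      linear_combination e1 - 15 * e2 + 105 * e3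
    linarith only [key, h0]

theorem all_4_15 {d m : ℕ} (hd : 3 ≤ d) (h2 : d + 2 ≤ 2 * m) (h3 : 2 * d + 3 < 3 * m + 4) :
    ldim 4 d (fun _ : Fin 15 => m) = 0 := by
  exact ldim_zero (fun _ => 2 * d / 3) (fun _ => by omega) (big_4_15 hd)

end Pool.Agent.TH142.WF
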