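import Pool.Agent.TH142.WF.SixA

set_option autoImplicit false
set_option maxHeartbeats 4000000

/-!
# Empty systems in low dimension
-/

namespace Pool.Agent.TH142.WF

theorem big_6_18 {d : ℕ} (hd : 8 ≤ d) :
    lvdim 6 d (fun _ : Fin 18 => 2 * d / 3) < 0 := by
  rw [lvdim_pairs (by norm_num) (fun c hc hcn => by
    rcases (by omega : c = 3 ∨ c = 4 ∨ c = 5 ∨ c = 6) with rfl | rfl | rfl | rfl <;> omega),
    show ((18 : ℕ).choose 2 : ℤ) = 153 by decide +kernel]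
  rcases (by omega : d % 3 = 0 ∨ d % 3 = 1 ∨ d % 3 = 2) with h | h | h
  · obtain ⟨u, rfl⟩ : ∃ u, d = 3 * (u + 1) + 0 := ⟨d / 3 - 1, by omega⟩
    rw [show 6 + (3 * (u + 1) + 0) = 3 * u + 9 by ring,
      show 6 + 2 * (3 * (u + 1) + 0) / 3 - 1 = 2 * u + 7 by omega,
      show 6 + (2 * (2 * (3 * (u + 1) + 0) / 3) - (3 * (u + 1) + 0)) - 2 = u + 5 by omega]
    have h0 : (0 : ℤ) < 30240 * (u : ℤ) ^ 0 + 90000 * (u : ℤ) ^ 1 + 104400 * (u : ℤ) ^ 2 + 63180 * (u : ℤ) ^ 3 + 21330 * (u : ℤ) ^ 4 + 3780 * (u : ℤ) ^ 5 + 270 * (u : ℤ) ^ 6 := by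
      clear h hd
      positivity
    have e1 := choose6 (3 * u + 9)
    have e2 := choose6 (2 * u + 7)
    have e3 := choose6 (u + 5)
    push_cast at e1 e2 e3 ⊢
    have key : 720 * (((3 * u + 9).choose 6 : ℤ) - 18 * ((2 * u + 7).choose 6 : ℤ) +
        153 * ((u + 5).choose 6 : ℤ)) = -(30240 * (u : ℤ) ^ 0 + 90000 * (u : ℤ) ^ 1 + 104400 * (u : ℤ) ^ 2 + 63180 * (u : ℤ) ^ 3 + 21330 * (u : ℤ) ^ 4 + 3780 * (u : ℤ) ^ 5 + 270 * (u : ℤ) ^ 6) := by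
      linear_combination e1 - 18 * e2 + 153 * e3
    linarith only [key, h0]
  · obtain ⟨u, rfl⟩ : ∃ u, d = 3 * (u + 3) + 1 := ⟨d / 3 - 3, by omega⟩
    rw [show 6 + (3 * (u + 3) + 1) = 3 * u + 16 by ring,
      show 6 + 2 * (3 * (u + 3) + 1) / 3 - 1 = 2 * u + 11 by omega,
      show 6 + (2 * (2 * (3 * (u + 3) + 1) / 3) - (3 * (u + 3) + 1)) - 2 = u + 6 by omega]
    have h0 : (0 : ℤ) < 111600 * (u : ℤ) ^ 0 + 736020 * (u : ℤ) ^ 1 + 719190 * (u : ℤ) ^ 2 + 297540 * (u : ℤ) ^ 3 + 62100 * (u : ℤ) ^ 4 + 6480 * (u : ℤ) ^ 5 + 270 * (u : ℤ) ^ 6 := by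
      clear h hd
      positivity
    have e1 := choose6 (3 * u + 16)
    have e2 := choose6 (2 * u + 11)
    have e3 := choose6 (u + 6)
    push_cast at e1 e2 e3 ⊢
    have key : 720 * (((3 * u + 16).choose 6 : ℤ) - 18 * ((2 * u + 11).choose 6 : ℤ) +
        153 * ((u + 6).choose 6 : ℤ)) = -(111600 * (u : ℤ) ^ 0 + 736020 * (u : ℤ) ^ 1 + 719190 * (u : ℤ) ^ 2 + 297540 * (u : ℤ) ^ 3 + 62100 * (u : ℤ) ^ 4 + 6480 * (u : ℤ) ^ 5 + 270 * (u : ℤ) ^ 6) := by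
      linear_combination e1 - 18 * e2 + 153 * e3
    linarith only [key, h0]
  · obtain ⟨u, rfl⟩ : ∃ u, d = 3 * (u + 1) + 2 := ⟨d / 3 - 1, by omega⟩
    rw [show 6 + (3 * (u + 1) + 2) = 3 * u + 11 by ring,
      show 6 + 2 * (3 * (u + 1) + 2) / 3 - 1 = 2 * u + 8 by omega,
      show 6 + (2 * (2 * (3 * (u + 1) + 2) / 3) - (3 * (u + 1) + 2)) - 2 = u + 5 by omega]
    have h0 : (0 : ℤ) < 30240 * (u : ℤ) ^ 0 + 130500 * (u : ℤ) ^ 1 + 162450 * (u : ℤ) ^ 2 + 93420 * (u : ℤ) ^ 3 + 28080 * (u : ℤ) ^ 4 + 4320 * (u : ℤ) ^ 5 + 270 * (u : ℤ) ^ 6 := by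
      clear h hd
      positivity
    have e1 := choose6 (3 * u + 11)
    have e2 := choose6 (2 * u + 8)
    have e3 := choose6 (u + 5)
    push_cast at e1 e2 e3 ⊢
    have key : 720 * (((3 * u + 11).choose 6 : ℤ) - 18 * ((2 * u + 8).choose 6 : ℤ) +
        153 * ((u + 5).choose 6 : ℤ)) = -(30240 * (u : ℤ) ^ 0 + 130500 * (u : ℤ) ^ 1 + 162450 * (u : ℤ) ^ 2 + 93420 * (u : ℤ) ^ 3 + 28080 * (u : ℤ) ^ 4 + 4320 * (u : ℤ) ^ 5 + 270 * (u : ℤ) ^ 6) := by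
      linear_combination e1 - 18 * e2 + 153 * e3
    linarith only [key, h0]

theorem all_6_18 {d m : ℕ} (hd : 3 ≤ d) (h2 : d + 2 ≤ 2 * m) (h3 : 2 * d + 3 < 3 * m + 6) :
    ldim 6 d (fun _ : Fin 18 => m) = 0 := by
  rcases Nat.lt_or_ge d 8 with h | h
  · interval_cases d
    · exact ldim_zero (fun _ => 3) (fun _ => by omega) (by
        rw [lvdim_const]
        decide +kernel)
    · exact ldim_zero (fun _ => 3) (fun _ => by omega) (by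
        rw [lvdim_const]
        decide +kernel)
    · exact ldim_zero (fun _ => 3) (fun _ => by omega) (by
        rw [lvdim_const]
        decide +kernel)
    · exact ldim_zero (fun _ => 4) (fun _ => by omega) (by
        rw [lvdim_const]
        decide +kernel)
    · exact ldim_zero (fun _ => 5) (fun _ => by omega) (by
        rw [lvdim_const]
        decide +kernel)
  · exact ldim_zero (fun _ => 2 * d / 3) (fun _ => by omega) (big_6_18 h)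

theorem big_6_19 {d : ℕ} (hd : 8 ≤ d) :
    lvdim 6 d (fun _ : Fin 19 => 2 * d / 3) < 0 := by
  rw [lvdim_pairs (by norm_num) (fun c hc hcn => by
    rcases (by omega : c = 3 ∨ c = 4 ∨ c = 5 ∨ c = 6) with rfl | rfl | rfl | rfl <;> omega),
    show ((19 : ℕ).choose 2 : ℤ) = 171 by decide +kernel]
  rcases (by omega : d % 3 = 0 ∨ d % 3 = 1 ∨ d % 3 = 2) with h | h | h
  · obtain ⟨u, rfl⟩ : ∃ u, d = 3 * (u + 1) + 0 := ⟨d / 3 - 1, by omega⟩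
    rw [show 6 + (3 * (u + 1) + 0) = 3 * u + 9 by ring,
      show 6 + 2 * (3 * (u + 1) + 0) / 3 - 1 = 2 * u + 7 by omega,
      show 6 + (2 * (2 * (3 * (u + 1) + 0) / 3) - (3 * (u + 1) + 0)) - 2 = u + 5 by omega]
    have h0 : (0 : ℤ) < 35280 * (u : ℤ) ^ 0 + 103896 * (u : ℤ) ^ 1 + 119884 * (u : ℤ) ^ 2 + 72450 * (u : ℤ) ^ 3 + 24520 * (u : ℤ) ^ 4 + 4374 * (u : ℤ) ^ 5 + 316 * (u : ℤ) ^ 6 := by
      clear h hd
      positivity
    have e1 := choose6 (3 * u + 9)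
    have e2 := choose6 (2 * u + 7)
    have e3 := choose6 (u + 5)
    push_cast at e1 e2 e3 ⊢
    have key : 720 * (((3 * u + 9).choose 6 : ℤ) - 19 * ((2 * u + 7).choose 6 : ℤ) +
        171 * ((u + 5).choose 6 : ℤ)) = -(35280 * (u : ℤ) ^ 0 + 103896 * (u : ℤ) ^ 1 + 119884 * (u : ℤ) ^ 2 + 72450 * (u : ℤ) ^ 3 + 24520 * (u : ℤ) ^ 4 + 4374 * (u : ℤ) ^ 5 + 316 * (u : ℤ) ^ 6) := by
      linear_combination e1 - 19 * e2 + 171 * e3
    linarith only [key, h0]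
  · obtain ⟨u, rfl⟩ : ∃ u, d = 3 * (u + 3) + 1 := ⟨d / 3 - 3, by omega⟩
    rw [show 6 + (3 * (u + 3) + 1) = 3 * u + 16 by ring,
      show 6 + 2 * (3 * (u + 3) + 1) / 3 - 1 = 2 * u + 11 by omega,
      show 6 + (2 * (2 * (3 * (u + 3) + 1) / 3) - (3 * (u + 3) + 1)) - 2 = u + 6 by omega]
    have h0 : (0 : ℤ) < 431280 * (u : ℤ) ^ 0 + 1194276 * (u : ℤ) ^ 1 + 988054 * (u : ℤ) ^ 2 + 380190 * (u : ℤ) ^ 3 + 76150 * (u : ℤ) ^ 4 + 7734 * (u : ℤ) ^ 5 + 316 * (u : ℤ) ^ 6 := by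
      clear h hd
      positivity
    have e1 := choose6 (3 * u + 16)
    have e2 := choose6 (2 * u + 11)
    have e3 := choose6 (u + 6)
    push_cast at e1 e2 e3 ⊢
    have key : 720 * (((3 * u + 16).choose 6 : ℤ) - 19 * ((2 * u + 11).choose 6 : ℤ) +
        171 * ((u + 6).choose 6 : ℤ)) = -(431280 * (u : ℤ) ^ 0 + 1194276 * (u : ℤ) ^ 1 + 988054 * (u : ℤ) ^ 2 + 380190 * (u : ℤ) ^ 3 + 76150 * (u : ℤ) ^ 4 + 7734 * (u : ℤ) ^ 5 + 316 * (u : ℤ) ^ 6) := by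
      linear_combination e1 - 19 * e2 + 171 * e3
    linarith only [key, h0]
  · obtain ⟨u, rfl⟩ : ∃ u, d = 3 * (u + 1) + 2 := ⟨d / 3 - 1, by omega⟩
    rw [show 6 + (3 * (u + 1) + 2) = 3 * u + 11 by ring,
      show 6 + 2 * (3 * (u + 1) + 2) / 3 - 1 = 2 * u + 8 by omega,
      show 6 + (2 * (2 * (3 * (u + 1) + 2) / 3) - (3 * (u + 1) + 2)) - 2 = u + 5 by omega]
    have h0 : (0 : ℤ) < 50400 * (u : ℤ) ^ 0 + 177444 * (u : ℤ) ^ 1 + 206134 * (u : ℤ) ^ 2 + 114450 * (u : ℤ) ^ 3 + 33670 * (u : ℤ) ^ 4 + 5106 * (u : ℤ) ^ 5 + 316 * (u : ℤ) ^ 6 := by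
      clear h hd
      positivity
    have e1 := choose6 (3 * u + 11)
    have e2 := choose6 (2 * u + 8)
    have e3 := choose6 (u + 5)
    push_cast at e1 e2 e3 ⊢
    have key : 720 * (((3 * u + 11).choose 6 : ℤ) - 19 * ((2 * u + 8).choose 6 : ℤ) +
        171 * ((u + 5).choose 6 : ℤ)) = -(50400 * (u : ℤ) ^ 0 + 177444 * (u : ℤ) ^ 1 + 206134 * (u : ℤ) ^ 2 + 114450 * (u : ℤ) ^ 3 + 33670 * (u : ℤ) ^ 4 + 5106 * (u : ℤ) ^ 5 + 316 * (u : ℤ) ^ 6) := by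
      linear_combination e1 - 19 * e2 + 171 * e3
    linarith only [key, h0]

theorem all_6_19 {d m : ℕ} (hd : 3 ≤ d) (h2 : d + 2 ≤ 2 * m) (h3 : 2 * d + 3 < 3 * m + 6) :
    ldim 6 d (fun _ : Fin 19 => m) = 0 := by
  rcases Nat.lt_or_ge d 8 with h | h
  · interval_cases d
    · exact ldim_zero (fun _ => 3) (fun _ => by omega) (by
        rw [lvdim_const]
        decide +kernel)
    · exact ldim_zero (fun _ => 3) (fun _ => by omega) (by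
        rw [lvdim_const]
        decide +kernel)
    · exact ldim_zero (fun _ => 3) (fun _ => by omega) (by
        rw [lvdim_const]
        decide +kernel)
    · exact ldim_zero (fun _ => 4) (fun _ => by omega) (by
        rw [lvdim_const]
        decide +kernel)
    · exact ldim_zero (fun _ => 5) (fun _ => by omega) (by
        rw [lvdim_const]
        decide +kernel)
  · exact ldim_zero (fun _ => 2 * d / 3) (fun _ => by omega) (big_6_19 h)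

theorem big_6_20 {d : ℕ} (hd : 8 ≤ d) :
    lvdim 6 d (fun _ : Fin 20 => 2 * d / 3) < 0 := by
  rw [lvdim_pairs (by norm_num) (fun c hc hcn => by
    rcases (by omega : c = 3 ∨ c = 4 ∨ c = 5 ∨ c = 6) with rfl | rfl | rfl | rfl <;> omega),
    show ((20 : ℕ).choose 2 : ℤ) = 190 by decide +kernel]
  rcases (by omega : d % 3 = 0 ∨ d % 3 = 1 ∨ d % 3 = 2) with h | h | h
  · obtain ⟨u, rfl⟩ : ∃ u, d = 3 * (u + 1) + 0 := ⟨d / 3 - 1, by omega⟩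
    rw [show 6 + (3 * (u + 1) + 0) = 3 * u + 9 by ring,
      show 6 + 2 * (3 * (u + 1) + 0) / 3 - 1 = 2 * u + 7 by omega,
      show 6 + (2 * (2 * (3 * (u + 1) + 0) / 3) - (3 * (u + 1) + 0)) - 2 = u + 5 by omega]
    have h0 : (0 : ℤ) < 40320 * (u : ℤ) ^ 0 + 117672 * (u : ℤ) ^ 1 + 135094 * (u : ℤ) ^ 2 + 81495 * (u : ℤ) ^ 3 + 27625 * (u : ℤ) ^ 4 + 4953 * (u : ℤ) ^ 5 + 361 * (u : ℤ) ^ 6 := by
      clear h hd
      positivity
    have e1 := choose6 (3 * u + 9)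
    have e2 := choose6 (2 * u + 7)
    have e3 := choose6 (u + 5)
    push_cast at e1 e2 e3 ⊢
    have key : 720 * (((3 * u + 9).choose 6 : ℤ) - 20 * ((2 * u + 7).choose 6 : ℤ) +
        190 * ((u + 5).choose 6 : ℤ)) = -(40320 * (u : ℤ) ^ 0 + 117672 * (u : ℤ) ^ 1 + 135094 * (u : ℤ) ^ 2 + 81495 * (u : ℤ) ^ 3 + 27625 * (u : ℤ) ^ 4 + 4953 * (u : ℤ) ^ 5 + 361 * (u : ℤ) ^ 6) := by
      linear_combination e1 - 20 * e2 + 190 * e3
    linarith only [key, h0]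
  · obtain ⟨u, rfl⟩ : ∃ u, d = 3 * (u + 3) + 1 := ⟨d / 3 - 3, by omega⟩
    rw [show 6 + (3 * (u + 3) + 1) = 3 * u + 16 by ring,
      show 6 + 2 * (3 * (u + 3) + 1) / 3 - 1 = 2 * u + 11 by omega,
      show 6 + (2 * (2 * (3 * (u + 3) + 1) / 3) - (3 * (u + 3) + 1)) - 2 = u + 6 by omega]
    have h0 : (0 : ℤ) < 750240 * (u : ℤ) ^ 0 + 1650768 * (u : ℤ) ^ 1 + 1255294 * (u : ℤ) ^ 2 + 462105 * (u : ℤ) ^ 3 + 90025 * (u : ℤ) ^ 4 + 8967 * (u : ℤ) ^ 5 + 361 * (u : ℤ) ^ 6 := by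
      clear h hd
      positivity
    have e1 := choose6 (3 * u + 16)
    have e2 := choose6 (2 * u + 11)
    have e3 := choose6 (u + 6)
    push_cast at e1 e2 e3 ⊢
    have key : 720 * (((3 * u + 16).choose 6 : ℤ) - 20 * ((2 * u + 11).choose 6 : ℤ) +
        190 * ((u + 6).choose 6 : ℤ)) = -(750240 * (u : ℤ) ^ 0 + 1650768 * (u : ℤ) ^ 1 + 1255294 * (u : ℤ) ^ 2 + 462105 * (u : ℤ) ^ 3 + 90025 * (u : ℤ) ^ 4 + 8967 * (u : ℤ) ^ 5 + 361 * (u : ℤ) ^ 6) := by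
      linear_combination e1 - 20 * e2 + 190 * e3
    linarith only [key, h0]
  · obtain ⟨u, rfl⟩ : ∃ u, d = 3 * (u + 1) + 2 := ⟨d / 3 - 1, by omega⟩
    rw [show 6 + (3 * (u + 1) + 2) = 3 * u + 11 by ring,
      show 6 + 2 * (3 * (u + 1) + 2) / 3 - 1 = 2 * u + 8 by omega,
      show 6 + (2 * (2 * (3 * (u + 1) + 2) / 3) - (3 * (u + 1) + 2)) - 2 = u + 5 by omega]
    have h0 : (0 : ℤ) < 70560 * (u : ℤ) ^ 0 + 224268 * (u : ℤ) ^ 1 + 249544 * (u : ℤ) ^ 2 + 135255 * (u : ℤ) ^ 3 + 39175 * (u : ℤ) ^ 4 + 5877 * (u : ℤ) ^ 5 + 361 * (u : ℤ) ^ 6 := by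
      clear h hd
      positivity
    have e1 := choose6 (3 * u + 11)
    have e2 := choose6 (2 * u + 8)
    have e3 := choose6 (u + 5)
    push_cast at e1 e2 e3 ⊢
    have key : 720 * (((3 * u + 11).choose 6 : ℤ) - 20 * ((2 * u + 8).choose 6 : ℤ) +
        190 * ((u + 5).choose 6 : ℤ)) = -(70560 * (u : ℤ) ^ 0 + 224268 * (u : ℤ) ^ 1 + 249544 * (u : ℤ) ^ 2 + 135255 * (u : ℤ) ^ 3 + 39175 * (u : ℤ) ^ 4 + 5877 * (u : ℤ) ^ 5 + 361 * (u : ℤ) ^ 6) := by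
      linear_combination e1 - 20 * e2 + 190 * e3
    linarith only [key, h0]

theorem all_6_20 {d m : ℕ} (hd : 3 ≤ d) (h2 : d + 2 ≤ 2 * m) (h3 : 2 * d + 3 < 3 * m + 6) :
    ldim 6 d (fun _ : Fin 20 => m) = 0 := by
  rcases Nat.lt_or_ge d 8 with h | h
  · interval_cases d
    · exact ldim_zero (fun _ => 3) (fun _ => by omega) (by
        rw [lvdim_const]
        decide +kernel)
    · exact ldim_zero (fun _ => 3) (fun _ => by omega) (by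
        rw [lvdim_const]
        decide +kernel)
    · exact ldim_zero (fun _ => 3) (fun _ => by omega) (by
        rw [lvdim_const]
        decide +kernel)
    · exact ldim_zero (fun _ => 4) (fun _ => by omega) (by
        rw [lvdim_const]
        decide +kernel)
    · exact ldim_zero (fun _ => 5) (fun _ => by omega) (by
        rw [lvdim_const]
        decide +kernel)
  · exact ldim_zero (fun _ => 2 * d / 3) (fun _ => by omega) (big_6_20 h)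

theorem big_6_21 {d : ℕ} (hd : 5 ≤ d) :
    lvdim 6 d (fun _ : Fin 21 => 2 * d / 3) < 0 := by
  rw [lvdim_pairs (by norm_num) (fun c hc hcn => by
    rcases (by omega : c = 3 ∨ c = 4 ∨ c = 5 ∨ c = 6) with rfl | rfl | rfl | rfl <;> omega),
    show ((21 : ℕ).choose 2 : ℤ) = 210 by decide +kernel]
  rcases (by omega : d % 3 = 0 ∨ d % 3 = 1 ∨ d % 3 = 2) with h | h | h
  · obtain ⟨u, rfl⟩ : ∃ u, d = 3 * (u + 1) + 0 := ⟨d / 3 - 1, by omega⟩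
    rw [show 6 + (3 * (u + 1) + 0) = 3 * u + 9 by ring,
      show 6 + 2 * (3 * (u + 1) + 0) / 3 - 1 = 2 * u + 7 by omega,
      show 6 + (2 * (2 * (3 * (u + 1) + 0) / 3) - (3 * (u + 1) + 0)) - 2 = u + 5 by omega]
    have h0 : (0 : ℤ) < 45360 * (u : ℤ) ^ 0 + 131328 * (u : ℤ) ^ 1 + 150030 * (u : ℤ) ^ 2 + 90315 * (u : ℤ) ^ 3 + 30645 * (u : ℤ) ^ 4 + 5517 * (u : ℤ) ^ 5 + 405 * (u : ℤ) ^ 6 := by
      clear h hd
      positivity
    have e1 := choose6 (3 * u + 9)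
    have e2 := choose6 (2 * u + 7)
    have e3 := choose6 (u + 5)
    push_cast at e1 e2 e3 ⊢
    have key : 720 * (((3 * u + 9).choose 6 : ℤ) - 21 * ((2 * u + 7).choose 6 : ℤ) +
        210 * ((u + 5).choose 6 : ℤ)) = -(45360 * (u : ℤ) ^ 0 + 131328 * (u : ℤ) ^ 1 + 150030 * (u : ℤ) ^ 2 + 90315 * (u : ℤ) ^ 3 + 30645 * (u : ℤ) ^ 4 + 5517 * (u : ℤ) ^ 5 + 405 * (u : ℤ) ^ 6) := by
      linear_combination e1 - 21 * e2 + 210 * e3
    linarith only [key, h0]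
  · obtain ⟨u, rfl⟩ : ∃ u, d = 3 * (u + 2) + 1 := ⟨d / 3 - 2, by omega⟩
    rw [show 6 + (3 * (u + 2) + 1) = 3 * u + 13 by ring,
      show 6 + 2 * (3 * (u + 2) + 1) / 3 - 1 = 2 * u + 9 by omega,
      show 6 + (2 * (2 * (3 * (u + 2) + 1) / 3) - (3 * (u + 2) + 1)) - 2 = u + 5 by omega]
    have h0 : (0 : ℤ) < 34560 * (u : ℤ) ^ 0 + 327096 * (u : ℤ) ^ 1 + 417690 * (u : ℤ) ^ 2 + 222075 * (u : ℤ) ^ 3 + 58905 * (u : ℤ) ^ 4 + 7749 * (u : ℤ) ^ 5 + 405 * (u : ℤ) ^ 6 := by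
      clear h hd
      positivity
    have e1 := choose6 (3 * u + 13)
    have e2 := choose6 (2 * u + 9)
    have e3 := choose6 (u + 5)
    push_cast at e1 e2 e3 ⊢
    have key : 720 * (((3 * u + 13).choose 6 : ℤ) - 21 * ((2 * u + 9).choose 6 : ℤ) +
        210 * ((u + 5).choose 6 : ℤ)) = -(34560 * (u : ℤ) ^ 0 + 327096 * (u : ℤ) ^ 1 + 417690 * (u : ℤ) ^ 2 + 222075 * (u : ℤ) ^ 3 + 58905 * (u : ℤ) ^ 4 + 7749 * (u : ℤ) ^ 5 + 405 * (u : ℤ) ^ 6) := by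
      linear_combination e1 - 21 * e2 + 210 * e3
    linarith only [key, h0]
  · obtain ⟨u, rfl⟩ : ∃ u, d = 3 * (u + 1) + 2 := ⟨d / 3 - 1, by omega⟩
    rw [show 6 + (3 * (u + 1) + 2) = 3 * u + 11 by ring,
      show 6 + 2 * (3 * (u + 1) + 2) / 3 - 1 = 2 * u + 8 by omega,
      show 6 + (2 * (2 * (3 * (u + 1) + 2) / 3) - (3 * (u + 1) + 2)) - 2 = u + 5 by omega]
    have h0 : (0 : ℤ) < 90720 * (u : ℤ) ^ 0 + 270972 * (u : ℤ) ^ 1 + 292680 * (u : ℤ) ^ 2 + 155835 * (u : ℤ) ^ 3 + 44595 * (u : ℤ) ^ 4 + 6633 * (u : ℤ) ^ 5 + 405 * (u : ℤ) ^ 6 := by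
      clear h hd
      positivity
    have e1 := choose6 (3 * u + 11)
    have e2 := choose6 (2 * u + 8)
    have e3 := choose6 (u + 5)
    push_cast at e1 e2 e3 ⊢
    have key : 720 * (((3 * u + 11).choose 6 : ℤ) - 21 * ((2 * u + 8).choose 6 : ℤ) +
        210 * ((u + 5).choose 6 : ℤ)) = -(90720 * (u : ℤ) ^ 0 + 270972 * (u : ℤ) ^ 1 + 292680 * (u : ℤ) ^ 2 + 155835 * (u : ℤ) ^ 3 + 44595 * (u : ℤ) ^ 4 + 6633 * (u : ℤ) ^ 5 + 405 * (u : ℤ) ^ 6) := by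
      linear_combination e1 - 21 * e2 + 210 * e3
    linarith only [key, h0]

theorem all_6_21 {d m : ℕ} (hd : 3 ≤ d) (h2 : d + 2 ≤ 2 * m) (h3 : 2 * d + 3 < 3 * m + 6) :
    ldim 6 d (fun _ : Fin 21 => m) = 0 := by
  rcases Nat.lt_or_ge d 5 with h | h
  · interval_cases d
    · exact ldim_zero (fun _ => 3) (fun _ => by omega) (by
        rw [lvdim_const]
        decide +kernel)
    · exact ldim_zero (fun _ => 3) (fun _ => by omega) (by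
        rw [lvdim_const]
        decide +kernel)
  · exact ldim_zero (fun _ => 2 * d / 3) (fun _ => by omega) (big_6_21 h)

theorem big_6_22 {d : ℕ} (hd : 5 ≤ d) :
    lvdim 6 d (fun _ : Fin 22 => 2 * d / 3) < 0 := by
  rw [lvdim_pairs (by norm_num) (fun c hc hcn => by
    rcases (by omega : c = 3 ∨ c = 4 ∨ c = 5 ∨ c = 6) with rfl | rfl | rfl | rfl <;> omega),
    show ((22 : ℕ).choose 2 : ℤ) = 231 by decide +kernel]
  rcases (by omega : d % 3 = 0 ∨ d % 3 = 1 ∨ d % 3 = 2) with h | h | h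
  · obtain ⟨u, rfl⟩ : ∃ u, d = 3 * (u + 1) + 0 := ⟨d / 3 - 1, by omega⟩
    rw [show 6 + (3 * (u + 1) + 0) = 3 * u + 9 by ring,
      show 6 + 2 * (3 * (u + 1) + 0) / 3 - 1 = 2 * u + 7 by omega,
      show 6 + (2 * (2 * (3 * (u + 1) + 0) / 3) - (3 * (u + 1) + 0)) - 2 = u + 5 by omega]
    have h0 : (0 : ℤ) < 50400 * (u : ℤ) ^ 0 + 144864 * (u : ℤ) ^ 1 + 164692 * (u : ℤ) ^ 2 + 98910 * (u : ℤ) ^ 3 + 33580 * (u : ℤ) ^ 4 + 6066 * (u : ℤ) ^ 5 + 448 * (u : ℤ) ^ 6 := by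
      clear h hd
      positivity
    have e1 := choose6 (3 * u + 9)
    have e2 := choose6 (2 * u + 7)
    have e3 := choose6 (u + 5)
    push_cast at e1 e2 e3 ⊢
    have key : 720 * (((3 * u + 9).choose 6 : ℤ) - 22 * ((2 * u + 7).choose 6 : ℤ) +
        231 * ((u + 5).choose 6 : ℤ)) = -(50400 * (u : ℤ) ^ 0 + 144864 * (u : ℤ) ^ 1 + 164692 * (u : ℤ) ^ 2 + 98910 * (u : ℤ) ^ 3 + 33580 * (u : ℤ) ^ 4 + 6066 * (u : ℤ) ^ 5 + 448 * (u : ℤ) ^ 6) := by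
      linear_combination e1 - 22 * e2 + 231 * e3
    linarith only [key, h0]
  · obtain ⟨u, rfl⟩ : ∃ u, d = 3 * (u + 2) + 1 := ⟨d / 3 - 2, by omega⟩
    rw [show 6 + (3 * (u + 2) + 1) = 3 * u + 13 by ring,
      show 6 + 2 * (3 * (u + 2) + 1) / 3 - 1 = 2 * u + 9 by omega,
      show 6 + (2 * (2 * (3 * (u + 2) + 1) / 3) - (3 * (u + 2) + 1)) - 2 = u + 5 by omega]
    have h0 : (0 : ℤ) < 95040 * (u : ℤ) ^ 0 + 445008 * (u : ℤ) ^ 1 + 510232 * (u : ℤ) ^ 2 + 259470 * (u : ℤ) ^ 3 + 67120 * (u : ℤ) ^ 4 + 8682 * (u : ℤ) ^ 5 + 448 * (u : ℤ) ^ 6 := by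
      clear h hd
      positivity
    have e1 := choose6 (3 * u + 13)
    have e2 := choose6 (2 * u + 9)
    have e3 := choose6 (u + 5)
    push_cast at e1 e2 e3 ⊢
    have key : 720 * (((3 * u + 13).choose 6 : ℤ) - 22 * ((2 * u + 9).choose 6 : ℤ) +
        231 * ((u + 5).choose 6 : ℤ)) = -(95040 * (u : ℤ) ^ 0 + 445008 * (u : ℤ) ^ 1 + 510232 * (u : ℤ) ^ 2 + 259470 * (u : ℤ) ^ 3 + 67120 * (u : ℤ) ^ 4 + 8682 * (u : ℤ) ^ 5 + 448 * (u : ℤ) ^ 6) := by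
      linear_combination e1 - 22 * e2 + 231 * e3
    linarith only [key, h0]
  · obtain ⟨u, rfl⟩ : ∃ u, d = 3 * (u + 1) + 2 := ⟨d / 3 - 1, by omega⟩
    rw [show 6 + (3 * (u + 1) + 2) = 3 * u + 11 by ring,
      show 6 + 2 * (3 * (u + 1) + 2) / 3 - 1 = 2 * u + 8 by omega,
      show 6 + (2 * (2 * (3 * (u + 1) + 2) / 3) - (3 * (u + 1) + 2)) - 2 = u + 5 by omega]
    have h0 : (0 : ℤ) < 110880 * (u : ℤ) ^ 0 + 317556 * (u : ℤ) ^ 1 + 335542 * (u : ℤ) ^ 2 + 176190 * (u : ℤ) ^ 3 + 49930 * (u : ℤ) ^ 4 + 7374 * (u : ℤ) ^ 5 + 448 * (u : ℤ) ^ 6 := by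
      clear h hd
      positivity
    have e1 := choose6 (3 * u + 11)
    have e2 := choose6 (2 * u + 8)
    have e3 := choose6 (u + 5)
    push_cast at e1 e2 e3 ⊢
    have key : 720 * (((3 * u + 11).choose 6 : ℤ) - 22 * ((2 * u + 8).choose 6 : ℤ) +
        231 * ((u + 5).choose 6 : ℤ)) = -(110880 * (u : ℤ) ^ 0 + 317556 * (u : ℤ) ^ 1 + 335542 * (u : ℤ) ^ 2 + 176190 * (u : ℤ) ^ 3 + 49930 * (u : ℤ) ^ 4 + 7374 * (u : ℤ) ^ 5 + 448 * (u : ℤ) ^ 6) := by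
      linear_combination e1 - 22 * e2 + 231 * e3
    linarith only [key, h0]

theorem all_6_22 {d m : ℕ} (hd : 3 ≤ d) (h2 : d + 2 ≤ 2 * m) (h3 : 2 * d + 3 < 3 * m + 6) :
    ldim 6 d (fun _ : Fin 22 => m) = 0 := by
  rcases Nat.lt_or_ge d 5 with h | h
  · interval_cases d
    · exact ldim_zero (fun _ => 3) (fun _ => by omega) (by
        rw [lvdim_const]
        decide +kernel)
    · exact ldim_zero (fun _ => 3) (fun _ => by omega) (by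
        rw [lvdim_const]
        decide +kernel)
  · exact ldim_zero (fun _ => 2 * d / 3) (fun _ => by omega) (big_6_22 h)

theorem big_6_23 {d : ℕ} (hd : 5 ≤ d) :
    lvdim 6 d (fun _ : Fin 23 => 2 * d / 3) < 0 := by
  rw [lvdim_pairs (by norm_num) (fun c hc hcn => by
    rcases (by omega : c = 3 ∨ c = 4 ∨ c = 5 ∨ c = 6) with rfl | rfl | rfl | rfl <;> omega),
    show ((23 : ℕ).choose 2 : ℤ) = 253 by decide +kernel]
  rcases (by omega : d % 3 = 0 ∨ d % 3 = 1 ∨ d % 3 = 2) with h | h | h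
  · obtain ⟨u, rfl⟩ : ∃ u, d = 3 * (u + 1) + 0 := ⟨d / 3 - 1, by omega⟩
    rw [show 6 + (3 * (u + 1) + 0) = 3 * u + 9 by ring,
      show 6 + 2 * (3 * (u + 1) + 0) / 3 - 1 = 2 * u + 7 by omega,
      show 6 + (2 * (2 * (3 * (u + 1) + 0) / 3) - (3 * (u + 1) + 0)) - 2 = u + 5 by omega]
    have h0 : (0 : ℤ) < 55440 * (u : ℤ) ^ 0 + 158280 * (u : ℤ) ^ 1 + 179080 * (u : ℤ) ^ 2 + 107280 * (u : ℤ) ^ 3 + 36430 * (u : ℤ) ^ 4 + 6600 * (u : ℤ) ^ 5 + 490 * (u : ℤ) ^ 6 := by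
      clear h hd
      positivity
    have e1 := choose6 (3 * u + 9)
    have e2 := choose6 (2 * u + 7)
    have e3 := choose6 (u + 5)
    push_cast at e1 e2 e3 ⊢
    have key : 720 * (((3 * u + 9).choose 6 : ℤ) - 23 * ((2 * u + 7).choose 6 : ℤ) +
        253 * ((u + 5).choose 6 : ℤ)) = -(55440 * (u : ℤ) ^ 0 + 158280 * (u : ℤ) ^ 1 + 179080 * (u : ℤ) ^ 2 + 107280 * (u : ℤ) ^ 3 + 36430 * (u : ℤ) ^ 4 + 6600 * (u : ℤ) ^ 5 + 490 * (u : ℤ) ^ 6) := by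
      linear_combination e1 - 23 * e2 + 253 * e3
    linarith only [key, h0]
  · obtain ⟨u, rfl⟩ : ∃ u, d = 3 * (u + 2) + 1 := ⟨d / 3 - 2, by omega⟩
    rw [show 6 + (3 * (u + 2) + 1) = 3 * u + 13 by ring,
      show 6 + 2 * (3 * (u + 2) + 1) / 3 - 1 = 2 * u + 9 by omega,
      show 6 + (2 * (2 * (3 * (u + 2) + 1) / 3) - (3 * (u + 2) + 1)) - 2 = u + 5 by omega]
    have h0 : (0 : ℤ) < 155520 * (u : ℤ) ^ 0 + 562800 * (u : ℤ) ^ 1 + 602500 * (u : ℤ) ^ 2 + 296640 * (u : ℤ) ^ 3 + 75250 * (u : ℤ) ^ 4 + 9600 * (u : ℤ) ^ 5 + 490 * (u : ℤ) ^ 6 := by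
      clear h hd
      positivity
    have e1 := choose6 (3 * u + 13)
    have e2 := choose6 (2 * u + 9)
    have e3 := choose6 (u + 5)
    push_cast at e1 e2 e3 ⊢
    have key : 720 * (((3 * u + 13).choose 6 : ℤ) - 23 * ((2 * u + 9).choose 6 : ℤ) +
        253 * ((u + 5).choose 6 : ℤ)) = -(155520 * (u : ℤ) ^ 0 + 562800 * (u : ℤ) ^ 1 + 602500 * (u : ℤ) ^ 2 + 296640 * (u : ℤ) ^ 3 + 75250 * (u : ℤ) ^ 4 + 9600 * (u : ℤ) ^ 5 + 490 * (u : ℤ) ^ 6) := by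
      linear_combination e1 - 23 * e2 + 253 * e3
    linarith only [key, h0]
  · obtain ⟨u, rfl⟩ : ∃ u, d = 3 * (u + 1) + 2 := ⟨d / 3 - 1, by omega⟩
    rw [show 6 + (3 * (u + 1) + 2) = 3 * u + 11 by ring,
      show 6 + 2 * (3 * (u + 1) + 2) / 3 - 1 = 2 * u + 8 by omega,
      show 6 + (2 * (2 * (3 * (u + 1) + 2) / 3) - (3 * (u + 1) + 2)) - 2 = u + 5 by omega]
    have h0 : (0 : ℤ) < 131040 * (u : ℤ) ^ 0 + 364020 * (u : ℤ) ^ 1 + 378130 * (u : ℤ) ^ 2 + 196320 * (u : ℤ) ^ 3 + 55180 * (u : ℤ) ^ 4 + 8100 * (u : ℤ) ^ 5 + 490 * (u : ℤ) ^ 6 := by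
      clear h hd
      positivity
    have e1 := choose6 (3 * u + 11)
    have e2 := choose6 (2 * u + 8)
    have e3 := choose6 (u + 5)
    push_cast at e1 e2 e3 ⊢
    have key : 720 * (((3 * u + 11).choose 6 : ℤ) - 23 * ((2 * u + 8).choose 6 : ℤ) +
        253 * ((u + 5).choose 6 : ℤ)) = -(131040 * (u : ℤ) ^ 0 + 364020 * (u : ℤ) ^ 1 + 378130 * (u : ℤ) ^ 2 + 196320 * (u : ℤ) ^ 3 + 55180 * (u : ℤ) ^ 4 + 8100 * (u : ℤ) ^ 5 + 490 * (u : ℤ) ^ 6) := by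
      linear_combination e1 - 23 * e2 + 253 * e3
    linarith only [key, h0]

theorem all_6_23 {d m : ℕ} (hd : 3 ≤ d) (h2 : d + 2 ≤ 2 * m) (h3 : 2 * d + 3 < 3 * m + 6) :
    ldim 6 d (fun _ : Fin 23 => m) = 0 := by
  rcases Nat.lt_or_ge d 5 with h | h
  · interval_cases d
    · exact ldim_zero (fun _ => 3) (fun _ => by omega) (by
        rw [lvdim_const]
        decide +kernel)
    · exact ldim_zero (fun _ => 3) (fun _ => by omega) (by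
        rw [lvdim_const]
        decide +kernel)
  · exact ldim_zero (fun _ => 2 * d / 3) (fun _ => by omega) (big_6_23 h)

theorem big_6_24 {d : ℕ} (hd : 5 ≤ d) :
    lvdim 6 d (fun _ : Fin 24 => 2 * d / 3) < 0 := by
  rw [lvdim_pairs (by norm_num) (fun c hc hcn => by
    rcases (by omega : c = 3 ∨ c = 4 ∨ c = 5 ∨ c = 6) with rfl | rfl | rfl | rfl <;> omega),
    show ((24 : ℕ).choose 2 : ℤ) = 276 by decide +kernel]
  rcases (by omega : d % 3 = 0 ∨ d % 3 = 1 ∨ d % 3 = 2) with h | h | h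
  · obtain ⟨u, rfl⟩ : ∃ u, d = 3 * (u + 1) + 0 := ⟨d / 3 - 1, by omega⟩
    rw [show 6 + (3 * (u + 1) + 0) = 3 * u + 9 by ring,
      show 6 + 2 * (3 * (u + 1) + 0) / 3 - 1 = 2 * u + 7 by omega,
      show 6 + (2 * (2 * (3 * (u + 1) + 0) / 3) - (3 * (u + 1) + 0)) - 2 = u + 5 by omega]
    have h0 : (0 : ℤ) < 60480 * (u : ℤ) ^ 0 + 171576 * (u : ℤ) ^ 1 + 193194 * (u : ℤ) ^ 2 + 115425 * (u : ℤ) ^ 3 + 39195 * (u : ℤ) ^ 4 + 7119 * (u : ℤ) ^ 5 + 531 * (u : ℤ) ^ 6 := by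
      clear h hd
      positivity
    have e1 := choose6 (3 * u + 9)
    have e2 := choose6 (2 * u + 7)
    have e3 := choose6 (u + 5)
    push_cast at e1 e2 e3 ⊢
    have key : 720 * (((3 * u + 9).choose 6 : ℤ) - 24 * ((2 * u + 7).choose 6 : ℤ) +
        276 * ((u + 5).choose 6 : ℤ)) = -(60480 * (u : ℤ) ^ 0 + 171576 * (u : ℤ) ^ 1 + 193194 * (u : ℤ) ^ 2 + 115425 * (u : ℤ) ^ 3 + 39195 * (u : ℤ) ^ 4 + 7119 * (u : ℤ) ^ 5 + 531 * (u : ℤ) ^ 6) := by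
      linear_combination e1 - 24 * e2 + 276 * e3
    linarith only [key, h0]
  · obtain ⟨u, rfl⟩ : ∃ u, d = 3 * (u + 2) + 1 := ⟨d / 3 - 2, by omega⟩
    rw [show 6 + (3 * (u + 2) + 1) = 3 * u + 13 by ring,
      show 6 + 2 * (3 * (u + 2) + 1) / 3 - 1 = 2 * u + 9 by omega,
      show 6 + (2 * (2 * (3 * (u + 2) + 1) / 3) - (3 * (u + 2) + 1)) - 2 = u + 5 by omega]
    have h0 : (0 : ℤ) < 216000 * (u : ℤ) ^ 0 + 680472 * (u : ℤ) ^ 1 + 694494 * (u : ℤ) ^ 2 + 333585 * (u : ℤ) ^ 3 + 83295 * (u : ℤ) ^ 4 + 10503 * (u : ℤ) ^ 5 + 531 * (u : ℤ) ^ 6 := by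
      clear h hd
      positivity
    have e1 := choose6 (3 * u + 13)
    have e2 := choose6 (2 * u + 9)
    have e3 := choose6 (u + 5)
    push_cast at e1 e2 e3 ⊢
    have key : 720 * (((3 * u + 13).choose 6 : ℤ) - 24 * ((2 * u + 9).choose 6 : ℤ) +
        276 * ((u + 5).choose 6 : ℤ)) = -(216000 * (u : ℤ) ^ 0 + 680472 * (u : ℤ) ^ 1 + 694494 * (u : ℤ) ^ 2 + 333585 * (u : ℤ) ^ 3 + 83295 * (u : ℤ) ^ 4 + 10503 * (u : ℤ) ^ 5 + 531 * (u : ℤ) ^ 6) := by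
      linear_combination e1 - 24 * e2 + 276 * e3
    linarith only [key, h0]
  · obtain ⟨u, rfl⟩ : ∃ u, d = 3 * (u + 1) + 2 := ⟨d / 3 - 1, by omega⟩
    rw [show 6 + (3 * (u + 1) + 2) = 3 * u + 11 by ring,
      show 6 + 2 * (3 * (u + 1) + 2) / 3 - 1 = 2 * u + 8 by omega,
      show 6 + (2 * (2 * (3 * (u + 1) + 2) / 3) - (3 * (u + 1) + 2)) - 2 = u + 5 by omega]
    have h0 : (0 : ℤ) < 151200 * (u : ℤ) ^ 0 + 410364 * (u : ℤ) ^ 1 + 420444 * (u : ℤ) ^ 2 + 216225 * (u : ℤ) ^ 3 + 60345 * (u : ℤ) ^ 4 + 8811 * (u : ℤ) ^ 5 + 531 * (u : ℤ) ^ 6 := by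
      clear h hd
      positivity
    have e1 := choose6 (3 * u + 11)
    have e2 := choose6 (2 * u + 8)
    have e3 := choose6 (u + 5)
    push_cast at e1 e2 e3 ⊢
    have key : 720 * (((3 * u + 11).choose 6 : ℤ) - 24 * ((2 * u + 8).choose 6 : ℤ) +
        276 * ((u + 5).choose 6 : ℤ)) = -(151200 * (u : ℤ) ^ 0 + 410364 * (u : ℤ) ^ 1 + 420444 * (u : ℤ) ^ 2 + 216225 * (u : ℤ) ^ 3 + 60345 * (u : ℤ) ^ 4 + 8811 * (u : ℤ) ^ 5 + 531 * (u : ℤ) ^ 6) := by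
      linear_combination e1 - 24 * e2 + 276 * e3
    linarith only [key, h0]

theorem all_6_24 {d m : ℕ} (hd : 3 ≤ d) (h2 : d + 2 ≤ 2 * m) (h3 : 2 * d + 3 < 3 * m + 6) :
    ldim 6 d (fun _ : Fin 24 => m) = 0 := by
  rcases Nat.lt_or_ge d 5 with h | h
  · interval_cases d
    · exact ldim_zero (fun _ => 3) (fun _ => by omega) (by
        rw [lvdim_const]
        decide +kernel)
    · exact ldim_zero (fun _ => 3) (fun _ => by omega) (by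
        rw [lvdim_const]
        decide +kernel)
  · exact ldim_zero (fun _ => 2 * d / 3) (fun _ => by omega) (big_6_24 h)

theorem big_6_25 {d : ℕ} (hd : 5 ≤ d) :
    lvdim 6 d (fun _ : Fin 25 => 2 * d / 3) < 0 := by
  rw [lvdim_pairs (by norm_num) (fun c hc hcn => by
    rcases (by omega : c = 3 ∨ c = 4 ∨ c = 5 ∨ c = 6) with rfl | rfl | rfl | rfl <;> omega),
    show ((25 : ℕ).choose 2 : ℤ) = 300 by decide +kernel]
  rcases (by omega : d % 3 = 0 ∨ d % 3 = 1 ∨ d % 3 = 2) with h | h | h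
  · obtain ⟨u, rfl⟩ : ∃ u, d = 3 * (u + 1) + 0 := ⟨d / 3 - 1, by omega⟩
    rw [show 6 + (3 * (u + 1) + 0) = 3 * u + 9 by ring,
      show 6 + 2 * (3 * (u + 1) + 0) / 3 - 1 = 2 * u + 7 by omega,
      show 6 + (2 * (2 * (3 * (u + 1) + 0) / 3) - (3 * (u + 1) + 0)) - 2 = u + 5 by omega]
    have h0 : (0 : ℤ) < 65520 * (u : ℤ) ^ 0 + 184752 * (u : ℤ) ^ 1 + 207034 * (u : ℤ) ^ 2 + 123345 * (u : ℤ) ^ 3 + 41875 * (u : ℤ) ^ 4 + 7623 * (u : ℤ) ^ 5 + 571 * (u : ℤ) ^ 6 := by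
      clear h hd
      positivity
    have e1 := choose6 (3 * u + 9)
    have e2 := choose6 (2 * u + 7)
    have e3 := choose6 (u + 5)
    push_cast at e1 e2 e3 ⊢
    have key : 720 * (((3 * u + 9).choose 6 : ℤ) - 25 * ((2 * u + 7).choose 6 : ℤ) +
        300 * ((u + 5).choose 6 : ℤ)) = -(65520 * (u : ℤ) ^ 0 + 184752 * (u : ℤ) ^ 1 + 207034 * (u : ℤ) ^ 2 + 123345 * (u : ℤ) ^ 3 + 41875 * (u : ℤ) ^ 4 + 7623 * (u : ℤ) ^ 5 + 571 * (u : ℤ) ^ 6) := by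
      linear_combination e1 - 25 * e2 + 300 * e3
    linarith only [key, h0]
  · obtain ⟨u, rfl⟩ : ∃ u, d = 3 * (u + 2) + 1 := ⟨d / 3 - 2, by omega⟩
    rw [show 6 + (3 * (u + 2) + 1) = 3 * u + 13 by ring,
      show 6 + 2 * (3 * (u + 2) + 1) / 3 - 1 = 2 * u + 9 by omega,
      show 6 + (2 * (2 * (3 * (u + 2) + 1) / 3) - (3 * (u + 2) + 1)) - 2 = u + 5 by omega]
    have h0 : (0 : ℤ) < 276480 * (u : ℤ) ^ 0 + 798024 * (u : ℤ) ^ 1 + 786214 * (u : ℤ) ^ 2 + 370305 * (u : ℤ) ^ 3 + 91255 * (u : ℤ) ^ 4 + 11391 * (u : ℤ) ^ 5 + 571 * (u : ℤ) ^ 6 := by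
      clear h hd
      positivity
    have e1 := choose6 (3 * u + 13)
    have e2 := choose6 (2 * u + 9)
    have e3 := choose6 (u + 5)
    push_cast at e1 e2 e3 ⊢
    have key : 720 * (((3 * u + 13).choose 6 : ℤ) - 25 * ((2 * u + 9).choose 6 : ℤ) +
        300 * ((u + 5).choose 6 : ℤ)) = -(276480 * (u : ℤ) ^ 0 + 798024 * (u : ℤ) ^ 1 + 786214 * (u : ℤ) ^ 2 + 370305 * (u : ℤ) ^ 3 + 91255 * (u : ℤ) ^ 4 + 11391 * (u : ℤ) ^ 5 + 571 * (u : ℤ) ^ 6) := by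
      linear_combination e1 - 25 * e2 + 300 * e3
    linarith only [key, h0]
  · obtain ⟨u, rfl⟩ : ∃ u, d = 3 * (u + 1) + 2 := ⟨d / 3 - 1, by omega⟩
    rw [show 6 + (3 * (u + 1) + 2) = 3 * u + 11 by ring,
      show 6 + 2 * (3 * (u + 1) + 2) / 3 - 1 = 2 * u + 8 by omega,
      show 6 + (2 * (2 * (3 * (u + 1) + 2) / 3) - (3 * (u + 1) + 2)) - 2 = u + 5 by omega]
    have h0 : (0 : ℤ) < 171360 * (u : ℤ) ^ 0 + 456588 * (u : ℤ) ^ 1 + 462484 * (u : ℤ) ^ 2 + 235905 * (u : ℤ) ^ 3 + 65425 * (u : ℤ) ^ 4 + 9507 * (u : ℤ) ^ 5 + 571 * (u : ℤ) ^ 6 := by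
      clear h hd
      positivity
    have e1 := choose6 (3 * u + 11)
    have e2 := choose6 (2 * u + 8)
    have e3 := choose6 (u + 5)
    push_cast at e1 e2 e3 ⊢
    have key : 720 * (((3 * u + 11).choose 6 : ℤ) - 25 * ((2 * u + 8).choose 6 : ℤ) +
        300 * ((u + 5).choose 6 : ℤ)) = -(171360 * (u : ℤ) ^ 0 + 456588 * (u : ℤ) ^ 1 + 462484 * (u : ℤ) ^ 2 + 235905 * (u : ℤ) ^ 3 + 65425 * (u : ℤ) ^ 4 + 9507 * (u : ℤ) ^ 5 + 571 * (u : ℤ) ^ 6) := by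
      linear_combination e1 - 25 * e2 + 300 * e3
    linarith only [key, h0]

theorem all_6_25 {d m : ℕ} (hd : 3 ≤ d) (h2 : d + 2 ≤ 2 * m) (h3 : 2 * d + 3 < 3 * m + 6) :
    ldim 6 d (fun _ : Fin 25 => m) = 0 := by
  rcases Nat.lt_or_ge d 5 with h | h
  · interval_cases d
    · exact ldim_zero (fun _ => 3) (fun _ => by omega) (by
        rw [lvdim_const]
        decide +kernel)
    · exact ldim_zero (fun _ => 3) (fun _ => by omega) (by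
        rw [lvdim_const]
        decide +kernel)
  · exact ldim_zero (fun _ => 2 * d / 3) (fun _ => by omega) (big_6_25 h)

theorem big_6_26 {d : ℕ} (hd : 5 ≤ d) :
    lvdim 6 d (fun _ : Fin 26 => 2 * d / 3) < 0 := by
  rw [lvdim_pairs (by norm_num) (fun c hc hcn => by
    rcases (by omega : c = 3 ∨ c = 4 ∨ c = 5 ∨ c = 6) with rfl | rfl | rfl | rfl <;> omega),
    show ((26 : ℕ).choose 2 : ℤ) = 325 by decide +kernel]
  rcases (by omega : d % 3 = 0 ∨ d % 3 = 1 ∨ d % 3 = 2) with h | h | h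
  · obtain ⟨u, rfl⟩ : ∃ u, d = 3 * (u + 1) + 0 := ⟨d / 3 - 1, by omega⟩
    rw [show 6 + (3 * (u + 1) + 0) = 3 * u + 9 by ring,
      show 6 + 2 * (3 * (u + 1) + 0) / 3 - 1 = 2 * u + 7 by omega,
      show 6 + (2 * (2 * (3 * (u + 1) + 0) / 3) - (3 * (u + 1) + 0)) - 2 = u + 5 by omega]
    have h0 : (0 : ℤ) < 70560 * (u : ℤ) ^ 0 + 197808 * (u : ℤ) ^ 1 + 220600 * (u : ℤ) ^ 2 + 131040 * (u : ℤ) ^ 3 + 44470 * (u : ℤ) ^ 4 + 8112 * (u : ℤ) ^ 5 + 610 * (u : ℤ) ^ 6 := by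
      clear h hd
      positivity
    have e1 := choose6 (3 * u + 9)
    have e2 := choose6 (2 * u + 7)
    have e3 := choose6 (u + 5)
    push_cast at e1 e2 e3 ⊢
    have key : 720 * (((3 * u + 9).choose 6 : ℤ) - 26 * ((2 * u + 7).choose 6 : ℤ) +
        325 * ((u + 5).choose 6 : ℤ)) = -(70560 * (u : ℤ) ^ 0 + 197808 * (u : ℤ) ^ 1 + 220600 * (u : ℤ) ^ 2 + 131040 * (u : ℤ) ^ 3 + 44470 * (u : ℤ) ^ 4 + 8112 * (u : ℤ) ^ 5 + 610 * (u : ℤ) ^ 6) := by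
      linear_combination e1 - 26 * e2 + 325 * e3
    linarith only [key, h0]
  · obtain ⟨u, rfl⟩ : ∃ u, d = 3 * (u + 2) + 1 := ⟨d / 3 - 2, by omega⟩
    rw [show 6 + (3 * (u + 2) + 1) = 3 * u + 13 by ring,
      show 6 + 2 * (3 * (u + 2) + 1) / 3 - 1 = 2 * u + 9 by omega,
      show 6 + (2 * (2 * (3 * (u + 2) + 1) / 3) - (3 * (u + 2) + 1)) - 2 = u + 5 by omega]
    have h0 : (0 : ℤ) < 336960 * (u : ℤ) ^ 0 + 915456 * (u : ℤ) ^ 1 + 877660 * (u : ℤ) ^ 2 + 406800 * (u : ℤ) ^ 3 + 99130 * (u : ℤ) ^ 4 + 12264 * (u : ℤ) ^ 5 + 610 * (u : ℤ) ^ 6 := by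
      clear h hd
      positivity
    have e1 := choose6 (3 * u + 13)
    have e2 := choose6 (2 * u + 9)
    have e3 := choose6 (u + 5)
    push_cast at e1 e2 e3 ⊢
    have key : 720 * (((3 * u + 13).choose 6 : ℤ) - 26 * ((2 * u + 9).choose 6 : ℤ) +
        325 * ((u + 5).choose 6 : ℤ)) = -(336960 * (u : ℤ) ^ 0 + 915456 * (u : ℤ) ^ 1 + 877660 * (u : ℤ) ^ 2 + 406800 * (u : ℤ) ^ 3 + 99130 * (u : ℤ) ^ 4 + 12264 * (u : ℤ) ^ 5 + 610 * (u : ℤ) ^ 6) := by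
      linear_combination e1 - 26 * e2 + 325 * e3
    linarith only [key, h0]
  · obtain ⟨u, rfl⟩ : ∃ u, d = 3 * (u + 1) + 2 := ⟨d / 3 - 1, by omega⟩
    rw [show 6 + (3 * (u + 1) + 2) = 3 * u + 11 by ring,
      show 6 + 2 * (3 * (u + 1) + 2) / 3 - 1 = 2 * u + 8 by omega,
      show 6 + (2 * (2 * (3 * (u + 1) + 2) / 3) - (3 * (u + 1) + 2)) - 2 = u + 5 by omega]
    have h0 : (0 : ℤ) < 191520 * (u : ℤ) ^ 0 + 502692 * (u : ℤ) ^ 1 + 504250 * (u : ℤ) ^ 2 + 255360 * (u : ℤ) ^ 3 + 70420 * (u : ℤ) ^ 4 + 10188 * (u : ℤ) ^ 5 + 610 * (u : ℤ) ^ 6 := by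
      clear h hd
      positivity
    have e1 := choose6 (3 * u + 11)
    have e2 := choose6 (2 * u + 8)
    have e3 := choose6 (u + 5)
    push_cast at e1 e2 e3 ⊢
    have key : 720 * (((3 * u + 11).choose 6 : ℤ) - 26 * ((2 * u + 8).choose 6 : ℤ) +
        325 * ((u + 5).choose 6 : ℤ)) = -(191520 * (u : ℤ) ^ 0 + 502692 * (u : ℤ) ^ 1 + 504250 * (u : ℤ) ^ 2 + 255360 * (u : ℤ) ^ 3 + 70420 * (u : ℤ) ^ 4 + 10188 * (u : ℤ) ^ 5 + 610 * (u : ℤ) ^ 6) := by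
      linear_combination e1 - 26 * e2 + 325 * e3
    linarith only [key, h0]

theorem all_6_26 {d m : ℕ} (hd : 3 ≤ d) (h2 : d + 2 ≤ 2 * m) (h3 : 2 * d + 3 < 3 * m + 6) :
    ldim 6 d (fun _ : Fin 26 => m) = 0 := by
  rcases Nat.lt_or_ge d 5 with h | h
  · interval_cases d
    · exact ldim_zero (fun _ => 3) (fun _ => by omega) (by
        rw [lvdim_const]
        decide +kernel)
    · exact ldim_zero (fun _ => 3) (fun _ => by omega) (by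
        rw [lvdim_const]
        decide +kernel)
  · exact ldim_zero (fun _ => 2 * d / 3) (fun _ => by omega) (big_6_26 h)

theorem big_6_27 {d : ℕ} (hd : 5 ≤ d) :
    lvdim 6 d (fun _ : Fin 27 => 2 * d / 3) < 0 := by
  rw [lvdim_pairs (by norm_num) (fun c hc hcn => by
    rcases (by omega : c = 3 ∨ c = 4 ∨ c = 5 ∨ c = 6) with rfl | rfl | rfl | rfl <;> omega),
    show ((27 : ℕ).choose 2 : ℤ) = 351 by decide +kernel]
  rcases (by omega : d % 3 = 0 ∨ d % 3 = 1 ∨ d % 3 = 2) with h | h | h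
  · obtain ⟨u, rfl⟩ : ∃ u, d = 3 * (u + 1) + 0 := ⟨d / 3 - 1, by omega⟩
    rw [show 6 + (3 * (u + 1) + 0) = 3 * u + 9 by ring,
      show 6 + 2 * (3 * (u + 1) + 0) / 3 - 1 = 2 * u + 7 by omega,
      show 6 + (2 * (2 * (3 * (u + 1) + 0) / 3) - (3 * (u + 1) + 0)) - 2 = u + 5 by omega]
    have h0 : (0 : ℤ) < 75600 * (u : ℤ) ^ 0 + 210744 * (u : ℤ) ^ 1 + 233892 * (u : ℤ) ^ 2 + 138510 * (u : ℤ) ^ 3 + 46980 * (u : ℤ) ^ 4 + 8586 * (u : ℤ) ^ 5 + 648 * (u : ℤ) ^ 6 := by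
      clear h hd
      positivity
    have e1 := choose6 (3 * u + 9)
    have e2 := choose6 (2 * u + 7)
    have e3 := choose6 (u + 5)
    push_cast at e1 e2 e3 ⊢
    have key : 720 * (((3 * u + 9).choose 6 : ℤ) - 27 * ((2 * u + 7).choose 6 : ℤ) +
        351 * ((u + 5).choose 6 : ℤ)) = -(75600 * (u : ℤ) ^ 0 + 210744 * (u : ℤ) ^ 1 + 233892 * (u : ℤ) ^ 2 + 138510 * (u : ℤ) ^ 3 + 46980 * (u : ℤ) ^ 4 + 8586 * (u : ℤ) ^ 5 + 648 * (u : ℤ) ^ 6) := by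
      linear_combination e1 - 27 * e2 + 351 * e3
    linarith only [key, h0]
  · obtain ⟨u, rfl⟩ : ∃ u, d = 3 * (u + 2) + 1 := ⟨d / 3 - 2, by omega⟩
    rw [show 6 + (3 * (u + 2) + 1) = 3 * u + 13 by ring,
      show 6 + 2 * (3 * (u + 2) + 1) / 3 - 1 = 2 * u + 9 by omega,
      show 6 + (2 * (2 * (3 * (u + 2) + 1) / 3) - (3 * (u + 2) + 1)) - 2 = u + 5 by omega]
    have h0 : (0 : ℤ) < 397440 * (u : ℤ) ^ 0 + 1032768 * (u : ℤ) ^ 1 + 968832 * (u : ℤ) ^ 2 + 443070 * (u : ℤ) ^ 3 + 106920 * (u : ℤ) ^ 4 + 13122 * (u : ℤ) ^ 5 + 648 * (u : ℤ) ^ 6 := by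
      clear h hd
      positivity
    have e1 := choose6 (3 * u + 13)
    have e2 := choose6 (2 * u + 9)
    have e3 := choose6 (u + 5)
    push_cast at e1 e2 e3 ⊢
    have key : 720 * (((3 * u + 13).choose 6 : ℤ) - 27 * ((2 * u + 9).choose 6 : ℤ) +
        351 * ((u + 5).choose 6 : ℤ)) = -(397440 * (u : ℤ) ^ 0 + 1032768 * (u : ℤ) ^ 1 + 968832 * (u : ℤ) ^ 2 + 443070 * (u : ℤ) ^ 3 + 106920 * (u : ℤ) ^ 4 + 13122 * (u : ℤ) ^ 5 + 648 * (u : ℤ) ^ 6) := by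
      linear_combination e1 - 27 * e2 + 351 * e3
    linarith only [key, h0]
  · obtain ⟨u, rfl⟩ : ∃ u, d = 3 * (u + 1) + 2 := ⟨d / 3 - 1, by omega⟩
    rw [show 6 + (3 * (u + 1) + 2) = 3 * u + 11 by ring,
      show 6 + 2 * (3 * (u + 1) + 2) / 3 - 1 = 2 * u + 8 by omega,
      show 6 + (2 * (2 * (3 * (u + 1) + 2) / 3) - (3 * (u + 1) + 2)) - 2 = u + 5 by omega]
    have h0 : (0 : ℤ) < 211680 * (u : ℤ) ^ 0 + 548676 * (u : ℤ) ^ 1 + 545742 * (u : ℤ) ^ 2 + 274590 * (u : ℤ) ^ 3 + 75330 * (u : ℤ) ^ 4 + 10854 * (u : ℤ) ^ 5 + 648 * (u : ℤ) ^ 6 := by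
      clear h hd
      positivity
    have e1 := choose6 (3 * u + 11)
    have e2 := choose6 (2 * u + 8)
    have e3 := choose6 (u + 5)
    push_cast at e1 e2 e3 ⊢
    have key : 720 * (((3 * u + 11).choose 6 : ℤ) - 27 * ((2 * u + 8).choose 6 : ℤ) +
        351 * ((u + 5).choose 6 : ℤ)) = -(211680 * (u : ℤ) ^ 0 + 548676 * (u : ℤ) ^ 1 + 545742 * (u : ℤ) ^ 2 + 274590 * (u : ℤ) ^ 3 + 75330 * (u : ℤ) ^ 4 + 10854 * (u : ℤ) ^ 5 + 648 * (u : ℤ) ^ 6) := by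
      linear_combination e1 - 27 * e2 + 351 * e3
    linarith only [key, h0]

theorem all_6_27 {d m : ℕ} (hd : 3 ≤ d) (h2 : d + 2 ≤ 2 * m) (h3 : 2 * d + 3 < 3 * m + 6) :
    ldim 6 d (fun _ : Fin 27 => m) = 0 := by
  rcases Nat.lt_or_ge d 5 with h | h
  · interval_cases d
    · exact ldim_zero (fun _ => 3) (fun _ => by omega) (by
        rw [lvdim_const]
        decide +kernel)
    · exact ldim_zero (fun _ => 3) (fun _ => by omega) (by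
        rw [lvdim_const]
        decide +kernel)
  · exact ldim_zero (fun _ => 2 * d / 3) (fun _ => by omega) (big_6_27 h)

theorem big_6_28 {d : ℕ} (hd : 5 ≤ d) :
    lvdim 6 d (fun _ : Fin 28 => 2 * d / 3) < 0 := by
  rw [lvdim_pairs (by norm_num) (fun c hc hcn => by
    rcases (by omega : c = 3 ∨ c = 4 ∨ c = 5 ∨ c = 6) with rfl | rfl | rfl | rfl <;> omega),
    show ((28 : ℕ).choose 2 : ℤ) = 378 by decide +kernel]
  rcases (by omega : d % 3 = 0 ∨ d % 3 = 1 ∨ d % 3 = 2) with h | h | h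
  · obtain ⟨u, rfl⟩ : ∃ u, d = 3 * (u + 1) + 0 := ⟨d / 3 - 1, by omega⟩
    rw [show 6 + (3 * (u + 1) + 0) = 3 * u + 9 by ring,
      show 6 + 2 * (3 * (u + 1) + 0) / 3 - 1 = 2 * u + 7 by omega,
      show 6 + (2 * (2 * (3 * (u + 1) + 0) / 3) - (3 * (u + 1) + 0)) - 2 = u + 5 by omega]
    have h0 : (0 : ℤ) < 80640 * (u : ℤ) ^ 0 + 223560 * (u : ℤ) ^ 1 + 246910 * (u : ℤ) ^ 2 + 145755 * (u : ℤ) ^ 3 + 49405 * (u : ℤ) ^ 4 + 9045 * (u : ℤ) ^ 5 + 685 * (u : ℤ) ^ 6 := by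
      clear h hd
      positivity
    have e1 := choose6 (3 * u + 9)
    have e2 := choose6 (2 * u + 7)
    have e3 := choose6 (u + 5)
    push_cast at e1 e2 e3 ⊢
    have key : 720 * (((3 * u + 9).choose 6 : ℤ) - 28 * ((2 * u + 7).choose 6 : ℤ) +
        378 * ((u + 5).choose 6 : ℤ)) = -(80640 * (u : ℤ) ^ 0 + 223560 * (u : ℤ) ^ 1 + 246910 * (u : ℤ) ^ 2 + 145755 * (u : ℤ) ^ 3 + 49405 * (u : ℤ) ^ 4 + 9045 * (u : ℤ) ^ 5 + 685 * (u : ℤ) ^ 6) := by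
      linear_combination e1 - 28 * e2 + 378 * e3
    linarith only [key, h0]
  · obtain ⟨u, rfl⟩ : ∃ u, d = 3 * (u + 2) + 1 := ⟨d / 3 - 2, by omega⟩
    rw [show 6 + (3 * (u + 2) + 1) = 3 * u + 13 by ring,
      show 6 + 2 * (3 * (u + 2) + 1) / 3 - 1 = 2 * u + 9 by omega,
      show 6 + (2 * (2 * (3 * (u + 2) + 1) / 3) - (3 * (u + 2) + 1)) - 2 = u + 5 by omega]
    have h0 : (0 : ℤ) < 457920 * (u : ℤ) ^ 0 + 1149960 * (u : ℤ) ^ 1 + 1059730 * (u : ℤ) ^ 2 + 479115 * (u : ℤ) ^ 3 + 114625 * (u : ℤ) ^ 4 + 13965 * (u : ℤ) ^ 5 + 685 * (u : ℤ) ^ 6 := by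
      clear h hd
      positivity
    have e1 := choose6 (3 * u + 13)
    have e2 := choose6 (2 * u + 9)
    have e3 := choose6 (u + 5)
    push_cast at e1 e2 e3 ⊢
    have key : 720 * (((3 * u + 13).choose 6 : ℤ) - 28 * ((2 * u + 9).choose 6 : ℤ) +
        378 * ((u + 5).choose 6 : ℤ)) = -(457920 * (u : ℤ) ^ 0 + 1149960 * (u : ℤ) ^ 1 + 1059730 * (u : ℤ) ^ 2 + 479115 * (u : ℤ) ^ 3 + 114625 * (u : ℤ) ^ 4 + 13965 * (u : ℤ) ^ 5 + 685 * (u : ℤ) ^ 6) := by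
      linear_combination e1 - 28 * e2 + 378 * e3
    linarith only [key, h0]
  · obtain ⟨u, rfl⟩ : ∃ u, d = 3 * (u + 1) + 2 := ⟨d / 3 - 1, by omega⟩
    rw [show 6 + (3 * (u + 1) + 2) = 3 * u + 11 by ring,
      show 6 + 2 * (3 * (u + 1) + 2) / 3 - 1 = 2 * u + 8 by omega,
      show 6 + (2 * (2 * (3 * (u + 1) + 2) / 3) - (3 * (u + 1) + 2)) - 2 = u + 5 by omega]
    have h0 : (0 : ℤ) < 231840 * (u : ℤ) ^ 0 + 594540 * (u : ℤ) ^ 1 + 586960 * (u : ℤ) ^ 2 + 293595 * (u : ℤ) ^ 3 + 80155 * (u : ℤ) ^ 4 + 11505 * (u : ℤ) ^ 5 + 685 * (u : ℤ) ^ 6 := by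
      clear h hd
      positivity
    have e1 := choose6 (3 * u + 11)
    have e2 := choose6 (2 * u + 8)
    have e3 := choose6 (u + 5)
    push_cast at e1 e2 e3 ⊢
    have key : 720 * (((3 * u + 11).choose 6 : ℤ) - 28 * ((2 * u + 8).choose 6 : ℤ) +
        378 * ((u + 5).choose 6 : ℤ)) = -(231840 * (u : ℤ) ^ 0 + 594540 * (u : ℤ) ^ 1 + 586960 * (u : ℤ) ^ 2 + 293595 * (u : ℤ) ^ 3 + 80155 * (u : ℤ) ^ 4 + 11505 * (u : ℤ) ^ 5 + 685 * (u : ℤ) ^ 6) := by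
      linear_combination e1 - 28 * e2 + 378 * e3
    linarith only [key, h0]

theorem all_6_28 {d m : ℕ} (hd : 3 ≤ d) (h2 : d + 2 ≤ 2 * m) (h3 : 2 * d + 3 < 3 * m + 6) :
    ldim 6 d (fun _ : Fin 28 => m) = 0 := by
  rcases Nat.lt_or_ge d 5 with h | h
  · interval_cases d
    · exact ldim_zero (fun _ => 3) (fun _ => by omega) (by
        rw [lvdim_const]
        decide +kernel)
    · exact ldim_zero (fun _ => 3) (fun _ => by omega) (by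
        rw [lvdim_const]
        decide +kernel)
  · exact ldim_zero (fun _ => 2 * d / 3) (fun _ => by omega) (big_6_28 h)

theorem big_6_29 {d : ℕ} (hd : 5 ≤ d) :
    lvdim 6 d (fun _ : Fin 29 => 2 * d / 3) < 0 := by
  rw [lvdim_pairs (by norm_num) (fun c hc hcn => by
    rcases (by omega : c = 3 ∨ c = 4 ∨ c = 5 ∨ c = 6) with rfl | rfl | rfl | rfl <;> omega),
    show ((29 : ℕ).choose 2 : ℤ) = 406 by decide +kernel]
  rcases (by omega : d % 3 = 0 ∨ d % 3 = 1 ∨ d % 3 = 2) with h | h | h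
  · obtain ⟨u, rfl⟩ : ∃ u, d = 3 * (u + 1) + 0 := ⟨d / 3 - 1, by omega⟩
    rw [show 6 + (3 * (u + 1) + 0) = 3 * u + 9 by ring,
      show 6 + 2 * (3 * (u + 1) + 0) / 3 - 1 = 2 * u + 7 by omega,
      show 6 + (2 * (2 * (3 * (u + 1) + 0) / 3) - (3 * (u + 1) + 0)) - 2 = u + 5 by omega]
    have h0 : (0 : ℤ) < 85680 * (u : ℤ) ^ 0 + 236256 * (u : ℤ) ^ 1 + 259654 * (u : ℤ) ^ 2 + 152775 * (u : ℤ) ^ 3 + 51745 * (u : ℤ) ^ 4 + 9489 * (u : ℤ) ^ 5 + 721 * (u : ℤ) ^ 6 := by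
      clear h hd
      positivity
    have e1 := choose6 (3 * u + 9)
    have e2 := choose6 (2 * u + 7)
    have e3 := choose6 (u + 5)
    push_cast at e1 e2 e3 ⊢
    have key : 720 * (((3 * u + 9).choose 6 : ℤ) - 29 * ((2 * u + 7).choose 6 : ℤ) +
        406 * ((u + 5).choose 6 : ℤ)) = -(85680 * (u : ℤ) ^ 0 + 236256 * (u : ℤ) ^ 1 + 259654 * (u : ℤ) ^ 2 + 152775 * (u : ℤ) ^ 3 + 51745 * (u : ℤ) ^ 4 + 9489 * (u : ℤ) ^ 5 + 721 * (u : ℤ) ^ 6) := by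
      linear_combination e1 - 29 * e2 + 406 * e3
    linarith only [key, h0]
  · obtain ⟨u, rfl⟩ : ∃ u, d = 3 * (u + 2) + 1 := ⟨d / 3 - 2, by omega⟩
    rw [show 6 + (3 * (u + 2) + 1) = 3 * u + 13 by ring,
      show 6 + 2 * (3 * (u + 2) + 1) / 3 - 1 = 2 * u + 9 by omega,
      show 6 + (2 * (2 * (3 * (u + 2) + 1) / 3) - (3 * (u + 2) + 1)) - 2 = u + 5 by omega]
    have h0 : (0 : ℤ) < 518400 * (u : ℤ) ^ 0 + 1267032 * (u : ℤ) ^ 1 + 1150354 * (u : ℤ) ^ 2 + 514935 * (u : ℤ) ^ 3 + 122245 * (u : ℤ) ^ 4 + 14793 * (u : ℤ) ^ 5 + 721 * (u : ℤ) ^ 6 := by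
      clear h hd
      positivity
    have e1 := choose6 (3 * u + 13)
    have e2 := choose6 (2 * u + 9)
    have e3 := choose6 (u + 5)
    push_cast at e1 e2 e3 ⊢
    have key : 720 * (((3 * u + 13).choose 6 : ℤ) - 29 * ((2 * u + 9).choose 6 : ℤ) +
        406 * ((u + 5).choose 6 : ℤ)) = -(518400 * (u : ℤ) ^ 0 + 1267032 * (u : ℤ) ^ 1 + 1150354 * (u : ℤ) ^ 2 + 514935 * (u : ℤ) ^ 3 + 122245 * (u : ℤ) ^ 4 + 14793 * (u : ℤ) ^ 5 + 721 * (u : ℤ) ^ 6) := by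
      linear_combination e1 - 29 * e2 + 406 * e3
    linarith only [key, h0]
  · obtain ⟨u, rfl⟩ : ∃ u, d = 3 * (u + 1) + 2 := ⟨d / 3 - 1, by omega⟩
    rw [show 6 + (3 * (u + 1) + 2) = 3 * u + 11 by ring,
      show 6 + 2 * (3 * (u + 1) + 2) / 3 - 1 = 2 * u + 8 by omega,
      show 6 + (2 * (2 * (3 * (u + 1) + 2) / 3) - (3 * (u + 1) + 2)) - 2 = u + 5 by omega]
    have h0 : (0 : ℤ) < 252000 * (u : ℤ) ^ 0 + 640284 * (u : ℤ) ^ 1 + 627904 * (u : ℤ) ^ 2 + 312375 * (u : ℤ) ^ 3 + 84895 * (u : ℤ) ^ 4 + 12141 * (u : ℤ) ^ 5 + 721 * (u : ℤ) ^ 6 := by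
      clear h hd
      positivity
    have e1 := choose6 (3 * u + 11)
    have e2 := choose6 (2 * u + 8)
    have e3 := choose6 (u + 5)
    push_cast at e1 e2 e3 ⊢
    have key : 720 * (((3 * u + 11).choose 6 : ℤ) - 29 * ((2 * u + 8).choose 6 : ℤ) +
        406 * ((u + 5).choose 6 : ℤ)) = -(252000 * (u : ℤ) ^ 0 + 640284 * (u : ℤ) ^ 1 + 627904 * (u : ℤ) ^ 2 + 312375 * (u : ℤ) ^ 3 + 84895 * (u : ℤ) ^ 4 + 12141 * (u : ℤ) ^ 5 + 721 * (u : ℤ) ^ 6) := by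
      linear_combination e1 - 29 * e2 + 406 * e3
    linarith only [key, h0]

theorem all_6_29 {d m : ℕ} (hd : 3 ≤ d) (h2 : d + 2 ≤ 2 * m) (h3 : 2 * d + 3 < 3 * m + 6) :
    ldim 6 d (fun _ : Fin 29 => m) = 0 := by
  rcases Nat.lt_or_ge d 5 with h | h
  · interval_cases d
    · exact ldim_zero (fun _ => 3) (fun _ => by omega) (by
        rw [lvdim_const]
        decide +kernel)
    · exact ldim_zero (fun _ => 3) (fun _ => by omega) (by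
        rw [lvdim_const]
        decide +kernel)
  · exact ldim_zero (fun _ => 2 * d / 3) (fun _ => by omega) (big_6_29 h)

end Pool.Agent.TH142.WF
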