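import Pool.Agent.TH142.WF.SixA

set_option autoImplicit false
set_option maxHeartbeats 4000000

/-!
# Empty systems in low dimension
-/

namespace Pool.Agent.TH142.WF

theorem big_6_30 {d : ℕ} (hd : 5 ≤ d) :
    lvdim 6 d (fun _ : Fin 30 => 2 * d / 3) < 0 := by
  rw [lvdim_pairs (by norm_num) (fun c hc hcn => by
    rcases (by omega : c = 3 ∨ c = 4 ∨ c = 5 ∨ c = 6) with rfl | rfl | rfl | rfl <;> omega),
    show ((30 : ℕ).choose 2 : ℤ) = 435 by decide +kernel]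
  rcases (by omega : d % 3 = 0 ∨ d % 3 = 1 ∨ d % 3 = 2) with h | h | h
  · obtain ⟨u, rfl⟩ : ∃ u, d = 3 * (u + 1) + 0 := ⟨d / 3 - 1, by omega⟩
    rw [show 6 + (3 * (u + 1) + 0) = 3 * u + 9 by ring,
      show 6 + 2 * (3 * (u + 1) + 0) / 3 - 1 = 2 * u + 7 by omega,
      show 6 + (2 * (2 * (3 * (u + 1) + 0) / 3) - (3 * (u + 1) + 0)) - 2 = u + 5 by omega]
    have h0 : (0 : ℤ) < 90720 * (u : ℤ) ^ 0 + 248832 * (u : ℤ) ^ 1 + 272124 * (u : ℤ) ^ 2 + 159570 * (u : ℤ) ^ 3 + 54000 * (u : ℤ) ^ 4 + 9918 * (u : ℤ) ^ 5 + 756 * (u : ℤ) ^ 6 := by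
      clear h hd
      positivity
    have e1 := choose6 (3 * u + 9)
    have e2 := choose6 (2 * u + 7)
    have e3 := choose6 (u + 5)
    push_cast at e1 e2 e3 ⊢
    have key : 720 * (((3 * u + 9).choose 6 : ℤ) - 30 * ((2 * u + 7).choose 6 : ℤ) +
        435 * ((u + 5).choose 6 : ℤ)) = -(90720 * (u : ℤ) ^ 0 + 248832 * (u : ℤ) ^ 1 + 272124 * (u : ℤ) ^ 2 + 159570 * (u : ℤ) ^ 3 + 54000 * (u : ℤ) ^ 4 + 9918 * (u : ℤ) ^ 5 + 756 * (u : ℤ) ^ 6) := by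
      linear_combination e1 - 30 * e2 + 435 * e3
    linarith only [key, h0]
  · obtain ⟨u, rfl⟩ : ∃ u, d = 3 * (u + 2) + 1 := ⟨d / 3 - 2, by omega⟩
    rw [show 6 + (3 * (u + 2) + 1) = 3 * u + 13 by ring,
      show 6 + 2 * (3 * (u + 2) + 1) / 3 - 1 = 2 * u + 9 by omega,
      show 6 + (2 * (2 * (3 * (u + 2) + 1) / 3) - (3 * (u + 2) + 1)) - 2 = u + 5 by omega]
    have h0 : (0 : ℤ) < 578880 * (u : ℤ) ^ 0 + 1383984 * (u : ℤ) ^ 1 + 1240704 * (u : ℤ) ^ 2 + 550530 * (u : ℤ) ^ 3 + 129780 * (u : ℤ) ^ 4 + 15606 * (u : ℤ) ^ 5 + 756 * (u : ℤ) ^ 6 := by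
      clear h hd
      positivity
    have e1 := choose6 (3 * u + 13)
    have e2 := choose6 (2 * u + 9)
    have e3 := choose6 (u + 5)
    push_cast at e1 e2 e3 ⊢
    have key : 720 * (((3 * u + 13).choose 6 : ℤ) - 30 * ((2 * u + 9).choose 6 : ℤ) +
        435 * ((u + 5).choose 6 : ℤ)) = -(578880 * (u : ℤ) ^ 0 + 1383984 * (u : ℤ) ^ 1 + 1240704 * (u : ℤ) ^ 2 + 550530 * (u : ℤ) ^ 3 + 129780 * (u : ℤ) ^ 4 + 15606 * (u : ℤ) ^ 5 + 756 * (u : ℤ) ^ 6) := by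
      linear_combination e1 - 30 * e2 + 435 * e3
    linarith only [key, h0]
  · obtain ⟨u, rfl⟩ : ∃ u, d = 3 * (u + 1) + 2 := ⟨d / 3 - 1, by omega⟩
    rw [show 6 + (3 * (u + 1) + 2) = 3 * u + 11 by ring,
      show 6 + 2 * (3 * (u + 1) + 2) / 3 - 1 = 2 * u + 8 by omega,
      show 6 + (2 * (2 * (3 * (u + 1) + 2) / 3) - (3 * (u + 1) + 2)) - 2 = u + 5 by omega]
    have h0 : (0 : ℤ) < 272160 * (u : ℤ) ^ 0 + 685908 * (u : ℤ) ^ 1 + 668574 * (u : ℤ) ^ 2 + 330930 * (u : ℤ) ^ 3 + 89550 * (u : ℤ) ^ 4 + 12762 * (u : ℤ) ^ 5 + 756 * (u : ℤ) ^ 6 := by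
      clear h hd
      positivity
    have e1 := choose6 (3 * u + 11)
    have e2 := choose6 (2 * u + 8)
    have e3 := choose6 (u + 5)
    push_cast at e1 e2 e3 ⊢
    have key : 720 * (((3 * u + 11).choose 6 : ℤ) - 30 * ((2 * u + 8).choose 6 : ℤ) +
        435 * ((u + 5).choose 6 : ℤ)) = -(272160 * (u : ℤ) ^ 0 + 685908 * (u : ℤ) ^ 1 + 668574 * (u : ℤ) ^ 2 + 330930 * (u : ℤ) ^ 3 + 89550 * (u : ℤ) ^ 4 + 12762 * (u : ℤ) ^ 5 + 756 * (u : ℤ) ^ 6) := by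
      linear_combination e1 - 30 * e2 + 435 * e3
    linarith only [key, h0]

theorem all_6_30 {d m : ℕ} (hd : 3 ≤ d) (h2 : d + 2 ≤ 2 * m) (h3 : 2 * d + 3 < 3 * m + 6) :
    ldim 6 d (fun _ : Fin 30 => m) = 0 := by
  rcases Nat.lt_or_ge d 5 with h | h
  · interval_cases d
    · exact ldim_zero (fun _ => 3) (fun _ => by omega) (by
        rw [lvdim_const]
        decide +kernel)
    · exact ldim_zero (fun _ => 3) (fun _ => by omega) (by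
        rw [lvdim_const]
        decide +kernel)
  · exact ldim_zero (fun _ => 2 * d / 3) (fun _ => by omega) (big_6_30 h)

theorem big_6_31 {d : ℕ} (hd : 3 ≤ d) :
    lvdim 6 d (fun _ : Fin 31 => 2 * d / 3) < 0 := by
  rw [lvdim_pairs (by norm_num) (fun c hc hcn => by
    rcases (by omega : c = 3 ∨ c = 4 ∨ c = 5 ∨ c = 6) with rfl | rfl | rfl | rfl <;> omega),
    show ((31 : ℕ).choose 2 : ℤ) = 465 by decide +kernel]
  rcases (by omega : d % 3 = 0 ∨ d % 3 = 1 ∨ d % 3 = 2) with h | h | h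
  · obtain ⟨u, rfl⟩ : ∃ u, d = 3 * (u + 1) + 0 := ⟨d / 3 - 1, by omega⟩
    rw [show 6 + (3 * (u + 1) + 0) = 3 * u + 9 by ring,
      show 6 + 2 * (3 * (u + 1) + 0) / 3 - 1 = 2 * u + 7 by omega,
      show 6 + (2 * (2 * (3 * (u + 1) + 0) / 3) - (3 * (u + 1) + 0)) - 2 = u + 5 by omega]
    have h0 : (0 : ℤ) < 95760 * (u : ℤ) ^ 0 + 261288 * (u : ℤ) ^ 1 + 284320 * (u : ℤ) ^ 2 + 166140 * (u : ℤ) ^ 3 + 56170 * (u : ℤ) ^ 4 + 10332 * (u : ℤ) ^ 5 + 790 * (u : ℤ) ^ 6 := by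
      clear h hd
      positivity
    have e1 := choose6 (3 * u + 9)
    have e2 := choose6 (2 * u + 7)
    have e3 := choose6 (u + 5)
    push_cast at e1 e2 e3 ⊢
    have key : 720 * (((3 * u + 9).choose 6 : ℤ) - 31 * ((2 * u + 7).choose 6 : ℤ) +
        465 * ((u + 5).choose 6 : ℤ)) = -(95760 * (u : ℤ) ^ 0 + 261288 * (u : ℤ) ^ 1 + 284320 * (u : ℤ) ^ 2 + 166140 * (u : ℤ) ^ 3 + 56170 * (u : ℤ) ^ 4 + 10332 * (u : ℤ) ^ 5 + 790 * (u : ℤ) ^ 6) := by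
      linear_combination e1 - 31 * e2 + 465 * e3
    linarith only [key, h0]
  · obtain ⟨u, rfl⟩ : ∃ u, d = 3 * (u + 1) + 1 := ⟨d / 3 - 1, by omega⟩
    rw [show 6 + (3 * (u + 1) + 1) = 3 * u + 10 by ring,
      show 6 + 2 * (3 * (u + 1) + 1) / 3 - 1 = 2 * u + 7 by omega,
      show 6 + (2 * (2 * (3 * (u + 1) + 1) / 3) - (3 * (u + 1) + 1)) - 2 = u + 4 by omega]
    have h0 : (0 : ℤ) < 5040 * (u : ℤ) ^ 0 + 125316 * (u : ℤ) ^ 1 + 244270 * (u : ℤ) ^ 2 + 185220 * (u : ℤ) ^ 3 + 67060 * (u : ℤ) ^ 4 + 11664 * (u : ℤ) ^ 5 + 790 * (u : ℤ) ^ 6 := by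
      clear h hd
      positivity
    have e1 := choose6 (3 * u + 10)
    have e2 := choose6 (2 * u + 7)
    have e3 := choose6 (u + 4)
    push_cast at e1 e2 e3 ⊢
    have key : 720 * (((3 * u + 10).choose 6 : ℤ) - 31 * ((2 * u + 7).choose 6 : ℤ) +
        465 * ((u + 4).choose 6 : ℤ)) = -(5040 * (u : ℤ) ^ 0 + 125316 * (u : ℤ) ^ 1 + 244270 * (u : ℤ) ^ 2 + 185220 * (u : ℤ) ^ 3 + 67060 * (u : ℤ) ^ 4 + 11664 * (u : ℤ) ^ 5 + 790 * (u : ℤ) ^ 6) := by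
      linear_combination e1 - 31 * e2 + 465 * e3
    linarith only [key, h0]
  · obtain ⟨u, rfl⟩ : ∃ u, d = 3 * (u + 1) + 2 := ⟨d / 3 - 1, by omega⟩
    rw [show 6 + (3 * (u + 1) + 2) = 3 * u + 11 by ring,
      show 6 + 2 * (3 * (u + 1) + 2) / 3 - 1 = 2 * u + 8 by omega,
      show 6 + (2 * (2 * (3 * (u + 1) + 2) / 3) - (3 * (u + 1) + 2)) - 2 = u + 5 by omega]
    have h0 : (0 : ℤ) < 292320 * (u : ℤ) ^ 0 + 731412 * (u : ℤ) ^ 1 + 708970 * (u : ℤ) ^ 2 + 349260 * (u : ℤ) ^ 3 + 94120 * (u : ℤ) ^ 4 + 13368 * (u : ℤ) ^ 5 + 790 * (u : ℤ) ^ 6 := by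
      clear h hd
      positivity
    have e1 := choose6 (3 * u + 11)
    have e2 := choose6 (2 * u + 8)
    have e3 := choose6 (u + 5)
    push_cast at e1 e2 e3 ⊢
    have key : 720 * (((3 * u + 11).choose 6 : ℤ) - 31 * ((2 * u + 8).choose 6 : ℤ) +
        465 * ((u + 5).choose 6 : ℤ)) = -(292320 * (u : ℤ) ^ 0 + 731412 * (u : ℤ) ^ 1 + 708970 * (u : ℤ) ^ 2 + 349260 * (u : ℤ) ^ 3 + 94120 * (u : ℤ) ^ 4 + 13368 * (u : ℤ) ^ 5 + 790 * (u : ℤ) ^ 6) := by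
      linear_combination e1 - 31 * e2 + 465 * e3
    linarith only [key, h0]

theorem all_6_31 {d m : ℕ} (hd : 3 ≤ d) (h2 : d + 2 ≤ 2 * m) (h3 : 2 * d + 3 < 3 * m + 6) :
    ldim 6 d (fun _ : Fin 31 => m) = 0 := by
  exact ldim_zero (fun _ => 2 * d / 3) (fun _ => by omega) (big_6_31 hd)

theorem big_6_32 {d : ℕ} (hd : 3 ≤ d) :
    lvdim 6 d (fun _ : Fin 32 => 2 * d / 3) < 0 := by
  rw [lvdim_pairs (by norm_num) (fun c hc hcn => by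
    rcases (by omega : c = 3 ∨ c = 4 ∨ c = 5 ∨ c = 6) with rfl | rfl | rfl | rfl <;> omega),
    show ((32 : ℕ).choose 2 : ℤ) = 496 by decide +kernel]
  rcases (by omega : d % 3 = 0 ∨ d % 3 = 1 ∨ d % 3 = 2) with h | h | h
  · obtain ⟨u, rfl⟩ : ∃ u, d = 3 * (u + 1) + 0 := ⟨d / 3 - 1, by omega⟩
    rw [show 6 + (3 * (u + 1) + 0) = 3 * u + 9 by ring,
      show 6 + 2 * (3 * (u + 1) + 0) / 3 - 1 = 2 * u + 7 by omega,
      show 6 + (2 * (2 * (3 * (u + 1) + 0) / 3) - (3 * (u + 1) + 0)) - 2 = u + 5 by omega]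
    have h0 : (0 : ℤ) < 100800 * (u : ℤ) ^ 0 + 273624 * (u : ℤ) ^ 1 + 296242 * (u : ℤ) ^ 2 + 172485 * (u : ℤ) ^ 3 + 58255 * (u : ℤ) ^ 4 + 10731 * (u : ℤ) ^ 5 + 823 * (u : ℤ) ^ 6 := by
      clear h hd
      positivity
    have e1 := choose6 (3 * u + 9)
    have e2 := choose6 (2 * u + 7)
    have e3 := choose6 (u + 5)
    push_cast at e1 e2 e3 ⊢
    have key : 720 * (((3 * u + 9).choose 6 : ℤ) - 32 * ((2 * u + 7).choose 6 : ℤ) +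
        496 * ((u + 5).choose 6 : ℤ)) = -(100800 * (u : ℤ) ^ 0 + 273624 * (u : ℤ) ^ 1 + 296242 * (u : ℤ) ^ 2 + 172485 * (u : ℤ) ^ 3 + 58255 * (u : ℤ) ^ 4 + 10731 * (u : ℤ) ^ 5 + 823 * (u : ℤ) ^ 6) := by
      linear_combination e1 - 32 * e2 + 496 * e3
    linarith only [key, h0]
  · obtain ⟨u, rfl⟩ : ∃ u, d = 3 * (u + 1) + 1 := ⟨d / 3 - 1, by omega⟩
    rw [show 6 + (3 * (u + 1) + 1) = 3 * u + 10 by ring,
      show 6 + 2 * (3 * (u + 1) + 1) / 3 - 1 = 2 * u + 7 by omega,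
      show 6 + (2 * (2 * (3 * (u + 1) + 1) / 3) - (3 * (u + 1) + 1)) - 2 = u + 4 by omega]
    have h0 : (0 : ℤ) < 10080 * (u : ℤ) ^ 0 + 142116 * (u : ℤ) ^ 1 + 265492 * (u : ℤ) ^ 2 + 198075 * (u : ℤ) ^ 3 + 71005 * (u : ℤ) ^ 4 + 12249 * (u : ℤ) ^ 5 + 823 * (u : ℤ) ^ 6 := by
      clear h hd
      positivity
    have e1 := choose6 (3 * u + 10)
    have e2 := choose6 (2 * u + 7)
    have e3 := choose6 (u + 4)
    push_cast at e1 e2 e3 ⊢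
    have key : 720 * (((3 * u + 10).choose 6 : ℤ) - 32 * ((2 * u + 7).choose 6 : ℤ) +
        496 * ((u + 4).choose 6 : ℤ)) = -(10080 * (u : ℤ) ^ 0 + 142116 * (u : ℤ) ^ 1 + 265492 * (u : ℤ) ^ 2 + 198075 * (u : ℤ) ^ 3 + 71005 * (u : ℤ) ^ 4 + 12249 * (u : ℤ) ^ 5 + 823 * (u : ℤ) ^ 6) := by
      linear_combination e1 - 32 * e2 + 496 * e3
    linarith only [key, h0]
  · obtain ⟨u, rfl⟩ : ∃ u, d = 3 * (u + 1) + 2 := ⟨d / 3 - 1, by omega⟩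
    rw [show 6 + (3 * (u + 1) + 2) = 3 * u + 11 by ring,
      show 6 + 2 * (3 * (u + 1) + 2) / 3 - 1 = 2 * u + 8 by omega,
      show 6 + (2 * (2 * (3 * (u + 1) + 2) / 3) - (3 * (u + 1) + 2)) - 2 = u + 5 by omega]
    have h0 : (0 : ℤ) < 312480 * (u : ℤ) ^ 0 + 776796 * (u : ℤ) ^ 1 + 749092 * (u : ℤ) ^ 2 + 367365 * (u : ℤ) ^ 3 + 98605 * (u : ℤ) ^ 4 + 13959 * (u : ℤ) ^ 5 + 823 * (u : ℤ) ^ 6 := by
      clear h hd
      positivity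
    have e1 := choose6 (3 * u + 11)
    have e2 := choose6 (2 * u + 8)
    have e3 := choose6 (u + 5)
    push_cast at e1 e2 e3 ⊢
    have key : 720 * (((3 * u + 11).choose 6 : ℤ) - 32 * ((2 * u + 8).choose 6 : ℤ) +
        496 * ((u + 5).choose 6 : ℤ)) = -(312480 * (u : ℤ) ^ 0 + 776796 * (u : ℤ) ^ 1 + 749092 * (u : ℤ) ^ 2 + 367365 * (u : ℤ) ^ 3 + 98605 * (u : ℤ) ^ 4 + 13959 * (u : ℤ) ^ 5 + 823 * (u : ℤ) ^ 6) := by
      linear_combination e1 - 32 * e2 + 496 * e3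
    linarith only [key, h0]

theorem all_6_32 {d m : ℕ} (hd : 3 ≤ d) (h2 : d + 2 ≤ 2 * m) (h3 : 2 * d + 3 < 3 * m + 6) :
    ldim 6 d (fun _ : Fin 32 => m) = 0 := by
  exact ldim_zero (fun _ => 2 * d / 3) (fun _ => by omega) (big_6_32 hd)

theorem big_6_33 {d : ℕ} (hd : 3 ≤ d) :
    lvdim 6 d (fun _ : Fin 33 => 2 * d / 3) < 0 := by
  rw [lvdim_pairs (by norm_num) (fun c hc hcn => by
    rcases (by omega : c = 3 ∨ c = 4 ∨ c = 5 ∨ c = 6) with rfl | rfl | rfl | rfl <;> omega),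
    show ((33 : ℕ).choose 2 : ℤ) = 528 by decide +kernel]
  rcases (by omega : d % 3 = 0 ∨ d % 3 = 1 ∨ d % 3 = 2) with h | h | h
  · obtain ⟨u, rfl⟩ : ∃ u, d = 3 * (u + 1) + 0 := ⟨d / 3 - 1, by omega⟩
    rw [show 6 + (3 * (u + 1) + 0) = 3 * u + 9 by ring,
      show 6 + 2 * (3 * (u + 1) + 0) / 3 - 1 = 2 * u + 7 by omega,
      show 6 + (2 * (2 * (3 * (u + 1) + 0) / 3) - (3 * (u + 1) + 0)) - 2 = u + 5 by omega]
    have h0 : (0 : ℤ) < 105840 * (u : ℤ) ^ 0 + 285840 * (u : ℤ) ^ 1 + 307890 * (u : ℤ) ^ 2 + 178605 * (u : ℤ) ^ 3 + 60255 * (u : ℤ) ^ 4 + 11115 * (u : ℤ) ^ 5 + 855 * (u : ℤ) ^ 6 := by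
      clear h hd
      positivity
    have e1 := choose6 (3 * u + 9)
    have e2 := choose6 (2 * u + 7)
    have e3 := choose6 (u + 5)
    push_cast at e1 e2 e3 ⊢
    have key : 720 * (((3 * u + 9).choose 6 : ℤ) - 33 * ((2 * u + 7).choose 6 : ℤ) +
        528 * ((u + 5).choose 6 : ℤ)) = -(105840 * (u : ℤ) ^ 0 + 285840 * (u : ℤ) ^ 1 + 307890 * (u : ℤ) ^ 2 + 178605 * (u : ℤ) ^ 3 + 60255 * (u : ℤ) ^ 4 + 11115 * (u : ℤ) ^ 5 + 855 * (u : ℤ) ^ 6) := by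
      linear_combination e1 - 33 * e2 + 528 * e3
    linarith only [key, h0]
  · obtain ⟨u, rfl⟩ : ∃ u, d = 3 * (u + 1) + 1 := ⟨d / 3 - 1, by omega⟩
    rw [show 6 + (3 * (u + 1) + 1) = 3 * u + 10 by ring,
      show 6 + 2 * (3 * (u + 1) + 1) / 3 - 1 = 2 * u + 7 by omega,
      show 6 + (2 * (2 * (3 * (u + 1) + 1) / 3) - (3 * (u + 1) + 1)) - 2 = u + 4 by omega]
    have h0 : (0 : ℤ) < 15120 * (u : ℤ) ^ 0 + 158940 * (u : ℤ) ^ 1 + 286740 * (u : ℤ) ^ 2 + 210915 * (u : ℤ) ^ 3 + 74925 * (u : ℤ) ^ 4 + 12825 * (u : ℤ) ^ 5 + 855 * (u : ℤ) ^ 6 := by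
      clear h hd
      positivity
    have e1 := choose6 (3 * u + 10)
    have e2 := choose6 (2 * u + 7)
    have e3 := choose6 (u + 4)
    push_cast at e1 e2 e3 ⊢
    have key : 720 * (((3 * u + 10).choose 6 : ℤ) - 33 * ((2 * u + 7).choose 6 : ℤ) +
        528 * ((u + 4).choose 6 : ℤ)) = -(15120 * (u : ℤ) ^ 0 + 158940 * (u : ℤ) ^ 1 + 286740 * (u : ℤ) ^ 2 + 210915 * (u : ℤ) ^ 3 + 74925 * (u : ℤ) ^ 4 + 12825 * (u : ℤ) ^ 5 + 855 * (u : ℤ) ^ 6) := by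
      linear_combination e1 - 33 * e2 + 528 * e3
    linarith only [key, h0]
  · obtain ⟨u, rfl⟩ : ∃ u, d = 3 * (u + 1) + 2 := ⟨d / 3 - 1, by omega⟩
    rw [show 6 + (3 * (u + 1) + 2) = 3 * u + 11 by ring,
      show 6 + 2 * (3 * (u + 1) + 2) / 3 - 1 = 2 * u + 8 by omega,
      show 6 + (2 * (2 * (3 * (u + 1) + 2) / 3) - (3 * (u + 1) + 2)) - 2 = u + 5 by omega]
    have h0 : (0 : ℤ) < 332640 * (u : ℤ) ^ 0 + 822060 * (u : ℤ) ^ 1 + 788940 * (u : ℤ) ^ 2 + 385245 * (u : ℤ) ^ 3 + 103005 * (u : ℤ) ^ 4 + 14535 * (u : ℤ) ^ 5 + 855 * (u : ℤ) ^ 6 := by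
      clear h hd
      positivity
    have e1 := choose6 (3 * u + 11)
    have e2 := choose6 (2 * u + 8)
    have e3 := choose6 (u + 5)
    push_cast at e1 e2 e3 ⊢
    have key : 720 * (((3 * u + 11).choose 6 : ℤ) - 33 * ((2 * u + 8).choose 6 : ℤ) +
        528 * ((u + 5).choose 6 : ℤ)) = -(332640 * (u : ℤ) ^ 0 + 822060 * (u : ℤ) ^ 1 + 788940 * (u : ℤ) ^ 2 + 385245 * (u : ℤ) ^ 3 + 103005 * (u : ℤ) ^ 4 + 14535 * (u : ℤ) ^ 5 + 855 * (u : ℤ) ^ 6) := by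
      linear_combination e1 - 33 * e2 + 528 * e3
    linarith only [key, h0]

theorem all_6_33 {d m : ℕ} (hd : 3 ≤ d) (h2 : d + 2 ≤ 2 * m) (h3 : 2 * d + 3 < 3 * m + 6) :
    ldim 6 d (fun _ : Fin 33 => m) = 0 := by
  exact ldim_zero (fun _ => 2 * d / 3) (fun _ => by omega) (big_6_33 hd)

theorem big_6_34 {d : ℕ} (hd : 3 ≤ d) :
    lvdim 6 d (fun _ : Fin 34 => 2 * d / 3) < 0 := by
  rw [lvdim_pairs (by norm_num) (fun c hc hcn => by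
    rcases (by omega : c = 3 ∨ c = 4 ∨ c = 5 ∨ c = 6) with rfl | rfl | rfl | rfl <;> omega),
    show ((34 : ℕ).choose 2 : ℤ) = 561 by decide +kernel]
  rcases (by omega : d % 3 = 0 ∨ d % 3 = 1 ∨ d % 3 = 2) with h | h | h
  · obtain ⟨u, rfl⟩ : ∃ u, d = 3 * (u + 1) + 0 := ⟨d / 3 - 1, by omega⟩
    rw [show 6 + (3 * (u + 1) + 0) = 3 * u + 9 by ring,
      show 6 + 2 * (3 * (u + 1) + 0) / 3 - 1 = 2 * u + 7 by omega,
      show 6 + (2 * (2 * (3 * (u + 1) + 0) / 3) - (3 * (u + 1) + 0)) - 2 = u + 5 by omega]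
    have h0 : (0 : ℤ) < 110880 * (u : ℤ) ^ 0 + 297936 * (u : ℤ) ^ 1 + 319264 * (u : ℤ) ^ 2 + 184500 * (u : ℤ) ^ 3 + 62170 * (u : ℤ) ^ 4 + 11484 * (u : ℤ) ^ 5 + 886 * (u : ℤ) ^ 6 := by
      clear h hd
      positivity
    have e1 := choose6 (3 * u + 9)
    have e2 := choose6 (2 * u + 7)
    have e3 := choose6 (u + 5)
    push_cast at e1 e2 e3 ⊢
    have key : 720 * (((3 * u + 9).choose 6 : ℤ) - 34 * ((2 * u + 7).choose 6 : ℤ) +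
        561 * ((u + 5).choose 6 : ℤ)) = -(110880 * (u : ℤ) ^ 0 + 297936 * (u : ℤ) ^ 1 + 319264 * (u : ℤ) ^ 2 + 184500 * (u : ℤ) ^ 3 + 62170 * (u : ℤ) ^ 4 + 11484 * (u : ℤ) ^ 5 + 886 * (u : ℤ) ^ 6) := by
      linear_combination e1 - 34 * e2 + 561 * e3
    linarith only [key, h0]
  · obtain ⟨u, rfl⟩ : ∃ u, d = 3 * (u + 1) + 1 := ⟨d / 3 - 1, by omega⟩
    rw [show 6 + (3 * (u + 1) + 1) = 3 * u + 10 by ring,
      show 6 + 2 * (3 * (u + 1) + 1) / 3 - 1 = 2 * u + 7 by omega,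
      show 6 + (2 * (2 * (3 * (u + 1) + 1) / 3) - (3 * (u + 1) + 1)) - 2 = u + 4 by omega]
    have h0 : (0 : ℤ) < 20160 * (u : ℤ) ^ 0 + 175788 * (u : ℤ) ^ 1 + 308014 * (u : ℤ) ^ 2 + 223740 * (u : ℤ) ^ 3 + 78820 * (u : ℤ) ^ 4 + 13392 * (u : ℤ) ^ 5 + 886 * (u : ℤ) ^ 6 := by
      clear h hd
      positivity
    have e1 := choose6 (3 * u + 10)
    have e2 := choose6 (2 * u + 7)
    have e3 := choose6 (u + 4)
    push_cast at e1 e2 e3 ⊢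
    have key : 720 * (((3 * u + 10).choose 6 : ℤ) - 34 * ((2 * u + 7).choose 6 : ℤ) +
        561 * ((u + 4).choose 6 : ℤ)) = -(20160 * (u : ℤ) ^ 0 + 175788 * (u : ℤ) ^ 1 + 308014 * (u : ℤ) ^ 2 + 223740 * (u : ℤ) ^ 3 + 78820 * (u : ℤ) ^ 4 + 13392 * (u : ℤ) ^ 5 + 886 * (u : ℤ) ^ 6) := by
      linear_combination e1 - 34 * e2 + 561 * e3
    linarith only [key, h0]
  · obtain ⟨u, rfl⟩ : ∃ u, d = 3 * (u + 1) + 2 := ⟨d / 3 - 1, by omega⟩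
    rw [show 6 + (3 * (u + 1) + 2) = 3 * u + 11 by ring,
      show 6 + 2 * (3 * (u + 1) + 2) / 3 - 1 = 2 * u + 8 by omega,
      show 6 + (2 * (2 * (3 * (u + 1) + 2) / 3) - (3 * (u + 1) + 2)) - 2 = u + 5 by omega]
    have h0 : (0 : ℤ) < 352800 * (u : ℤ) ^ 0 + 867204 * (u : ℤ) ^ 1 + 828514 * (u : ℤ) ^ 2 + 402900 * (u : ℤ) ^ 3 + 107320 * (u : ℤ) ^ 4 + 15096 * (u : ℤ) ^ 5 + 886 * (u : ℤ) ^ 6 := by
      clear h hd
      positivity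
    have e1 := choose6 (3 * u + 11)
    have e2 := choose6 (2 * u + 8)
    have e3 := choose6 (u + 5)
    push_cast at e1 e2 e3 ⊢
    have key : 720 * (((3 * u + 11).choose 6 : ℤ) - 34 * ((2 * u + 8).choose 6 : ℤ) +
        561 * ((u + 5).choose 6 : ℤ)) = -(352800 * (u : ℤ) ^ 0 + 867204 * (u : ℤ) ^ 1 + 828514 * (u : ℤ) ^ 2 + 402900 * (u : ℤ) ^ 3 + 107320 * (u : ℤ) ^ 4 + 15096 * (u : ℤ) ^ 5 + 886 * (u : ℤ) ^ 6) := by
      linear_combination e1 - 34 * e2 + 561 * e3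
    linarith only [key, h0]

theorem all_6_34 {d m : ℕ} (hd : 3 ≤ d) (h2 : d + 2 ≤ 2 * m) (h3 : 2 * d + 3 < 3 * m + 6) :
    ldim 6 d (fun _ : Fin 34 => m) = 0 := by
  exact ldim_zero (fun _ => 2 * d / 3) (fun _ => by omega) (big_6_34 hd)

theorem big_6_35 {d : ℕ} (hd : 3 ≤ d) :
    lvdim 6 d (fun _ : Fin 35 => 2 * d / 3) < 0 := by
  rw [lvdim_pairs (by norm_num) (fun c hc hcn => by
    rcases (by omega : c = 3 ∨ c = 4 ∨ c = 5 ∨ c = 6) with rfl | rfl | rfl | rfl <;> omega),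
    show ((35 : ℕ).choose 2 : ℤ) = 595 by decide +kernel]
  rcases (by omega : d % 3 = 0 ∨ d % 3 = 1 ∨ d % 3 = 2) with h | h | h
  · obtain ⟨u, rfl⟩ : ∃ u, d = 3 * (u + 1) + 0 := ⟨d / 3 - 1, by omega⟩
    rw [show 6 + (3 * (u + 1) + 0) = 3 * u + 9 by ring,
      show 6 + 2 * (3 * (u + 1) + 0) / 3 - 1 = 2 * u + 7 by omega,
      show 6 + (2 * (2 * (3 * (u + 1) + 0) / 3) - (3 * (u + 1) + 0)) - 2 = u + 5 by omega]
    have h0 : (0 : ℤ) < 115920 * (u : ℤ) ^ 0 + 309912 * (u : ℤ) ^ 1 + 330364 * (u : ℤ) ^ 2 + 190170 * (u : ℤ) ^ 3 + 64000 * (u : ℤ) ^ 4 + 11838 * (u : ℤ) ^ 5 + 916 * (u : ℤ) ^ 6 := by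
      clear h hd
      positivity
    have e1 := choose6 (3 * u + 9)
    have e2 := choose6 (2 * u + 7)
    have e3 := choose6 (u + 5)
    push_cast at e1 e2 e3 ⊢
    have key : 720 * (((3 * u + 9).choose 6 : ℤ) - 35 * ((2 * u + 7).choose 6 : ℤ) +
        595 * ((u + 5).choose 6 : ℤ)) = -(115920 * (u : ℤ) ^ 0 + 309912 * (u : ℤ) ^ 1 + 330364 * (u : ℤ) ^ 2 + 190170 * (u : ℤ) ^ 3 + 64000 * (u : ℤ) ^ 4 + 11838 * (u : ℤ) ^ 5 + 916 * (u : ℤ) ^ 6) := by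
      linear_combination e1 - 35 * e2 + 595 * e3
    linarith only [key, h0]
  · obtain ⟨u, rfl⟩ : ∃ u, d = 3 * (u + 1) + 1 := ⟨d / 3 - 1, by omega⟩
    rw [show 6 + (3 * (u + 1) + 1) = 3 * u + 10 by ring,
      show 6 + 2 * (3 * (u + 1) + 1) / 3 - 1 = 2 * u + 7 by omega,
      show 6 + (2 * (2 * (3 * (u + 1) + 1) / 3) - (3 * (u + 1) + 1)) - 2 = u + 4 by omega]
    have h0 : (0 : ℤ) < 25200 * (u : ℤ) ^ 0 + 192660 * (u : ℤ) ^ 1 + 329314 * (u : ℤ) ^ 2 + 236550 * (u : ℤ) ^ 3 + 82690 * (u : ℤ) ^ 4 + 13950 * (u : ℤ) ^ 5 + 916 * (u : ℤ) ^ 6 := by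
      clear h hd
      positivity
    have e1 := choose6 (3 * u + 10)
    have e2 := choose6 (2 * u + 7)
    have e3 := choose6 (u + 4)
    push_cast at e1 e2 e3 ⊢
    have key : 720 * (((3 * u + 10).choose 6 : ℤ) - 35 * ((2 * u + 7).choose 6 : ℤ) +
        595 * ((u + 4).choose 6 : ℤ)) = -(25200 * (u : ℤ) ^ 0 + 192660 * (u : ℤ) ^ 1 + 329314 * (u : ℤ) ^ 2 + 236550 * (u : ℤ) ^ 3 + 82690 * (u : ℤ) ^ 4 + 13950 * (u : ℤ) ^ 5 + 916 * (u : ℤ) ^ 6) := by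
      linear_combination e1 - 35 * e2 + 595 * e3
    linarith only [key, h0]
  · obtain ⟨u, rfl⟩ : ∃ u, d = 3 * (u + 1) + 2 := ⟨d / 3 - 1, by omega⟩
    rw [show 6 + (3 * (u + 1) + 2) = 3 * u + 11 by ring,
      show 6 + 2 * (3 * (u + 1) + 2) / 3 - 1 = 2 * u + 8 by omega,
      show 6 + (2 * (2 * (3 * (u + 1) + 2) / 3) - (3 * (u + 1) + 2)) - 2 = u + 5 by omega]
    have h0 : (0 : ℤ) < 372960 * (u : ℤ) ^ 0 + 912228 * (u : ℤ) ^ 1 + 867814 * (u : ℤ) ^ 2 + 420330 * (u : ℤ) ^ 3 + 111550 * (u : ℤ) ^ 4 + 15642 * (u : ℤ) ^ 5 + 916 * (u : ℤ) ^ 6 := by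
      clear h hd
      positivity
    have e1 := choose6 (3 * u + 11)
    have e2 := choose6 (2 * u + 8)
    have e3 := choose6 (u + 5)
    push_cast at e1 e2 e3 ⊢
    have key : 720 * (((3 * u + 11).choose 6 : ℤ) - 35 * ((2 * u + 8).choose 6 : ℤ) +
        595 * ((u + 5).choose 6 : ℤ)) = -(372960 * (u : ℤ) ^ 0 + 912228 * (u : ℤ) ^ 1 + 867814 * (u : ℤ) ^ 2 + 420330 * (u : ℤ) ^ 3 + 111550 * (u : ℤ) ^ 4 + 15642 * (u : ℤ) ^ 5 + 916 * (u : ℤ) ^ 6) := by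
      linear_combination e1 - 35 * e2 + 595 * e3
    linarith only [key, h0]

theorem all_6_35 {d m : ℕ} (hd : 3 ≤ d) (h2 : d + 2 ≤ 2 * m) (h3 : 2 * d + 3 < 3 * m + 6) :
    ldim 6 d (fun _ : Fin 35 => m) = 0 := by
  exact ldim_zero (fun _ => 2 * d / 3) (fun _ => by omega) (big_6_35 hd)

theorem big_6_36 {d : ℕ} (hd : 3 ≤ d) :
    lvdim 6 d (fun _ : Fin 36 => 2 * d / 3) < 0 := by
  rw [lvdim_pairs (by norm_num) (fun c hc hcn => by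
    rcases (by omega : c = 3 ∨ c = 4 ∨ c = 5 ∨ c = 6) with rfl | rfl | rfl | rfl <;> omega),
    show ((36 : ℕ).choose 2 : ℤ) = 630 by decide +kernel]
  rcases (by omega : d % 3 = 0 ∨ d % 3 = 1 ∨ d % 3 = 2) with h | h | h
  · obtain ⟨u, rfl⟩ : ∃ u, d = 3 * (u + 1) + 0 := ⟨d / 3 - 1, by omega⟩
    rw [show 6 + (3 * (u + 1) + 0) = 3 * u + 9 by ring,
      show 6 + 2 * (3 * (u + 1) + 0) / 3 - 1 = 2 * u + 7 by omega,
      show 6 + (2 * (2 * (3 * (u + 1) + 0) / 3) - (3 * (u + 1) + 0)) - 2 = u + 5 by omega]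
    have h0 : (0 : ℤ) < 120960 * (u : ℤ) ^ 0 + 321768 * (u : ℤ) ^ 1 + 341190 * (u : ℤ) ^ 2 + 195615 * (u : ℤ) ^ 3 + 65745 * (u : ℤ) ^ 4 + 12177 * (u : ℤ) ^ 5 + 945 * (u : ℤ) ^ 6 := by
      clear h hd
      positivity
    have e1 := choose6 (3 * u + 9)
    have e2 := choose6 (2 * u + 7)
    have e3 := choose6 (u + 5)
    push_cast at e1 e2 e3 ⊢
    have key : 720 * (((3 * u + 9).choose 6 : ℤ) - 36 * ((2 * u + 7).choose 6 : ℤ) +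
        630 * ((u + 5).choose 6 : ℤ)) = -(120960 * (u : ℤ) ^ 0 + 321768 * (u : ℤ) ^ 1 + 341190 * (u : ℤ) ^ 2 + 195615 * (u : ℤ) ^ 3 + 65745 * (u : ℤ) ^ 4 + 12177 * (u : ℤ) ^ 5 + 945 * (u : ℤ) ^ 6) := by
      linear_combination e1 - 36 * e2 + 630 * e3
    linarith only [key, h0]
  · obtain ⟨u, rfl⟩ : ∃ u, d = 3 * (u + 1) + 1 := ⟨d / 3 - 1, by omega⟩
    rw [show 6 + (3 * (u + 1) + 1) = 3 * u + 10 by ring,
      show 6 + 2 * (3 * (u + 1) + 1) / 3 - 1 = 2 * u + 7 by omega,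
      show 6 + (2 * (2 * (3 * (u + 1) + 1) / 3) - (3 * (u + 1) + 1)) - 2 = u + 4 by omega]
    have h0 : (0 : ℤ) < 30240 * (u : ℤ) ^ 0 + 209556 * (u : ℤ) ^ 1 + 350640 * (u : ℤ) ^ 2 + 249345 * (u : ℤ) ^ 3 + 86535 * (u : ℤ) ^ 4 + 14499 * (u : ℤ) ^ 5 + 945 * (u : ℤ) ^ 6 := by
      clear h hd
      positivity
    have e1 := choose6 (3 * u + 10)
    have e2 := choose6 (2 * u + 7)
    have e3 := choose6 (u + 4)
    push_cast at e1 e2 e3 ⊢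
    have key : 720 * (((3 * u + 10).choose 6 : ℤ) - 36 * ((2 * u + 7).choose 6 : ℤ) +
        630 * ((u + 4).choose 6 : ℤ)) = -(30240 * (u : ℤ) ^ 0 + 209556 * (u : ℤ) ^ 1 + 350640 * (u : ℤ) ^ 2 + 249345 * (u : ℤ) ^ 3 + 86535 * (u : ℤ) ^ 4 + 14499 * (u : ℤ) ^ 5 + 945 * (u : ℤ) ^ 6) := by
      linear_combination e1 - 36 * e2 + 630 * e3
    linarith only [key, h0]
  · obtain ⟨u, rfl⟩ : ∃ u, d = 3 * (u + 1) + 2 := ⟨d / 3 - 1, by omega⟩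
    rw [show 6 + (3 * (u + 1) + 2) = 3 * u + 11 by ring,
      show 6 + 2 * (3 * (u + 1) + 2) / 3 - 1 = 2 * u + 8 by omega,
      show 6 + (2 * (2 * (3 * (u + 1) + 2) / 3) - (3 * (u + 1) + 2)) - 2 = u + 5 by omega]
    have h0 : (0 : ℤ) < 393120 * (u : ℤ) ^ 0 + 957132 * (u : ℤ) ^ 1 + 906840 * (u : ℤ) ^ 2 + 437535 * (u : ℤ) ^ 3 + 115695 * (u : ℤ) ^ 4 + 16173 * (u : ℤ) ^ 5 + 945 * (u : ℤ) ^ 6 := by
      clear h hd
      positivity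
    have e1 := choose6 (3 * u + 11)
    have e2 := choose6 (2 * u + 8)
    have e3 := choose6 (u + 5)
    push_cast at e1 e2 e3 ⊢
    have key : 720 * (((3 * u + 11).choose 6 : ℤ) - 36 * ((2 * u + 8).choose 6 : ℤ) +
        630 * ((u + 5).choose 6 : ℤ)) = -(393120 * (u : ℤ) ^ 0 + 957132 * (u : ℤ) ^ 1 + 906840 * (u : ℤ) ^ 2 + 437535 * (u : ℤ) ^ 3 + 115695 * (u : ℤ) ^ 4 + 16173 * (u : ℤ) ^ 5 + 945 * (u : ℤ) ^ 6) := by
      linear_combination e1 - 36 * e2 + 630 * e3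
    linarith only [key, h0]

theorem all_6_36 {d m : ℕ} (hd : 3 ≤ d) (h2 : d + 2 ≤ 2 * m) (h3 : 2 * d + 3 < 3 * m + 6) :
    ldim 6 d (fun _ : Fin 36 => m) = 0 := by
  exact ldim_zero (fun _ => 2 * d / 3) (fun _ => by omega) (big_6_36 hd)

theorem big_6_37 {d : ℕ} (hd : 3 ≤ d) :
    lvdim 6 d (fun _ : Fin 37 => 2 * d / 3) < 0 := by
  rw [lvdim_pairs (by norm_num) (fun c hc hcn => by
    rcases (by omega : c = 3 ∨ c = 4 ∨ c = 5 ∨ c = 6) with rfl | rfl | rfl | rfl <;> omega),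
    show ((37 : ℕ).choose 2 : ℤ) = 666 by decide +kernel]
  rcases (by omega : d % 3 = 0 ∨ d % 3 = 1 ∨ d % 3 = 2) with h | h | h
  · obtain ⟨u, rfl⟩ : ∃ u, d = 3 * (u + 1) + 0 := ⟨d / 3 - 1, by omega⟩
    rw [show 6 + (3 * (u + 1) + 0) = 3 * u + 9 by ring,
      show 6 + 2 * (3 * (u + 1) + 0) / 3 - 1 = 2 * u + 7 by omega,
      show 6 + (2 * (2 * (3 * (u + 1) + 0) / 3) - (3 * (u + 1) + 0)) - 2 = u + 5 by omega]
    have h0 : (0 : ℤ) < 126000 * (u : ℤ) ^ 0 + 333504 * (u : ℤ) ^ 1 + 351742 * (u : ℤ) ^ 2 + 200835 * (u : ℤ) ^ 3 + 67405 * (u : ℤ) ^ 4 + 12501 * (u : ℤ) ^ 5 + 973 * (u : ℤ) ^ 6 := by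
      clear h hd
      positivity
    have e1 := choose6 (3 * u + 9)
    have e2 := choose6 (2 * u + 7)
    have e3 := choose6 (u + 5)
    push_cast at e1 e2 e3 ⊢
    have key : 720 * (((3 * u + 9).choose 6 : ℤ) - 37 * ((2 * u + 7).choose 6 : ℤ) +
        666 * ((u + 5).choose 6 : ℤ)) = -(126000 * (u : ℤ) ^ 0 + 333504 * (u : ℤ) ^ 1 + 351742 * (u : ℤ) ^ 2 + 200835 * (u : ℤ) ^ 3 + 67405 * (u : ℤ) ^ 4 + 12501 * (u : ℤ) ^ 5 + 973 * (u : ℤ) ^ 6) := by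
      linear_combination e1 - 37 * e2 + 666 * e3
    linarith only [key, h0]
  · obtain ⟨u, rfl⟩ : ∃ u, d = 3 * (u + 1) + 1 := ⟨d / 3 - 1, by omega⟩
    rw [show 6 + (3 * (u + 1) + 1) = 3 * u + 10 by ring,
      show 6 + 2 * (3 * (u + 1) + 1) / 3 - 1 = 2 * u + 7 by omega,
      show 6 + (2 * (2 * (3 * (u + 1) + 1) / 3) - (3 * (u + 1) + 1)) - 2 = u + 4 by omega]
    have h0 : (0 : ℤ) < 35280 * (u : ℤ) ^ 0 + 226476 * (u : ℤ) ^ 1 + 371992 * (u : ℤ) ^ 2 + 262125 * (u : ℤ) ^ 3 + 90355 * (u : ℤ) ^ 4 + 15039 * (u : ℤ) ^ 5 + 973 * (u : ℤ) ^ 6 := by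
      clear h hd
      positivity
    have e1 := choose6 (3 * u + 10)
    have e2 := choose6 (2 * u + 7)
    have e3 := choose6 (u + 4)
    push_cast at e1 e2 e3 ⊢
    have key : 720 * (((3 * u + 10).choose 6 : ℤ) - 37 * ((2 * u + 7).choose 6 : ℤ) +
        666 * ((u + 4).choose 6 : ℤ)) = -(35280 * (u : ℤ) ^ 0 + 226476 * (u : ℤ) ^ 1 + 371992 * (u : ℤ) ^ 2 + 262125 * (u : ℤ) ^ 3 + 90355 * (u : ℤ) ^ 4 + 15039 * (u : ℤ) ^ 5 + 973 * (u : ℤ) ^ 6) := by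
      linear_combination e1 - 37 * e2 + 666 * e3
    linarith only [key, h0]
  · obtain ⟨u, rfl⟩ : ∃ u, d = 3 * (u + 1) + 2 := ⟨d / 3 - 1, by omega⟩
    rw [show 6 + (3 * (u + 1) + 2) = 3 * u + 11 by ring,
      show 6 + 2 * (3 * (u + 1) + 2) / 3 - 1 = 2 * u + 8 by omega,
      show 6 + (2 * (2 * (3 * (u + 1) + 2) / 3) - (3 * (u + 1) + 2)) - 2 = u + 5 by omega]
    have h0 : (0 : ℤ) < 413280 * (u : ℤ) ^ 0 + 1001916 * (u : ℤ) ^ 1 + 945592 * (u : ℤ) ^ 2 + 454515 * (u : ℤ) ^ 3 + 119755 * (u : ℤ) ^ 4 + 16689 * (u : ℤ) ^ 5 + 973 * (u : ℤ) ^ 6 := by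
      clear h hd
      positivity
    have e1 := choose6 (3 * u + 11)
    have e2 := choose6 (2 * u + 8)
    have e3 := choose6 (u + 5)
    push_cast at e1 e2 e3 ⊢
    have key : 720 * (((3 * u + 11).choose 6 : ℤ) - 37 * ((2 * u + 8).choose 6 : ℤ) +
        666 * ((u + 5).choose 6 : ℤ)) = -(413280 * (u : ℤ) ^ 0 + 1001916 * (u : ℤ) ^ 1 + 945592 * (u : ℤ) ^ 2 + 454515 * (u : ℤ) ^ 3 + 119755 * (u : ℤ) ^ 4 + 16689 * (u : ℤ) ^ 5 + 973 * (u : ℤ) ^ 6) := by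
      linear_combination e1 - 37 * e2 + 666 * e3
    linarith only [key, h0]

theorem all_6_37 {d m : ℕ} (hd : 3 ≤ d) (h2 : d + 2 ≤ 2 * m) (h3 : 2 * d + 3 < 3 * m + 6) :
    ldim 6 d (fun _ : Fin 37 => m) = 0 := by
  exact ldim_zero (fun _ => 2 * d / 3) (fun _ => by omega) (big_6_37 hd)

theorem big_6_38 {d : ℕ} (hd : 3 ≤ d) :
    lvdim 6 d (fun _ : Fin 38 => 2 * d / 3) < 0 := by
  rw [lvdim_pairs (by norm_num) (fun c hc hcn => by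
    rcases (by omega : c = 3 ∨ c = 4 ∨ c = 5 ∨ c = 6) with rfl | rfl | rfl | rfl <;> omega),
    show ((38 : ℕ).choose 2 : ℤ) = 703 by decide +kernel]
  rcases (by omega : d % 3 = 0 ∨ d % 3 = 1 ∨ d % 3 = 2) with h | h | h
  · obtain ⟨u, rfl⟩ : ∃ u, d = 3 * (u + 1) + 0 := ⟨d / 3 - 1, by omega⟩
    rw [show 6 + (3 * (u + 1) + 0) = 3 * u + 9 by ring,
      show 6 + 2 * (3 * (u + 1) + 0) / 3 - 1 = 2 * u + 7 by omega,
      show 6 + (2 * (2 * (3 * (u + 1) + 0) / 3) - (3 * (u + 1) + 0)) - 2 = u + 5 by omega]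
    have h0 : (0 : ℤ) < 131040 * (u : ℤ) ^ 0 + 345120 * (u : ℤ) ^ 1 + 362020 * (u : ℤ) ^ 2 + 205830 * (u : ℤ) ^ 3 + 68980 * (u : ℤ) ^ 4 + 12810 * (u : ℤ) ^ 5 + 1000 * (u : ℤ) ^ 6 := by
      clear h hd
      positivity
    have e1 := choose6 (3 * u + 9)
    have e2 := choose6 (2 * u + 7)
    have e3 := choose6 (u + 5)
    push_cast at e1 e2 e3 ⊢
    have key : 720 * (((3 * u + 9).choose 6 : ℤ) - 38 * ((2 * u + 7).choose 6 : ℤ) +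
        703 * ((u + 5).choose 6 : ℤ)) = -(131040 * (u : ℤ) ^ 0 + 345120 * (u : ℤ) ^ 1 + 362020 * (u : ℤ) ^ 2 + 205830 * (u : ℤ) ^ 3 + 68980 * (u : ℤ) ^ 4 + 12810 * (u : ℤ) ^ 5 + 1000 * (u : ℤ) ^ 6) := by
      linear_combination e1 - 38 * e2 + 703 * e3
    linarith only [key, h0]
  · obtain ⟨u, rfl⟩ : ∃ u, d = 3 * (u + 1) + 1 := ⟨d / 3 - 1, by omega⟩
    rw [show 6 + (3 * (u + 1) + 1) = 3 * u + 10 by ring,
      show 6 + 2 * (3 * (u + 1) + 1) / 3 - 1 = 2 * u + 7 by omega,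
      show 6 + (2 * (2 * (3 * (u + 1) + 1) / 3) - (3 * (u + 1) + 1)) - 2 = u + 4 by omega]
    have h0 : (0 : ℤ) < 40320 * (u : ℤ) ^ 0 + 243420 * (u : ℤ) ^ 1 + 393370 * (u : ℤ) ^ 2 + 274890 * (u : ℤ) ^ 3 + 94150 * (u : ℤ) ^ 4 + 15570 * (u : ℤ) ^ 5 + 1000 * (u : ℤ) ^ 6 := by
      clear h hd
      positivity
    have e1 := choose6 (3 * u + 10)
    have e2 := choose6 (2 * u + 7)
    have e3 := choose6 (u + 4)
    push_cast at e1 e2 e3 ⊢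
    have key : 720 * (((3 * u + 10).choose 6 : ℤ) - 38 * ((2 * u + 7).choose 6 : ℤ) +
        703 * ((u + 4).choose 6 : ℤ)) = -(40320 * (u : ℤ) ^ 0 + 243420 * (u : ℤ) ^ 1 + 393370 * (u : ℤ) ^ 2 + 274890 * (u : ℤ) ^ 3 + 94150 * (u : ℤ) ^ 4 + 15570 * (u : ℤ) ^ 5 + 1000 * (u : ℤ) ^ 6) := by
      linear_combination e1 - 38 * e2 + 703 * e3
    linarith only [key, h0]
  · obtain ⟨u, rfl⟩ : ∃ u, d = 3 * (u + 1) + 2 := ⟨d / 3 - 1, by omega⟩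
    rw [show 6 + (3 * (u + 1) + 2) = 3 * u + 11 by ring,
      show 6 + 2 * (3 * (u + 1) + 2) / 3 - 1 = 2 * u + 8 by omega,
      show 6 + (2 * (2 * (3 * (u + 1) + 2) / 3) - (3 * (u + 1) + 2)) - 2 = u + 5 by omega]
    have h0 : (0 : ℤ) < 433440 * (u : ℤ) ^ 0 + 1046580 * (u : ℤ) ^ 1 + 984070 * (u : ℤ) ^ 2 + 471270 * (u : ℤ) ^ 3 + 123730 * (u : ℤ) ^ 4 + 17190 * (u : ℤ) ^ 5 + 1000 * (u : ℤ) ^ 6 := by
      clear h hd
      positivity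
    have e1 := choose6 (3 * u + 11)
    have e2 := choose6 (2 * u + 8)
    have e3 := choose6 (u + 5)
    push_cast at e1 e2 e3 ⊢
    have key : 720 * (((3 * u + 11).choose 6 : ℤ) - 38 * ((2 * u + 8).choose 6 : ℤ) +
        703 * ((u + 5).choose 6 : ℤ)) = -(433440 * (u : ℤ) ^ 0 + 1046580 * (u : ℤ) ^ 1 + 984070 * (u : ℤ) ^ 2 + 471270 * (u : ℤ) ^ 3 + 123730 * (u : ℤ) ^ 4 + 17190 * (u : ℤ) ^ 5 + 1000 * (u : ℤ) ^ 6) := by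
      linear_combination e1 - 38 * e2 + 703 * e3
    linarith only [key, h0]

theorem all_6_38 {d m : ℕ} (hd : 3 ≤ d) (h2 : d + 2 ≤ 2 * m) (h3 : 2 * d + 3 < 3 * m + 6) :
    ldim 6 d (fun _ : Fin 38 => m) = 0 := by
  exact ldim_zero (fun _ => 2 * d / 3) (fun _ => by omega) (big_6_38 hd)

theorem big_6_39 {d : ℕ} (hd : 3 ≤ d) :
    lvdim 6 d (fun _ : Fin 39 => 2 * d / 3) < 0 := by
  rw [lvdim_pairs (by norm_num) (fun c hc hcn => by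
    rcases (by omega : c = 3 ∨ c = 4 ∨ c = 5 ∨ c = 6) with rfl | rfl | rfl | rfl <;> omega),
    show ((39 : ℕ).choose 2 : ℤ) = 741 by decide +kernel]
  rcases (by omega : d % 3 = 0 ∨ d % 3 = 1 ∨ d % 3 = 2) with h | h | h
  · obtain ⟨u, rfl⟩ : ∃ u, d = 3 * (u + 1) + 0 := ⟨d / 3 - 1, by omega⟩
    rw [show 6 + (3 * (u + 1) + 0) = 3 * u + 9 by ring,
      show 6 + 2 * (3 * (u + 1) + 0) / 3 - 1 = 2 * u + 7 by omega,
      show 6 + (2 * (2 * (3 * (u + 1) + 0) / 3) - (3 * (u + 1) + 0)) - 2 = u + 5 by omega]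
    have h0 : (0 : ℤ) < 136080 * (u : ℤ) ^ 0 + 356616 * (u : ℤ) ^ 1 + 372024 * (u : ℤ) ^ 2 + 210600 * (u : ℤ) ^ 3 + 70470 * (u : ℤ) ^ 4 + 13104 * (u : ℤ) ^ 5 + 1026 * (u : ℤ) ^ 6 := by
      clear h hd
      positivity
    have e1 := choose6 (3 * u + 9)
    have e2 := choose6 (2 * u + 7)
    have e3 := choose6 (u + 5)
    push_cast at e1 e2 e3 ⊢
    have key : 720 * (((3 * u + 9).choose 6 : ℤ) - 39 * ((2 * u + 7).choose 6 : ℤ) +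
        741 * ((u + 5).choose 6 : ℤ)) = -(136080 * (u : ℤ) ^ 0 + 356616 * (u : ℤ) ^ 1 + 372024 * (u : ℤ) ^ 2 + 210600 * (u : ℤ) ^ 3 + 70470 * (u : ℤ) ^ 4 + 13104 * (u : ℤ) ^ 5 + 1026 * (u : ℤ) ^ 6) := by
      linear_combination e1 - 39 * e2 + 741 * e3
    linarith only [key, h0]
  · obtain ⟨u, rfl⟩ : ∃ u, d = 3 * (u + 1) + 1 := ⟨d / 3 - 1, by omega⟩
    rw [show 6 + (3 * (u + 1) + 1) = 3 * u + 10 by ring,
      show 6 + 2 * (3 * (u + 1) + 1) / 3 - 1 = 2 * u + 7 by omega,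
      show 6 + (2 * (2 * (3 * (u + 1) + 1) / 3) - (3 * (u + 1) + 1)) - 2 = u + 4 by omega]
    have h0 : (0 : ℤ) < 45360 * (u : ℤ) ^ 0 + 260388 * (u : ℤ) ^ 1 + 414774 * (u : ℤ) ^ 2 + 287640 * (u : ℤ) ^ 3 + 97920 * (u : ℤ) ^ 4 + 16092 * (u : ℤ) ^ 5 + 1026 * (u : ℤ) ^ 6 := by
      clear h hd
      positivity
    have e1 := choose6 (3 * u + 10)
    have e2 := choose6 (2 * u + 7)
    have e3 := choose6 (u + 4)
    push_cast at e1 e2 e3 ⊢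
    have key : 720 * (((3 * u + 10).choose 6 : ℤ) - 39 * ((2 * u + 7).choose 6 : ℤ) +
        741 * ((u + 4).choose 6 : ℤ)) = -(45360 * (u : ℤ) ^ 0 + 260388 * (u : ℤ) ^ 1 + 414774 * (u : ℤ) ^ 2 + 287640 * (u : ℤ) ^ 3 + 97920 * (u : ℤ) ^ 4 + 16092 * (u : ℤ) ^ 5 + 1026 * (u : ℤ) ^ 6) := by
      linear_combination e1 - 39 * e2 + 741 * e3
    linarith only [key, h0]
  · obtain ⟨u, rfl⟩ : ∃ u, d = 3 * (u + 1) + 2 := ⟨d / 3 - 1, by omega⟩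
    rw [show 6 + (3 * (u + 1) + 2) = 3 * u + 11 by ring,
      show 6 + 2 * (3 * (u + 1) + 2) / 3 - 1 = 2 * u + 8 by omega,
      show 6 + (2 * (2 * (3 * (u + 1) + 2) / 3) - (3 * (u + 1) + 2)) - 2 = u + 5 by omega]
    have h0 : (0 : ℤ) < 453600 * (u : ℤ) ^ 0 + 1091124 * (u : ℤ) ^ 1 + 1022274 * (u : ℤ) ^ 2 + 487800 * (u : ℤ) ^ 3 + 127620 * (u : ℤ) ^ 4 + 17676 * (u : ℤ) ^ 5 + 1026 * (u : ℤ) ^ 6 := by
      clear h hd
      positivity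
    have e1 := choose6 (3 * u + 11)
    have e2 := choose6 (2 * u + 8)
    have e3 := choose6 (u + 5)
    push_cast at e1 e2 e3 ⊢
    have key : 720 * (((3 * u + 11).choose 6 : ℤ) - 39 * ((2 * u + 8).choose 6 : ℤ) +
        741 * ((u + 5).choose 6 : ℤ)) = -(453600 * (u : ℤ) ^ 0 + 1091124 * (u : ℤ) ^ 1 + 1022274 * (u : ℤ) ^ 2 + 487800 * (u : ℤ) ^ 3 + 127620 * (u : ℤ) ^ 4 + 17676 * (u : ℤ) ^ 5 + 1026 * (u : ℤ) ^ 6) := by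
      linear_combination e1 - 39 * e2 + 741 * e3
    linarith only [key, h0]

theorem all_6_39 {d m : ℕ} (hd : 3 ≤ d) (h2 : d + 2 ≤ 2 * m) (h3 : 2 * d + 3 < 3 * m + 6) :
    ldim 6 d (fun _ : Fin 39 => m) = 0 := by
  exact ldim_zero (fun _ => 2 * d / 3) (fun _ => by omega) (big_6_39 hd)

theorem big_6_40 {d : ℕ} (hd : 3 ≤ d) :
    lvdim 6 d (fun _ : Fin 40 => 2 * d / 3) < 0 := by
  rw [lvdim_pairs (by norm_num) (fun c hc hcn => by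
    rcases (by omega : c = 3 ∨ c = 4 ∨ c = 5 ∨ c = 6) with rfl | rfl | rfl | rfl <;> omega),
    show ((40 : ℕ).choose 2 : ℤ) = 780 by decide +kernel]
  rcases (by omega : d % 3 = 0 ∨ d % 3 = 1 ∨ d % 3 = 2) with h | h | h
  · obtain ⟨u, rfl⟩ : ∃ u, d = 3 * (u + 1) + 0 := ⟨d / 3 - 1, by omega⟩
    rw [show 6 + (3 * (u + 1) + 0) = 3 * u + 9 by ring,
      show 6 + 2 * (3 * (u + 1) + 0) / 3 - 1 = 2 * u + 7 by omega,
      show 6 + (2 * (2 * (3 * (u + 1) + 0) / 3) - (3 * (u + 1) + 0)) - 2 = u + 5 by omega]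
    have h0 : (0 : ℤ) < 141120 * (u : ℤ) ^ 0 + 367992 * (u : ℤ) ^ 1 + 381754 * (u : ℤ) ^ 2 + 215145 * (u : ℤ) ^ 3 + 71875 * (u : ℤ) ^ 4 + 13383 * (u : ℤ) ^ 5 + 1051 * (u : ℤ) ^ 6 := by
      clear h hd
      positivity
    have e1 := choose6 (3 * u + 9)
    have e2 := choose6 (2 * u + 7)
    have e3 := choose6 (u + 5)
    push_cast at e1 e2 e3 ⊢
    have key : 720 * (((3 * u + 9).choose 6 : ℤ) - 40 * ((2 * u + 7).choose 6 : ℤ) +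
        780 * ((u + 5).choose 6 : ℤ)) = -(141120 * (u : ℤ) ^ 0 + 367992 * (u : ℤ) ^ 1 + 381754 * (u : ℤ) ^ 2 + 215145 * (u : ℤ) ^ 3 + 71875 * (u : ℤ) ^ 4 + 13383 * (u : ℤ) ^ 5 + 1051 * (u : ℤ) ^ 6) := by
      linear_combination e1 - 40 * e2 + 780 * e3
    linarith only [key, h0]
  · obtain ⟨u, rfl⟩ : ∃ u, d = 3 * (u + 1) + 1 := ⟨d / 3 - 1, by omega⟩
    rw [show 6 + (3 * (u + 1) + 1) = 3 * u + 10 by ring,
      show 6 + 2 * (3 * (u + 1) + 1) / 3 - 1 = 2 * u + 7 by omega,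
      show 6 + (2 * (2 * (3 * (u + 1) + 1) / 3) - (3 * (u + 1) + 1)) - 2 = u + 4 by omega]
    have h0 : (0 : ℤ) < 50400 * (u : ℤ) ^ 0 + 277380 * (u : ℤ) ^ 1 + 436204 * (u : ℤ) ^ 2 + 300375 * (u : ℤ) ^ 3 + 101665 * (u : ℤ) ^ 4 + 16605 * (u : ℤ) ^ 5 + 1051 * (u : ℤ) ^ 6 := by
      clear h hd
      positivity
    have e1 := choose6 (3 * u + 10)
    have e2 := choose6 (2 * u + 7)
    have e3 := choose6 (u + 4)
    push_cast at e1 e2 e3 ⊢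
    have key : 720 * (((3 * u + 10).choose 6 : ℤ) - 40 * ((2 * u + 7).choose 6 : ℤ) +
        780 * ((u + 4).choose 6 : ℤ)) = -(50400 * (u : ℤ) ^ 0 + 277380 * (u : ℤ) ^ 1 + 436204 * (u : ℤ) ^ 2 + 300375 * (u : ℤ) ^ 3 + 101665 * (u : ℤ) ^ 4 + 16605 * (u : ℤ) ^ 5 + 1051 * (u : ℤ) ^ 6) := by
      linear_combination e1 - 40 * e2 + 780 * e3
    linarith only [key, h0]
  · obtain ⟨u, rfl⟩ : ∃ u, d = 3 * (u + 1) + 2 := ⟨d / 3 - 1, by omega⟩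
    rw [show 6 + (3 * (u + 1) + 2) = 3 * u + 11 by ring,
      show 6 + 2 * (3 * (u + 1) + 2) / 3 - 1 = 2 * u + 8 by omega,
      show 6 + (2 * (2 * (3 * (u + 1) + 2) / 3) - (3 * (u + 1) + 2)) - 2 = u + 5 by omega]
    have h0 : (0 : ℤ) < 473760 * (u : ℤ) ^ 0 + 1135548 * (u : ℤ) ^ 1 + 1060204 * (u : ℤ) ^ 2 + 504105 * (u : ℤ) ^ 3 + 131425 * (u : ℤ) ^ 4 + 18147 * (u : ℤ) ^ 5 + 1051 * (u : ℤ) ^ 6 := by
      clear h hd
      positivity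
    have e1 := choose6 (3 * u + 11)
    have e2 := choose6 (2 * u + 8)
    have e3 := choose6 (u + 5)
    push_cast at e1 e2 e3 ⊢
    have key : 720 * (((3 * u + 11).choose 6 : ℤ) - 40 * ((2 * u + 8).choose 6 : ℤ) +
        780 * ((u + 5).choose 6 : ℤ)) = -(473760 * (u : ℤ) ^ 0 + 1135548 * (u : ℤ) ^ 1 + 1060204 * (u : ℤ) ^ 2 + 504105 * (u : ℤ) ^ 3 + 131425 * (u : ℤ) ^ 4 + 18147 * (u : ℤ) ^ 5 + 1051 * (u : ℤ) ^ 6) := by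
      linear_combination e1 - 40 * e2 + 780 * e3
    linarith only [key, h0]

theorem all_6_40 {d m : ℕ} (hd : 3 ≤ d) (h2 : d + 2 ≤ 2 * m) (h3 : 2 * d + 3 < 3 * m + 6) :
    ldim 6 d (fun _ : Fin 40 => m) = 0 := by
  exact ldim_zero (fun _ => 2 * d / 3) (fun _ => by omega) (big_6_40 hd)

theorem big_6_41 {d : ℕ} (hd : 3 ≤ d) :
    lvdim 6 d (fun _ : Fin 41 => 2 * d / 3) < 0 := by
  rw [lvdim_pairs (by norm_num) (fun c hc hcn => by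
    rcases (by omega : c = 3 ∨ c = 4 ∨ c = 5 ∨ c = 6) with rfl | rfl | rfl | rfl <;> omega),
    show ((41 : ℕ).choose 2 : ℤ) = 820 by decide +kernel]
  rcases (by omega : d % 3 = 0 ∨ d % 3 = 1 ∨ d % 3 = 2) with h | h | h
  · obtain ⟨u, rfl⟩ : ∃ u, d = 3 * (u + 1) + 0 := ⟨d / 3 - 1, by omega⟩
    rw [show 6 + (3 * (u + 1) + 0) = 3 * u + 9 by ring,
      show 6 + 2 * (3 * (u + 1) + 0) / 3 - 1 = 2 * u + 7 by omega,
      show 6 + (2 * (2 * (3 * (u + 1) + 0) / 3) - (3 * (u + 1) + 0)) - 2 = u + 5 by omega]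
    have h0 : (0 : ℤ) < 146160 * (u : ℤ) ^ 0 + 379248 * (u : ℤ) ^ 1 + 391210 * (u : ℤ) ^ 2 + 219465 * (u : ℤ) ^ 3 + 73195 * (u : ℤ) ^ 4 + 13647 * (u : ℤ) ^ 5 + 1075 * (u : ℤ) ^ 6 := by
      clear h hd
      positivity
    have e1 := choose6 (3 * u + 9)
    have e2 := choose6 (2 * u + 7)
    have e3 := choose6 (u + 5)
    push_cast at e1 e2 e3 ⊢
    have key : 720 * (((3 * u + 9).choose 6 : ℤ) - 41 * ((2 * u + 7).choose 6 : ℤ) +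
        820 * ((u + 5).choose 6 : ℤ)) = -(146160 * (u : ℤ) ^ 0 + 379248 * (u : ℤ) ^ 1 + 391210 * (u : ℤ) ^ 2 + 219465 * (u : ℤ) ^ 3 + 73195 * (u : ℤ) ^ 4 + 13647 * (u : ℤ) ^ 5 + 1075 * (u : ℤ) ^ 6) := by
      linear_combination e1 - 41 * e2 + 820 * e3
    linarith only [key, h0]
  · obtain ⟨u, rfl⟩ : ∃ u, d = 3 * (u + 1) + 1 := ⟨d / 3 - 1, by omega⟩
    rw [show 6 + (3 * (u + 1) + 1) = 3 * u + 10 by ring,
      show 6 + 2 * (3 * (u + 1) + 1) / 3 - 1 = 2 * u + 7 by omega,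
      show 6 + (2 * (2 * (3 * (u + 1) + 1) / 3) - (3 * (u + 1) + 1)) - 2 = u + 4 by omega]
    have h0 : (0 : ℤ) < 55440 * (u : ℤ) ^ 0 + 294396 * (u : ℤ) ^ 1 + 457660 * (u : ℤ) ^ 2 + 313095 * (u : ℤ) ^ 3 + 105385 * (u : ℤ) ^ 4 + 17109 * (u : ℤ) ^ 5 + 1075 * (u : ℤ) ^ 6 := by
      clear h hd
      positivity
    have e1 := choose6 (3 * u + 10)
    have e2 := choose6 (2 * u + 7)
    have e3 := choose6 (u + 4)
    push_cast at e1 e2 e3 ⊢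
    have key : 720 * (((3 * u + 10).choose 6 : ℤ) - 41 * ((2 * u + 7).choose 6 : ℤ) +
        820 * ((u + 4).choose 6 : ℤ)) = -(55440 * (u : ℤ) ^ 0 + 294396 * (u : ℤ) ^ 1 + 457660 * (u : ℤ) ^ 2 + 313095 * (u : ℤ) ^ 3 + 105385 * (u : ℤ) ^ 4 + 17109 * (u : ℤ) ^ 5 + 1075 * (u : ℤ) ^ 6) := by
      linear_combination e1 - 41 * e2 + 820 * e3
    linarith only [key, h0]
  · obtain ⟨u, rfl⟩ : ∃ u, d = 3 * (u + 1) + 2 := ⟨d / 3 - 1, by omega⟩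
    rw [show 6 + (3 * (u + 1) + 2) = 3 * u + 11 by ring,
      show 6 + 2 * (3 * (u + 1) + 2) / 3 - 1 = 2 * u + 8 by omega,
      show 6 + (2 * (2 * (3 * (u + 1) + 2) / 3) - (3 * (u + 1) + 2)) - 2 = u + 5 by omega]
    have h0 : (0 : ℤ) < 493920 * (u : ℤ) ^ 0 + 1179852 * (u : ℤ) ^ 1 + 1097860 * (u : ℤ) ^ 2 + 520185 * (u : ℤ) ^ 3 + 135145 * (u : ℤ) ^ 4 + 18603 * (u : ℤ) ^ 5 + 1075 * (u : ℤ) ^ 6 := by
      clear h hd
      positivity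
    have e1 := choose6 (3 * u + 11)
    have e2 := choose6 (2 * u + 8)
    have e3 := choose6 (u + 5)
    push_cast at e1 e2 e3 ⊢
    have key : 720 * (((3 * u + 11).choose 6 : ℤ) - 41 * ((2 * u + 8).choose 6 : ℤ) +
        820 * ((u + 5).choose 6 : ℤ)) = -(493920 * (u : ℤ) ^ 0 + 1179852 * (u : ℤ) ^ 1 + 1097860 * (u : ℤ) ^ 2 + 520185 * (u : ℤ) ^ 3 + 135145 * (u : ℤ) ^ 4 + 18603 * (u : ℤ) ^ 5 + 1075 * (u : ℤ) ^ 6) := by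
      linear_combination e1 - 41 * e2 + 820 * e3
    linarith only [key, h0]

theorem all_6_41 {d m : ℕ} (hd : 3 ≤ d) (h2 : d + 2 ≤ 2 * m) (h3 : 2 * d + 3 < 3 * m + 6) :
    ldim 6 d (fun _ : Fin 41 => m) = 0 := by
  exact ldim_zero (fun _ => 2 * d / 3) (fun _ => by omega) (big_6_41 hd)

end Pool.Agent.TH142.WF
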