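import Pool.Agent.TH142.WF.SixA

set_option autoImplicit false
set_option maxHeartbeats 4000000

/-!
# Empty systems in low dimension
-/

namespace Pool.Agent.TH142.WF

theorem big_6_42 {d : ℕ} (hd : 3 ≤ d) :
    lvdim 6 d (fun _ : Fin 42 => 2 * d / 3) < 0 := by
  rw [lvdim_pairs (by norm_num) (fun c hc hcn => by
    rcases (by omega : c = 3 ∨ c = 4 ∨ c = 5 ∨ c = 6) with rfl | rfl | rfl | rfl <;> omega),
    show ((42 : ℕ).choose 2 : ℤ) = 861 by decide +kernel]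
  rcases (by omega : d % 3 = 0 ∨ d % 3 = 1 ∨ d % 3 = 2) with h | h | h
  · obtain ⟨u, rfl⟩ : ∃ u, d = 3 * (u + 1) + 0 := ⟨d / 3 - 1, by omega⟩
    rw [show 6 + (3 * (u + 1) + 0) = 3 * u + 9 by ring,
      show 6 + 2 * (3 * (u + 1) + 0) / 3 - 1 = 2 * u + 7 by omega,
      show 6 + (2 * (2 * (3 * (u + 1) + 0) / 3) - (3 * (u + 1) + 0)) - 2 = u + 5 by omega]
    have h0 : (0 : ℤ) < 151200 * (u : ℤ) ^ 0 + 390384 * (u : ℤ) ^ 1 + 400392 * (u : ℤ) ^ 2 + 223560 * (u : ℤ) ^ 3 + 74430 * (u : ℤ) ^ 4 + 13896 * (u : ℤ) ^ 5 + 1098 * (u : ℤ) ^ 6 := by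
      clear h hd
      positivity
    have e1 := choose6 (3 * u + 9)
    have e2 := choose6 (2 * u + 7)
    have e3 := choose6 (u + 5)
    push_cast at e1 e2 e3 ⊢
    have key : 720 * (((3 * u + 9).choose 6 : ℤ) - 42 * ((2 * u + 7).choose 6 : ℤ) +
        861 * ((u + 5).choose 6 : ℤ)) = -(151200 * (u : ℤ) ^ 0 + 390384 * (u : ℤ) ^ 1 + 400392 * (u : ℤ) ^ 2 + 223560 * (u : ℤ) ^ 3 + 74430 * (u : ℤ) ^ 4 + 13896 * (u : ℤ) ^ 5 + 1098 * (u : ℤ) ^ 6) := by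
      linear_combination e1 - 42 * e2 + 861 * e3
    linarith only [key, h0]
  · obtain ⟨u, rfl⟩ : ∃ u, d = 3 * (u + 1) + 1 := ⟨d / 3 - 1, by omega⟩
    rw [show 6 + (3 * (u + 1) + 1) = 3 * u + 10 by ring,
      show 6 + 2 * (3 * (u + 1) + 1) / 3 - 1 = 2 * u + 7 by omega,
      show 6 + (2 * (2 * (3 * (u + 1) + 1) / 3) - (3 * (u + 1) + 1)) - 2 = u + 4 by omega]
    have h0 : (0 : ℤ) < 60480 * (u : ℤ) ^ 0 + 311436 * (u : ℤ) ^ 1 + 479142 * (u : ℤ) ^ 2 + 325800 * (u : ℤ) ^ 3 + 109080 * (u : ℤ) ^ 4 + 17604 * (u : ℤ) ^ 5 + 1098 * (u : ℤ) ^ 6 := by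
      clear h hd
      positivity
    have e1 := choose6 (3 * u + 10)
    have e2 := choose6 (2 * u + 7)
    have e3 := choose6 (u + 4)
    push_cast at e1 e2 e3 ⊢
    have key : 720 * (((3 * u + 10).choose 6 : ℤ) - 42 * ((2 * u + 7).choose 6 : ℤ) +
        861 * ((u + 4).choose 6 : ℤ)) = -(60480 * (u : ℤ) ^ 0 + 311436 * (u : ℤ) ^ 1 + 479142 * (u : ℤ) ^ 2 + 325800 * (u : ℤ) ^ 3 + 109080 * (u : ℤ) ^ 4 + 17604 * (u : ℤ) ^ 5 + 1098 * (u : ℤ) ^ 6) := by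
      linear_combination e1 - 42 * e2 + 861 * e3
    linarith only [key, h0]
  · obtain ⟨u, rfl⟩ : ∃ u, d = 3 * (u + 1) + 2 := ⟨d / 3 - 1, by omega⟩
    rw [show 6 + (3 * (u + 1) + 2) = 3 * u + 11 by ring,
      show 6 + 2 * (3 * (u + 1) + 2) / 3 - 1 = 2 * u + 8 by omega,
      show 6 + (2 * (2 * (3 * (u + 1) + 2) / 3) - (3 * (u + 1) + 2)) - 2 = u + 5 by omega]
    have h0 : (0 : ℤ) < 514080 * (u : ℤ) ^ 0 + 1224036 * (u : ℤ) ^ 1 + 1135242 * (u : ℤ) ^ 2 + 536040 * (u : ℤ) ^ 3 + 138780 * (u : ℤ) ^ 4 + 19044 * (u : ℤ) ^ 5 + 1098 * (u : ℤ) ^ 6 := by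
      clear h hd
      positivity
    have e1 := choose6 (3 * u + 11)
    have e2 := choose6 (2 * u + 8)
    have e3 := choose6 (u + 5)
    push_cast at e1 e2 e3 ⊢
    have key : 720 * (((3 * u + 11).choose 6 : ℤ) - 42 * ((2 * u + 8).choose 6 : ℤ) +
        861 * ((u + 5).choose 6 : ℤ)) = -(514080 * (u : ℤ) ^ 0 + 1224036 * (u : ℤ) ^ 1 + 1135242 * (u : ℤ) ^ 2 + 536040 * (u : ℤ) ^ 3 + 138780 * (u : ℤ) ^ 4 + 19044 * (u : ℤ) ^ 5 + 1098 * (u : ℤ) ^ 6) := by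
      linear_combination e1 - 42 * e2 + 861 * e3
    linarith only [key, h0]

theorem all_6_42 {d m : ℕ} (hd : 3 ≤ d) (h2 : d + 2 ≤ 2 * m) (h3 : 2 * d + 3 < 3 * m + 6) :
    ldim 6 d (fun _ : Fin 42 => m) = 0 := by
  exact ldim_zero (fun _ => 2 * d / 3) (fun _ => by omega) (big_6_42 hd)

theorem big_6_43 {d : ℕ} (hd : 3 ≤ d) :
    lvdim 6 d (fun _ : Fin 43 => 2 * d / 3) < 0 := by
  rw [lvdim_pairs (by norm_num) (fun c hc hcn => by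
    rcases (by omega : c = 3 ∨ c = 4 ∨ c = 5 ∨ c = 6) with rfl | rfl | rfl | rfl <;> omega),
    show ((43 : ℕ).choose 2 : ℤ) = 903 by decide +kernel]
  rcases (by omega : d % 3 = 0 ∨ d % 3 = 1 ∨ d % 3 = 2) with h | h | h
  · obtain ⟨u, rfl⟩ : ∃ u, d = 3 * (u + 1) + 0 := ⟨d / 3 - 1, by omega⟩
    rw [show 6 + (3 * (u + 1) + 0) = 3 * u + 9 by ring,
      show 6 + 2 * (3 * (u + 1) + 0) / 3 - 1 = 2 * u + 7 by omega,
      show 6 + (2 * (2 * (3 * (u + 1) + 0) / 3) - (3 * (u + 1) + 0)) - 2 = u + 5 by omega]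
    have h0 : (0 : ℤ) < 156240 * (u : ℤ) ^ 0 + 401400 * (u : ℤ) ^ 1 + 409300 * (u : ℤ) ^ 2 + 227430 * (u : ℤ) ^ 3 + 75580 * (u : ℤ) ^ 4 + 14130 * (u : ℤ) ^ 5 + 1120 * (u : ℤ) ^ 6 := by
      clear h hd
      positivity
    have e1 := choose6 (3 * u + 9)
    have e2 := choose6 (2 * u + 7)
    have e3 := choose6 (u + 5)
    push_cast at e1 e2 e3 ⊢
    have key : 720 * (((3 * u + 9).choose 6 : ℤ) - 43 * ((2 * u + 7).choose 6 : ℤ) +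
        903 * ((u + 5).choose 6 : ℤ)) = -(156240 * (u : ℤ) ^ 0 + 401400 * (u : ℤ) ^ 1 + 409300 * (u : ℤ) ^ 2 + 227430 * (u : ℤ) ^ 3 + 75580 * (u : ℤ) ^ 4 + 14130 * (u : ℤ) ^ 5 + 1120 * (u : ℤ) ^ 6) := by
      linear_combination e1 - 43 * e2 + 903 * e3
    linarith only [key, h0]
  · obtain ⟨u, rfl⟩ : ∃ u, d = 3 * (u + 1) + 1 := ⟨d / 3 - 1, by omega⟩
    rw [show 6 + (3 * (u + 1) + 1) = 3 * u + 10 by ring,
      show 6 + 2 * (3 * (u + 1) + 1) / 3 - 1 = 2 * u + 7 by omega,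
      show 6 + (2 * (2 * (3 * (u + 1) + 1) / 3) - (3 * (u + 1) + 1)) - 2 = u + 4 by omega]
    have h0 : (0 : ℤ) < 65520 * (u : ℤ) ^ 0 + 328500 * (u : ℤ) ^ 1 + 500650 * (u : ℤ) ^ 2 + 338490 * (u : ℤ) ^ 3 + 112750 * (u : ℤ) ^ 4 + 18090 * (u : ℤ) ^ 5 + 1120 * (u : ℤ) ^ 6 := by
      clear h hd
      positivity
    have e1 := choose6 (3 * u + 10)
    have e2 := choose6 (2 * u + 7)
    have e3 := choose6 (u + 4)
    push_cast at e1 e2 e3 ⊢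
    have key : 720 * (((3 * u + 10).choose 6 : ℤ) - 43 * ((2 * u + 7).choose 6 : ℤ) +
        903 * ((u + 4).choose 6 : ℤ)) = -(65520 * (u : ℤ) ^ 0 + 328500 * (u : ℤ) ^ 1 + 500650 * (u : ℤ) ^ 2 + 338490 * (u : ℤ) ^ 3 + 112750 * (u : ℤ) ^ 4 + 18090 * (u : ℤ) ^ 5 + 1120 * (u : ℤ) ^ 6) := by
      linear_combination e1 - 43 * e2 + 903 * e3
    linarith only [key, h0]
  · obtain ⟨u, rfl⟩ : ∃ u, d = 3 * (u + 1) + 2 := ⟨d / 3 - 1, by omega⟩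
    rw [show 6 + (3 * (u + 1) + 2) = 3 * u + 11 by ring,
      show 6 + 2 * (3 * (u + 1) + 2) / 3 - 1 = 2 * u + 8 by omega,
      show 6 + (2 * (2 * (3 * (u + 1) + 2) / 3) - (3 * (u + 1) + 2)) - 2 = u + 5 by omega]
    have h0 : (0 : ℤ) < 534240 * (u : ℤ) ^ 0 + 1268100 * (u : ℤ) ^ 1 + 1172350 * (u : ℤ) ^ 2 + 551670 * (u : ℤ) ^ 3 + 142330 * (u : ℤ) ^ 4 + 19470 * (u : ℤ) ^ 5 + 1120 * (u : ℤ) ^ 6 := by
      clear h hd
      positivity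
    have e1 := choose6 (3 * u + 11)
    have e2 := choose6 (2 * u + 8)
    have e3 := choose6 (u + 5)
    push_cast at e1 e2 e3 ⊢
    have key : 720 * (((3 * u + 11).choose 6 : ℤ) - 43 * ((2 * u + 8).choose 6 : ℤ) +
        903 * ((u + 5).choose 6 : ℤ)) = -(534240 * (u : ℤ) ^ 0 + 1268100 * (u : ℤ) ^ 1 + 1172350 * (u : ℤ) ^ 2 + 551670 * (u : ℤ) ^ 3 + 142330 * (u : ℤ) ^ 4 + 19470 * (u : ℤ) ^ 5 + 1120 * (u : ℤ) ^ 6) := by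
      linear_combination e1 - 43 * e2 + 903 * e3
    linarith only [key, h0]

theorem all_6_43 {d m : ℕ} (hd : 3 ≤ d) (h2 : d + 2 ≤ 2 * m) (h3 : 2 * d + 3 < 3 * m + 6) :
    ldim 6 d (fun _ : Fin 43 => m) = 0 := by
  exact ldim_zero (fun _ => 2 * d / 3) (fun _ => by omega) (big_6_43 hd)

theorem big_6_44 {d : ℕ} (hd : 3 ≤ d) :
    lvdim 6 d (fun _ : Fin 44 => 2 * d / 3) < 0 := by
  rw [lvdim_pairs (by norm_num) (fun c hc hcn => by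
    rcases (by omega : c = 3 ∨ c = 4 ∨ c = 5 ∨ c = 6) with rfl | rfl | rfl | rfl <;> omega),
    show ((44 : ℕ).choose 2 : ℤ) = 946 by decide +kernel]
  rcases (by omega : d % 3 = 0 ∨ d % 3 = 1 ∨ d % 3 = 2) with h | h | h
  · obtain ⟨u, rfl⟩ : ∃ u, d = 3 * (u + 1) + 0 := ⟨d / 3 - 1, by omega⟩
    rw [show 6 + (3 * (u + 1) + 0) = 3 * u + 9 by ring,
      show 6 + 2 * (3 * (u + 1) + 0) / 3 - 1 = 2 * u + 7 by omega,
      show 6 + (2 * (2 * (3 * (u + 1) + 0) / 3) - (3 * (u + 1) + 0)) - 2 = u + 5 by omega]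
    have h0 : (0 : ℤ) < 161280 * (u : ℤ) ^ 0 + 412296 * (u : ℤ) ^ 1 + 417934 * (u : ℤ) ^ 2 + 231075 * (u : ℤ) ^ 3 + 76645 * (u : ℤ) ^ 4 + 14349 * (u : ℤ) ^ 5 + 1141 * (u : ℤ) ^ 6 := by
      clear h hd
      positivity
    have e1 := choose6 (3 * u + 9)
    have e2 := choose6 (2 * u + 7)
    have e3 := choose6 (u + 5)
    push_cast at e1 e2 e3 ⊢
    have key : 720 * (((3 * u + 9).choose 6 : ℤ) - 44 * ((2 * u + 7).choose 6 : ℤ) +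
        946 * ((u + 5).choose 6 : ℤ)) = -(161280 * (u : ℤ) ^ 0 + 412296 * (u : ℤ) ^ 1 + 417934 * (u : ℤ) ^ 2 + 231075 * (u : ℤ) ^ 3 + 76645 * (u : ℤ) ^ 4 + 14349 * (u : ℤ) ^ 5 + 1141 * (u : ℤ) ^ 6) := by
      linear_combination e1 - 44 * e2 + 946 * e3
    linarith only [key, h0]
  · obtain ⟨u, rfl⟩ : ∃ u, d = 3 * (u + 1) + 1 := ⟨d / 3 - 1, by omega⟩
    rw [show 6 + (3 * (u + 1) + 1) = 3 * u + 10 by ring,
      show 6 + 2 * (3 * (u + 1) + 1) / 3 - 1 = 2 * u + 7 by omega,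
      show 6 + (2 * (2 * (3 * (u + 1) + 1) / 3) - (3 * (u + 1) + 1)) - 2 = u + 4 by omega]
    have h0 : (0 : ℤ) < 70560 * (u : ℤ) ^ 0 + 345588 * (u : ℤ) ^ 1 + 522184 * (u : ℤ) ^ 2 + 351165 * (u : ℤ) ^ 3 + 116395 * (u : ℤ) ^ 4 + 18567 * (u : ℤ) ^ 5 + 1141 * (u : ℤ) ^ 6 := by
      clear h hd
      positivity
    have e1 := choose6 (3 * u + 10)
    have e2 := choose6 (2 * u + 7)
    have e3 := choose6 (u + 4)
    push_cast at e1 e2 e3 ⊢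
    have key : 720 * (((3 * u + 10).choose 6 : ℤ) - 44 * ((2 * u + 7).choose 6 : ℤ) +
        946 * ((u + 4).choose 6 : ℤ)) = -(70560 * (u : ℤ) ^ 0 + 345588 * (u : ℤ) ^ 1 + 522184 * (u : ℤ) ^ 2 + 351165 * (u : ℤ) ^ 3 + 116395 * (u : ℤ) ^ 4 + 18567 * (u : ℤ) ^ 5 + 1141 * (u : ℤ) ^ 6) := by
      linear_combination e1 - 44 * e2 + 946 * e3
    linarith only [key, h0]
  · obtain ⟨u, rfl⟩ : ∃ u, d = 3 * (u + 1) + 2 := ⟨d / 3 - 1, by omega⟩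
    rw [show 6 + (3 * (u + 1) + 2) = 3 * u + 11 by ring,
      show 6 + 2 * (3 * (u + 1) + 2) / 3 - 1 = 2 * u + 8 by omega,
      show 6 + (2 * (2 * (3 * (u + 1) + 2) / 3) - (3 * (u + 1) + 2)) - 2 = u + 5 by omega]
    have h0 : (0 : ℤ) < 554400 * (u : ℤ) ^ 0 + 1312044 * (u : ℤ) ^ 1 + 1209184 * (u : ℤ) ^ 2 + 567075 * (u : ℤ) ^ 3 + 145795 * (u : ℤ) ^ 4 + 19881 * (u : ℤ) ^ 5 + 1141 * (u : ℤ) ^ 6 := by
      clear h hd
      positivity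
    have e1 := choose6 (3 * u + 11)
    have e2 := choose6 (2 * u + 8)
    have e3 := choose6 (u + 5)
    push_cast at e1 e2 e3 ⊢
    have key : 720 * (((3 * u + 11).choose 6 : ℤ) - 44 * ((2 * u + 8).choose 6 : ℤ) +
        946 * ((u + 5).choose 6 : ℤ)) = -(554400 * (u : ℤ) ^ 0 + 1312044 * (u : ℤ) ^ 1 + 1209184 * (u : ℤ) ^ 2 + 567075 * (u : ℤ) ^ 3 + 145795 * (u : ℤ) ^ 4 + 19881 * (u : ℤ) ^ 5 + 1141 * (u : ℤ) ^ 6) := by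
      linear_combination e1 - 44 * e2 + 946 * e3
    linarith only [key, h0]

theorem all_6_44 {d m : ℕ} (hd : 3 ≤ d) (h2 : d + 2 ≤ 2 * m) (h3 : 2 * d + 3 < 3 * m + 6) :
    ldim 6 d (fun _ : Fin 44 => m) = 0 := by
  exact ldim_zero (fun _ => 2 * d / 3) (fun _ => by omega) (big_6_44 hd)

theorem big_6_45 {d : ℕ} (hd : 3 ≤ d) :
    lvdim 6 d (fun _ : Fin 45 => 2 * d / 3) < 0 := by
  rw [lvdim_pairs (by norm_num) (fun c hc hcn => by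
    rcases (by omega : c = 3 ∨ c = 4 ∨ c = 5 ∨ c = 6) with rfl | rfl | rfl | rfl <;> omega),
    show ((45 : ℕ).choose 2 : ℤ) = 990 by decide +kernel]
  rcases (by omega : d % 3 = 0 ∨ d % 3 = 1 ∨ d % 3 = 2) with h | h | h
  · obtain ⟨u, rfl⟩ : ∃ u, d = 3 * (u + 1) + 0 := ⟨d / 3 - 1, by omega⟩
    rw [show 6 + (3 * (u + 1) + 0) = 3 * u + 9 by ring,
      show 6 + 2 * (3 * (u + 1) + 0) / 3 - 1 = 2 * u + 7 by omega,
      show 6 + (2 * (2 * (3 * (u + 1) + 0) / 3) - (3 * (u + 1) + 0)) - 2 = u + 5 by omega]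
    have h0 : (0 : ℤ) < 166320 * (u : ℤ) ^ 0 + 423072 * (u : ℤ) ^ 1 + 426294 * (u : ℤ) ^ 2 + 234495 * (u : ℤ) ^ 3 + 77625 * (u : ℤ) ^ 4 + 14553 * (u : ℤ) ^ 5 + 1161 * (u : ℤ) ^ 6 := by
      clear h hd
      positivity
    have e1 := choose6 (3 * u + 9)
    have e2 := choose6 (2 * u + 7)
    have e3 := choose6 (u + 5)
    push_cast at e1 e2 e3 ⊢
    have key : 720 * (((3 * u + 9).choose 6 : ℤ) - 45 * ((2 * u + 7).choose 6 : ℤ) +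
        990 * ((u + 5).choose 6 : ℤ)) = -(166320 * (u : ℤ) ^ 0 + 423072 * (u : ℤ) ^ 1 + 426294 * (u : ℤ) ^ 2 + 234495 * (u : ℤ) ^ 3 + 77625 * (u : ℤ) ^ 4 + 14553 * (u : ℤ) ^ 5 + 1161 * (u : ℤ) ^ 6) := by
      linear_combination e1 - 45 * e2 + 990 * e3
    linarith only [key, h0]
  · obtain ⟨u, rfl⟩ : ∃ u, d = 3 * (u + 1) + 1 := ⟨d / 3 - 1, by omega⟩
    rw [show 6 + (3 * (u + 1) + 1) = 3 * u + 10 by ring,
      show 6 + 2 * (3 * (u + 1) + 1) / 3 - 1 = 2 * u + 7 by omega,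
      show 6 + (2 * (2 * (3 * (u + 1) + 1) / 3) - (3 * (u + 1) + 1)) - 2 = u + 4 by omega]
    have h0 : (0 : ℤ) < 75600 * (u : ℤ) ^ 0 + 362700 * (u : ℤ) ^ 1 + 543744 * (u : ℤ) ^ 2 + 363825 * (u : ℤ) ^ 3 + 120015 * (u : ℤ) ^ 4 + 19035 * (u : ℤ) ^ 5 + 1161 * (u : ℤ) ^ 6 := by
      clear h hd
      positivity
    have e1 := choose6 (3 * u + 10)
    have e2 := choose6 (2 * u + 7)
    have e3 := choose6 (u + 4)
    push_cast at e1 e2 e3 ⊢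
    have key : 720 * (((3 * u + 10).choose 6 : ℤ) - 45 * ((2 * u + 7).choose 6 : ℤ) +
        990 * ((u + 4).choose 6 : ℤ)) = -(75600 * (u : ℤ) ^ 0 + 362700 * (u : ℤ) ^ 1 + 543744 * (u : ℤ) ^ 2 + 363825 * (u : ℤ) ^ 3 + 120015 * (u : ℤ) ^ 4 + 19035 * (u : ℤ) ^ 5 + 1161 * (u : ℤ) ^ 6) := by
      linear_combination e1 - 45 * e2 + 990 * e3
    linarith only [key, h0]
  · obtain ⟨u, rfl⟩ : ∃ u, d = 3 * (u + 1) + 2 := ⟨d / 3 - 1, by omega⟩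
    rw [show 6 + (3 * (u + 1) + 2) = 3 * u + 11 by ring,
      show 6 + 2 * (3 * (u + 1) + 2) / 3 - 1 = 2 * u + 8 by omega,
      show 6 + (2 * (2 * (3 * (u + 1) + 2) / 3) - (3 * (u + 1) + 2)) - 2 = u + 5 by omega]
    have h0 : (0 : ℤ) < 574560 * (u : ℤ) ^ 0 + 1355868 * (u : ℤ) ^ 1 + 1245744 * (u : ℤ) ^ 2 + 582255 * (u : ℤ) ^ 3 + 149175 * (u : ℤ) ^ 4 + 20277 * (u : ℤ) ^ 5 + 1161 * (u : ℤ) ^ 6 := by
      clear h hd
      positivity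
    have e1 := choose6 (3 * u + 11)
    have e2 := choose6 (2 * u + 8)
    have e3 := choose6 (u + 5)
    push_cast at e1 e2 e3 ⊢
    have key : 720 * (((3 * u + 11).choose 6 : ℤ) - 45 * ((2 * u + 8).choose 6 : ℤ) +
        990 * ((u + 5).choose 6 : ℤ)) = -(574560 * (u : ℤ) ^ 0 + 1355868 * (u : ℤ) ^ 1 + 1245744 * (u : ℤ) ^ 2 + 582255 * (u : ℤ) ^ 3 + 149175 * (u : ℤ) ^ 4 + 20277 * (u : ℤ) ^ 5 + 1161 * (u : ℤ) ^ 6) := by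
      linear_combination e1 - 45 * e2 + 990 * e3
    linarith only [key, h0]

theorem all_6_45 {d m : ℕ} (hd : 3 ≤ d) (h2 : d + 2 ≤ 2 * m) (h3 : 2 * d + 3 < 3 * m + 6) :
    ldim 6 d (fun _ : Fin 45 => m) = 0 := by
  exact ldim_zero (fun _ => 2 * d / 3) (fun _ => by omega) (big_6_45 hd)

theorem big_6_46 {d : ℕ} (hd : 3 ≤ d) :
    lvdim 6 d (fun _ : Fin 46 => 2 * d / 3) < 0 := by
  rw [lvdim_pairs (by norm_num) (fun c hc hcn => by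
    rcases (by omega : c = 3 ∨ c = 4 ∨ c = 5 ∨ c = 6) with rfl | rfl | rfl | rfl <;> omega),
    show ((46 : ℕ).choose 2 : ℤ) = 1035 by decide +kernel]
  rcases (by omega : d % 3 = 0 ∨ d % 3 = 1 ∨ d % 3 = 2) with h | h | h
  · obtain ⟨u, rfl⟩ : ∃ u, d = 3 * (u + 1) + 0 := ⟨d / 3 - 1, by omega⟩
    rw [show 6 + (3 * (u + 1) + 0) = 3 * u + 9 by ring,
      show 6 + 2 * (3 * (u + 1) + 0) / 3 - 1 = 2 * u + 7 by omega,
      show 6 + (2 * (2 * (3 * (u + 1) + 0) / 3) - (3 * (u + 1) + 0)) - 2 = u + 5 by omega]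
    have h0 : (0 : ℤ) < 171360 * (u : ℤ) ^ 0 + 433728 * (u : ℤ) ^ 1 + 434380 * (u : ℤ) ^ 2 + 237690 * (u : ℤ) ^ 3 + 78520 * (u : ℤ) ^ 4 + 14742 * (u : ℤ) ^ 5 + 1180 * (u : ℤ) ^ 6 := by
      clear h hd
      positivity
    have e1 := choose6 (3 * u + 9)
    have e2 := choose6 (2 * u + 7)
    have e3 := choose6 (u + 5)
    push_cast at e1 e2 e3 ⊢
    have key : 720 * (((3 * u + 9).choose 6 : ℤ) - 46 * ((2 * u + 7).choose 6 : ℤ) +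
        1035 * ((u + 5).choose 6 : ℤ)) = -(171360 * (u : ℤ) ^ 0 + 433728 * (u : ℤ) ^ 1 + 434380 * (u : ℤ) ^ 2 + 237690 * (u : ℤ) ^ 3 + 78520 * (u : ℤ) ^ 4 + 14742 * (u : ℤ) ^ 5 + 1180 * (u : ℤ) ^ 6) := by
      linear_combination e1 - 46 * e2 + 1035 * e3
    linarith only [key, h0]
  · obtain ⟨u, rfl⟩ : ∃ u, d = 3 * (u + 1) + 1 := ⟨d / 3 - 1, by omega⟩
    rw [show 6 + (3 * (u + 1) + 1) = 3 * u + 10 by ring,
      show 6 + 2 * (3 * (u + 1) + 1) / 3 - 1 = 2 * u + 7 by omega,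
      show 6 + (2 * (2 * (3 * (u + 1) + 1) / 3) - (3 * (u + 1) + 1)) - 2 = u + 4 by omega]
    have h0 : (0 : ℤ) < 80640 * (u : ℤ) ^ 0 + 379836 * (u : ℤ) ^ 1 + 565330 * (u : ℤ) ^ 2 + 376470 * (u : ℤ) ^ 3 + 123610 * (u : ℤ) ^ 4 + 19494 * (u : ℤ) ^ 5 + 1180 * (u : ℤ) ^ 6 := by
      clear h hd
      positivity
    have e1 := choose6 (3 * u + 10)
    have e2 := choose6 (2 * u + 7)
    have e3 := choose6 (u + 4)
    push_cast at e1 e2 e3 ⊢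
    have key : 720 * (((3 * u + 10).choose 6 : ℤ) - 46 * ((2 * u + 7).choose 6 : ℤ) +
        1035 * ((u + 4).choose 6 : ℤ)) = -(80640 * (u : ℤ) ^ 0 + 379836 * (u : ℤ) ^ 1 + 565330 * (u : ℤ) ^ 2 + 376470 * (u : ℤ) ^ 3 + 123610 * (u : ℤ) ^ 4 + 19494 * (u : ℤ) ^ 5 + 1180 * (u : ℤ) ^ 6) := by
      linear_combination e1 - 46 * e2 + 1035 * e3
    linarith only [key, h0]
  · obtain ⟨u, rfl⟩ : ∃ u, d = 3 * (u + 1) + 2 := ⟨d / 3 - 1, by omega⟩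
    rw [show 6 + (3 * (u + 1) + 2) = 3 * u + 11 by ring,
      show 6 + 2 * (3 * (u + 1) + 2) / 3 - 1 = 2 * u + 8 by omega,
      show 6 + (2 * (2 * (3 * (u + 1) + 2) / 3) - (3 * (u + 1) + 2)) - 2 = u + 5 by omega]
    have h0 : (0 : ℤ) < 594720 * (u : ℤ) ^ 0 + 1399572 * (u : ℤ) ^ 1 + 1282030 * (u : ℤ) ^ 2 + 597210 * (u : ℤ) ^ 3 + 152470 * (u : ℤ) ^ 4 + 20658 * (u : ℤ) ^ 5 + 1180 * (u : ℤ) ^ 6 := by
      clear h hd
      positivity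
    have e1 := choose6 (3 * u + 11)
    have e2 := choose6 (2 * u + 8)
    have e3 := choose6 (u + 5)
    push_cast at e1 e2 e3 ⊢
    have key : 720 * (((3 * u + 11).choose 6 : ℤ) - 46 * ((2 * u + 8).choose 6 : ℤ) +
        1035 * ((u + 5).choose 6 : ℤ)) = -(594720 * (u : ℤ) ^ 0 + 1399572 * (u : ℤ) ^ 1 + 1282030 * (u : ℤ) ^ 2 + 597210 * (u : ℤ) ^ 3 + 152470 * (u : ℤ) ^ 4 + 20658 * (u : ℤ) ^ 5 + 1180 * (u : ℤ) ^ 6) := by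
      linear_combination e1 - 46 * e2 + 1035 * e3
    linarith only [key, h0]

theorem all_6_46 {d m : ℕ} (hd : 3 ≤ d) (h2 : d + 2 ≤ 2 * m) (h3 : 2 * d + 3 < 3 * m + 6) :
    ldim 6 d (fun _ : Fin 46 => m) = 0 := by
  exact ldim_zero (fun _ => 2 * d / 3) (fun _ => by omega) (big_6_46 hd)

theorem big_6_47 {d : ℕ} (hd : 3 ≤ d) :
    lvdim 6 d (fun _ : Fin 47 => 2 * d / 3) < 0 := by
  rw [lvdim_pairs (by norm_num) (fun c hc hcn => by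
    rcases (by omega : c = 3 ∨ c = 4 ∨ c = 5 ∨ c = 6) with rfl | rfl | rfl | rfl <;> omega),
    show ((47 : ℕ).choose 2 : ℤ) = 1081 by decide +kernel]
  rcases (by omega : d % 3 = 0 ∨ d % 3 = 1 ∨ d % 3 = 2) with h | h | h
  · obtain ⟨u, rfl⟩ : ∃ u, d = 3 * (u + 1) + 0 := ⟨d / 3 - 1, by omega⟩
    rw [show 6 + (3 * (u + 1) + 0) = 3 * u + 9 by ring,
      show 6 + 2 * (3 * (u + 1) + 0) / 3 - 1 = 2 * u + 7 by omega,
      show 6 + (2 * (2 * (3 * (u + 1) + 0) / 3) - (3 * (u + 1) + 0)) - 2 = u + 5 by omega]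
    have h0 : (0 : ℤ) < 176400 * (u : ℤ) ^ 0 + 444264 * (u : ℤ) ^ 1 + 442192 * (u : ℤ) ^ 2 + 240660 * (u : ℤ) ^ 3 + 79330 * (u : ℤ) ^ 4 + 14916 * (u : ℤ) ^ 5 + 1198 * (u : ℤ) ^ 6 := by
      clear h hd
      positivity
    have e1 := choose6 (3 * u + 9)
    have e2 := choose6 (2 * u + 7)
    have e3 := choose6 (u + 5)
    push_cast at e1 e2 e3 ⊢
    have key : 720 * (((3 * u + 9).choose 6 : ℤ) - 47 * ((2 * u + 7).choose 6 : ℤ) +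
        1081 * ((u + 5).choose 6 : ℤ)) = -(176400 * (u : ℤ) ^ 0 + 444264 * (u : ℤ) ^ 1 + 442192 * (u : ℤ) ^ 2 + 240660 * (u : ℤ) ^ 3 + 79330 * (u : ℤ) ^ 4 + 14916 * (u : ℤ) ^ 5 + 1198 * (u : ℤ) ^ 6) := by
      linear_combination e1 - 47 * e2 + 1081 * e3
    linarith only [key, h0]
  · obtain ⟨u, rfl⟩ : ∃ u, d = 3 * (u + 1) + 1 := ⟨d / 3 - 1, by omega⟩
    rw [show 6 + (3 * (u + 1) + 1) = 3 * u + 10 by ring,
      show 6 + 2 * (3 * (u + 1) + 1) / 3 - 1 = 2 * u + 7 by omega,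
      show 6 + (2 * (2 * (3 * (u + 1) + 1) / 3) - (3 * (u + 1) + 1)) - 2 = u + 4 by omega]
    have h0 : (0 : ℤ) < 85680 * (u : ℤ) ^ 0 + 396996 * (u : ℤ) ^ 1 + 586942 * (u : ℤ) ^ 2 + 389100 * (u : ℤ) ^ 3 + 127180 * (u : ℤ) ^ 4 + 19944 * (u : ℤ) ^ 5 + 1198 * (u : ℤ) ^ 6 := by
      clear h hd
      positivity
    have e1 := choose6 (3 * u + 10)
    have e2 := choose6 (2 * u + 7)
    have e3 := choose6 (u + 4)
    push_cast at e1 e2 e3 ⊢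
    have key : 720 * (((3 * u + 10).choose 6 : ℤ) - 47 * ((2 * u + 7).choose 6 : ℤ) +
        1081 * ((u + 4).choose 6 : ℤ)) = -(85680 * (u : ℤ) ^ 0 + 396996 * (u : ℤ) ^ 1 + 586942 * (u : ℤ) ^ 2 + 389100 * (u : ℤ) ^ 3 + 127180 * (u : ℤ) ^ 4 + 19944 * (u : ℤ) ^ 5 + 1198 * (u : ℤ) ^ 6) := by
      linear_combination e1 - 47 * e2 + 1081 * e3
    linarith only [key, h0]
  · obtain ⟨u, rfl⟩ : ∃ u, d = 3 * (u + 1) + 2 := ⟨d / 3 - 1, by omega⟩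
    rw [show 6 + (3 * (u + 1) + 2) = 3 * u + 11 by ring,
      show 6 + 2 * (3 * (u + 1) + 2) / 3 - 1 = 2 * u + 8 by omega,
      show 6 + (2 * (2 * (3 * (u + 1) + 2) / 3) - (3 * (u + 1) + 2)) - 2 = u + 5 by omega]
    have h0 : (0 : ℤ) < 614880 * (u : ℤ) ^ 0 + 1443156 * (u : ℤ) ^ 1 + 1318042 * (u : ℤ) ^ 2 + 611940 * (u : ℤ) ^ 3 + 155680 * (u : ℤ) ^ 4 + 21024 * (u : ℤ) ^ 5 + 1198 * (u : ℤ) ^ 6 := by
      clear h hd
      positivity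
    have e1 := choose6 (3 * u + 11)
    have e2 := choose6 (2 * u + 8)
    have e3 := choose6 (u + 5)
    push_cast at e1 e2 e3 ⊢
    have key : 720 * (((3 * u + 11).choose 6 : ℤ) - 47 * ((2 * u + 8).choose 6 : ℤ) +
        1081 * ((u + 5).choose 6 : ℤ)) = -(614880 * (u : ℤ) ^ 0 + 1443156 * (u : ℤ) ^ 1 + 1318042 * (u : ℤ) ^ 2 + 611940 * (u : ℤ) ^ 3 + 155680 * (u : ℤ) ^ 4 + 21024 * (u : ℤ) ^ 5 + 1198 * (u : ℤ) ^ 6) := by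
      linear_combination e1 - 47 * e2 + 1081 * e3
    linarith only [key, h0]

theorem all_6_47 {d m : ℕ} (hd : 3 ≤ d) (h2 : d + 2 ≤ 2 * m) (h3 : 2 * d + 3 < 3 * m + 6) :
    ldim 6 d (fun _ : Fin 47 => m) = 0 := by
  exact ldim_zero (fun _ => 2 * d / 3) (fun _ => by omega) (big_6_47 hd)

theorem big_6_48 {d : ℕ} (hd : 3 ≤ d) :
    lvdim 6 d (fun _ : Fin 48 => 2 * d / 3) < 0 := by
  rw [lvdim_pairs (by norm_num) (fun c hc hcn => by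
    rcases (by omega : c = 3 ∨ c = 4 ∨ c = 5 ∨ c = 6) with rfl | rfl | rfl | rfl <;> omega),
    show ((48 : ℕ).choose 2 : ℤ) = 1128 by decide +kernel]
  rcases (by omega : d % 3 = 0 ∨ d % 3 = 1 ∨ d % 3 = 2) with h | h | h
  · obtain ⟨u, rfl⟩ : ∃ u, d = 3 * (u + 1) + 0 := ⟨d / 3 - 1, by omega⟩
    rw [show 6 + (3 * (u + 1) + 0) = 3 * u + 9 by ring,
      show 6 + 2 * (3 * (u + 1) + 0) / 3 - 1 = 2 * u + 7 by omega,
      show 6 + (2 * (2 * (3 * (u + 1) + 0) / 3) - (3 * (u + 1) + 0)) - 2 = u + 5 by omega]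
    have h0 : (0 : ℤ) < 181440 * (u : ℤ) ^ 0 + 454680 * (u : ℤ) ^ 1 + 449730 * (u : ℤ) ^ 2 + 243405 * (u : ℤ) ^ 3 + 80055 * (u : ℤ) ^ 4 + 15075 * (u : ℤ) ^ 5 + 1215 * (u : ℤ) ^ 6 := by
      clear h hd
      positivity
    have e1 := choose6 (3 * u + 9)
    have e2 := choose6 (2 * u + 7)
    have e3 := choose6 (u + 5)
    push_cast at e1 e2 e3 ⊢
    have key : 720 * (((3 * u + 9).choose 6 : ℤ) - 48 * ((2 * u + 7).choose 6 : ℤ) +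
        1128 * ((u + 5).choose 6 : ℤ)) = -(181440 * (u : ℤ) ^ 0 + 454680 * (u : ℤ) ^ 1 + 449730 * (u : ℤ) ^ 2 + 243405 * (u : ℤ) ^ 3 + 80055 * (u : ℤ) ^ 4 + 15075 * (u : ℤ) ^ 5 + 1215 * (u : ℤ) ^ 6) := by
      linear_combination e1 - 48 * e2 + 1128 * e3
    linarith only [key, h0]
  · obtain ⟨u, rfl⟩ : ∃ u, d = 3 * (u + 1) + 1 := ⟨d / 3 - 1, by omega⟩
    rw [show 6 + (3 * (u + 1) + 1) = 3 * u + 10 by ring,
      show 6 + 2 * (3 * (u + 1) + 1) / 3 - 1 = 2 * u + 7 by omega,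
      show 6 + (2 * (2 * (3 * (u + 1) + 1) / 3) - (3 * (u + 1) + 1)) - 2 = u + 4 by omega]
    have h0 : (0 : ℤ) < 90720 * (u : ℤ) ^ 0 + 414180 * (u : ℤ) ^ 1 + 608580 * (u : ℤ) ^ 2 + 401715 * (u : ℤ) ^ 3 + 130725 * (u : ℤ) ^ 4 + 20385 * (u : ℤ) ^ 5 + 1215 * (u : ℤ) ^ 6 := by
      clear h hd
      positivity
    have e1 := choose6 (3 * u + 10)
    have e2 := choose6 (2 * u + 7)
    have e3 := choose6 (u + 4)
    push_cast at e1 e2 e3 ⊢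
    have key : 720 * (((3 * u + 10).choose 6 : ℤ) - 48 * ((2 * u + 7).choose 6 : ℤ) +
        1128 * ((u + 4).choose 6 : ℤ)) = -(90720 * (u : ℤ) ^ 0 + 414180 * (u : ℤ) ^ 1 + 608580 * (u : ℤ) ^ 2 + 401715 * (u : ℤ) ^ 3 + 130725 * (u : ℤ) ^ 4 + 20385 * (u : ℤ) ^ 5 + 1215 * (u : ℤ) ^ 6) := by
      linear_combination e1 - 48 * e2 + 1128 * e3
    linarith only [key, h0]
  · obtain ⟨u, rfl⟩ : ∃ u, d = 3 * (u + 1) + 2 := ⟨d / 3 - 1, by omega⟩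
    rw [show 6 + (3 * (u + 1) + 2) = 3 * u + 11 by ring,
      show 6 + 2 * (3 * (u + 1) + 2) / 3 - 1 = 2 * u + 8 by omega,
      show 6 + (2 * (2 * (3 * (u + 1) + 2) / 3) - (3 * (u + 1) + 2)) - 2 = u + 5 by omega]
    have h0 : (0 : ℤ) < 635040 * (u : ℤ) ^ 0 + 1486620 * (u : ℤ) ^ 1 + 1353780 * (u : ℤ) ^ 2 + 626445 * (u : ℤ) ^ 3 + 158805 * (u : ℤ) ^ 4 + 21375 * (u : ℤ) ^ 5 + 1215 * (u : ℤ) ^ 6 := by
      clear h hd
      positivity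
    have e1 := choose6 (3 * u + 11)
    have e2 := choose6 (2 * u + 8)
    have e3 := choose6 (u + 5)
    push_cast at e1 e2 e3 ⊢
    have key : 720 * (((3 * u + 11).choose 6 : ℤ) - 48 * ((2 * u + 8).choose 6 : ℤ) +
        1128 * ((u + 5).choose 6 : ℤ)) = -(635040 * (u : ℤ) ^ 0 + 1486620 * (u : ℤ) ^ 1 + 1353780 * (u : ℤ) ^ 2 + 626445 * (u : ℤ) ^ 3 + 158805 * (u : ℤ) ^ 4 + 21375 * (u : ℤ) ^ 5 + 1215 * (u : ℤ) ^ 6) := by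
      linear_combination e1 - 48 * e2 + 1128 * e3
    linarith only [key, h0]

theorem all_6_48 {d m : ℕ} (hd : 3 ≤ d) (h2 : d + 2 ≤ 2 * m) (h3 : 2 * d + 3 < 3 * m + 6) :
    ldim 6 d (fun _ : Fin 48 => m) = 0 := by
  exact ldim_zero (fun _ => 2 * d / 3) (fun _ => by omega) (big_6_48 hd)

theorem big_6_49 {d : ℕ} (hd : 3 ≤ d) :
    lvdim 6 d (fun _ : Fin 49 => 2 * d / 3) < 0 := by
  rw [lvdim_pairs (by norm_num) (fun c hc hcn => by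
    rcases (by omega : c = 3 ∨ c = 4 ∨ c = 5 ∨ c = 6) with rfl | rfl | rfl | rfl <;> omega),
    show ((49 : ℕ).choose 2 : ℤ) = 1176 by decide +kernel]
  rcases (by omega : d % 3 = 0 ∨ d % 3 = 1 ∨ d % 3 = 2) with h | h | h
  · obtain ⟨u, rfl⟩ : ∃ u, d = 3 * (u + 1) + 0 := ⟨d / 3 - 1, by omega⟩
    rw [show 6 + (3 * (u + 1) + 0) = 3 * u + 9 by ring,
      show 6 + 2 * (3 * (u + 1) + 0) / 3 - 1 = 2 * u + 7 by omega,
      show 6 + (2 * (2 * (3 * (u + 1) + 0) / 3) - (3 * (u + 1) + 0)) - 2 = u + 5 by omega]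
    have h0 : (0 : ℤ) < 186480 * (u : ℤ) ^ 0 + 464976 * (u : ℤ) ^ 1 + 456994 * (u : ℤ) ^ 2 + 245925 * (u : ℤ) ^ 3 + 80695 * (u : ℤ) ^ 4 + 15219 * (u : ℤ) ^ 5 + 1231 * (u : ℤ) ^ 6 := by
      clear h hd
      positivity
    have e1 := choose6 (3 * u + 9)
    have e2 := choose6 (2 * u + 7)
    have e3 := choose6 (u + 5)
    push_cast at e1 e2 e3 ⊢
    have key : 720 * (((3 * u + 9).choose 6 : ℤ) - 49 * ((2 * u + 7).choose 6 : ℤ) +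
        1176 * ((u + 5).choose 6 : ℤ)) = -(186480 * (u : ℤ) ^ 0 + 464976 * (u : ℤ) ^ 1 + 456994 * (u : ℤ) ^ 2 + 245925 * (u : ℤ) ^ 3 + 80695 * (u : ℤ) ^ 4 + 15219 * (u : ℤ) ^ 5 + 1231 * (u : ℤ) ^ 6) := by
      linear_combination e1 - 49 * e2 + 1176 * e3
    linarith only [key, h0]
  · obtain ⟨u, rfl⟩ : ∃ u, d = 3 * (u + 1) + 1 := ⟨d / 3 - 1, by omega⟩
    rw [show 6 + (3 * (u + 1) + 1) = 3 * u + 10 by ring,
      show 6 + 2 * (3 * (u + 1) + 1) / 3 - 1 = 2 * u + 7 by omega,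
      show 6 + (2 * (2 * (3 * (u + 1) + 1) / 3) - (3 * (u + 1) + 1)) - 2 = u + 4 by omega]
    have h0 : (0 : ℤ) < 95760 * (u : ℤ) ^ 0 + 431388 * (u : ℤ) ^ 1 + 630244 * (u : ℤ) ^ 2 + 414315 * (u : ℤ) ^ 3 + 134245 * (u : ℤ) ^ 4 + 20817 * (u : ℤ) ^ 5 + 1231 * (u : ℤ) ^ 6 := by
      clear h hd
      positivity
    have e1 := choose6 (3 * u + 10)
    have e2 := choose6 (2 * u + 7)
    have e3 := choose6 (u + 4)
    push_cast at e1 e2 e3 ⊢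
    have key : 720 * (((3 * u + 10).choose 6 : ℤ) - 49 * ((2 * u + 7).choose 6 : ℤ) +
        1176 * ((u + 4).choose 6 : ℤ)) = -(95760 * (u : ℤ) ^ 0 + 431388 * (u : ℤ) ^ 1 + 630244 * (u : ℤ) ^ 2 + 414315 * (u : ℤ) ^ 3 + 134245 * (u : ℤ) ^ 4 + 20817 * (u : ℤ) ^ 5 + 1231 * (u : ℤ) ^ 6) := by
      linear_combination e1 - 49 * e2 + 1176 * e3
    linarith only [key, h0]
  · obtain ⟨u, rfl⟩ : ∃ u, d = 3 * (u + 1) + 2 := ⟨d / 3 - 1, by omega⟩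
    rw [show 6 + (3 * (u + 1) + 2) = 3 * u + 11 by ring,
      show 6 + 2 * (3 * (u + 1) + 2) / 3 - 1 = 2 * u + 8 by omega,
      show 6 + (2 * (2 * (3 * (u + 1) + 2) / 3) - (3 * (u + 1) + 2)) - 2 = u + 5 by omega]
    have h0 : (0 : ℤ) < 655200 * (u : ℤ) ^ 0 + 1529964 * (u : ℤ) ^ 1 + 1389244 * (u : ℤ) ^ 2 + 640725 * (u : ℤ) ^ 3 + 161845 * (u : ℤ) ^ 4 + 21711 * (u : ℤ) ^ 5 + 1231 * (u : ℤ) ^ 6 := by
      clear h hd
      positivity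
    have e1 := choose6 (3 * u + 11)
    have e2 := choose6 (2 * u + 8)
    have e3 := choose6 (u + 5)
    push_cast at e1 e2 e3 ⊢
    have key : 720 * (((3 * u + 11).choose 6 : ℤ) - 49 * ((2 * u + 8).choose 6 : ℤ) +
        1176 * ((u + 5).choose 6 : ℤ)) = -(655200 * (u : ℤ) ^ 0 + 1529964 * (u : ℤ) ^ 1 + 1389244 * (u : ℤ) ^ 2 + 640725 * (u : ℤ) ^ 3 + 161845 * (u : ℤ) ^ 4 + 21711 * (u : ℤ) ^ 5 + 1231 * (u : ℤ) ^ 6) := by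
      linear_combination e1 - 49 * e2 + 1176 * e3
    linarith only [key, h0]

theorem all_6_49 {d m : ℕ} (hd : 3 ≤ d) (h2 : d + 2 ≤ 2 * m) (h3 : 2 * d + 3 < 3 * m + 6) :
    ldim 6 d (fun _ : Fin 49 => m) = 0 := by
  exact ldim_zero (fun _ => 2 * d / 3) (fun _ => by omega) (big_6_49 hd)

theorem big_6_50 {d : ℕ} (hd : 3 ≤ d) :
    lvdim 6 d (fun _ : Fin 50 => 2 * d / 3) < 0 := by
  rw [lvdim_pairs (by norm_num) (fun c hc hcn => by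
    rcases (by omega : c = 3 ∨ c = 4 ∨ c = 5 ∨ c = 6) with rfl | rfl | rfl | rfl <;> omega),
    show ((50 : ℕ).choose 2 : ℤ) = 1225 by decide +kernel]
  rcases (by omega : d % 3 = 0 ∨ d % 3 = 1 ∨ d % 3 = 2) with h | h | h
  · obtain ⟨u, rfl⟩ : ∃ u, d = 3 * (u + 1) + 0 := ⟨d / 3 - 1, by omega⟩
    rw [show 6 + (3 * (u + 1) + 0) = 3 * u + 9 by ring,
      show 6 + 2 * (3 * (u + 1) + 0) / 3 - 1 = 2 * u + 7 by omega,
      show 6 + (2 * (2 * (3 * (u + 1) + 0) / 3) - (3 * (u + 1) + 0)) - 2 = u + 5 by omega]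
    have h0 : (0 : ℤ) < 191520 * (u : ℤ) ^ 0 + 475152 * (u : ℤ) ^ 1 + 463984 * (u : ℤ) ^ 2 + 248220 * (u : ℤ) ^ 3 + 81250 * (u : ℤ) ^ 4 + 15348 * (u : ℤ) ^ 5 + 1246 * (u : ℤ) ^ 6 := by
      clear h hd
      positivity
    have e1 := choose6 (3 * u + 9)
    have e2 := choose6 (2 * u + 7)
    have e3 := choose6 (u + 5)
    push_cast at e1 e2 e3 ⊢
    have key : 720 * (((3 * u + 9).choose 6 : ℤ) - 50 * ((2 * u + 7).choose 6 : ℤ) +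
        1225 * ((u + 5).choose 6 : ℤ)) = -(191520 * (u : ℤ) ^ 0 + 475152 * (u : ℤ) ^ 1 + 463984 * (u : ℤ) ^ 2 + 248220 * (u : ℤ) ^ 3 + 81250 * (u : ℤ) ^ 4 + 15348 * (u : ℤ) ^ 5 + 1246 * (u : ℤ) ^ 6) := by
      linear_combination e1 - 50 * e2 + 1225 * e3
    linarith only [key, h0]
  · obtain ⟨u, rfl⟩ : ∃ u, d = 3 * (u + 1) + 1 := ⟨d / 3 - 1, by omega⟩
    rw [show 6 + (3 * (u + 1) + 1) = 3 * u + 10 by ring,
      show 6 + 2 * (3 * (u + 1) + 1) / 3 - 1 = 2 * u + 7 by omega,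
      show 6 + (2 * (2 * (3 * (u + 1) + 1) / 3) - (3 * (u + 1) + 1)) - 2 = u + 4 by omega]
    have h0 : (0 : ℤ) < 100800 * (u : ℤ) ^ 0 + 448620 * (u : ℤ) ^ 1 + 651934 * (u : ℤ) ^ 2 + 426900 * (u : ℤ) ^ 3 + 137740 * (u : ℤ) ^ 4 + 21240 * (u : ℤ) ^ 5 + 1246 * (u : ℤ) ^ 6 := by
      clear h hd
      positivity
    have e1 := choose6 (3 * u + 10)
    have e2 := choose6 (2 * u + 7)
    have e3 := choose6 (u + 4)
    push_cast at e1 e2 e3 ⊢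
    have key : 720 * (((3 * u + 10).choose 6 : ℤ) - 50 * ((2 * u + 7).choose 6 : ℤ) +
        1225 * ((u + 4).choose 6 : ℤ)) = -(100800 * (u : ℤ) ^ 0 + 448620 * (u : ℤ) ^ 1 + 651934 * (u : ℤ) ^ 2 + 426900 * (u : ℤ) ^ 3 + 137740 * (u : ℤ) ^ 4 + 21240 * (u : ℤ) ^ 5 + 1246 * (u : ℤ) ^ 6) := by
      linear_combination e1 - 50 * e2 + 1225 * e3
    linarith only [key, h0]
  · obtain ⟨u, rfl⟩ : ∃ u, d = 3 * (u + 1) + 2 := ⟨d / 3 - 1, by omega⟩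
    rw [show 6 + (3 * (u + 1) + 2) = 3 * u + 11 by ring,
      show 6 + 2 * (3 * (u + 1) + 2) / 3 - 1 = 2 * u + 8 by omega,
      show 6 + (2 * (2 * (3 * (u + 1) + 2) / 3) - (3 * (u + 1) + 2)) - 2 = u + 5 by omega]
    have h0 : (0 : ℤ) < 675360 * (u : ℤ) ^ 0 + 1573188 * (u : ℤ) ^ 1 + 1424434 * (u : ℤ) ^ 2 + 654780 * (u : ℤ) ^ 3 + 164800 * (u : ℤ) ^ 4 + 22032 * (u : ℤ) ^ 5 + 1246 * (u : ℤ) ^ 6 := by
      clear h hd
      positivity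
    have e1 := choose6 (3 * u + 11)
    have e2 := choose6 (2 * u + 8)
    have e3 := choose6 (u + 5)
    push_cast at e1 e2 e3 ⊢
    have key : 720 * (((3 * u + 11).choose 6 : ℤ) - 50 * ((2 * u + 8).choose 6 : ℤ) +
        1225 * ((u + 5).choose 6 : ℤ)) = -(675360 * (u : ℤ) ^ 0 + 1573188 * (u : ℤ) ^ 1 + 1424434 * (u : ℤ) ^ 2 + 654780 * (u : ℤ) ^ 3 + 164800 * (u : ℤ) ^ 4 + 22032 * (u : ℤ) ^ 5 + 1246 * (u : ℤ) ^ 6) := by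
      linear_combination e1 - 50 * e2 + 1225 * e3
    linarith only [key, h0]

theorem all_6_50 {d m : ℕ} (hd : 3 ≤ d) (h2 : d + 2 ≤ 2 * m) (h3 : 2 * d + 3 < 3 * m + 6) :
    ldim 6 d (fun _ : Fin 50 => m) = 0 := by
  exact ldim_zero (fun _ => 2 * d / 3) (fun _ => by omega) (big_6_50 hd)

theorem big_6_51 {d : ℕ} (hd : 3 ≤ d) :
    lvdim 6 d (fun _ : Fin 51 => 2 * d / 3) < 0 := by
  rw [lvdim_pairs (by norm_num) (fun c hc hcn => by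
    rcases (by omega : c = 3 ∨ c = 4 ∨ c = 5 ∨ c = 6) with rfl | rfl | rfl | rfl <;> omega),
    show ((51 : ℕ).choose 2 : ℤ) = 1275 by decide +kernel]
  rcases (by omega : d % 3 = 0 ∨ d % 3 = 1 ∨ d % 3 = 2) with h | h | h
  · obtain ⟨u, rfl⟩ : ∃ u, d = 3 * (u + 1) + 0 := ⟨d / 3 - 1, by omega⟩
    rw [show 6 + (3 * (u + 1) + 0) = 3 * u + 9 by ring,
      show 6 + 2 * (3 * (u + 1) + 0) / 3 - 1 = 2 * u + 7 by omega,
      show 6 + (2 * (2 * (3 * (u + 1) + 0) / 3) - (3 * (u + 1) + 0)) - 2 = u + 5 by omega]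
    have h0 : (0 : ℤ) < 196560 * (u : ℤ) ^ 0 + 485208 * (u : ℤ) ^ 1 + 470700 * (u : ℤ) ^ 2 + 250290 * (u : ℤ) ^ 3 + 81720 * (u : ℤ) ^ 4 + 15462 * (u : ℤ) ^ 5 + 1260 * (u : ℤ) ^ 6 := by
      clear h hd
      positivity
    have e1 := choose6 (3 * u + 9)
    have e2 := choose6 (2 * u + 7)
    have e3 := choose6 (u + 5)
    push_cast at e1 e2 e3 ⊢
    have key : 720 * (((3 * u + 9).choose 6 : ℤ) - 51 * ((2 * u + 7).choose 6 : ℤ) +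
        1275 * ((u + 5).choose 6 : ℤ)) = -(196560 * (u : ℤ) ^ 0 + 485208 * (u : ℤ) ^ 1 + 470700 * (u : ℤ) ^ 2 + 250290 * (u : ℤ) ^ 3 + 81720 * (u : ℤ) ^ 4 + 15462 * (u : ℤ) ^ 5 + 1260 * (u : ℤ) ^ 6) := by
      linear_combination e1 - 51 * e2 + 1275 * e3
    linarith only [key, h0]
  · obtain ⟨u, rfl⟩ : ∃ u, d = 3 * (u + 1) + 1 := ⟨d / 3 - 1, by omega⟩
    rw [show 6 + (3 * (u + 1) + 1) = 3 * u + 10 by ring,
      show 6 + 2 * (3 * (u + 1) + 1) / 3 - 1 = 2 * u + 7 by omega,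
      show 6 + (2 * (2 * (3 * (u + 1) + 1) / 3) - (3 * (u + 1) + 1)) - 2 = u + 4 by omega]
    have h0 : (0 : ℤ) < 105840 * (u : ℤ) ^ 0 + 465876 * (u : ℤ) ^ 1 + 673650 * (u : ℤ) ^ 2 + 439470 * (u : ℤ) ^ 3 + 141210 * (u : ℤ) ^ 4 + 21654 * (u : ℤ) ^ 5 + 1260 * (u : ℤ) ^ 6 := by
      clear h hd
      positivity
    have e1 := choose6 (3 * u + 10)
    have e2 := choose6 (2 * u + 7)
    have e3 := choose6 (u + 4)
    push_cast at e1 e2 e3 ⊢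
    have key : 720 * (((3 * u + 10).choose 6 : ℤ) - 51 * ((2 * u + 7).choose 6 : ℤ) +
        1275 * ((u + 4).choose 6 : ℤ)) = -(105840 * (u : ℤ) ^ 0 + 465876 * (u : ℤ) ^ 1 + 673650 * (u : ℤ) ^ 2 + 439470 * (u : ℤ) ^ 3 + 141210 * (u : ℤ) ^ 4 + 21654 * (u : ℤ) ^ 5 + 1260 * (u : ℤ) ^ 6) := by
      linear_combination e1 - 51 * e2 + 1275 * e3
    linarith only [key, h0]
  · obtain ⟨u, rfl⟩ : ∃ u, d = 3 * (u + 1) + 2 := ⟨d / 3 - 1, by omega⟩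
    rw [show 6 + (3 * (u + 1) + 2) = 3 * u + 11 by ring,
      show 6 + 2 * (3 * (u + 1) + 2) / 3 - 1 = 2 * u + 8 by omega,
      show 6 + (2 * (2 * (3 * (u + 1) + 2) / 3) - (3 * (u + 1) + 2)) - 2 = u + 5 by omega]
    have h0 : (0 : ℤ) < 695520 * (u : ℤ) ^ 0 + 1616292 * (u : ℤ) ^ 1 + 1459350 * (u : ℤ) ^ 2 + 668610 * (u : ℤ) ^ 3 + 167670 * (u : ℤ) ^ 4 + 22338 * (u : ℤ) ^ 5 + 1260 * (u : ℤ) ^ 6 := by
      clear h hd
      positivity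
    have e1 := choose6 (3 * u + 11)
    have e2 := choose6 (2 * u + 8)
    have e3 := choose6 (u + 5)
    push_cast at e1 e2 e3 ⊢
    have key : 720 * (((3 * u + 11).choose 6 : ℤ) - 51 * ((2 * u + 8).choose 6 : ℤ) +
        1275 * ((u + 5).choose 6 : ℤ)) = -(695520 * (u : ℤ) ^ 0 + 1616292 * (u : ℤ) ^ 1 + 1459350 * (u : ℤ) ^ 2 + 668610 * (u : ℤ) ^ 3 + 167670 * (u : ℤ) ^ 4 + 22338 * (u : ℤ) ^ 5 + 1260 * (u : ℤ) ^ 6) := by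
      linear_combination e1 - 51 * e2 + 1275 * e3
    linarith only [key, h0]

theorem all_6_51 {d m : ℕ} (hd : 3 ≤ d) (h2 : d + 2 ≤ 2 * m) (h3 : 2 * d + 3 < 3 * m + 6) :
    ldim 6 d (fun _ : Fin 51 => m) = 0 := by
  exact ldim_zero (fun _ => 2 * d / 3) (fun _ => by omega) (big_6_51 hd)

theorem big_6_52 {d : ℕ} (hd : 3 ≤ d) :
    lvdim 6 d (fun _ : Fin 52 => 2 * d / 3) < 0 := by
  rw [lvdim_pairs (by norm_num) (fun c hc hcn => by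
    rcases (by omega : c = 3 ∨ c = 4 ∨ c = 5 ∨ c = 6) with rfl | rfl | rfl | rfl <;> omega),
    show ((52 : ℕ).choose 2 : ℤ) = 1326 by decide +kernel]
  rcases (by omega : d % 3 = 0 ∨ d % 3 = 1 ∨ d % 3 = 2) with h | h | h
  · obtain ⟨u, rfl⟩ : ∃ u, d = 3 * (u + 1) + 0 := ⟨d / 3 - 1, by omega⟩
    rw [show 6 + (3 * (u + 1) + 0) = 3 * u + 9 by ring,
      show 6 + 2 * (3 * (u + 1) + 0) / 3 - 1 = 2 * u + 7 by omega,
      show 6 + (2 * (2 * (3 * (u + 1) + 0) / 3) - (3 * (u + 1) + 0)) - 2 = u + 5 by omega]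
    have h0 : (0 : ℤ) < 201600 * (u : ℤ) ^ 0 + 495144 * (u : ℤ) ^ 1 + 477142 * (u : ℤ) ^ 2 + 252135 * (u : ℤ) ^ 3 + 82105 * (u : ℤ) ^ 4 + 15561 * (u : ℤ) ^ 5 + 1273 * (u : ℤ) ^ 6 := by
      clear h hd
      positivity
    have e1 := choose6 (3 * u + 9)
    have e2 := choose6 (2 * u + 7)
    have e3 := choose6 (u + 5)
    push_cast at e1 e2 e3 ⊢
    have key : 720 * (((3 * u + 9).choose 6 : ℤ) - 52 * ((2 * u + 7).choose 6 : ℤ) +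
        1326 * ((u + 5).choose 6 : ℤ)) = -(201600 * (u : ℤ) ^ 0 + 495144 * (u : ℤ) ^ 1 + 477142 * (u : ℤ) ^ 2 + 252135 * (u : ℤ) ^ 3 + 82105 * (u : ℤ) ^ 4 + 15561 * (u : ℤ) ^ 5 + 1273 * (u : ℤ) ^ 6) := by
      linear_combination e1 - 52 * e2 + 1326 * e3
    linarith only [key, h0]
  · obtain ⟨u, rfl⟩ : ∃ u, d = 3 * (u + 1) + 1 := ⟨d / 3 - 1, by omega⟩
    rw [show 6 + (3 * (u + 1) + 1) = 3 * u + 10 by ring,
      show 6 + 2 * (3 * (u + 1) + 1) / 3 - 1 = 2 * u + 7 by omega,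
      show 6 + (2 * (2 * (3 * (u + 1) + 1) / 3) - (3 * (u + 1) + 1)) - 2 = u + 4 by omega]
    have h0 : (0 : ℤ) < 110880 * (u : ℤ) ^ 0 + 483156 * (u : ℤ) ^ 1 + 695392 * (u : ℤ) ^ 2 + 452025 * (u : ℤ) ^ 3 + 144655 * (u : ℤ) ^ 4 + 22059 * (u : ℤ) ^ 5 + 1273 * (u : ℤ) ^ 6 := by
      clear h hd
      positivity
    have e1 := choose6 (3 * u + 10)
    have e2 := choose6 (2 * u + 7)
    have e3 := choose6 (u + 4)
    push_cast at e1 e2 e3 ⊢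
    have key : 720 * (((3 * u + 10).choose 6 : ℤ) - 52 * ((2 * u + 7).choose 6 : ℤ) +
        1326 * ((u + 4).choose 6 : ℤ)) = -(110880 * (u : ℤ) ^ 0 + 483156 * (u : ℤ) ^ 1 + 695392 * (u : ℤ) ^ 2 + 452025 * (u : ℤ) ^ 3 + 144655 * (u : ℤ) ^ 4 + 22059 * (u : ℤ) ^ 5 + 1273 * (u : ℤ) ^ 6) := by
      linear_combination e1 - 52 * e2 + 1326 * e3
    linarith only [key, h0]
  · obtain ⟨u, rfl⟩ : ∃ u, d = 3 * (u + 1) + 2 := ⟨d / 3 - 1, by omega⟩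
    rw [show 6 + (3 * (u + 1) + 2) = 3 * u + 11 by ring,
      show 6 + 2 * (3 * (u + 1) + 2) / 3 - 1 = 2 * u + 8 by omega,
      show 6 + (2 * (2 * (3 * (u + 1) + 2) / 3) - (3 * (u + 1) + 2)) - 2 = u + 5 by omega]
    have h0 : (0 : ℤ) < 715680 * (u : ℤ) ^ 0 + 1659276 * (u : ℤ) ^ 1 + 1493992 * (u : ℤ) ^ 2 + 682215 * (u : ℤ) ^ 3 + 170455 * (u : ℤ) ^ 4 + 22629 * (u : ℤ) ^ 5 + 1273 * (u : ℤ) ^ 6 := by
      clear h hd
      positivity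
    have e1 := choose6 (3 * u + 11)
    have e2 := choose6 (2 * u + 8)
    have e3 := choose6 (u + 5)
    push_cast at e1 e2 e3 ⊢
    have key : 720 * (((3 * u + 11).choose 6 : ℤ) - 52 * ((2 * u + 8).choose 6 : ℤ) +
        1326 * ((u + 5).choose 6 : ℤ)) = -(715680 * (u : ℤ) ^ 0 + 1659276 * (u : ℤ) ^ 1 + 1493992 * (u : ℤ) ^ 2 + 682215 * (u : ℤ) ^ 3 + 170455 * (u : ℤ) ^ 4 + 22629 * (u : ℤ) ^ 5 + 1273 * (u : ℤ) ^ 6) := by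
      linear_combination e1 - 52 * e2 + 1326 * e3
    linarith only [key, h0]

theorem all_6_52 {d m : ℕ} (hd : 3 ≤ d) (h2 : d + 2 ≤ 2 * m) (h3 : 2 * d + 3 < 3 * m + 6) :
    ldim 6 d (fun _ : Fin 52 => m) = 0 := by
  exact ldim_zero (fun _ => 2 * d / 3) (fun _ => by omega) (big_6_52 hd)

end Pool.Agent.TH142.WF
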