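import Pool.Agent.TH142.WF.SixA

set_option autoImplicit false
set_option maxHeartbeats 4000000

/-!
# Empty systems in low dimension
-/

namespace Pool.Agent.TH142.WF

theorem big_6_53 {d : ℕ} (hd : 3 ≤ d) :
    lvdim 6 d (fun _ : Fin 53 => 2 * d / 3) < 0 := by
  rw [lvdim_pairs (by norm_num) (fun c hc hcn => by
    rcases (by omega : c = 3 ∨ c = 4 ∨ c = 5 ∨ c = 6) with rfl | rfl | rfl | rfl <;> omega),
    show ((53 : ℕ).choose 2 : ℤ) = 1378 by decide +kernel]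
  rcases (by omega : d % 3 = 0 ∨ d % 3 = 1 ∨ d % 3 = 2) with h | h | h
  · obtain ⟨u, rfl⟩ : ∃ u, d = 3 * (u + 1) + 0 := ⟨d / 3 - 1, by omega⟩
    rw [show 6 + (3 * (u + 1) + 0) = 3 * u + 9 by ring,
      show 6 + 2 * (3 * (u + 1) + 0) / 3 - 1 = 2 * u + 7 by omega,
      show 6 + (2 * (2 * (3 * (u + 1) + 0) / 3) - (3 * (u + 1) + 0)) - 2 = u + 5 by omega]
    have h0 : (0 : ℤ) < 206640 * (u : ℤ) ^ 0 + 504960 * (u : ℤ) ^ 1 + 483310 * (u : ℤ) ^ 2 + 253755 * (u : ℤ) ^ 3 + 82405 * (u : ℤ) ^ 4 + 15645 * (u : ℤ) ^ 5 + 1285 * (u : ℤ) ^ 6 := by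
      clear h hd
      positivity
    have e1 := choose6 (3 * u + 9)
    have e2 := choose6 (2 * u + 7)
    have e3 := choose6 (u + 5)
    push_cast at e1 e2 e3 ⊢
    have key : 720 * (((3 * u + 9).choose 6 : ℤ) - 53 * ((2 * u + 7).choose 6 : ℤ) +
        1378 * ((u + 5).choose 6 : ℤ)) = -(206640 * (u : ℤ) ^ 0 + 504960 * (u : ℤ) ^ 1 + 483310 * (u : ℤ) ^ 2 + 253755 * (u : ℤ) ^ 3 + 82405 * (u : ℤ) ^ 4 + 15645 * (u : ℤ) ^ 5 + 1285 * (u : ℤ) ^ 6) := by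
      linear_combination e1 - 53 * e2 + 1378 * e3
    linarith only [key, h0]
  · obtain ⟨u, rfl⟩ : ∃ u, d = 3 * (u + 1) + 1 := ⟨d / 3 - 1, by omega⟩
    rw [show 6 + (3 * (u + 1) + 1) = 3 * u + 10 by ring,
      show 6 + 2 * (3 * (u + 1) + 1) / 3 - 1 = 2 * u + 7 by omega,
      show 6 + (2 * (2 * (3 * (u + 1) + 1) / 3) - (3 * (u + 1) + 1)) - 2 = u + 4 by omega]
    have h0 : (0 : ℤ) < 115920 * (u : ℤ) ^ 0 + 500460 * (u : ℤ) ^ 1 + 717160 * (u : ℤ) ^ 2 + 464565 * (u : ℤ) ^ 3 + 148075 * (u : ℤ) ^ 4 + 22455 * (u : ℤ) ^ 5 + 1285 * (u : ℤ) ^ 6 := by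
      clear h hd
      positivity
    have e1 := choose6 (3 * u + 10)
    have e2 := choose6 (2 * u + 7)
    have e3 := choose6 (u + 4)
    push_cast at e1 e2 e3 ⊢
    have key : 720 * (((3 * u + 10).choose 6 : ℤ) - 53 * ((2 * u + 7).choose 6 : ℤ) +
        1378 * ((u + 4).choose 6 : ℤ)) = -(115920 * (u : ℤ) ^ 0 + 500460 * (u : ℤ) ^ 1 + 717160 * (u : ℤ) ^ 2 + 464565 * (u : ℤ) ^ 3 + 148075 * (u : ℤ) ^ 4 + 22455 * (u : ℤ) ^ 5 + 1285 * (u : ℤ) ^ 6) := by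
      linear_combination e1 - 53 * e2 + 1378 * e3
    linarith only [key, h0]
  · obtain ⟨u, rfl⟩ : ∃ u, d = 3 * (u + 1) + 2 := ⟨d / 3 - 1, by omega⟩
    rw [show 6 + (3 * (u + 1) + 2) = 3 * u + 11 by ring,
      show 6 + 2 * (3 * (u + 1) + 2) / 3 - 1 = 2 * u + 8 by omega,
      show 6 + (2 * (2 * (3 * (u + 1) + 2) / 3) - (3 * (u + 1) + 2)) - 2 = u + 5 by omega]
    have h0 : (0 : ℤ) < 735840 * (u : ℤ) ^ 0 + 1702140 * (u : ℤ) ^ 1 + 1528360 * (u : ℤ) ^ 2 + 695595 * (u : ℤ) ^ 3 + 173155 * (u : ℤ) ^ 4 + 22905 * (u : ℤ) ^ 5 + 1285 * (u : ℤ) ^ 6 := by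
      clear h hd
      positivity
    have e1 := choose6 (3 * u + 11)
    have e2 := choose6 (2 * u + 8)
    have e3 := choose6 (u + 5)
    push_cast at e1 e2 e3 ⊢
    have key : 720 * (((3 * u + 11).choose 6 : ℤ) - 53 * ((2 * u + 8).choose 6 : ℤ) +
        1378 * ((u + 5).choose 6 : ℤ)) = -(735840 * (u : ℤ) ^ 0 + 1702140 * (u : ℤ) ^ 1 + 1528360 * (u : ℤ) ^ 2 + 695595 * (u : ℤ) ^ 3 + 173155 * (u : ℤ) ^ 4 + 22905 * (u : ℤ) ^ 5 + 1285 * (u : ℤ) ^ 6) := by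
      linear_combination e1 - 53 * e2 + 1378 * e3
    linarith only [key, h0]

theorem all_6_53 {d m : ℕ} (hd : 3 ≤ d) (h2 : d + 2 ≤ 2 * m) (h3 : 2 * d + 3 < 3 * m + 6) :
    ldim 6 d (fun _ : Fin 53 => m) = 0 := by
  exact ldim_zero (fun _ => 2 * d / 3) (fun _ => by omega) (big_6_53 hd)

theorem big_6_54 {d : ℕ} (hd : 3 ≤ d) :
    lvdim 6 d (fun _ : Fin 54 => 2 * d / 3) < 0 := by
  rw [lvdim_pairs (by norm_num) (fun c hc hcn => by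
    rcases (by omega : c = 3 ∨ c = 4 ∨ c = 5 ∨ c = 6) with rfl | rfl | rfl | rfl <;> omega),
    show ((54 : ℕ).choose 2 : ℤ) = 1431 by decide +kernel]
  rcases (by omega : d % 3 = 0 ∨ d % 3 = 1 ∨ d % 3 = 2) with h | h | h
  · obtain ⟨u, rfl⟩ : ∃ u, d = 3 * (u + 1) + 0 := ⟨d / 3 - 1, by omega⟩
    rw [show 6 + (3 * (u + 1) + 0) = 3 * u + 9 by ring,
      show 6 + 2 * (3 * (u + 1) + 0) / 3 - 1 = 2 * u + 7 by omega,
      show 6 + (2 * (2 * (3 * (u + 1) + 0) / 3) - (3 * (u + 1) + 0)) - 2 = u + 5 by omega]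
    have h0 : (0 : ℤ) < 211680 * (u : ℤ) ^ 0 + 514656 * (u : ℤ) ^ 1 + 489204 * (u : ℤ) ^ 2 + 255150 * (u : ℤ) ^ 3 + 82620 * (u : ℤ) ^ 4 + 15714 * (u : ℤ) ^ 5 + 1296 * (u : ℤ) ^ 6 := by
      clear h hd
      positivity
    have e1 := choose6 (3 * u + 9)
    have e2 := choose6 (2 * u + 7)
    have e3 := choose6 (u + 5)
    push_cast at e1 e2 e3 ⊢
    have key : 720 * (((3 * u + 9).choose 6 : ℤ) - 54 * ((2 * u + 7).choose 6 : ℤ) +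
        1431 * ((u + 5).choose 6 : ℤ)) = -(211680 * (u : ℤ) ^ 0 + 514656 * (u : ℤ) ^ 1 + 489204 * (u : ℤ) ^ 2 + 255150 * (u : ℤ) ^ 3 + 82620 * (u : ℤ) ^ 4 + 15714 * (u : ℤ) ^ 5 + 1296 * (u : ℤ) ^ 6) := by
      linear_combination e1 - 54 * e2 + 1431 * e3
    linarith only [key, h0]
  · obtain ⟨u, rfl⟩ : ∃ u, d = 3 * (u + 1) + 1 := ⟨d / 3 - 1, by omega⟩
    rw [show 6 + (3 * (u + 1) + 1) = 3 * u + 10 by ring,
      show 6 + 2 * (3 * (u + 1) + 1) / 3 - 1 = 2 * u + 7 by omega,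
      show 6 + (2 * (2 * (3 * (u + 1) + 1) / 3) - (3 * (u + 1) + 1)) - 2 = u + 4 by omega]
    have h0 : (0 : ℤ) < 120960 * (u : ℤ) ^ 0 + 517788 * (u : ℤ) ^ 1 + 738954 * (u : ℤ) ^ 2 + 477090 * (u : ℤ) ^ 3 + 151470 * (u : ℤ) ^ 4 + 22842 * (u : ℤ) ^ 5 + 1296 * (u : ℤ) ^ 6 := by
      clear h hd
      positivity
    have e1 := choose6 (3 * u + 10)
    have e2 := choose6 (2 * u + 7)
    have e3 := choose6 (u + 4)
    push_cast at e1 e2 e3 ⊢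
    have key : 720 * (((3 * u + 10).choose 6 : ℤ) - 54 * ((2 * u + 7).choose 6 : ℤ) +
        1431 * ((u + 4).choose 6 : ℤ)) = -(120960 * (u : ℤ) ^ 0 + 517788 * (u : ℤ) ^ 1 + 738954 * (u : ℤ) ^ 2 + 477090 * (u : ℤ) ^ 3 + 151470 * (u : ℤ) ^ 4 + 22842 * (u : ℤ) ^ 5 + 1296 * (u : ℤ) ^ 6) := by
      linear_combination e1 - 54 * e2 + 1431 * e3
    linarith only [key, h0]
  · obtain ⟨u, rfl⟩ : ∃ u, d = 3 * (u + 1) + 2 := ⟨d / 3 - 1, by omega⟩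
    rw [show 6 + (3 * (u + 1) + 2) = 3 * u + 11 by ring,
      show 6 + 2 * (3 * (u + 1) + 2) / 3 - 1 = 2 * u + 8 by omega,
      show 6 + (2 * (2 * (3 * (u + 1) + 2) / 3) - (3 * (u + 1) + 2)) - 2 = u + 5 by omega]
    have h0 : (0 : ℤ) < 756000 * (u : ℤ) ^ 0 + 1744884 * (u : ℤ) ^ 1 + 1562454 * (u : ℤ) ^ 2 + 708750 * (u : ℤ) ^ 3 + 175770 * (u : ℤ) ^ 4 + 23166 * (u : ℤ) ^ 5 + 1296 * (u : ℤ) ^ 6 := by
      clear h hd
      positivity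
    have e1 := choose6 (3 * u + 11)
    have e2 := choose6 (2 * u + 8)
    have e3 := choose6 (u + 5)
    push_cast at e1 e2 e3 ⊢
    have key : 720 * (((3 * u + 11).choose 6 : ℤ) - 54 * ((2 * u + 8).choose 6 : ℤ) +
        1431 * ((u + 5).choose 6 : ℤ)) = -(756000 * (u : ℤ) ^ 0 + 1744884 * (u : ℤ) ^ 1 + 1562454 * (u : ℤ) ^ 2 + 708750 * (u : ℤ) ^ 3 + 175770 * (u : ℤ) ^ 4 + 23166 * (u : ℤ) ^ 5 + 1296 * (u : ℤ) ^ 6) := by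
      linear_combination e1 - 54 * e2 + 1431 * e3
    linarith only [key, h0]

theorem all_6_54 {d m : ℕ} (hd : 3 ≤ d) (h2 : d + 2 ≤ 2 * m) (h3 : 2 * d + 3 < 3 * m + 6) :
    ldim 6 d (fun _ : Fin 54 => m) = 0 := by
  exact ldim_zero (fun _ => 2 * d / 3) (fun _ => by omega) (big_6_54 hd)

theorem big_6_55 {d : ℕ} (hd : 3 ≤ d) :
    lvdim 6 d (fun _ : Fin 55 => 2 * d / 3) < 0 := by
  rw [lvdim_pairs (by norm_num) (fun c hc hcn => by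
    rcases (by omega : c = 3 ∨ c = 4 ∨ c = 5 ∨ c = 6) with rfl | rfl | rfl | rfl <;> omega),
    show ((55 : ℕ).choose 2 : ℤ) = 1485 by decide +kernel]
  rcases (by omega : d % 3 = 0 ∨ d % 3 = 1 ∨ d % 3 = 2) with h | h | h
  · obtain ⟨u, rfl⟩ : ∃ u, d = 3 * (u + 1) + 0 := ⟨d / 3 - 1, by omega⟩
    rw [show 6 + (3 * (u + 1) + 0) = 3 * u + 9 by ring,
      show 6 + 2 * (3 * (u + 1) + 0) / 3 - 1 = 2 * u + 7 by omega,
      show 6 + (2 * (2 * (3 * (u + 1) + 0) / 3) - (3 * (u + 1) + 0)) - 2 = u + 5 by omega]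
    have h0 : (0 : ℤ) < 216720 * (u : ℤ) ^ 0 + 524232 * (u : ℤ) ^ 1 + 494824 * (u : ℤ) ^ 2 + 256320 * (u : ℤ) ^ 3 + 82750 * (u : ℤ) ^ 4 + 15768 * (u : ℤ) ^ 5 + 1306 * (u : ℤ) ^ 6 := by
      clear h hd
      positivity
    have e1 := choose6 (3 * u + 9)
    have e2 := choose6 (2 * u + 7)
    have e3 := choose6 (u + 5)
    push_cast at e1 e2 e3 ⊢
    have key : 720 * (((3 * u + 9).choose 6 : ℤ) - 55 * ((2 * u + 7).choose 6 : ℤ) +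
        1485 * ((u + 5).choose 6 : ℤ)) = -(216720 * (u : ℤ) ^ 0 + 524232 * (u : ℤ) ^ 1 + 494824 * (u : ℤ) ^ 2 + 256320 * (u : ℤ) ^ 3 + 82750 * (u : ℤ) ^ 4 + 15768 * (u : ℤ) ^ 5 + 1306 * (u : ℤ) ^ 6) := by
      linear_combination e1 - 55 * e2 + 1485 * e3
    linarith only [key, h0]
  · obtain ⟨u, rfl⟩ : ∃ u, d = 3 * (u + 1) + 1 := ⟨d / 3 - 1, by omega⟩
    rw [show 6 + (3 * (u + 1) + 1) = 3 * u + 10 by ring,
      show 6 + 2 * (3 * (u + 1) + 1) / 3 - 1 = 2 * u + 7 by omega,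
      show 6 + (2 * (2 * (3 * (u + 1) + 1) / 3) - (3 * (u + 1) + 1)) - 2 = u + 4 by omega]
    have h0 : (0 : ℤ) < 126000 * (u : ℤ) ^ 0 + 535140 * (u : ℤ) ^ 1 + 760774 * (u : ℤ) ^ 2 + 489600 * (u : ℤ) ^ 3 + 154840 * (u : ℤ) ^ 4 + 23220 * (u : ℤ) ^ 5 + 1306 * (u : ℤ) ^ 6 := by
      clear h hd
      positivity
    have e1 := choose6 (3 * u + 10)
    have e2 := choose6 (2 * u + 7)
    have e3 := choose6 (u + 4)
    push_cast at e1 e2 e3 ⊢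
    have key : 720 * (((3 * u + 10).choose 6 : ℤ) - 55 * ((2 * u + 7).choose 6 : ℤ) +
        1485 * ((u + 4).choose 6 : ℤ)) = -(126000 * (u : ℤ) ^ 0 + 535140 * (u : ℤ) ^ 1 + 760774 * (u : ℤ) ^ 2 + 489600 * (u : ℤ) ^ 3 + 154840 * (u : ℤ) ^ 4 + 23220 * (u : ℤ) ^ 5 + 1306 * (u : ℤ) ^ 6) := by
      linear_combination e1 - 55 * e2 + 1485 * e3
    linarith only [key, h0]
  · obtain ⟨u, rfl⟩ : ∃ u, d = 3 * (u + 1) + 2 := ⟨d / 3 - 1, by omega⟩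
    rw [show 6 + (3 * (u + 1) + 2) = 3 * u + 11 by ring,
      show 6 + 2 * (3 * (u + 1) + 2) / 3 - 1 = 2 * u + 8 by omega,
      show 6 + (2 * (2 * (3 * (u + 1) + 2) / 3) - (3 * (u + 1) + 2)) - 2 = u + 5 by omega]
    have h0 : (0 : ℤ) < 776160 * (u : ℤ) ^ 0 + 1787508 * (u : ℤ) ^ 1 + 1596274 * (u : ℤ) ^ 2 + 721680 * (u : ℤ) ^ 3 + 178300 * (u : ℤ) ^ 4 + 23412 * (u : ℤ) ^ 5 + 1306 * (u : ℤ) ^ 6 := by
      clear h hd
      positivity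
    have e1 := choose6 (3 * u + 11)
    have e2 := choose6 (2 * u + 8)
    have e3 := choose6 (u + 5)
    push_cast at e1 e2 e3 ⊢
    have key : 720 * (((3 * u + 11).choose 6 : ℤ) - 55 * ((2 * u + 8).choose 6 : ℤ) +
        1485 * ((u + 5).choose 6 : ℤ)) = -(776160 * (u : ℤ) ^ 0 + 1787508 * (u : ℤ) ^ 1 + 1596274 * (u : ℤ) ^ 2 + 721680 * (u : ℤ) ^ 3 + 178300 * (u : ℤ) ^ 4 + 23412 * (u : ℤ) ^ 5 + 1306 * (u : ℤ) ^ 6) := by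
      linear_combination e1 - 55 * e2 + 1485 * e3
    linarith only [key, h0]

theorem all_6_55 {d m : ℕ} (hd : 3 ≤ d) (h2 : d + 2 ≤ 2 * m) (h3 : 2 * d + 3 < 3 * m + 6) :
    ldim 6 d (fun _ : Fin 55 => m) = 0 := by
  exact ldim_zero (fun _ => 2 * d / 3) (fun _ => by omega) (big_6_55 hd)

theorem big_6_56 {d : ℕ} (hd : 3 ≤ d) :
    lvdim 6 d (fun _ : Fin 56 => 2 * d / 3) < 0 := by
  rw [lvdim_pairs (by norm_num) (fun c hc hcn => by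
    rcases (by omega : c = 3 ∨ c = 4 ∨ c = 5 ∨ c = 6) with rfl | rfl | rfl | rfl <;> omega),
    show ((56 : ℕ).choose 2 : ℤ) = 1540 by decide +kernel]
  rcases (by omega : d % 3 = 0 ∨ d % 3 = 1 ∨ d % 3 = 2) with h | h | h
  · obtain ⟨u, rfl⟩ : ∃ u, d = 3 * (u + 1) + 0 := ⟨d / 3 - 1, by omega⟩
    rw [show 6 + (3 * (u + 1) + 0) = 3 * u + 9 by ring,
      show 6 + 2 * (3 * (u + 1) + 0) / 3 - 1 = 2 * u + 7 by omega,
      show 6 + (2 * (2 * (3 * (u + 1) + 0) / 3) - (3 * (u + 1) + 0)) - 2 = u + 5 by omega]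
    have h0 : (0 : ℤ) < 221760 * (u : ℤ) ^ 0 + 533688 * (u : ℤ) ^ 1 + 500170 * (u : ℤ) ^ 2 + 257265 * (u : ℤ) ^ 3 + 82795 * (u : ℤ) ^ 4 + 15807 * (u : ℤ) ^ 5 + 1315 * (u : ℤ) ^ 6 := by
      clear h hd
      positivity
    have e1 := choose6 (3 * u + 9)
    have e2 := choose6 (2 * u + 7)
    have e3 := choose6 (u + 5)
    push_cast at e1 e2 e3 ⊢
    have key : 720 * (((3 * u + 9).choose 6 : ℤ) - 56 * ((2 * u + 7).choose 6 : ℤ) +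
        1540 * ((u + 5).choose 6 : ℤ)) = -(221760 * (u : ℤ) ^ 0 + 533688 * (u : ℤ) ^ 1 + 500170 * (u : ℤ) ^ 2 + 257265 * (u : ℤ) ^ 3 + 82795 * (u : ℤ) ^ 4 + 15807 * (u : ℤ) ^ 5 + 1315 * (u : ℤ) ^ 6) := by
      linear_combination e1 - 56 * e2 + 1540 * e3
    linarith only [key, h0]
  · obtain ⟨u, rfl⟩ : ∃ u, d = 3 * (u + 1) + 1 := ⟨d / 3 - 1, by omega⟩
    rw [show 6 + (3 * (u + 1) + 1) = 3 * u + 10 by ring,
      show 6 + 2 * (3 * (u + 1) + 1) / 3 - 1 = 2 * u + 7 by omega,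
      show 6 + (2 * (2 * (3 * (u + 1) + 1) / 3) - (3 * (u + 1) + 1)) - 2 = u + 4 by omega]
    have h0 : (0 : ℤ) < 131040 * (u : ℤ) ^ 0 + 552516 * (u : ℤ) ^ 1 + 782620 * (u : ℤ) ^ 2 + 502095 * (u : ℤ) ^ 3 + 158185 * (u : ℤ) ^ 4 + 23589 * (u : ℤ) ^ 5 + 1315 * (u : ℤ) ^ 6 := by
      clear h hd
      positivity
    have e1 := choose6 (3 * u + 10)
    have e2 := choose6 (2 * u + 7)
    have e3 := choose6 (u + 4)
    push_cast at e1 e2 e3 ⊢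
    have key : 720 * (((3 * u + 10).choose 6 : ℤ) - 56 * ((2 * u + 7).choose 6 : ℤ) +
        1540 * ((u + 4).choose 6 : ℤ)) = -(131040 * (u : ℤ) ^ 0 + 552516 * (u : ℤ) ^ 1 + 782620 * (u : ℤ) ^ 2 + 502095 * (u : ℤ) ^ 3 + 158185 * (u : ℤ) ^ 4 + 23589 * (u : ℤ) ^ 5 + 1315 * (u : ℤ) ^ 6) := by
      linear_combination e1 - 56 * e2 + 1540 * e3
    linarith only [key, h0]
  · obtain ⟨u, rfl⟩ : ∃ u, d = 3 * (u + 1) + 2 := ⟨d / 3 - 1, by omega⟩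
    rw [show 6 + (3 * (u + 1) + 2) = 3 * u + 11 by ring,
      show 6 + 2 * (3 * (u + 1) + 2) / 3 - 1 = 2 * u + 8 by omega,
      show 6 + (2 * (2 * (3 * (u + 1) + 2) / 3) - (3 * (u + 1) + 2)) - 2 = u + 5 by omega]
    have h0 : (0 : ℤ) < 796320 * (u : ℤ) ^ 0 + 1830012 * (u : ℤ) ^ 1 + 1629820 * (u : ℤ) ^ 2 + 734385 * (u : ℤ) ^ 3 + 180745 * (u : ℤ) ^ 4 + 23643 * (u : ℤ) ^ 5 + 1315 * (u : ℤ) ^ 6 := by
      clear h hd
      positivity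
    have e1 := choose6 (3 * u + 11)
    have e2 := choose6 (2 * u + 8)
    have e3 := choose6 (u + 5)
    push_cast at e1 e2 e3 ⊢
    have key : 720 * (((3 * u + 11).choose 6 : ℤ) - 56 * ((2 * u + 8).choose 6 : ℤ) +
        1540 * ((u + 5).choose 6 : ℤ)) = -(796320 * (u : ℤ) ^ 0 + 1830012 * (u : ℤ) ^ 1 + 1629820 * (u : ℤ) ^ 2 + 734385 * (u : ℤ) ^ 3 + 180745 * (u : ℤ) ^ 4 + 23643 * (u : ℤ) ^ 5 + 1315 * (u : ℤ) ^ 6) := by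
      linear_combination e1 - 56 * e2 + 1540 * e3
    linarith only [key, h0]

theorem all_6_56 {d m : ℕ} (hd : 3 ≤ d) (h2 : d + 2 ≤ 2 * m) (h3 : 2 * d + 3 < 3 * m + 6) :
    ldim 6 d (fun _ : Fin 56 => m) = 0 := by
  exact ldim_zero (fun _ => 2 * d / 3) (fun _ => by omega) (big_6_56 hd)

theorem big_6_57 {d : ℕ} (hd : 3 ≤ d) :
    lvdim 6 d (fun _ : Fin 57 => 2 * d / 3) < 0 := by
  rw [lvdim_pairs (by norm_num) (fun c hc hcn => by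
    rcases (by omega : c = 3 ∨ c = 4 ∨ c = 5 ∨ c = 6) with rfl | rfl | rfl | rfl <;> omega),
    show ((57 : ℕ).choose 2 : ℤ) = 1596 by decide +kernel]
  rcases (by omega : d % 3 = 0 ∨ d % 3 = 1 ∨ d % 3 = 2) with h | h | h
  · obtain ⟨u, rfl⟩ : ∃ u, d = 3 * (u + 1) + 0 := ⟨d / 3 - 1, by omega⟩
    rw [show 6 + (3 * (u + 1) + 0) = 3 * u + 9 by ring,
      show 6 + 2 * (3 * (u + 1) + 0) / 3 - 1 = 2 * u + 7 by omega,
      show 6 + (2 * (2 * (3 * (u + 1) + 0) / 3) - (3 * (u + 1) + 0)) - 2 = u + 5 by omega]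
    have h0 : (0 : ℤ) < 226800 * (u : ℤ) ^ 0 + 543024 * (u : ℤ) ^ 1 + 505242 * (u : ℤ) ^ 2 + 257985 * (u : ℤ) ^ 3 + 82755 * (u : ℤ) ^ 4 + 15831 * (u : ℤ) ^ 5 + 1323 * (u : ℤ) ^ 6 := by
      clear h hd
      positivity
    have e1 := choose6 (3 * u + 9)
    have e2 := choose6 (2 * u + 7)
    have e3 := choose6 (u + 5)
    push_cast at e1 e2 e3 ⊢
    have key : 720 * (((3 * u + 9).choose 6 : ℤ) - 57 * ((2 * u + 7).choose 6 : ℤ) +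
        1596 * ((u + 5).choose 6 : ℤ)) = -(226800 * (u : ℤ) ^ 0 + 543024 * (u : ℤ) ^ 1 + 505242 * (u : ℤ) ^ 2 + 257985 * (u : ℤ) ^ 3 + 82755 * (u : ℤ) ^ 4 + 15831 * (u : ℤ) ^ 5 + 1323 * (u : ℤ) ^ 6) := by
      linear_combination e1 - 57 * e2 + 1596 * e3
    linarith only [key, h0]
  · obtain ⟨u, rfl⟩ : ∃ u, d = 3 * (u + 1) + 1 := ⟨d / 3 - 1, by omega⟩
    rw [show 6 + (3 * (u + 1) + 1) = 3 * u + 10 by ring,
      show 6 + 2 * (3 * (u + 1) + 1) / 3 - 1 = 2 * u + 7 by omega,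
      show 6 + (2 * (2 * (3 * (u + 1) + 1) / 3) - (3 * (u + 1) + 1)) - 2 = u + 4 by omega]
    have h0 : (0 : ℤ) < 136080 * (u : ℤ) ^ 0 + 569916 * (u : ℤ) ^ 1 + 804492 * (u : ℤ) ^ 2 + 514575 * (u : ℤ) ^ 3 + 161505 * (u : ℤ) ^ 4 + 23949 * (u : ℤ) ^ 5 + 1323 * (u : ℤ) ^ 6 := by
      clear h hd
      positivity
    have e1 := choose6 (3 * u + 10)
    have e2 := choose6 (2 * u + 7)
    have e3 := choose6 (u + 4)
    push_cast at e1 e2 e3 ⊢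
    have key : 720 * (((3 * u + 10).choose 6 : ℤ) - 57 * ((2 * u + 7).choose 6 : ℤ) +
        1596 * ((u + 4).choose 6 : ℤ)) = -(136080 * (u : ℤ) ^ 0 + 569916 * (u : ℤ) ^ 1 + 804492 * (u : ℤ) ^ 2 + 514575 * (u : ℤ) ^ 3 + 161505 * (u : ℤ) ^ 4 + 23949 * (u : ℤ) ^ 5 + 1323 * (u : ℤ) ^ 6) := by
      linear_combination e1 - 57 * e2 + 1596 * e3
    linarith only [key, h0]
  · obtain ⟨u, rfl⟩ : ∃ u, d = 3 * (u + 1) + 2 := ⟨d / 3 - 1, by omega⟩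
    rw [show 6 + (3 * (u + 1) + 2) = 3 * u + 11 by ring,
      show 6 + 2 * (3 * (u + 1) + 2) / 3 - 1 = 2 * u + 8 by omega,
      show 6 + (2 * (2 * (3 * (u + 1) + 2) / 3) - (3 * (u + 1) + 2)) - 2 = u + 5 by omega]
    have h0 : (0 : ℤ) < 816480 * (u : ℤ) ^ 0 + 1872396 * (u : ℤ) ^ 1 + 1663092 * (u : ℤ) ^ 2 + 746865 * (u : ℤ) ^ 3 + 183105 * (u : ℤ) ^ 4 + 23859 * (u : ℤ) ^ 5 + 1323 * (u : ℤ) ^ 6 := by
      clear h hd
      positivity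
    have e1 := choose6 (3 * u + 11)
    have e2 := choose6 (2 * u + 8)
    have e3 := choose6 (u + 5)
    push_cast at e1 e2 e3 ⊢
    have key : 720 * (((3 * u + 11).choose 6 : ℤ) - 57 * ((2 * u + 8).choose 6 : ℤ) +
        1596 * ((u + 5).choose 6 : ℤ)) = -(816480 * (u : ℤ) ^ 0 + 1872396 * (u : ℤ) ^ 1 + 1663092 * (u : ℤ) ^ 2 + 746865 * (u : ℤ) ^ 3 + 183105 * (u : ℤ) ^ 4 + 23859 * (u : ℤ) ^ 5 + 1323 * (u : ℤ) ^ 6) := by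
      linear_combination e1 - 57 * e2 + 1596 * e3
    linarith only [key, h0]

theorem all_6_57 {d m : ℕ} (hd : 3 ≤ d) (h2 : d + 2 ≤ 2 * m) (h3 : 2 * d + 3 < 3 * m + 6) :
    ldim 6 d (fun _ : Fin 57 => m) = 0 := by
  exact ldim_zero (fun _ => 2 * d / 3) (fun _ => by omega) (big_6_57 hd)

theorem big_6_58 {d : ℕ} (hd : 3 ≤ d) :
    lvdim 6 d (fun _ : Fin 58 => 2 * d / 3) < 0 := by
  rw [lvdim_pairs (by norm_num) (fun c hc hcn => by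
    rcases (by omega : c = 3 ∨ c = 4 ∨ c = 5 ∨ c = 6) with rfl | rfl | rfl | rfl <;> omega),
    show ((58 : ℕ).choose 2 : ℤ) = 1653 by decide +kernel]
  rcases (by omega : d % 3 = 0 ∨ d % 3 = 1 ∨ d % 3 = 2) with h | h | h
  · obtain ⟨u, rfl⟩ : ∃ u, d = 3 * (u + 1) + 0 := ⟨d / 3 - 1, by omega⟩
    rw [show 6 + (3 * (u + 1) + 0) = 3 * u + 9 by ring,
      show 6 + 2 * (3 * (u + 1) + 0) / 3 - 1 = 2 * u + 7 by omega,
      show 6 + (2 * (2 * (3 * (u + 1) + 0) / 3) - (3 * (u + 1) + 0)) - 2 = u + 5 by omega]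
    have h0 : (0 : ℤ) < 231840 * (u : ℤ) ^ 0 + 552240 * (u : ℤ) ^ 1 + 510040 * (u : ℤ) ^ 2 + 258480 * (u : ℤ) ^ 3 + 82630 * (u : ℤ) ^ 4 + 15840 * (u : ℤ) ^ 5 + 1330 * (u : ℤ) ^ 6 := by
      clear h hd
      positivity
    have e1 := choose6 (3 * u + 9)
    have e2 := choose6 (2 * u + 7)
    have e3 := choose6 (u + 5)
    push_cast at e1 e2 e3 ⊢
    have key : 720 * (((3 * u + 9).choose 6 : ℤ) - 58 * ((2 * u + 7).choose 6 : ℤ) +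
        1653 * ((u + 5).choose 6 : ℤ)) = -(231840 * (u : ℤ) ^ 0 + 552240 * (u : ℤ) ^ 1 + 510040 * (u : ℤ) ^ 2 + 258480 * (u : ℤ) ^ 3 + 82630 * (u : ℤ) ^ 4 + 15840 * (u : ℤ) ^ 5 + 1330 * (u : ℤ) ^ 6) := by
      linear_combination e1 - 58 * e2 + 1653 * e3
    linarith only [key, h0]
  · obtain ⟨u, rfl⟩ : ∃ u, d = 3 * (u + 1) + 1 := ⟨d / 3 - 1, by omega⟩
    rw [show 6 + (3 * (u + 1) + 1) = 3 * u + 10 by ring,
      show 6 + 2 * (3 * (u + 1) + 1) / 3 - 1 = 2 * u + 7 by omega,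
      show 6 + (2 * (2 * (3 * (u + 1) + 1) / 3) - (3 * (u + 1) + 1)) - 2 = u + 4 by omega]
    have h0 : (0 : ℤ) < 141120 * (u : ℤ) ^ 0 + 587340 * (u : ℤ) ^ 1 + 826390 * (u : ℤ) ^ 2 + 527040 * (u : ℤ) ^ 3 + 164800 * (u : ℤ) ^ 4 + 24300 * (u : ℤ) ^ 5 + 1330 * (u : ℤ) ^ 6 := by
      clear h hd
      positivity
    have e1 := choose6 (3 * u + 10)
    have e2 := choose6 (2 * u + 7)
    have e3 := choose6 (u + 4)
    push_cast at e1 e2 e3 ⊢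
    have key : 720 * (((3 * u + 10).choose 6 : ℤ) - 58 * ((2 * u + 7).choose 6 : ℤ) +
        1653 * ((u + 4).choose 6 : ℤ)) = -(141120 * (u : ℤ) ^ 0 + 587340 * (u : ℤ) ^ 1 + 826390 * (u : ℤ) ^ 2 + 527040 * (u : ℤ) ^ 3 + 164800 * (u : ℤ) ^ 4 + 24300 * (u : ℤ) ^ 5 + 1330 * (u : ℤ) ^ 6) := by
      linear_combination e1 - 58 * e2 + 1653 * e3
    linarith only [key, h0]
  · obtain ⟨u, rfl⟩ : ∃ u, d = 3 * (u + 1) + 2 := ⟨d / 3 - 1, by omega⟩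
    rw [show 6 + (3 * (u + 1) + 2) = 3 * u + 11 by ring,
      show 6 + 2 * (3 * (u + 1) + 2) / 3 - 1 = 2 * u + 8 by omega,
      show 6 + (2 * (2 * (3 * (u + 1) + 2) / 3) - (3 * (u + 1) + 2)) - 2 = u + 5 by omega]
    have h0 : (0 : ℤ) < 836640 * (u : ℤ) ^ 0 + 1914660 * (u : ℤ) ^ 1 + 1696090 * (u : ℤ) ^ 2 + 759120 * (u : ℤ) ^ 3 + 185380 * (u : ℤ) ^ 4 + 24060 * (u : ℤ) ^ 5 + 1330 * (u : ℤ) ^ 6 := by
      clear h hd
      positivity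
    have e1 := choose6 (3 * u + 11)
    have e2 := choose6 (2 * u + 8)
    have e3 := choose6 (u + 5)
    push_cast at e1 e2 e3 ⊢
    have key : 720 * (((3 * u + 11).choose 6 : ℤ) - 58 * ((2 * u + 8).choose 6 : ℤ) +
        1653 * ((u + 5).choose 6 : ℤ)) = -(836640 * (u : ℤ) ^ 0 + 1914660 * (u : ℤ) ^ 1 + 1696090 * (u : ℤ) ^ 2 + 759120 * (u : ℤ) ^ 3 + 185380 * (u : ℤ) ^ 4 + 24060 * (u : ℤ) ^ 5 + 1330 * (u : ℤ) ^ 6) := by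
      linear_combination e1 - 58 * e2 + 1653 * e3
    linarith only [key, h0]

theorem all_6_58 {d m : ℕ} (hd : 3 ≤ d) (h2 : d + 2 ≤ 2 * m) (h3 : 2 * d + 3 < 3 * m + 6) :
    ldim 6 d (fun _ : Fin 58 => m) = 0 := by
  exact ldim_zero (fun _ => 2 * d / 3) (fun _ => by omega) (big_6_58 hd)

theorem big_6_59 {d : ℕ} (hd : 3 ≤ d) :
    lvdim 6 d (fun _ : Fin 59 => 2 * d / 3) < 0 := by
  rw [lvdim_pairs (by norm_num) (fun c hc hcn => by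
    rcases (by omega : c = 3 ∨ c = 4 ∨ c = 5 ∨ c = 6) with rfl | rfl | rfl | rfl <;> omega),
    show ((59 : ℕ).choose 2 : ℤ) = 1711 by decide +kernel]
  rcases (by omega : d % 3 = 0 ∨ d % 3 = 1 ∨ d % 3 = 2) with h | h | h
  · obtain ⟨u, rfl⟩ : ∃ u, d = 3 * (u + 1) + 0 := ⟨d / 3 - 1, by omega⟩
    rw [show 6 + (3 * (u + 1) + 0) = 3 * u + 9 by ring,
      show 6 + 2 * (3 * (u + 1) + 0) / 3 - 1 = 2 * u + 7 by omega,
      show 6 + (2 * (2 * (3 * (u + 1) + 0) / 3) - (3 * (u + 1) + 0)) - 2 = u + 5 by omega]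
    have h0 : (0 : ℤ) < 236880 * (u : ℤ) ^ 0 + 561336 * (u : ℤ) ^ 1 + 514564 * (u : ℤ) ^ 2 + 258750 * (u : ℤ) ^ 3 + 82420 * (u : ℤ) ^ 4 + 15834 * (u : ℤ) ^ 5 + 1336 * (u : ℤ) ^ 6 := by
      clear h hd
      positivity
    have e1 := choose6 (3 * u + 9)
    have e2 := choose6 (2 * u + 7)
    have e3 := choose6 (u + 5)
    push_cast at e1 e2 e3 ⊢
    have key : 720 * (((3 * u + 9).choose 6 : ℤ) - 59 * ((2 * u + 7).choose 6 : ℤ) +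
        1711 * ((u + 5).choose 6 : ℤ)) = -(236880 * (u : ℤ) ^ 0 + 561336 * (u : ℤ) ^ 1 + 514564 * (u : ℤ) ^ 2 + 258750 * (u : ℤ) ^ 3 + 82420 * (u : ℤ) ^ 4 + 15834 * (u : ℤ) ^ 5 + 1336 * (u : ℤ) ^ 6) := by
      linear_combination e1 - 59 * e2 + 1711 * e3
    linarith only [key, h0]
  · obtain ⟨u, rfl⟩ : ∃ u, d = 3 * (u + 1) + 1 := ⟨d / 3 - 1, by omega⟩
    rw [show 6 + (3 * (u + 1) + 1) = 3 * u + 10 by ring,
      show 6 + 2 * (3 * (u + 1) + 1) / 3 - 1 = 2 * u + 7 by omega,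
      show 6 + (2 * (2 * (3 * (u + 1) + 1) / 3) - (3 * (u + 1) + 1)) - 2 = u + 4 by omega]
    have h0 : (0 : ℤ) < 146160 * (u : ℤ) ^ 0 + 604788 * (u : ℤ) ^ 1 + 848314 * (u : ℤ) ^ 2 + 539490 * (u : ℤ) ^ 3 + 168070 * (u : ℤ) ^ 4 + 24642 * (u : ℤ) ^ 5 + 1336 * (u : ℤ) ^ 6 := by
      clear h hd
      positivity
    have e1 := choose6 (3 * u + 10)
    have e2 := choose6 (2 * u + 7)
    have e3 := choose6 (u + 4)
    push_cast at e1 e2 e3 ⊢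
    have key : 720 * (((3 * u + 10).choose 6 : ℤ) - 59 * ((2 * u + 7).choose 6 : ℤ) +
        1711 * ((u + 4).choose 6 : ℤ)) = -(146160 * (u : ℤ) ^ 0 + 604788 * (u : ℤ) ^ 1 + 848314 * (u : ℤ) ^ 2 + 539490 * (u : ℤ) ^ 3 + 168070 * (u : ℤ) ^ 4 + 24642 * (u : ℤ) ^ 5 + 1336 * (u : ℤ) ^ 6) := by
      linear_combination e1 - 59 * e2 + 1711 * e3
    linarith only [key, h0]
  · obtain ⟨u, rfl⟩ : ∃ u, d = 3 * (u + 1) + 2 := ⟨d / 3 - 1, by omega⟩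
    rw [show 6 + (3 * (u + 1) + 2) = 3 * u + 11 by ring,
      show 6 + 2 * (3 * (u + 1) + 2) / 3 - 1 = 2 * u + 8 by omega,
      show 6 + (2 * (2 * (3 * (u + 1) + 2) / 3) - (3 * (u + 1) + 2)) - 2 = u + 5 by omega]
    have h0 : (0 : ℤ) < 856800 * (u : ℤ) ^ 0 + 1956804 * (u : ℤ) ^ 1 + 1728814 * (u : ℤ) ^ 2 + 771150 * (u : ℤ) ^ 3 + 187570 * (u : ℤ) ^ 4 + 24246 * (u : ℤ) ^ 5 + 1336 * (u : ℤ) ^ 6 := by
      clear h hd
      positivity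
    have e1 := choose6 (3 * u + 11)
    have e2 := choose6 (2 * u + 8)
    have e3 := choose6 (u + 5)
    push_cast at e1 e2 e3 ⊢
    have key : 720 * (((3 * u + 11).choose 6 : ℤ) - 59 * ((2 * u + 8).choose 6 : ℤ) +
        1711 * ((u + 5).choose 6 : ℤ)) = -(856800 * (u : ℤ) ^ 0 + 1956804 * (u : ℤ) ^ 1 + 1728814 * (u : ℤ) ^ 2 + 771150 * (u : ℤ) ^ 3 + 187570 * (u : ℤ) ^ 4 + 24246 * (u : ℤ) ^ 5 + 1336 * (u : ℤ) ^ 6) := by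
      linear_combination e1 - 59 * e2 + 1711 * e3
    linarith only [key, h0]

theorem all_6_59 {d m : ℕ} (hd : 3 ≤ d) (h2 : d + 2 ≤ 2 * m) (h3 : 2 * d + 3 < 3 * m + 6) :
    ldim 6 d (fun _ : Fin 59 => m) = 0 := by
  exact ldim_zero (fun _ => 2 * d / 3) (fun _ => by omega) (big_6_59 hd)

theorem big_6_60 {d : ℕ} (hd : 3 ≤ d) :
    lvdim 6 d (fun _ : Fin 60 => 2 * d / 3) < 0 := by
  rw [lvdim_pairs (by norm_num) (fun c hc hcn => by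
    rcases (by omega : c = 3 ∨ c = 4 ∨ c = 5 ∨ c = 6) with rfl | rfl | rfl | rfl <;> omega),
    show ((60 : ℕ).choose 2 : ℤ) = 1770 by decide +kernel]
  rcases (by omega : d % 3 = 0 ∨ d % 3 = 1 ∨ d % 3 = 2) with h | h | h
  · obtain ⟨u, rfl⟩ : ∃ u, d = 3 * (u + 1) + 0 := ⟨d / 3 - 1, by omega⟩
    rw [show 6 + (3 * (u + 1) + 0) = 3 * u + 9 by ring,
      show 6 + 2 * (3 * (u + 1) + 0) / 3 - 1 = 2 * u + 7 by omega,
      show 6 + (2 * (2 * (3 * (u + 1) + 0) / 3) - (3 * (u + 1) + 0)) - 2 = u + 5 by omega]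
    have h0 : (0 : ℤ) < 241920 * (u : ℤ) ^ 0 + 570312 * (u : ℤ) ^ 1 + 518814 * (u : ℤ) ^ 2 + 258795 * (u : ℤ) ^ 3 + 82125 * (u : ℤ) ^ 4 + 15813 * (u : ℤ) ^ 5 + 1341 * (u : ℤ) ^ 6 := by
      clear h hd
      positivity
    have e1 := choose6 (3 * u + 9)
    have e2 := choose6 (2 * u + 7)
    have e3 := choose6 (u + 5)
    push_cast at e1 e2 e3 ⊢
    have key : 720 * (((3 * u + 9).choose 6 : ℤ) - 60 * ((2 * u + 7).choose 6 : ℤ) +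
        1770 * ((u + 5).choose 6 : ℤ)) = -(241920 * (u : ℤ) ^ 0 + 570312 * (u : ℤ) ^ 1 + 518814 * (u : ℤ) ^ 2 + 258795 * (u : ℤ) ^ 3 + 82125 * (u : ℤ) ^ 4 + 15813 * (u : ℤ) ^ 5 + 1341 * (u : ℤ) ^ 6) := by
      linear_combination e1 - 60 * e2 + 1770 * e3
    linarith only [key, h0]
  · obtain ⟨u, rfl⟩ : ∃ u, d = 3 * (u + 1) + 1 := ⟨d / 3 - 1, by omega⟩
    rw [show 6 + (3 * (u + 1) + 1) = 3 * u + 10 by ring,
      show 6 + 2 * (3 * (u + 1) + 1) / 3 - 1 = 2 * u + 7 by omega,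
      show 6 + (2 * (2 * (3 * (u + 1) + 1) / 3) - (3 * (u + 1) + 1)) - 2 = u + 4 by omega]
    have h0 : (0 : ℤ) < 151200 * (u : ℤ) ^ 0 + 622260 * (u : ℤ) ^ 1 + 870264 * (u : ℤ) ^ 2 + 551925 * (u : ℤ) ^ 3 + 171315 * (u : ℤ) ^ 4 + 24975 * (u : ℤ) ^ 5 + 1341 * (u : ℤ) ^ 6 := by
      clear h hd
      positivity
    have e1 := choose6 (3 * u + 10)
    have e2 := choose6 (2 * u + 7)
    have e3 := choose6 (u + 4)
    push_cast at e1 e2 e3 ⊢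
    have key : 720 * (((3 * u + 10).choose 6 : ℤ) - 60 * ((2 * u + 7).choose 6 : ℤ) +
        1770 * ((u + 4).choose 6 : ℤ)) = -(151200 * (u : ℤ) ^ 0 + 622260 * (u : ℤ) ^ 1 + 870264 * (u : ℤ) ^ 2 + 551925 * (u : ℤ) ^ 3 + 171315 * (u : ℤ) ^ 4 + 24975 * (u : ℤ) ^ 5 + 1341 * (u : ℤ) ^ 6) := by
      linear_combination e1 - 60 * e2 + 1770 * e3
    linarith only [key, h0]
  · obtain ⟨u, rfl⟩ : ∃ u, d = 3 * (u + 1) + 2 := ⟨d / 3 - 1, by omega⟩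
    rw [show 6 + (3 * (u + 1) + 2) = 3 * u + 11 by ring,
      show 6 + 2 * (3 * (u + 1) + 2) / 3 - 1 = 2 * u + 8 by omega,
      show 6 + (2 * (2 * (3 * (u + 1) + 2) / 3) - (3 * (u + 1) + 2)) - 2 = u + 5 by omega]
    have h0 : (0 : ℤ) < 876960 * (u : ℤ) ^ 0 + 1998828 * (u : ℤ) ^ 1 + 1761264 * (u : ℤ) ^ 2 + 782955 * (u : ℤ) ^ 3 + 189675 * (u : ℤ) ^ 4 + 24417 * (u : ℤ) ^ 5 + 1341 * (u : ℤ) ^ 6 := by
      clear h hd
      positivity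
    have e1 := choose6 (3 * u + 11)
    have e2 := choose6 (2 * u + 8)
    have e3 := choose6 (u + 5)
    push_cast at e1 e2 e3 ⊢
    have key : 720 * (((3 * u + 11).choose 6 : ℤ) - 60 * ((2 * u + 8).choose 6 : ℤ) +
        1770 * ((u + 5).choose 6 : ℤ)) = -(876960 * (u : ℤ) ^ 0 + 1998828 * (u : ℤ) ^ 1 + 1761264 * (u : ℤ) ^ 2 + 782955 * (u : ℤ) ^ 3 + 189675 * (u : ℤ) ^ 4 + 24417 * (u : ℤ) ^ 5 + 1341 * (u : ℤ) ^ 6) := by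
      linear_combination e1 - 60 * e2 + 1770 * e3
    linarith only [key, h0]

theorem all_6_60 {d m : ℕ} (hd : 3 ≤ d) (h2 : d + 2 ≤ 2 * m) (h3 : 2 * d + 3 < 3 * m + 6) :
    ldim 6 d (fun _ : Fin 60 => m) = 0 := by
  exact ldim_zero (fun _ => 2 * d / 3) (fun _ => by omega) (big_6_60 hd)

theorem big_6_61 {d : ℕ} (hd : 3 ≤ d) :
    lvdim 6 d (fun _ : Fin 61 => 2 * d / 3) < 0 := by
  rw [lvdim_pairs (by norm_num) (fun c hc hcn => by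
    rcases (by omega : c = 3 ∨ c = 4 ∨ c = 5 ∨ c = 6) with rfl | rfl | rfl | rfl <;> omega),
    show ((61 : ℕ).choose 2 : ℤ) = 1830 by decide +kernel]
  rcases (by omega : d % 3 = 0 ∨ d % 3 = 1 ∨ d % 3 = 2) with h | h | h
  · obtain ⟨u, rfl⟩ : ∃ u, d = 3 * (u + 1) + 0 := ⟨d / 3 - 1, by omega⟩
    rw [show 6 + (3 * (u + 1) + 0) = 3 * u + 9 by ring,
      show 6 + 2 * (3 * (u + 1) + 0) / 3 - 1 = 2 * u + 7 by omega,
      show 6 + (2 * (2 * (3 * (u + 1) + 0) / 3) - (3 * (u + 1) + 0)) - 2 = u + 5 by omega]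
    have h0 : (0 : ℤ) < 246960 * (u : ℤ) ^ 0 + 579168 * (u : ℤ) ^ 1 + 522790 * (u : ℤ) ^ 2 + 258615 * (u : ℤ) ^ 3 + 81745 * (u : ℤ) ^ 4 + 15777 * (u : ℤ) ^ 5 + 1345 * (u : ℤ) ^ 6 := by
      clear h hd
      positivity
    have e1 := choose6 (3 * u + 9)
    have e2 := choose6 (2 * u + 7)
    have e3 := choose6 (u + 5)
    push_cast at e1 e2 e3 ⊢
    have key : 720 * (((3 * u + 9).choose 6 : ℤ) - 61 * ((2 * u + 7).choose 6 : ℤ) +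
        1830 * ((u + 5).choose 6 : ℤ)) = -(246960 * (u : ℤ) ^ 0 + 579168 * (u : ℤ) ^ 1 + 522790 * (u : ℤ) ^ 2 + 258615 * (u : ℤ) ^ 3 + 81745 * (u : ℤ) ^ 4 + 15777 * (u : ℤ) ^ 5 + 1345 * (u : ℤ) ^ 6) := by
      linear_combination e1 - 61 * e2 + 1830 * e3
    linarith only [key, h0]
  · obtain ⟨u, rfl⟩ : ∃ u, d = 3 * (u + 1) + 1 := ⟨d / 3 - 1, by omega⟩
    rw [show 6 + (3 * (u + 1) + 1) = 3 * u + 10 by ring,
      show 6 + 2 * (3 * (u + 1) + 1) / 3 - 1 = 2 * u + 7 by omega,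
      show 6 + (2 * (2 * (3 * (u + 1) + 1) / 3) - (3 * (u + 1) + 1)) - 2 = u + 4 by omega]
    have h0 : (0 : ℤ) < 156240 * (u : ℤ) ^ 0 + 639756 * (u : ℤ) ^ 1 + 892240 * (u : ℤ) ^ 2 + 564345 * (u : ℤ) ^ 3 + 174535 * (u : ℤ) ^ 4 + 25299 * (u : ℤ) ^ 5 + 1345 * (u : ℤ) ^ 6 := by
      clear h hd
      positivity
    have e1 := choose6 (3 * u + 10)
    have e2 := choose6 (2 * u + 7)
    have e3 := choose6 (u + 4)
    push_cast at e1 e2 e3 ⊢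
    have key : 720 * (((3 * u + 10).choose 6 : ℤ) - 61 * ((2 * u + 7).choose 6 : ℤ) +
        1830 * ((u + 4).choose 6 : ℤ)) = -(156240 * (u : ℤ) ^ 0 + 639756 * (u : ℤ) ^ 1 + 892240 * (u : ℤ) ^ 2 + 564345 * (u : ℤ) ^ 3 + 174535 * (u : ℤ) ^ 4 + 25299 * (u : ℤ) ^ 5 + 1345 * (u : ℤ) ^ 6) := by
      linear_combination e1 - 61 * e2 + 1830 * e3
    linarith only [key, h0]
  · obtain ⟨u, rfl⟩ : ∃ u, d = 3 * (u + 1) + 2 := ⟨d / 3 - 1, by omega⟩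
    rw [show 6 + (3 * (u + 1) + 2) = 3 * u + 11 by ring,
      show 6 + 2 * (3 * (u + 1) + 2) / 3 - 1 = 2 * u + 8 by omega,
      show 6 + (2 * (2 * (3 * (u + 1) + 2) / 3) - (3 * (u + 1) + 2)) - 2 = u + 5 by omega]
    have h0 : (0 : ℤ) < 897120 * (u : ℤ) ^ 0 + 2040732 * (u : ℤ) ^ 1 + 1793440 * (u : ℤ) ^ 2 + 794535 * (u : ℤ) ^ 3 + 191695 * (u : ℤ) ^ 4 + 24573 * (u : ℤ) ^ 5 + 1345 * (u : ℤ) ^ 6 := by
      clear h hd
      positivity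
    have e1 := choose6 (3 * u + 11)
    have e2 := choose6 (2 * u + 8)
    have e3 := choose6 (u + 5)
    push_cast at e1 e2 e3 ⊢
    have key : 720 * (((3 * u + 11).choose 6 : ℤ) - 61 * ((2 * u + 8).choose 6 : ℤ) +
        1830 * ((u + 5).choose 6 : ℤ)) = -(897120 * (u : ℤ) ^ 0 + 2040732 * (u : ℤ) ^ 1 + 1793440 * (u : ℤ) ^ 2 + 794535 * (u : ℤ) ^ 3 + 191695 * (u : ℤ) ^ 4 + 24573 * (u : ℤ) ^ 5 + 1345 * (u : ℤ) ^ 6) := by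
      linear_combination e1 - 61 * e2 + 1830 * e3
    linarith only [key, h0]

theorem all_6_61 {d m : ℕ} (hd : 3 ≤ d) (h2 : d + 2 ≤ 2 * m) (h3 : 2 * d + 3 < 3 * m + 6) :
    ldim 6 d (fun _ : Fin 61 => m) = 0 := by
  exact ldim_zero (fun _ => 2 * d / 3) (fun _ => by omega) (big_6_61 hd)

theorem big_6_62 {d : ℕ} (hd : 3 ≤ d) :
    lvdim 6 d (fun _ : Fin 62 => 2 * d / 3) < 0 := by
  rw [lvdim_pairs (by norm_num) (fun c hc hcn => by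
    rcases (by omega : c = 3 ∨ c = 4 ∨ c = 5 ∨ c = 6) with rfl | rfl | rfl | rfl <;> omega),
    show ((62 : ℕ).choose 2 : ℤ) = 1891 by decide +kernel]
  rcases (by omega : d % 3 = 0 ∨ d % 3 = 1 ∨ d % 3 = 2) with h | h | h
  · obtain ⟨u, rfl⟩ : ∃ u, d = 3 * (u + 1) + 0 := ⟨d / 3 - 1, by omega⟩
    rw [show 6 + (3 * (u + 1) + 0) = 3 * u + 9 by ring,
      show 6 + 2 * (3 * (u + 1) + 0) / 3 - 1 = 2 * u + 7 by omega,
      show 6 + (2 * (2 * (3 * (u + 1) + 0) / 3) - (3 * (u + 1) + 0)) - 2 = u + 5 by omega]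
    have h0 : (0 : ℤ) < 252000 * (u : ℤ) ^ 0 + 587904 * (u : ℤ) ^ 1 + 526492 * (u : ℤ) ^ 2 + 258210 * (u : ℤ) ^ 3 + 81280 * (u : ℤ) ^ 4 + 15726 * (u : ℤ) ^ 5 + 1348 * (u : ℤ) ^ 6 := by
      clear h hd
      positivity
    have e1 := choose6 (3 * u + 9)
    have e2 := choose6 (2 * u + 7)
    have e3 := choose6 (u + 5)
    push_cast at e1 e2 e3 ⊢
    have key : 720 * (((3 * u + 9).choose 6 : ℤ) - 62 * ((2 * u + 7).choose 6 : ℤ) +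
        1891 * ((u + 5).choose 6 : ℤ)) = -(252000 * (u : ℤ) ^ 0 + 587904 * (u : ℤ) ^ 1 + 526492 * (u : ℤ) ^ 2 + 258210 * (u : ℤ) ^ 3 + 81280 * (u : ℤ) ^ 4 + 15726 * (u : ℤ) ^ 5 + 1348 * (u : ℤ) ^ 6) := by
      linear_combination e1 - 62 * e2 + 1891 * e3
    linarith only [key, h0]
  · obtain ⟨u, rfl⟩ : ∃ u, d = 3 * (u + 1) + 1 := ⟨d / 3 - 1, by omega⟩
    rw [show 6 + (3 * (u + 1) + 1) = 3 * u + 10 by ring,
      show 6 + 2 * (3 * (u + 1) + 1) / 3 - 1 = 2 * u + 7 by omega,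
      show 6 + (2 * (2 * (3 * (u + 1) + 1) / 3) - (3 * (u + 1) + 1)) - 2 = u + 4 by omega]
    have h0 : (0 : ℤ) < 161280 * (u : ℤ) ^ 0 + 657276 * (u : ℤ) ^ 1 + 914242 * (u : ℤ) ^ 2 + 576750 * (u : ℤ) ^ 3 + 177730 * (u : ℤ) ^ 4 + 25614 * (u : ℤ) ^ 5 + 1348 * (u : ℤ) ^ 6 := by
      clear h hd
      positivity
    have e1 := choose6 (3 * u + 10)
    have e2 := choose6 (2 * u + 7)
    have e3 := choose6 (u + 4)
    push_cast at e1 e2 e3 ⊢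
    have key : 720 * (((3 * u + 10).choose 6 : ℤ) - 62 * ((2 * u + 7).choose 6 : ℤ) +
        1891 * ((u + 4).choose 6 : ℤ)) = -(161280 * (u : ℤ) ^ 0 + 657276 * (u : ℤ) ^ 1 + 914242 * (u : ℤ) ^ 2 + 576750 * (u : ℤ) ^ 3 + 177730 * (u : ℤ) ^ 4 + 25614 * (u : ℤ) ^ 5 + 1348 * (u : ℤ) ^ 6) := by
      linear_combination e1 - 62 * e2 + 1891 * e3
    linarith only [key, h0]
  · obtain ⟨u, rfl⟩ : ∃ u, d = 3 * (u + 1) + 2 := ⟨d / 3 - 1, by omega⟩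
    rw [show 6 + (3 * (u + 1) + 2) = 3 * u + 11 by ring,
      show 6 + 2 * (3 * (u + 1) + 2) / 3 - 1 = 2 * u + 8 by omega,
      show 6 + (2 * (2 * (3 * (u + 1) + 2) / 3) - (3 * (u + 1) + 2)) - 2 = u + 5 by omega]
    have h0 : (0 : ℤ) < 917280 * (u : ℤ) ^ 0 + 2082516 * (u : ℤ) ^ 1 + 1825342 * (u : ℤ) ^ 2 + 805890 * (u : ℤ) ^ 3 + 193630 * (u : ℤ) ^ 4 + 24714 * (u : ℤ) ^ 5 + 1348 * (u : ℤ) ^ 6 := by
      clear h hd
      positivity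
    have e1 := choose6 (3 * u + 11)
    have e2 := choose6 (2 * u + 8)
    have e3 := choose6 (u + 5)
    push_cast at e1 e2 e3 ⊢
    have key : 720 * (((3 * u + 11).choose 6 : ℤ) - 62 * ((2 * u + 8).choose 6 : ℤ) +
        1891 * ((u + 5).choose 6 : ℤ)) = -(917280 * (u : ℤ) ^ 0 + 2082516 * (u : ℤ) ^ 1 + 1825342 * (u : ℤ) ^ 2 + 805890 * (u : ℤ) ^ 3 + 193630 * (u : ℤ) ^ 4 + 24714 * (u : ℤ) ^ 5 + 1348 * (u : ℤ) ^ 6) := by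
      linear_combination e1 - 62 * e2 + 1891 * e3
    linarith only [key, h0]

theorem all_6_62 {d m : ℕ} (hd : 3 ≤ d) (h2 : d + 2 ≤ 2 * m) (h3 : 2 * d + 3 < 3 * m + 6) :
    ldim 6 d (fun _ : Fin 62 => m) = 0 := by
  exact ldim_zero (fun _ => 2 * d / 3) (fun _ => by omega) (big_6_62 hd)

theorem big_6_63 {d : ℕ} (hd : 3 ≤ d) :
    lvdim 6 d (fun _ : Fin 63 => 2 * d / 3) < 0 := by
  rw [lvdim_pairs (by norm_num) (fun c hc hcn => by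
    rcases (by omega : c = 3 ∨ c = 4 ∨ c = 5 ∨ c = 6) with rfl | rfl | rfl | rfl <;> omega),
    show ((63 : ℕ).choose 2 : ℤ) = 1953 by decide +kernel]
  rcases (by omega : d % 3 = 0 ∨ d % 3 = 1 ∨ d % 3 = 2) with h | h | h
  · obtain ⟨u, rfl⟩ : ∃ u, d = 3 * (u + 1) + 0 := ⟨d / 3 - 1, by omega⟩
    rw [show 6 + (3 * (u + 1) + 0) = 3 * u + 9 by ring,
      show 6 + 2 * (3 * (u + 1) + 0) / 3 - 1 = 2 * u + 7 by omega,
      show 6 + (2 * (2 * (3 * (u + 1) + 0) / 3) - (3 * (u + 1) + 0)) - 2 = u + 5 by omega]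
    have h0 : (0 : ℤ) < 257040 * (u : ℤ) ^ 0 + 596520 * (u : ℤ) ^ 1 + 529920 * (u : ℤ) ^ 2 + 257580 * (u : ℤ) ^ 3 + 80730 * (u : ℤ) ^ 4 + 15660 * (u : ℤ) ^ 5 + 1350 * (u : ℤ) ^ 6 := by
      clear h hd
      positivity
    have e1 := choose6 (3 * u + 9)
    have e2 := choose6 (2 * u + 7)
    have e3 := choose6 (u + 5)
    push_cast at e1 e2 e3 ⊢
    have key : 720 * (((3 * u + 9).choose 6 : ℤ) - 63 * ((2 * u + 7).choose 6 : ℤ) +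
        1953 * ((u + 5).choose 6 : ℤ)) = -(257040 * (u : ℤ) ^ 0 + 596520 * (u : ℤ) ^ 1 + 529920 * (u : ℤ) ^ 2 + 257580 * (u : ℤ) ^ 3 + 80730 * (u : ℤ) ^ 4 + 15660 * (u : ℤ) ^ 5 + 1350 * (u : ℤ) ^ 6) := by
      linear_combination e1 - 63 * e2 + 1953 * e3
    linarith only [key, h0]
  · obtain ⟨u, rfl⟩ : ∃ u, d = 3 * (u + 1) + 1 := ⟨d / 3 - 1, by omega⟩
    rw [show 6 + (3 * (u + 1) + 1) = 3 * u + 10 by ring,
      show 6 + 2 * (3 * (u + 1) + 1) / 3 - 1 = 2 * u + 7 by omega,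
      show 6 + (2 * (2 * (3 * (u + 1) + 1) / 3) - (3 * (u + 1) + 1)) - 2 = u + 4 by omega]
    have h0 : (0 : ℤ) < 166320 * (u : ℤ) ^ 0 + 674820 * (u : ℤ) ^ 1 + 936270 * (u : ℤ) ^ 2 + 589140 * (u : ℤ) ^ 3 + 180900 * (u : ℤ) ^ 4 + 25920 * (u : ℤ) ^ 5 + 1350 * (u : ℤ) ^ 6 := by
      clear h hd
      positivity
    have e1 := choose6 (3 * u + 10)
    have e2 := choose6 (2 * u + 7)
    have e3 := choose6 (u + 4)
    push_cast at e1 e2 e3 ⊢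
    have key : 720 * (((3 * u + 10).choose 6 : ℤ) - 63 * ((2 * u + 7).choose 6 : ℤ) +
        1953 * ((u + 4).choose 6 : ℤ)) = -(166320 * (u : ℤ) ^ 0 + 674820 * (u : ℤ) ^ 1 + 936270 * (u : ℤ) ^ 2 + 589140 * (u : ℤ) ^ 3 + 180900 * (u : ℤ) ^ 4 + 25920 * (u : ℤ) ^ 5 + 1350 * (u : ℤ) ^ 6) := by
      linear_combination e1 - 63 * e2 + 1953 * e3
    linarith only [key, h0]
  · obtain ⟨u, rfl⟩ : ∃ u, d = 3 * (u + 1) + 2 := ⟨d / 3 - 1, by omega⟩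
    rw [show 6 + (3 * (u + 1) + 2) = 3 * u + 11 by ring,
      show 6 + 2 * (3 * (u + 1) + 2) / 3 - 1 = 2 * u + 8 by omega,
      show 6 + (2 * (2 * (3 * (u + 1) + 2) / 3) - (3 * (u + 1) + 2)) - 2 = u + 5 by omega]
    have h0 : (0 : ℤ) < 937440 * (u : ℤ) ^ 0 + 2124180 * (u : ℤ) ^ 1 + 1856970 * (u : ℤ) ^ 2 + 817020 * (u : ℤ) ^ 3 + 195480 * (u : ℤ) ^ 4 + 24840 * (u : ℤ) ^ 5 + 1350 * (u : ℤ) ^ 6 := by
      clear h hd
      positivity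
    have e1 := choose6 (3 * u + 11)
    have e2 := choose6 (2 * u + 8)
    have e3 := choose6 (u + 5)
    push_cast at e1 e2 e3 ⊢
    have key : 720 * (((3 * u + 11).choose 6 : ℤ) - 63 * ((2 * u + 8).choose 6 : ℤ) +
        1953 * ((u + 5).choose 6 : ℤ)) = -(937440 * (u : ℤ) ^ 0 + 2124180 * (u : ℤ) ^ 1 + 1856970 * (u : ℤ) ^ 2 + 817020 * (u : ℤ) ^ 3 + 195480 * (u : ℤ) ^ 4 + 24840 * (u : ℤ) ^ 5 + 1350 * (u : ℤ) ^ 6) := by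
      linear_combination e1 - 63 * e2 + 1953 * e3
    linarith only [key, h0]

theorem all_6_63 {d m : ℕ} (hd : 3 ≤ d) (h2 : d + 2 ≤ 2 * m) (h3 : 2 * d + 3 < 3 * m + 6) :
    ldim 6 d (fun _ : Fin 63 => m) = 0 := by
  exact ldim_zero (fun _ => 2 * d / 3) (fun _ => by omega) (big_6_63 hd)

end Pool.Agent.TH142.WF
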