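import Pool.Agent.TH142.WF.Num

set_option autoImplicit false
set_option maxHeartbeats 4000000

/-!
# Degrees one and two
-/

namespace Pool.Agent.TH142.WF

theorem ldim_one {n s m : ℕ} (hn : 2 ≤ n) (hs : n + 2 ≤ s) (hm : 2 ≤ m) :
    ldim n 1 (fun _ : Fin s => m) = 0 := by
  refine ldim_zero (fun _ => 1) (fun _ => by omega) ?_
  rw [lvdim_pairs hn]
  · rw [Nat.choose_eq_zero_of_lt (show n + (2 * 1 - 1) - 2 < n by omega),
      show n + 1 - 1 = n by omega, Nat.choose_self, Nat.choose_succ_self_right]
    have : ((n + 2 : ℕ) : ℤ) ≤ s := by exact_mod_cast hs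
    push_cast at this ⊢
    linarith
  · intro c hc _
    omega

theorem lvdim_two {n d s : ℕ} (hn : 2 ≤ n) (hs : 2 ≤ s) (m : Fin s → ℕ)
    (hk : ∀ I : Finset (Fin s), 3 ≤ I.card → kI d m I < I.card) :
    lvdim n d m = ((n + d).choose n : ℤ) - ∑ i, ((n + m i - 1).choose n : ℤ) +
      ∑ I ∈ Finset.powersetCard 2 (Finset.univ : Finset (Fin s)),
        ((n + kI d m I - 2).choose n : ℤ) := by
  obtain ⟨k, hk2⟩ : ∃ k, min n s + 1 = k + 1 + 1 + 1 := ⟨min n s - 2, by omega⟩
  unfold lvdim
  rw [hk2, Finset.sum_range_succ', Finset.sum_range_succ', Finset.sum_range_succ']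
  have h0 : ∑ c ∈ Finset.range k, ∑ I ∈ Finset.powersetCard (c + 1 + 1 + 1)
      (Finset.univ : Finset (Fin s)), (-1 : ℤ) ^ (c + 1 + 1 + 1) *
      ((n + kI d m I - (c + 1 + 1 + 1)).choose n : ℤ) = 0 := by
    refine Finset.sum_eq_zero fun c _ => Finset.sum_eq_zero fun I hI => ?_
    rw [Finset.mem_powersetCard] at hI
    have h1 := hk I (by omega)
    rw [Nat.choose_eq_zero_of_lt (by omega)]
    simp
  have h1 : ∀ i : Fin s, kI d m {i} = m i := by
    intro i
    unfold kI
    rw [if_neg (Finset.singleton_ne_empty i)]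
    simp
  have h2 : kI d m ∅ = d := by
    unfold kI
    rw [if_pos rfl]
  rw [h0]
  simp only [zero_add, Nat.reduceAdd, Finset.powersetCard_zero, Finset.sum_singleton,
    Finset.powersetCard_one, Finset.sum_map, Function.Embedding.coeFn_mk, h1, h2, pow_one, pow_zero,
    Nat.sub_zero, one_mul, neg_mul, Finset.sum_neg_distrib]
  norm_num
  ring

theorem ldim_deg_two {n s m : ℕ} (hn : 2 ≤ n) (hs : n + 2 ≤ s) (hm : 2 ≤ m) :
    ldim n 2 (fun _ : Fin s => m) = 0 := by
  refine ldim_zero (fun i => if i.1 < n then 2 else 1) (fun _ => by split_ifs <;> omega) ?_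
  have hsum : ∀ I : Finset (Fin s), ∑ i ∈ I, (if i.1 < n then 2 else 1) ≤ I.card * 2 := by
    intro I
    refine (Finset.sum_le_card_nsmul _ _ 2 fun i _ => ?_).trans_eq (by rw [smul_eq_mul])
    split_ifs <;> omega
  rw [lvdim_two hn (by omega)]
  · have e1 : ∑ i : Fin s, ((n + (if i.1 < n then 2 else 1) - 1).choose n : ℤ) =
        n * (n + 1) + ((s : ℤ) - n) := by
      have h1 : ∀ i : Fin s, ((n + (if i.1 < n then 2 else 1) - 1).choose n : ℤ) =
          1 + (if i.1 < n then (n : ℤ) else 0) := by
        intro i
        split_ifs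
        · rw [show n + 2 - 1 = n + 1 by omega, Nat.choose_succ_self_right]
          push_cast
          ring
        · rw [show n + 1 - 1 = n by omega, Nat.choose_self]
          simp
      rw [Finset.sum_congr rfl fun i _ => h1 i, Finset.sum_add_distrib, ← Finset.sum_filter,
        Finset.sum_const, Finset.sum_const, Finset.card_univ, Fintype.card_fin]
      have h2 : (Finset.univ.filter fun i : Fin s => i.1 < n).card = n := by
        rw [Fin.card_filter_val_lt]
        omega
      rw [h2, nsmul_eq_mul, nsmul_eq_mul]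
      ring
    have e2 : ∑ I ∈ Finset.powersetCard 2 (Finset.univ : Finset (Fin s)),
        ((n + kI 2 (fun i : Fin s => if i.1 < n then 2 else 1) I - 2).choose n : ℤ) =
        (n.choose 2 : ℤ) := by
      have h1 : ∀ I ∈ Finset.powersetCard 2 (Finset.univ : Finset (Fin s)),
          ((n + kI 2 (fun i : Fin s => if i.1 < n then 2 else 1) I - 2).choose n : ℤ) =
          if I ⊆ Finset.univ.filter (fun i : Fin s => i.1 < n) then 1 else 0 := by
        intro I hI
        rw [Finset.mem_powersetCard] at hI
        have hne : I ≠ ∅ := by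
          rintro rfl
          simp at hI
        unfold kI
        rw [if_neg hne, hI.2]
        change ((n + ((∑ i ∈ I, (if i.1 < n then 2 else 1)) - (2 - 1) * 2) - 2).choose n : ℤ) = _
        split_ifs with h
        · have : ∑ i ∈ I, (if i.1 < n then 2 else 1) = I.card * 2 := by
            rw [Finset.sum_congr rfl (g := fun _ => 2) (fun i hi => by
              have := h hi
              rw [Finset.mem_filter] at this
              rw [if_pos this.2]), Finset.sum_const, smul_eq_mul]
          rw [this, hI.2]
          simp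
        · have : ∑ i ∈ I, (if i.1 < n then 2 else 1) < I.card * 2 := by
            rw [Finset.not_subset] at h
            obtain ⟨i, hi, hi2⟩ := h
            rw [Finset.mem_filter] at hi2
            have h5 : ¬ i.1 < n := fun h6 => hi2 ⟨Finset.mem_univ _, h6⟩
            rw [← smul_eq_mul, ← Finset.sum_const]
            refine Finset.sum_lt_sum (fun i _ => by split_ifs <;> omega) ⟨i, hi, ?_⟩
            rw [if_neg h5]
            omega
          rw [hI.2] at this
          rw [Nat.choose_eq_zero_of_lt (by omega)]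
          rfl
      rw [Finset.sum_congr rfl h1, ← Finset.sum_filter, Finset.sum_const, nsmul_eq_mul, mul_one]
      have h2 : Finset.filter (fun I => I ⊆ Finset.univ.filter (fun i : Fin s => i.1 < n))
          (Finset.powersetCard 2 (Finset.univ : Finset (Fin s))) =
          Finset.powersetCard 2 (Finset.univ.filter (fun i : Fin s => i.1 < n)) := by
        ext I
        simp only [Finset.mem_filter, Finset.mem_powersetCard]
        constructor
        · rintro ⟨⟨_, h3⟩, h4⟩
          exact ⟨h4, h3⟩
        · rintro ⟨h3, h4⟩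
          exact ⟨⟨Finset.subset_univ _, h4⟩, h3⟩
      rw [h2, Finset.card_powersetCard, Fin.card_filter_val_lt]
      congr 2
      omega
    rw [e1, e2]
    have h6 : 2 * ((n + 2).choose n : ℤ) = (n + 2) * (n + 1) := by
      rw [Nat.choose_symm_add]
      have := Nat.triangle_succ (n + 1)
      have h7 : 2 * (n + 2).choose 2 = (n + 2) * (n + 1) := by
        rw [Nat.choose_two_right, show n + 2 - 1 = n + 1 by omega]
        exact Nat.mul_div_cancel' ((Nat.even_mul_pred_self (n + 2)).two_dvd)
      exact_mod_cast h7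
    have h8 : 2 * (n.choose 2 : ℤ) = n * (n - 1) := by
      have h7 : 2 * n.choose 2 = n * (n - 1) := by
        rw [Nat.choose_two_right]
        exact Nat.mul_div_cancel' ((Nat.even_mul_pred_self n).two_dvd)
      have h9 := congrArg (Nat.cast : ℕ → ℤ) h7
      push_cast [Nat.cast_sub (show 1 ≤ n by omega)] at h9
      exact h9
    have h10 : ((n + 2 : ℕ) : ℤ) ≤ s := by exact_mod_cast hs
    push_cast at h10
    nlinarith
  · intro I hI
    have hne : I ≠ ∅ := by
      rintro rfl
      simp at hI
    unfold kI
    rw [if_neg hne]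
    have h1 := hsum I
    change (∑ i ∈ I, (if i.1 < n then 2 else 1)) - (I.card - 1) * 2 < I.card
    omega

end Pool.Agent.TH142.WF
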