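import Pool.Agent.TH142.WF.Open

set_option autoImplicit false
set_option maxHeartbeats 4000000

/-!
# Independence of fat points at the vertices of a cube of dimension `c ≤ n` in `ℙⁿ`
-/

open MvPolynomial

namespace Pool.Agent.TH142.WF.Cube

open Pool.Agent.H732R3.FI Pool.Agent.TH142.WF

variable {K : Type*} [Field K] [CharZero K] {n c : ℕ}

/-- The coordinates `0`, `1` of a vertex of the cube in the first `c` coordinates. -/
def gg (ε : Fin c → Bool) (i : Fin n) : K :=
  if h : i.1 < c then (if ε ⟨i.1, h⟩ then 1 else 0) else 0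

/-- The vertex `(1, ε, 0)` of the cube. -/
def qq (ε : Fin c → Bool) : Fin (n + 1) → K := Fin.cons 1 (gg ε)

omit [CharZero K] in
theorem qq_zero (ε : Fin c → Bool) : (qq ε : Fin (n + 1) → K) 0 = 1 := rfl

omit [CharZero K] in
theorem qq_succ (ε : Fin c → Bool) (i : Fin n) : (qq ε : Fin (n + 1) → K) i.succ = gg ε i := rfl

omit [CharZero K] in
theorem gg_ne {ε δ : Fin c → Bool} {i : Fin n} (h : (gg δ i : K) ≠ gg ε i) :
    i.1 < c ∧ (gg δ i : K) = 1 - gg ε i := by
  unfold gg at h ⊢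
  by_cases hi : i.1 < c
  · rw [dif_pos hi, dif_pos hi] at h ⊢
    refine ⟨hi, ?_⟩
    cases h1 : δ ⟨i.1, hi⟩ <;> cases h2 : ε ⟨i.1, hi⟩ <;> simp [h1, h2] at h ⊢
  · rw [dif_neg hi, dif_neg hi] at h
    exact absurd rfl h

omit [CharZero K] in
theorem gg_exists (hcn : c ≤ n) {ε δ : Fin c → Bool} (h : δ ≠ ε) :
    ∃ i : Fin n, (gg δ i : K) ≠ gg ε i := by
  obtain ⟨i, hi⟩ := Function.ne_iff.mp h
  refine ⟨⟨i.1, lt_of_lt_of_le i.2 hcn⟩, ?_⟩
  unfold gg
  rw [dif_pos i.2, dif_pos i.2]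
  cases h1 : δ i <;> cases h2 : ε i <;> simp [h1, h2] at hi ⊢

omit [CharZero K] in
theorem gg_sub_ne (ε : Fin c → Bool) {i : Fin n} (hi : i.1 < c) :
    (gg ε i : K) - (1 - gg ε i) ≠ 0 := by
  unfold gg
  rw [dif_pos hi]
  cases ε ⟨i.1, hi⟩ <;> simp

/-- The exponents of the opposite faces. -/
def ee (c : ℕ) (α : Fin n → ℕ) (i : Fin n) : ℕ := if i.1 < c then α i + 1 else 0

theorem sum_ee_le (hcn : c ≤ n) (α : Fin n → ℕ) : ∑ i, ee c α i ≤ ∑ i, α i + c := by
  have h1 : ∀ i : Fin n, ee c α i ≤ α i + (if i.1 < c then 1 else 0) := by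
    intro i
    unfold ee
    split_ifs <;> omega
  refine (Finset.sum_le_sum fun i _ => h1 i).trans ?_
  rw [Finset.sum_add_distrib, ← Finset.card_filter, Fin.card_filter_val_lt]
  omega

/-- A form whose leading part at one vertex is a given monomial and which vanishes to higher order at
the other vertices. -/
theorem topjet (hcn : c ≤ n) (δ : Fin c → Bool) (b N k : ℕ) (hN : b + c ≤ N) (hk : k ≤ b)
    (α : Fin n → ℕ) (hα : ∑ i, α i = b - k) :
    ∃ G : MvPolynomial (Fin (n + 1)) K, G.IsHomogeneous (b + N) ∧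
      (E (qq δ) ^ (N + k)) G = ∏ i, yy (gg δ i) i ^ α i ∧
      ∀ δ', δ' ≠ δ → (E (qq δ') ^ (N + k)) G = 0 := by
  classical
  set Y : MvPolynomial (Fin (n + 1)) K := ∏ i, yy (gg δ i) i ^ α i with hY
  set Z : MvPolynomial (Fin (n + 1)) K := ∏ i, yy (1 - gg δ i) i ^ ee c α i with hZ
  obtain ⟨z, hz⟩ : ∃ z, z = ∑ i, ee c α i := ⟨_, rfl⟩
  have hzle : z ≤ b - k + c := by
    rw [hz, ← hα]
    exact sum_ee_le hcn α
  set r : ℕ := N + k - z with hr
  have hYh : Y.IsHomogeneous (b - k) := by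
    rw [hY, ← hα]
    refine IsHomogeneous.prod _ _ _ fun i _ => ?_
    have := (yy_hom (gg δ i : K) i).pow (α i)
    rwa [one_mul] at this
  have hZh : Z.IsHomogeneous z := by
    rw [hZ, hz]
    refine IsHomogeneous.prod _ _ _ fun i _ => ?_
    have := (yy_hom (1 - gg δ i : K) i).pow (ee c α i)
    rwa [one_mul] at this
  have hXh : (X 0 ^ r : MvPolynomial (Fin (n + 1)) K).IsHomogeneous r := by
    have := (isHomogeneous_X K (0 : Fin (n + 1))).pow r
    rwa [one_mul] at this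
  have hQh : (Z * X 0 ^ r).IsHomogeneous (0 + (N + k)) := by
    have := hZh.mul hXh
    rwa [show z + r = 0 + (N + k) by omega] at this
  have hQv : eval (qq δ) (Z * X 0 ^ r) ≠ 0 := by
    rw [map_mul, hZ, map_prod, map_pow, eval_X, qq_zero, one_pow, mul_one]
    refine Finset.prod_ne_zero_iff.mpr fun i _ => ?_
    rw [map_pow, eval_yy, qq_zero, qq_succ, mul_one]
    by_cases hi : i.1 < c
    · exact pow_ne_zero _ (gg_sub_ne δ hi)
    · unfold ee
      rw [if_neg hi, pow_zero]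
      exact one_ne_zero
  have h1 := (eval_Epow_ne (qq δ) hQh hQv).2
  have h2 : ((E (qq δ) ^ (N + k)) (Z * X 0 ^ r)).IsHomogeneous 0 := Epow_hom (qq δ) (N + k) hQh
  have h3 := totalDegree_eq_zero_iff_eq_C.mp (Nat.le_zero.mp h2.totalDegree_le)
  set κ := coeff 0 ((E (qq δ) ^ (N + k)) (Z * X 0 ^ r)) with hκ
  have h5 : κ ≠ 0 := by
    rw [h3, eval_C] at h1
    exact h1
  have hYE : E (qq δ) Y = 0 := by
    rw [hY]
    refine E_prod_zero' _ _ fun i _ => E_pow_zero' ?_ _
    rw [E_yy, qq_zero, qq_succ, mul_one, sub_self, C_0]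
  refine ⟨C κ⁻¹ * (Y * (Z * X 0 ^ r)), ?_, ?_, ?_⟩
  · have := (isHomogeneous_C (Fin (n + 1)) κ⁻¹).mul (hYh.mul hQh)
    rwa [show 0 + (b - k + (0 + (N + k))) = b + N by omega] at this
  · rw [← MvPolynomial.smul_eq_C_mul, map_smul, Epow_mul_const (qq δ) hYE, h3,
      MvPolynomial.smul_eq_C_mul, mul_comm Y, ← mul_assoc, ← C_mul, inv_mul_cancel₀ h5, C_1, one_mul]
  · intro δ' hδ'
    obtain ⟨i0, hi0⟩ := gg_exists (K := K) hcn hδ'
    set A : MvPolynomial (Fin (n + 1)) K := ∏ i, (if (gg δ' i : K) = gg δ i then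
      yy (gg δ i) i ^ α i else yy (1 - gg δ i) i ^ ee c α i) with hA
    set B : MvPolynomial (Fin (n + 1)) K := ∏ i, (if (gg δ' i : K) = gg δ i then
      yy (1 - gg δ i) i ^ ee c α i else yy (gg δ i) i ^ α i) with hB
    have hAB : Y * (Z * X 0 ^ r) = A * (B * X 0 ^ r) := by
      rw [← mul_assoc, ← mul_assoc]
      congr 1
      rw [hY, hZ, hA, hB, ← Finset.prod_mul_distrib, ← Finset.prod_mul_distrib]
      refine Finset.prod_congr rfl fun i _ => ?_
      by_cases h : (gg δ' i : K) = gg δ i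
      · rw [if_pos h, if_pos h]
      · rw [if_neg h, if_neg h, mul_comm]
    have hAE : E (qq δ') A = 0 := by
      rw [hA]
      refine E_prod_zero' _ _ fun i _ => ?_
      by_cases h : (gg δ' i : K) = gg δ i
      · rw [if_pos h]
        refine E_pow_zero' ?_ _
        rw [E_yy, qq_zero, qq_succ, mul_one, h, sub_self, C_0]
      · rw [if_neg h]
        refine E_pow_zero' ?_ _
        rw [E_yy, qq_zero, qq_succ, mul_one, (gg_ne h).2, sub_self, C_0]
    set dB : ℕ := ∑ i, (if (gg δ' i : K) = gg δ i then ee c α i else α i) with hdB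
    have hBh : B.IsHomogeneous dB := by
      rw [hB, hdB]
      refine IsHomogeneous.prod _ _ _ fun i _ => ?_
      by_cases h : (gg δ' i : K) = gg δ i
      · rw [if_pos h, if_pos h]
        have := (yy_hom (1 - gg δ i : K) i).pow (ee c α i)
        rwa [one_mul] at this
      · rw [if_neg h, if_neg h]
        have := (yy_hom (gg δ i : K) i).pow (α i)
        rwa [one_mul] at this
    have hlt : dB < z := by
      rw [hz, hdB]
      refine Finset.sum_lt_sum (fun i _ => ?_) ⟨i0, Finset.mem_univ _, ?_⟩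
      · by_cases h : (gg δ' i : K) = gg δ i
        · rw [if_pos h]
        · rw [if_neg h]
          unfold ee
          rw [if_pos (gg_ne h).1]
          omega
      · rw [if_neg hi0]
        unfold ee
        rw [if_pos (gg_ne hi0).1]
        omega
    rw [← MvPolynomial.smul_eq_C_mul, map_smul, hAB, Epow_mul_const (qq δ') hAE,
      Epow_hom_zero (qq δ') (N + k) (d := dB + r) (by omega) (hBh.mul hXh), mul_zero, smul_zero]

/-- The leading parts at the vertices can be prescribed. -/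
theorem lead_surj (hcn : c ≤ n) (δ : Fin c → Bool) (b N k : ℕ) (hN : b + c ≤ N) (hk : k ≤ b)
    {g : MvPolynomial (Fin (n + 1)) K} (hg : g.IsHomogeneous (b - k)) (hE : E (qq δ) g = 0) :
    ∃ G : MvPolynomial (Fin (n + 1)) K, G.IsHomogeneous (b + N) ∧
      (E (qq δ) ^ (N + k)) G = g ∧ ∀ δ', δ' ≠ δ → (E (qq δ') ^ (N + k)) G = 0 := by
  set M : Submodule K (MvPolynomial (Fin (n + 1)) K) :=
    homogeneousSubmodule (Fin (n + 1)) K (b + N) ⊓
      ⨅ δ' : {δ' : Fin c → Bool // δ' ≠ δ}, LinearMap.ker (E (qq δ'.1) ^ (N + k)) with hM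
  have hmem : ∀ h, h ∈ M.map (E (qq δ) ^ (N + k)) ↔
      ∃ G : MvPolynomial (Fin (n + 1)) K, G.IsHomogeneous (b + N) ∧
      (E (qq δ) ^ (N + k)) G = h ∧ ∀ δ', δ' ≠ δ → (E (qq δ') ^ (N + k)) G = 0 := by
    intro h
    rw [Submodule.mem_map]
    constructor
    · rintro ⟨G, hG, hGh⟩
      rw [hM, Submodule.mem_inf, Submodule.mem_iInf] at hG
      exact ⟨G, hG.1, hGh, fun δ' h' => hG.2 ⟨δ', h'⟩⟩
    · rintro ⟨G, hG, hGh, h2⟩
      refine ⟨G, ?_, hGh⟩
      rw [hM, Submodule.mem_inf, Submodule.mem_iInf]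
      exact ⟨hG, fun δ' => h2 δ'.1 δ'.2⟩
  rw [← hmem, repr_of_E (qq δ) (qq_zero δ) hE]
  refine Submodule.sum_mem _ fun α hα => Submodule.smul_mem _ _ ?_
  by_cases h0 : α 0 = 0
  · rw [h0, pow_zero, one_mul, hmem]
    refine topjet hcn δ b N k hN hk (fun i => α i.succ) ?_
    have h1 : α.degree = b - k := by
      have := hg (mem_support_iff.mp hα)
      rw [Finsupp.degree_eq_weight_one]
      exact this
    rw [Finsupp.degree_eq_sum, Fin.sum_univ_succ, h0, zero_add] at h1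
    exact h1
  · rw [zero_pow h0, zero_mul]
    exact Submodule.zero_mem _

/-- Fat points at the vertices of the cube impose independent conditions. -/
theorem grid_surj_aux (hcn : c ≤ n) (b N : ℕ) (hN : b + c ≤ N) (k : ℕ) (hk : k ≤ b + 1)
    (h : (Fin c → Bool) → MvPolynomial (Fin (n + 1)) K) (hh : ∀ δ, (h δ).IsHomogeneous b)
    (hE : ∀ δ, (E (qq δ) ^ k) (h δ) = 0) :
    ∃ G : MvPolynomial (Fin (n + 1)) K, G.IsHomogeneous (b + N) ∧
      ∀ δ, (E (qq δ) ^ N) G = h δ := by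
  classical
  induction k generalizing h with
  | zero =>
    refine ⟨0, isHomogeneous_zero _ _ _, fun δ => ?_⟩
    have := hE δ
    rw [pow_zero, Module.End.one_apply] at this
    rw [map_zero, this]
  | succ k ih =>
    have h1 : ∀ δ, ∃ G : MvPolynomial (Fin (n + 1)) K, G.IsHomogeneous (b + N) ∧
        (E (qq δ) ^ (N + k)) G = (E (qq δ) ^ k) (h δ) ∧
        ∀ δ', δ' ≠ δ → (E (qq δ') ^ (N + k)) G = 0 := by
      intro δ
      refine lead_surj hcn δ b N k hN (by omega) ?_ ?_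
      · exact Epow_hom (qq δ) k (by rw [Nat.sub_add_cancel (by omega)]; exact hh δ)
      · have := hE δ
        rwa [pow_succ', Module.End.mul_apply] at this
    choose G1 hG1 hG1e hG1z using h1
    obtain ⟨G2, hG2, hG2e⟩ := ih (by omega) (fun δ => h δ - (E (qq δ) ^ N) (∑ δ', G1 δ'))
      (fun δ => (hh δ).sub (Epow_hom (qq δ) N (IsHomogeneous.sum _ _ _ fun δ' _ => hG1 δ')))
      (fun δ => by
        rw [map_sub, ← Module.End.mul_apply, ← pow_add, add_comm k N, map_sum,
          Finset.sum_eq_single δ (fun δ' _ hne => hG1z δ' δ (Ne.symm hne))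
          (fun h => absurd (Finset.mem_univ _) h), hG1e, sub_self])
    refine ⟨∑ δ', G1 δ' + G2, (IsHomogeneous.sum _ _ _ fun δ' _ => hG1 δ').add hG2, fun δ => ?_⟩
    rw [map_add, hG2e, add_sub_cancel]

theorem grid_surj (hcn : c ≤ n) (b N : ℕ) (hN : b + c ≤ N)
    (h : (Fin c → Bool) → MvPolynomial (Fin (n + 1)) K) (hh : ∀ δ, (h δ).IsHomogeneous b) :
    ∃ G : MvPolynomial (Fin (n + 1)) K, G.IsHomogeneous (b + N) ∧
      ∀ δ, (E (qq δ) ^ N) G = h δ :=
  grid_surj_aux hcn b N hN (b + 1) le_rfl h hh fun δ => Epow_hom_zero (qq δ) (b + 1) (by omega) (hh δ)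


theorem exists_general {s : ℕ} (hcn : c ≤ n) (b N : ℕ) (hN : b + c ≤ N) (hs : s ≤ 2 ^ c + 1) :
    ∃ P : MvPolynomial (Fin s × Fin (n + 1)) K, P ≠ 0 ∧ ∀ p : Fin s → Fin (n + 1) → K,
      eval (fun x : Fin s × Fin (n + 1) => p x.1 x.2) P ≠ 0 →
      ∀ j, ∀ h : Fin s → MvPolynomial (Fin (n + 1)) K, (∀ l, (h l).IsHomogeneous b) →
      ∃ G : MvPolynomial (Fin (n + 1)) K, G.IsHomogeneous (b + N) ∧
        ∀ l, l ≠ j → (E (p l) ^ N) G = h l := by
  classical
  have h1 : ∀ j : Fin s, ∃ P : MvPolynomial (Fin s × Fin (n + 1)) K, P ≠ 0 ∧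
      ∀ p : Fin s → Fin (n + 1) → K, eval (fun x : Fin s × Fin (n + 1) => p x.1 x.2) P ≠ 0 →
      ∀ h : Fin s → MvPolynomial (Fin (n + 1)) K, (∀ l, (h l).IsHomogeneous b) →
      ∃ G : MvPolynomial (Fin (n + 1)) K, G.IsHomogeneous (b + N) ∧
        ∀ l, l ≠ j → (E (p l) ^ N) G = h l := by
    intro j
    have hcard : Fintype.card {l : Fin s // l ≠ j} ≤ Fintype.card (Fin c → Bool) := by
      rw [Fintype.card_subtype_compl, Fintype.card_subtype_eq, Fintype.card_fin]
      simp only [Fintype.card_pi, Fintype.card_bool, Finset.prod_const, Finset.card_univ,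
        Fintype.card_fin]
      have h2n : 1 ≤ 2 ^ c := Nat.one_le_two_pow
      omega
    obtain ⟨e⟩ := Function.Embedding.nonempty_of_card_le hcard
    refine exists_poly b N j (fun l => if h : l ≠ j then qq (e ⟨l, h⟩) else 0) ?_
    intro h hh
    obtain ⟨G, hG, hGe⟩ := grid_surj (K := K) (n := n) hcn b N hN
      (Function.extend e (fun l => h l.1) (fun _ => 0)) (by
        intro δ
        by_cases hδ : ∃ l, e l = δ
        · obtain ⟨l, rfl⟩ := hδ
          rw [e.injective.extend_apply]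
          exact hh _
        · rw [Function.extend_apply' _ _ _ hδ]
          exact isHomogeneous_zero _ _ _)
    refine ⟨G, hG, fun l hl => ?_⟩
    rw [dif_pos hl, hGe, e.injective.extend_apply]
  choose P hP0 hP using h1
  refine ⟨∏ j, P j, Finset.prod_ne_zero_iff.mpr fun j _ => hP0 j, fun p hp j => ?_⟩
  rw [map_prod, Finset.prod_ne_zero_iff] at hp
  exact hP j p (hp j (Finset.mem_univ _))

/-- The lower bound with the correction by the lines through pairs of points, for general points. -/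
theorem pair_bound {s : ℕ} (hcn : c ≤ n) (b N : ℕ) (hN : b + c ≤ N) (hs : s ≤ 2 ^ c + 1) :
    ∃ P : MvPolynomial (Fin s × Fin (n + 1)) K, P ≠ 0 ∧ ∀ p : Fin s → Fin (n + 1) → K,
      eval (fun x : Fin s × Fin (n + 1) => p x.1 x.2) P ≠ 0 →
      (n + (b + N + N)).choose n + s.choose 2 * (n + b).choose n ≤
        Module.finrank K (LinearMap.ker (Psi p N b)) + s * (n + (b + N)).choose n := by
  classical
  obtain ⟨P, hP0, hP⟩ := exists_general (K := K) (n := n) hcn b N hN hs
  refine ⟨P, hP0, fun p hp => ?_⟩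
  have h := count0 p N b (fun i j hij h => by
    obtain ⟨G, hG, hGe⟩ := hP p hp j (fun l => if l = i then (h : MvPolynomial (Fin (n + 1)) K)
      else 0) (by
        intro l
        split_ifs
        · exact h.2
        · exact isHomogeneous_zero _ _ _)
    refine ⟨⟨G, hG⟩, Subtype.ext ?_, fun l hli hlj => Subtype.ext ?_⟩
    · rw [Dres_coe, hGe i hij, if_pos rfl]
    · rw [Dres_coe, hGe l hlj, if_neg hli]
      rfl)
  rwa [finrank_hom, finrank_hom, finrank_hom] at h


end Pool.Agent.TH142.WF.Cube
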