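import Pool.Agent.H732R3.FI3

set_option autoImplicit false
set_option maxHeartbeats 4000000

/-!
# Independence of fat points at the vertices of a cube, and the count of the lines through pairs
-/

open MvPolynomial

namespace Pool.Agent.TH142.WF

open Pool.Agent.H732R3.FI

variable {K : Type*} [Field K] [CharZero K]

theorem card_pairs (s : ℕ) : Fintype.card {q : Fin s × Fin s // q.1 < q.2} = s.choose 2 := by
  rw [Fintype.card_subtype, Finset.card_filter, ← Finset.univ_product_univ,
    Finset.sum_product_right]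
  have h : ∀ y : Fin s, ∑ x : Fin s, (if (x, y).1 < (x, y).2 then 1 else 0) = (y : ℕ) := by
    intro y
    rw [← Finset.card_filter]
    simp only
    rw [show (Finset.univ.filter fun x : Fin s => x < y) = Finset.Iio y by ext; simp, Fin.card_Iio]
  rw [Finset.sum_congr rfl fun y _ => h y, Fin.sum_univ_eq_sum_range (fun i => i) s,
    Finset.sum_range_id, Nat.choose_two_right]

/-- The dimension count given by the lines through pairs of points. -/
theorem count0 {n s : ℕ} (p : Fin s → Fin n → K) (N b : ℕ)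
    (H : ∀ i j, i ≠ j → ∀ h : ↥(homogeneousSubmodule (Fin n) K b),
      ∃ G : ↥(homogeneousSubmodule (Fin n) K (b + N)), Dres (p i) N b G = h ∧
        ∀ l, l ≠ i → l ≠ j → Dres (p l) N b G = 0) :
    Module.finrank K ↥(homogeneousSubmodule (Fin n) K (b + N + N)) +
      s.choose 2 * Module.finrank K ↥(homogeneousSubmodule (Fin n) K b) ≤
      Module.finrank K (LinearMap.ker (Psi p N b)) +
        s * Module.finrank K ↥(homogeneousSubmodule (Fin n) K (b + N)) := by
  have h1 := LinearMap.finrank_range_add_finrank_ker (Psi p N b)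
  have h2 := LinearMap.finrank_range_add_finrank_ker (Kap p N b)
  have h3 : Module.finrank K (LinearMap.range (Kap p N b)) =
      s.choose 2 * Module.finrank K ↥(homogeneousSubmodule (Fin n) K b) := by
    rw [LinearMap.range_eq_top.mpr (Kap_surj p N b H), finrank_top, Module.finrank_pi_fintype,
      ← card_pairs]
    simp
  have h4 : Module.finrank K (Fin s → ↥(homogeneousSubmodule (Fin n) K (b + N))) =
      s * Module.finrank K ↥(homogeneousSubmodule (Fin n) K (b + N)) := by
    rw [Module.finrank_pi_fintype]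
    simp
  have h6 := Submodule.finrank_mono (range_le p N b)
  rw [h3, h4] at h2
  omega

/-! ### The linear forms -/

variable {n : ℕ}

/-- The linear form `x_i - c x_0`. -/
noncomputable def yy (c : K) (i : Fin n) : MvPolynomial (Fin (n + 1)) K := X i.succ - C c * X 0

omit [CharZero K] in
theorem yy_hom (c : K) (i : Fin n) : (yy c i).IsHomogeneous 1 := by
  unfold yy
  have := (isHomogeneous_C (Fin (n + 1)) c).mul (isHomogeneous_X K (0 : Fin (n + 1)))
  rw [zero_add] at this
  exact (isHomogeneous_X K i.succ).sub this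

omit [CharZero K] in
theorem E_yy (v : Fin (n + 1) → K) (c : K) (i : Fin n) :
    E v (yy c i) = C (v i.succ - c * v 0) := by
  unfold yy
  rw [map_sub, ← MvPolynomial.smul_eq_C_mul, map_smul, E_apply, E_apply, DD_X, DD_X,
    MvPolynomial.smul_eq_C_mul, ← C_mul, ← C_sub]

omit [CharZero K] in
theorem eval_yy (v : Fin (n + 1) → K) (c : K) (i : Fin n) :
    eval v (yy c i) = v i.succ - c * v 0 := by
  unfold yy
  simp

omit [CharZero K] in
theorem E_mul_zero' {v : Fin (n + 1) → K} {a b : MvPolynomial (Fin (n + 1)) K}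
    (ha : E v a = 0) (hb : E v b = 0) : E v (a * b) = 0 := by
  rw [E_apply] at ha hb ⊢
  rw [Derivation.leibniz, ha, hb, smul_zero, smul_zero, add_zero]

omit [CharZero K] in
theorem E_pow_zero' {v : Fin (n + 1) → K} {a : MvPolynomial (Fin (n + 1)) K}
    (ha : E v a = 0) (k : ℕ) : E v (a ^ k) = 0 := by
  rw [E_apply] at ha ⊢
  rw [Derivation.leibniz_pow, ha, smul_zero, smul_zero]

omit [CharZero K] in
theorem E_prod_zero' {v : Fin (n + 1) → K} {ι : Type*} (S : Finset ι)
    (a : ι → MvPolynomial (Fin (n + 1)) K) (ha : ∀ i ∈ S, E v (a i) = 0) :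
    E v (∏ i ∈ S, a i) = 0 := by
  classical
  induction S using Finset.induction_on with
  | empty =>
    rw [Finset.prod_empty, E_apply, ← C_1, DD_C]
  | insert i S hi ih =>
    rw [Finset.prod_insert hi]
    exact E_mul_zero' (ha i (Finset.mem_insert_self i S))
      (ih fun j hj => ha j (Finset.mem_insert_of_mem hj))

/-! ### The vertices of the cube -/

/-- The coordinates `0`, `1` of a vertex of the cube. -/
def gg (ε : Fin n → Bool) (i : Fin n) : K := if ε i then 1 else 0

/-- The vertex `(1, ε)` of the cube. -/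
def qq (ε : Fin n → Bool) : Fin (n + 1) → K := Fin.cons 1 (gg ε)

omit [CharZero K] in
theorem qq_zero (ε : Fin n → Bool) : (qq ε : Fin (n + 1) → K) 0 = 1 := rfl

omit [CharZero K] in
theorem qq_succ (ε : Fin n → Bool) (i : Fin n) : (qq ε : Fin (n + 1) → K) i.succ = gg ε i := rfl

omit [CharZero K] in
theorem gg_ne {ε δ : Fin n → Bool} {i : Fin n} (h : δ i ≠ ε i) :
    (gg δ i : K) = 1 - gg ε i := by
  unfold gg
  cases h1 : δ i <;> cases h2 : ε i
  · exact absurd (h1.trans h2.symm) h
  · simp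
  · simp
  · exact absurd (h1.trans h2.symm) h

omit [CharZero K] in
theorem gg_eq {ε δ : Fin n → Bool} {i : Fin n} (h : δ i = ε i) :
    (gg δ i : K) = gg ε i := by
  unfold gg
  rw [h]

omit [CharZero K] in
theorem gg_sub_ne (ε : Fin n → Bool) (i : Fin n) : (gg ε i : K) - (1 - gg ε i) ≠ 0 := by
  unfold gg
  cases ε i <;> simp

/-- A form whose leading part at one vertex is a given monomial and which vanishes to higher order at
the other vertices. -/
theorem topjet (δ : Fin n → Bool) (b N k : ℕ) (hN : b + n ≤ N) (hk : k ≤ b) (α : Fin n → ℕ)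
    (hα : ∑ i, α i = b - k) :
    ∃ G : MvPolynomial (Fin (n + 1)) K, G.IsHomogeneous (b + N) ∧
      (E (qq δ) ^ (N + k)) G = ∏ i, yy (gg δ i) i ^ α i ∧
      ∀ δ', δ' ≠ δ → (E (qq δ') ^ (N + k)) G = 0 := by
  set Y : MvPolynomial (Fin (n + 1)) K := ∏ i, yy (gg δ i) i ^ α i with hY
  set Z : MvPolynomial (Fin (n + 1)) K := ∏ i, yy (1 - gg δ i) i ^ (α i + 1) with hZ
  set r : ℕ := N + k - (b - k + n) with hr
  have hsum : ∑ i, (α i + 1) = b - k + n := by
    rw [Finset.sum_add_distrib, hα]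
    simp
  have hYh : Y.IsHomogeneous (b - k) := by
    rw [hY, ← hα]
    refine IsHomogeneous.prod _ _ _ fun i _ => ?_
    have := (yy_hom (gg δ i : K) i).pow (α i)
    rwa [one_mul] at this
  have hZh : Z.IsHomogeneous (b - k + n) := by
    rw [hZ, ← hsum]
    refine IsHomogeneous.prod _ _ _ fun i _ => ?_
    have := (yy_hom (1 - gg δ i : K) i).pow (α i + 1)
    rwa [one_mul] at this
  have hXh : (X 0 ^ r : MvPolynomial (Fin (n + 1)) K).IsHomogeneous r := by
    have := (isHomogeneous_X K (0 : Fin (n + 1))).pow r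
    rwa [one_mul] at this
  have hQh : (Z * X 0 ^ r).IsHomogeneous (0 + (N + k)) := by
    have := hZh.mul hXh
    rwa [show b - k + n + r = 0 + (N + k) by omega] at this
  have hQv : eval (qq δ) (Z * X 0 ^ r) ≠ 0 := by
    rw [map_mul, hZ, map_prod, map_pow, eval_X, qq_zero, one_pow, mul_one]
    refine Finset.prod_ne_zero_iff.mpr fun i _ => ?_
    rw [map_pow, eval_yy, qq_zero, qq_succ, mul_one]
    exact pow_ne_zero _ (gg_sub_ne δ i)
  have h1 := (eval_Epow_ne (qq δ) hQh hQv).2
  have h2 : ((E (qq δ) ^ (N + k)) (Z * X 0 ^ r)).IsHomogeneous 0 := Epow_hom (qq δ) (N + k) hQh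
  have h3 := totalDegree_eq_zero_iff_eq_C.mp (Nat.le_zero.mp h2.totalDegree_le)
  set κ := coeff 0 ((E (qq δ) ^ (N + k)) (Z * X 0 ^ r)) with hκ
  have h5 : κ ≠ 0 := by
    rw [h3, eval_C] at h1
    exact h1
  have hYE : E (qq δ) Y = 0 := by
    rw [hY]
    refine E_prod_zero' _ _ fun i _ => E_pow_zero' ?_ _
    rw [E_yy, qq_zero, qq_succ, mul_one, sub_self, C_0]
  refine ⟨C κ⁻¹ * (Y * (Z * X 0 ^ r)), ?_, ?_, ?_⟩
  · have := (isHomogeneous_C (Fin (n + 1)) κ⁻¹).mul (hYh.mul hQh)
    rwa [show 0 + (b - k + (0 + (N + k))) = b + N by omega] at this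
  · rw [← MvPolynomial.smul_eq_C_mul, map_smul, Epow_mul_const (qq δ) hYE, h3,
      MvPolynomial.smul_eq_C_mul, mul_comm Y, ← mul_assoc, ← C_mul, inv_mul_cancel₀ h5, C_1, one_mul]
  · intro δ' hδ'
    obtain ⟨i0, hi0⟩ := Function.ne_iff.mp hδ'
    set A : MvPolynomial (Fin (n + 1)) K := ∏ i, (if δ' i = δ i then yy (gg δ i) i ^ α i
      else yy (1 - gg δ i) i ^ (α i + 1)) with hA
    set B : MvPolynomial (Fin (n + 1)) K := ∏ i, (if δ' i = δ i then yy (1 - gg δ i) i ^ (α i + 1)
      else yy (gg δ i) i ^ α i) with hB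
    have hAB : Y * (Z * X 0 ^ r) = A * (B * X 0 ^ r) := by
      rw [← mul_assoc, ← mul_assoc]
      congr 1
      rw [hY, hZ, hA, hB, ← Finset.prod_mul_distrib, ← Finset.prod_mul_distrib]
      refine Finset.prod_congr rfl fun i _ => ?_
      by_cases h : δ' i = δ i
      · rw [if_pos h, if_pos h]
      · rw [if_neg h, if_neg h, mul_comm]
    have hAE : E (qq δ') A = 0 := by
      rw [hA]
      refine E_prod_zero' _ _ fun i _ => ?_
      by_cases h : δ' i = δ i
      · rw [if_pos h]
        refine E_pow_zero' ?_ _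
        rw [E_yy, qq_zero, qq_succ, mul_one, gg_eq h, sub_self, C_0]
      · rw [if_neg h]
        refine E_pow_zero' ?_ _
        rw [E_yy, qq_zero, qq_succ, mul_one, gg_ne h, sub_self, C_0]
    set dB : ℕ := ∑ i, (if δ' i = δ i then α i + 1 else α i) with hdB
    have hBh : B.IsHomogeneous dB := by
      rw [hB, hdB]
      refine IsHomogeneous.prod _ _ _ fun i _ => ?_
      by_cases h : δ' i = δ i
      · rw [if_pos h, if_pos h]
        have := (yy_hom (1 - gg δ i : K) i).pow (α i + 1)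
        rwa [one_mul] at this
      · rw [if_neg h, if_neg h]
        have := (yy_hom (gg δ i : K) i).pow (α i)
        rwa [one_mul] at this
    have hlt : dB < b - k + n := by
      rw [← hsum, hdB]
      refine Finset.sum_lt_sum (fun i _ => ?_) ⟨i0, Finset.mem_univ _, ?_⟩
      · split_ifs <;> omega
      · rw [if_neg hi0]
        omega
    rw [← MvPolynomial.smul_eq_C_mul, map_smul, hAB, Epow_mul_const (qq δ') hAE,
      Epow_hom_zero (qq δ') (N + k) (d := dB + r) (by omega) (hBh.mul hXh), mul_zero, smul_zero]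

/-- A form killed by `D_v` is a form in the `x_i - v_i x_0`. -/
theorem repr_of_E (v : Fin (n + 1) → K) (hv : v 0 = 1) {g : MvPolynomial (Fin (n + 1)) K}
    (hg : E v g = 0) :
    g = ∑ α ∈ g.support, coeff α g • ((0 : MvPolynomial (Fin (n + 1)) K) ^ (α 0) *
      ∏ i : Fin n, yy (v i.succ) i ^ α i.succ) := by
  have hN : ∀ k, 1 ≤ k → (E v ^ k) g = 0 := by
    intro k hk
    obtain ⟨j, rfl⟩ := Nat.exists_eq_add_of_le hk
    rw [Nat.add_comm 1 j, pow_add, Module.End.mul_apply, pow_one, hg, map_zero]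
  have ht := taylor_eval (A := MvPolynomial (Fin (n + 1)) K) X v (-X 0) g 1 hN
  rw [Finset.sum_range_one, pow_zero, pow_zero, mul_one, Module.End.one_apply,
    aeval_X_left_apply] at ht
  simp only [Nat.factorial_zero, Nat.cast_one, inv_one, map_one, one_mul] at ht
  refine ht.symm.trans ?_
  rw [aeval_def, eval₂_eq']
  refine Finset.sum_congr rfl fun α _ => ?_
  rw [Fin.prod_univ_succ, MvPolynomial.algebraMap_eq, MvPolynomial.smul_eq_C_mul]
  congr 1
  congr 1
  · rw [hv]
    simp
  · refine Finset.prod_congr rfl fun i _ => ?_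
    unfold yy
    congr 1
    ring

/-- The leading parts at the vertices can be prescribed. -/
theorem lead_surj (δ : Fin n → Bool) (b N k : ℕ) (hN : b + n ≤ N) (hk : k ≤ b)
    {g : MvPolynomial (Fin (n + 1)) K} (hg : g.IsHomogeneous (b - k)) (hE : E (qq δ) g = 0) :
    ∃ G : MvPolynomial (Fin (n + 1)) K, G.IsHomogeneous (b + N) ∧
      (E (qq δ) ^ (N + k)) G = g ∧ ∀ δ', δ' ≠ δ → (E (qq δ') ^ (N + k)) G = 0 := by
  set M : Submodule K (MvPolynomial (Fin (n + 1)) K) :=
    homogeneousSubmodule (Fin (n + 1)) K (b + N) ⊓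
      ⨅ δ' : {δ' : Fin n → Bool // δ' ≠ δ}, LinearMap.ker (E (qq δ'.1) ^ (N + k)) with hM
  have hmem : ∀ h, h ∈ M.map (E (qq δ) ^ (N + k)) ↔
      ∃ G : MvPolynomial (Fin (n + 1)) K, G.IsHomogeneous (b + N) ∧
      (E (qq δ) ^ (N + k)) G = h ∧ ∀ δ', δ' ≠ δ → (E (qq δ') ^ (N + k)) G = 0 := by
    intro h
    rw [Submodule.mem_map]
    constructor
    · rintro ⟨G, hG, hGh⟩
      rw [hM, Submodule.mem_inf, Submodule.mem_iInf] at hG
      exact ⟨G, hG.1, hGh, fun δ' h' => hG.2 ⟨δ', h'⟩⟩
    · rintro ⟨G, hG, hGh, h2⟩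
      refine ⟨G, ?_, hGh⟩
      rw [hM, Submodule.mem_inf, Submodule.mem_iInf]
      exact ⟨hG, fun δ' => h2 δ'.1 δ'.2⟩
  rw [← hmem, repr_of_E (qq δ) (qq_zero δ) hE]
  refine Submodule.sum_mem _ fun α hα => Submodule.smul_mem _ _ ?_
  by_cases h0 : α 0 = 0
  · rw [h0, pow_zero, one_mul, hmem]
    refine topjet δ b N k hN hk (fun i => α i.succ) ?_
    have h1 : α.degree = b - k := by
      have := hg (mem_support_iff.mp hα)
      rw [Finsupp.degree_eq_weight_one]
      exact this
    rw [Finsupp.degree_eq_sum, Fin.sum_univ_succ, h0, zero_add] at h1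
    exact h1
  · rw [zero_pow h0, zero_mul]
    exact Submodule.zero_mem _

/-- Fat points at the vertices of the cube impose independent conditions. -/
theorem grid_surj_aux (b N : ℕ) (hN : b + n ≤ N) (k : ℕ) (hk : k ≤ b + 1)
    (h : (Fin n → Bool) → MvPolynomial (Fin (n + 1)) K) (hh : ∀ δ, (h δ).IsHomogeneous b)
    (hE : ∀ δ, (E (qq δ) ^ k) (h δ) = 0) :
    ∃ G : MvPolynomial (Fin (n + 1)) K, G.IsHomogeneous (b + N) ∧
      ∀ δ, (E (qq δ) ^ N) G = h δ := by
  classical
  induction k generalizing h with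
  | zero =>
    refine ⟨0, isHomogeneous_zero _ _ _, fun δ => ?_⟩
    have := hE δ
    rw [pow_zero, Module.End.one_apply] at this
    rw [map_zero, this]
  | succ k ih =>
    have h1 : ∀ δ, ∃ G : MvPolynomial (Fin (n + 1)) K, G.IsHomogeneous (b + N) ∧
        (E (qq δ) ^ (N + k)) G = (E (qq δ) ^ k) (h δ) ∧
        ∀ δ', δ' ≠ δ → (E (qq δ') ^ (N + k)) G = 0 := by
      intro δ
      refine lead_surj δ b N k hN (by omega) ?_ ?_
      · exact Epow_hom (qq δ) k (by rw [Nat.sub_add_cancel (by omega)]; exact hh δ)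
      · have := hE δ
        rwa [pow_succ', Module.End.mul_apply] at this
    choose G1 hG1 hG1e hG1z using h1
    obtain ⟨G2, hG2, hG2e⟩ := ih (by omega) (fun δ => h δ - (E (qq δ) ^ N) (∑ δ', G1 δ'))
      (fun δ => (hh δ).sub (Epow_hom (qq δ) N (IsHomogeneous.sum _ _ _ fun δ' _ => hG1 δ')))
      (fun δ => by
        rw [map_sub, ← Module.End.mul_apply, ← pow_add, add_comm k N, map_sum,
          Finset.sum_eq_single δ (fun δ' _ hne => hG1z δ' δ (Ne.symm hne))
          (fun h => absurd (Finset.mem_univ _) h), hG1e, sub_self])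
    refine ⟨∑ δ', G1 δ' + G2, (IsHomogeneous.sum _ _ _ fun δ' _ => hG1 δ').add hG2, fun δ => ?_⟩
    rw [map_add, hG2e, add_sub_cancel]

theorem grid_surj (b N : ℕ) (hN : b + n ≤ N)
    (h : (Fin n → Bool) → MvPolynomial (Fin (n + 1)) K) (hh : ∀ δ, (h δ).IsHomogeneous b) :
    ∃ G : MvPolynomial (Fin (n + 1)) K, G.IsHomogeneous (b + N) ∧
      ∀ δ, (E (qq δ) ^ N) G = h δ :=
  grid_surj_aux b N hN (b + 1) le_rfl h hh fun δ => Epow_hom_zero (qq δ) (b + 1) (by omega) (hh δ)

end Pool.Agent.TH142.WF
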