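import Mathlib

set_option autoImplicit false
set_option maxHeartbeats 4000000

/-!
# Linear virtual dimensions: definitions and elementary computations
-/

namespace Pool.Agent.TH142.WF

/-- The number `k_I`: it is `d` for `I = ∅` and `max (∑_{i ∈ I} m_i - (|I| - 1) d, 0)` otherwise. -/
def kI (d : ℕ) {s : ℕ} (m : Fin s → ℕ) (I : Finset (Fin s)) : ℕ :=
  if I = ∅ then d else (∑ i ∈ I, m i) - (I.card - 1) * d

/-- The linear virtual dimension, with `c = r + 1 = |I|` running from `0` to `min n s`. -/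
def lvdim (n d : ℕ) {s : ℕ} (m : Fin s → ℕ) : ℤ :=
  ∑ c ∈ Finset.range (min n s + 1), ∑ I ∈ Finset.powersetCard c (Finset.univ : Finset (Fin s)),
    (-1) ^ c * ((n + kI d m I - c).choose n : ℤ)

open Classical in
/-- The linear expected dimension. -/
noncomputable def ldim (n d : ℕ) {s : ℕ} (m : Fin s → ℕ) : ℤ :=
  if ∃ m' : Fin s → ℕ, (∀ i, m' i ≤ m i) ∧ lvdim n d m' < 0 then 0 else max (lvdim n d m) 0

theorem ldim_le (n d : ℕ) {s : ℕ} (m : Fin s → ℕ) : ldim n d m ≤ max (lvdim n d m) 0 := by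
  unfold ldim
  split_ifs
  · exact le_max_right _ _
  · exact le_rfl

theorem ldim_zero {n d : ℕ} {s : ℕ} {m : Fin s → ℕ} (m' : Fin s → ℕ) (h : ∀ i, m' i ≤ m i)
    (h' : lvdim n d m' < 0) : ldim n d m = 0 := by
  unfold ldim
  rw [if_pos ⟨m', h, h'⟩]

theorem lvdim_of_small {n d s : ℕ} (hn : 1 ≤ n) (hs : 1 ≤ s) (m : Fin s → ℕ)
    (hk : ∀ I : Finset (Fin s), 2 ≤ I.card → kI d m I < I.card) :
    lvdim n d m = ((n + d).choose n : ℤ) - ∑ i, ((n + m i - 1).choose n : ℤ) := by
  obtain ⟨k, hk2⟩ : ∃ k, min n s + 1 = k + 1 + 1 := ⟨min n s - 1, by omega⟩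
  unfold lvdim
  rw [hk2, Finset.sum_range_succ', Finset.sum_range_succ']
  have h0 : ∑ c ∈ Finset.range k, ∑ I ∈ Finset.powersetCard (c + 1 + 1)
      (Finset.univ : Finset (Fin s)), (-1 : ℤ) ^ (c + 1 + 1) *
      ((n + kI d m I - (c + 1 + 1)).choose n : ℤ) = 0 := by
    refine Finset.sum_eq_zero fun c _ => Finset.sum_eq_zero fun I hI => ?_
    rw [Finset.mem_powersetCard] at hI
    have h1 := hk I (by omega)
    rw [Nat.choose_eq_zero_of_lt (by omega)]
    simp
  have h1 : ∀ i : Fin s, kI d m {i} = m i := by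
    intro i
    unfold kI
    rw [if_neg (Finset.singleton_ne_empty i)]
    simp
  rw [h0, Finset.powersetCard_zero, Finset.sum_singleton, zero_add,
    Finset.powersetCard_one, Finset.sum_map]
  have h2 : kI d m ∅ = d := by
    unfold kI
    rw [if_pos rfl]
  simp only [Function.Embedding.coeFn_mk, h1, h2, zero_add, pow_one, pow_zero, Nat.sub_zero, one_mul,
    neg_mul, Finset.sum_neg_distrib]
  ring

/-- The value of `k_I` for equal multiplicities. -/
def kc (d m c : ℕ) : ℕ := if c = 0 then d else c * m - (c - 1) * d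

theorem lvdim_const (n d s m : ℕ) :
    lvdim n d (fun _ : Fin s => m) =
      ∑ c ∈ Finset.range (n + 1), (s.choose c : ℤ) *
        ((-1) ^ c * ((n + kc d m c - c).choose n : ℤ)) := by
  have hk : ∀ c, ∀ I ∈ Finset.powersetCard c (Finset.univ : Finset (Fin s)),
      kI d (fun _ : Fin s => m) I = kc d m c := by
    intro c I hI
    rw [Finset.mem_powersetCard] at hI
    unfold kI kc
    rw [← hI.2, Finset.sum_const, smul_eq_mul]
    by_cases h : I = ∅
    · rw [if_pos h, if_pos (by rw [h]; rfl)]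
    · rw [if_neg h, if_neg (by rwa [Finset.card_eq_zero])]
  have hs : ∀ c, ∑ I ∈ Finset.powersetCard c (Finset.univ : Finset (Fin s)),
      (-1 : ℤ) ^ c * ((n + kI d (fun _ : Fin s => m) I - c).choose n : ℤ) =
      (s.choose c : ℤ) * ((-1) ^ c * ((n + kc d m c - c).choose n : ℤ)) := by
    intro c
    rw [Finset.sum_congr rfl fun I hI => by rw [hk c I hI], Finset.sum_const,
      Finset.card_powersetCard, Finset.card_univ, Fintype.card_fin, nsmul_eq_mul]
  unfold lvdim
  rw [Finset.sum_congr rfl fun c _ => hs c]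
  refine Finset.sum_subset (Finset.range_subset_range.mpr (by omega)) fun c hc hc' => ?_
  rw [Finset.mem_range] at hc hc'
  rw [Nat.choose_eq_zero_of_lt (show s < c by omega)]
  simp

theorem lvdim_pairs {n d s m : ℕ} (hn : 2 ≤ n)
    (hc : ∀ c, 3 ≤ c → c ≤ n → c * m - (c - 1) * d < c) :
    lvdim n d (fun _ : Fin s => m) = ((n + d).choose n : ℤ) - s * ((n + m - 1).choose n : ℤ) +
      s.choose 2 * ((n + (2 * m - d) - 2).choose n : ℤ) := by
  obtain ⟨k, rfl⟩ : ∃ k, n = k + 2 := ⟨n - 2, by omega⟩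
  rw [lvdim_const, Finset.sum_range_succ', Finset.sum_range_succ', Finset.sum_range_succ']
  have h0 : ∑ c ∈ Finset.range k, (s.choose (c + 1 + 1 + 1) : ℤ) *
        ((-1) ^ (c + 1 + 1 + 1) *
          ((k + 2 + kc d m (c + 1 + 1 + 1) - (c + 1 + 1 + 1)).choose (k + 2) : ℤ)) = 0 := by
    refine Finset.sum_eq_zero fun c hcr => ?_
    rw [Finset.mem_range] at hcr
    have h1 := hc (c + 1 + 1 + 1) (by omega) (by omega)
    have h2 : kc d m (c + 1 + 1 + 1) < c + 1 + 1 + 1 := by
      unfold kc
      rw [if_neg (by omega)]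
      exact h1
    rw [Nat.choose_eq_zero_of_lt (show k + 2 + kc d m (c + 1 + 1 + 1) - (c + 1 + 1 + 1) < k + 2 by
      omega)]
    simp
  rw [h0]
  have e0 : kc d m 0 = d := by
    unfold kc
    rw [if_pos rfl]
  have e1 : kc d m 1 = m := by
    unfold kc
    rw [if_neg (by omega)]
    simp
  have e2 : kc d m 2 = 2 * m - d := by
    unfold kc
    rw [if_neg (by omega)]
    simp
  simp only [zero_add, Nat.reduceAdd, e0, e1, e2, Nat.choose_zero_right, Nat.choose_one_right,
    pow_zero, pow_one, Nat.cast_one, one_mul, Nat.sub_zero]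
  ring

/-! ### Numerical inequalities -/

theorem step_choose (n x : ℕ) :
    (n + 1) * (n + 1 + x).choose (n + 1) = (n + 1 + x) * (n + x).choose n := by
  have := Nat.add_one_mul_choose_eq (n + x) n
  rw [show n + x + 1 = n + 1 + x by omega] at this
  rw [this, mul_comm]

theorem odd_le (h n : ℕ) :
    (n + (2 * h + 1)).choose n ≤ 2 ^ n * (n + h).choose n := by
  induction n with
  | zero => simp
  | succ n ih =>
    have e1 := step_choose n (2 * h + 1)
    have e2 := step_choose n h
    have h1 : (n + 1) * (n + 1 + (2 * h + 1)).choose (n + 1) ≤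
        (n + 1) * (2 ^ (n + 1) * (n + 1 + h).choose (n + 1)) := by
      rw [e1, show (n + 1) * (2 ^ (n + 1) * (n + 1 + h).choose (n + 1)) =
        2 ^ (n + 1) * ((n + 1) * (n + 1 + h).choose (n + 1)) by ring, e2]
      calc (n + 1 + (2 * h + 1)) * (n + (2 * h + 1)).choose n
          ≤ (n + 1 + (2 * h + 1)) * (2 ^ n * (n + h).choose n) := Nat.mul_le_mul_left _ ih
        _ ≤ (2 * (n + 1 + h)) * (2 ^ n * (n + h).choose n) :=
            Nat.mul_le_mul_right _ (by omega)
        _ = 2 ^ (n + 1) * ((n + 1 + h) * (n + h).choose n) := by ring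
    exact Nat.le_of_mul_le_mul_left h1 (by omega)

theorem odd_lt (h n : ℕ) (hn : 2 ≤ n) :
    (n + (2 * h + 1)).choose n < 2 ^ n * (n + h).choose n := by
  obtain ⟨n, rfl⟩ : ∃ k, n = k + 1 := ⟨n - 1, by omega⟩
  have ih := odd_le h n
  have e1 := step_choose n (2 * h + 1)
  have e2 := step_choose n h
  have hpos : 0 < 2 ^ n * (n + h).choose n :=
    Nat.mul_pos (by positivity) (Nat.choose_pos (by omega))
  have h1 : (n + 1) * (n + 1 + (2 * h + 1)).choose (n + 1) <
      (n + 1) * (2 ^ (n + 1) * (n + 1 + h).choose (n + 1)) := by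
    rw [e1, show (n + 1) * (2 ^ (n + 1) * (n + 1 + h).choose (n + 1)) =
      2 ^ (n + 1) * ((n + 1) * (n + 1 + h).choose (n + 1)) by ring, e2]
    calc (n + 1 + (2 * h + 1)) * (n + (2 * h + 1)).choose n
        ≤ (n + 1 + (2 * h + 1)) * (2 ^ n * (n + h).choose n) := Nat.mul_le_mul_left _ ih
      _ < (2 * (n + 1 + h)) * (2 ^ n * (n + h).choose n) :=
          Nat.mul_lt_mul_of_pos_right (by omega) hpos
      _ = 2 ^ (n + 1) * ((n + 1 + h) * (n + h).choose n) := by ring
  exact Nat.lt_of_mul_lt_mul_left h1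

theorem side_choose (n h : ℕ) :
    (h + 1) * (n + (h + 1)).choose n = (n + h + 1) * (n + h).choose n := by
  have := Nat.choose_mul_succ_eq (n + h) n
  rw [show n + h + 1 - n = h + 1 by omega] at this
  rw [show n + (h + 1) = n + h + 1 by omega]
  linarith

theorem even_key (n h : ℕ) (A B C' A1 B1 C1 P : ℤ) (hA : (n + 1 : ℤ) * A1 = (n + 2 * h + 3) * A)
    (hB : (n + 1 : ℤ) * B1 = (n + h + 1) * B) (hC : (n + 1 : ℤ) * C1 = (n + h + 2) * C')
    (hs : (h + 1 : ℤ) * C' = (n + h + 1) * B) (ih : A + B ≤ P * B + C') :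
    (n + 1 : ℤ) * (A1 + B1) + (P - 1) * (n - 1) * B ≤ (n + 1 : ℤ) * (2 * P * B1 + C1) := by
  have h0 : (0 : ℤ) ≤ n + 2 * h + 3 := by positivity
  have h1 := mul_le_mul_of_nonneg_left ih h0
  have e1 : (n + 1 : ℤ) * (A1 + B1) = (n + 2 * h + 3) * A + (n + h + 1) * B := by
    rw [mul_add, hA, hB]
  have e2 : (n + 1 : ℤ) * (2 * P * B1 + C1) = 2 * P * ((n + h + 1) * B) + (n + h + 2) * C' := by
    rw [← hB, ← hC]; ring
  rw [e1, e2]
  nlinarith [h1, hs]

theorem even_le (h n : ℕ) :
    ((n + (2 * h + 2)).choose n : ℤ) + ((n + h).choose n : ℤ) ≤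
      2 ^ n * ((n + h).choose n : ℤ) + ((n + (h + 1)).choose n : ℤ) := by
  induction n with
  | zero => simp
  | succ n ih =>
    have hA : (n + 1 : ℤ) * ((n + 1 + (2 * h + 2)).choose (n + 1) : ℤ) =
        (n + 2 * h + 3) * ((n + (2 * h + 2)).choose n : ℤ) := by
      have := step_choose n (2 * h + 2)
      have h2 := congrArg (Nat.cast : ℕ → ℤ) this
      push_cast at h2
      linarith
    have hB : (n + 1 : ℤ) * ((n + 1 + h).choose (n + 1) : ℤ) =
        (n + h + 1) * ((n + h).choose n : ℤ) := by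
      have h2 := congrArg (Nat.cast : ℕ → ℤ) (step_choose n h)
      push_cast at h2
      linarith
    have hC : (n + 1 : ℤ) * ((n + 1 + (h + 1)).choose (n + 1) : ℤ) =
        (n + h + 2) * ((n + (h + 1)).choose n : ℤ) := by
      have h2 := congrArg (Nat.cast : ℕ → ℤ) (step_choose n (h + 1))
      push_cast at h2
      linarith
    have hs : (h + 1 : ℤ) * ((n + (h + 1)).choose n : ℤ) =
        (n + h + 1) * ((n + h).choose n : ℤ) := by
      have h2 := congrArg (Nat.cast : ℕ → ℤ) (side_choose n h)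
      push_cast at h2
      linarith
    have key := even_key n h _ _ _ _ _ _ (2 ^ n) hA hB hC hs ih
    have hnn : (0 : ℤ) ≤ (2 ^ n - 1) * (n - 1) * ((n + h).choose n : ℤ) := by
      rcases Nat.eq_zero_or_pos n with h0 | h0
      · subst h0; simp
      · have h1 : (1 : ℤ) ≤ n := by exact_mod_cast h0
        have h2 : (1 : ℤ) ≤ 2 ^ n := one_le_pow₀ (by norm_num)
        have h3 : (0 : ℤ) ≤ ((n + h).choose n : ℤ) := by positivity
        exact mul_nonneg (mul_nonneg (by linarith) (by linarith)) h3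
    have h5 : (0 : ℤ) < n + 1 := by positivity
    refine le_of_mul_le_mul_left ?_ h5
    rw [pow_succ', ]
    linarith

theorem even_lt (h n : ℕ) (hn : 3 ≤ n) :
    ((n + (2 * h + 2)).choose n : ℤ) + ((n + h).choose n : ℤ) <
      2 ^ n * ((n + h).choose n : ℤ) + ((n + (h + 1)).choose n : ℤ) := by
  obtain ⟨n, rfl⟩ : ∃ k, n = k + 1 := ⟨n - 1, by omega⟩
  have ih := even_le h n
  have hA : (n + 1 : ℤ) * ((n + 1 + (2 * h + 2)).choose (n + 1) : ℤ) =
      (n + 2 * h + 3) * ((n + (2 * h + 2)).choose n : ℤ) := by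
    have := step_choose n (2 * h + 2)
    have h2 := congrArg (Nat.cast : ℕ → ℤ) this
    push_cast at h2
    linarith
  have hB : (n + 1 : ℤ) * ((n + 1 + h).choose (n + 1) : ℤ) =
      (n + h + 1) * ((n + h).choose n : ℤ) := by
    have h2 := congrArg (Nat.cast : ℕ → ℤ) (step_choose n h)
    push_cast at h2
    linarith
  have hC : (n + 1 : ℤ) * ((n + 1 + (h + 1)).choose (n + 1) : ℤ) =
      (n + h + 2) * ((n + (h + 1)).choose n : ℤ) := by
    have h2 := congrArg (Nat.cast : ℕ → ℤ) (step_choose n (h + 1))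
    push_cast at h2
    linarith
  have hs : (h + 1 : ℤ) * ((n + (h + 1)).choose n : ℤ) =
      (n + h + 1) * ((n + h).choose n : ℤ) := by
    have h2 := congrArg (Nat.cast : ℕ → ℤ) (side_choose n h)
    push_cast at h2
    linarith
  have key := even_key n h _ _ _ _ _ _ (2 ^ n) hA hB hC hs ih
  have hnn : (0 : ℤ) < (2 ^ n - 1) * (n - 1) * ((n + h).choose n : ℤ) := by
    have h1 : (2 : ℤ) ≤ n := by exact_mod_cast (by omega : 2 ≤ n)
    have h2 : (2 : ℤ) ≤ 2 ^ n := by
      calc (2 : ℤ) = 2 ^ 1 := by norm_num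
        _ ≤ 2 ^ n := pow_le_pow_right₀ (by norm_num) (by omega)
    have h3 : (0 : ℤ) < ((n + h).choose n : ℤ) := by exact_mod_cast Nat.choose_pos (by omega)
    exact mul_pos (mul_pos (by linarith) (by linarith)) h3
  have h5 : (0 : ℤ) < n + 1 := by positivity
  refine lt_of_mul_lt_mul_left ?_ h5.le
  rw [pow_succ']
  linarith

/-- For `s ≥ 2 ^ n` points the linear expected dimension is `0` as soon as `2 m ≥ d + 2`. -/
theorem ldim_many {n d s m : ℕ} (hn : 2 ≤ n) (hs : 2 ^ n ≤ s) (hs5 : 5 ≤ s) (hd : 1 ≤ d)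
    (hm : d + 2 ≤ 2 * m) : ldim n d (fun _ : Fin s => m) = 0 := by
  rcases Nat.even_or_odd' d with ⟨h, rfl | rfl⟩
  · -- even degree
    obtain ⟨h, rfl⟩ : ∃ k, h = k + 1 := ⟨h - 1, by omega⟩
    let i0 : Fin s := ⟨0, by omega⟩
    refine ldim_zero (fun i => if i = i0 then h + 2 else h + 1) (fun i => ?_) ?_
    · split_ifs <;> omega
    · have hsum : ∀ I : Finset (Fin s),
          ∑ i ∈ I, (if i = i0 then h + 2 else h + 1) ≤ I.card * (h + 1) + 1 := by
        intro I
        calc ∑ i ∈ I, (if i = i0 then h + 2 else h + 1)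
            = ∑ i ∈ I, ((h + 1) + if i = i0 then 1 else 0) := by
              refine Finset.sum_congr rfl fun i _ => ?_
              split_ifs <;> omega
          _ = I.card * (h + 1) + ∑ i ∈ I, (if i = i0 then 1 else 0) := by
              rw [Finset.sum_add_distrib, Finset.sum_const, smul_eq_mul]
          _ ≤ I.card * (h + 1) + 1 := by
              refine Nat.add_le_add_left ?_ _
              rw [Finset.sum_ite_eq']
              split_ifs <;> omega
      rw [lvdim_of_small (by omega) (by omega)]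
      · have e : ∑ i : Fin s, ((n + (if i = i0 then h + 2 else h + 1) - 1).choose n : ℤ) =
            ((n + (h + 1)).choose n : ℤ) + (s - 1 : ℤ) * ((n + h).choose n : ℤ) := by
          rw [← Finset.add_sum_erase _ _ (Finset.mem_univ i0), if_pos rfl]
          rw [Finset.sum_congr rfl (g := fun _ => ((n + h).choose n : ℤ)) (fun i hi => by
            rw [if_neg (Finset.ne_of_mem_erase hi), show n + (h + 1) - 1 = n + h by omega]),
            Finset.sum_const, Finset.card_erase_of_mem (Finset.mem_univ _), Finset.card_univ,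
            Fintype.card_fin, nsmul_eq_mul, Nat.cast_sub (by omega : 1 ≤ s), Nat.cast_one,
            show n + (h + 2) - 1 = n + (h + 1) by omega]
        rw [e, show n + 2 * (h + 1) = n + (2 * h + 2) by ring]
        have hB : (0 : ℤ) < ((n + h).choose n : ℤ) := by exact_mod_cast Nat.choose_pos (by omega)
        rcases Nat.lt_or_ge n 3 with h3 | h3
        · have h2 : n = 2 := by omega
          subst h2
          have h1 := even_le h 2
          have h4 : (5 : ℤ) ≤ s := by exact_mod_cast hs5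
          nlinarith
        · have h1 := even_lt h n h3
          have h4 : ((2 : ℤ) ^ n) ≤ s := by exact_mod_cast hs
          nlinarith
      · intro I hI
        have hne : I ≠ ∅ := by
          rintro rfl
          simp at hI
        unfold kI
        rw [if_neg hne]
        change (∑ i ∈ I, (if i = i0 then h + 2 else h + 1)) - (I.card - 1) * (2 * (h + 1)) < I.card
        have h1 := hsum I
        have h2 : I.card * (h + 1) ≤ (I.card - 1) * (2 * (h + 1)) := by
          obtain ⟨c, hc⟩ : ∃ c, I.card = c + 2 := ⟨I.card - 2, by omega⟩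
          rw [hc, show c + 2 - 1 = c + 1 by omega]
          nlinarith
        omega
  · -- odd degree
    refine ldim_zero (fun _ => h + 1) (fun i => by omega) ?_
    rw [lvdim_of_small (by omega) (by omega)]
    · have h1 := odd_lt h n hn
      have h2 : (n + (2 * h + 1)).choose n < s * (n + h).choose n :=
        lt_of_lt_of_le h1 (Nat.mul_le_mul_right _ hs)
      rw [Finset.sum_const, Finset.card_univ, Fintype.card_fin, nsmul_eq_mul,
        show n + (h + 1) - 1 = n + h by omega]
      have h3 : (((n + (2 * h + 1)).choose n : ℕ) : ℤ) < ((s * (n + h).choose n : ℕ) : ℤ) := by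
        exact_mod_cast h2
      push_cast at h3
      linarith
    · intro I hI
      have hne : I ≠ ∅ := by
        rintro rfl
        simp at hI
      unfold kI
      rw [if_neg hne, Finset.sum_const, smul_eq_mul]
      obtain ⟨c, hc⟩ : ∃ c, I.card = c + 2 := ⟨I.card - 2, by omega⟩
      rw [hc, show c + 2 - 1 = c + 1 by omega]
      have : (c + 2) * (h + 1) < (c + 1) * (2 * h + 1) + (c + 2) := by nlinarith
      omega

end Pool.Agent.TH142.WF
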