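import Pool.Agent.TH142.WF.Open
import Pool.Agent.TH142.WF.Num

set_option autoImplicit false
set_option maxHeartbeats 4000000

/-!
# The weak Fröberg–Iarrobino inequality
-/

open MvPolynomial

namespace Pool.Agent.TH142.WF

open Pool.Agent.H732R3.FI

/-- The form `F` in `n + 1` variables vanishes to order at least `m` at the point of projective
space with coordinate vector `v`: the polynomial `F (v + x)` has no terms of degree `< m`. -/
def VanishesToOrder {n : ℕ} (v : Fin (n + 1) → ℂ) (m : ℕ) (F : MvPolynomial (Fin (n + 1)) ℂ) :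
    Prop :=
  ∀ α : Fin (n + 1) →₀ ℕ, α.degree < m → coeff α (aeval (fun i => X i + C (v i)) F) = 0

/-- The vector space `L_{n,d}(m_1, …, m_s)` of forms of degree `d` in `n + 1` variables which vanish
to order at least `m i` at the point with coordinate vector `p i`, for every `i`. -/
noncomputable def linSys (n d : ℕ) {s : ℕ} (m : Fin s → ℕ) (p : Fin s → Fin (n + 1) → ℂ) :
    Submodule ℂ (MvPolynomial (Fin (n + 1)) ℂ) where
  carrier := {F | F.IsHomogeneous d ∧ ∀ i, VanishesToOrder (p i) (m i) F}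
  add_mem' := by
    rintro F G ⟨hF, hF'⟩ ⟨hG, hG'⟩
    refine ⟨hF.add hG, fun i α hα => ?_⟩
    rw [map_add, coeff_add, hF' i α hα, hG' i α hα, add_zero]
  zero_mem' := ⟨isHomogeneous_zero _ _ _, fun i α _ => by rw [map_zero, coeff_zero]⟩
  smul_mem' := by
    rintro c F ⟨hF, hF'⟩
    refine ⟨(homogeneousSubmodule (Fin (n + 1)) ℂ d).smul_mem c hF, fun i α hα => ?_⟩
    rw [map_smul, coeff_smul, hF' i α hα, smul_zero]

theorem vanish_of_E {n d N m : ℕ} (hm : m + N ≤ d + 1) (v : Fin (n + 1) → ℂ)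
    {F : MvPolynomial (Fin (n + 1)) ℂ} (hF : F.IsHomogeneous d) (hE : (E v ^ N) F = 0) :
    VanishesToOrder v m F := by
  intro α hα
  have hN : ∀ k, N ≤ k → (E v ^ k) F = 0 := by
    intro k hk
    obtain ⟨j, rfl⟩ := Nat.exists_eq_add_of_le hk
    rw [Nat.add_comm N j, pow_add, Module.End.mul_apply, hE, map_zero]
  have ht := taylor_eval (A := MvPolynomial (Fin (n + 1)) ℂ) X v 1 F N hN
  have e : (fun j => X j + 1 * algebraMap ℂ (MvPolynomial (Fin (n + 1)) ℂ) (v j)) =
      fun j => X j + C (v j) := by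
    funext j
    rw [one_mul]
    rfl
  rw [e] at ht
  rw [ht, coeff_sum]
  refine Finset.sum_eq_zero fun k hk => ?_
  rw [Finset.mem_range] at hk
  have hk' : ((E v ^ k) F).IsHomogeneous (d - k) :=
    Epow_hom v k (by rwa [Nat.sub_add_cancel (by omega)])
  rw [one_pow, mul_one, aeval_X_left_apply, MvPolynomial.algebraMap_eq, coeff_C_mul,
    hk'.coeff_eq_zero (by omega), mul_zero]

theorem finrank_le_linSys {n d s m : ℕ} (p : Fin s → Fin (n + 1) → ℂ)
    (W : Submodule ℂ ↥(homogeneousSubmodule (Fin (n + 1)) ℂ d))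
    (hW : ∀ F ∈ W, ∀ i, VanishesToOrder (p i) m F.1) :
    Module.finrank ℂ W ≤ Module.finrank ℂ (linSys n d (fun _ => m) p) := by
  have hle : linSys n d (fun _ => m) p ≤ homogeneousSubmodule (Fin (n + 1)) ℂ d :=
    fun F hF => hF.1
  have hfin : Module.Finite ℂ ↥(linSys n d (fun _ => m) p) :=
    Submodule.finiteDimensional_of_le hle
  have h1 : W.map (homogeneousSubmodule (Fin (n + 1)) ℂ d).subtype ≤ linSys n d (fun _ => m) p := by
    rintro _ ⟨F, hF, rfl⟩
    exact ⟨F.2, fun i => hW F hF i⟩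
  have h2 := Submodule.finrank_mono (R := ℂ) h1
  rwa [Submodule.finrank_map_subtype_eq] at h2

/-- The simple count of conditions. -/
theorem simple_linSys {n d s m : ℕ} (hm : 1 ≤ m) (hmd : m ≤ d + 1) (p : Fin s → Fin (n + 1) → ℂ) :
    ((n + d).choose n : ℤ) - s * ((n + m - 1).choose n : ℤ) ≤
      Module.finrank ℂ (linSys n d (fun _ => m) p) := by
  obtain ⟨c, rfl⟩ : ∃ c, m = c + 1 := ⟨m - 1, by omega⟩
  obtain ⟨N, rfl⟩ : ∃ N, d = c + N := ⟨d - c, by omega⟩
  have h1 := simple_bound p c N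
  have h2 := finrank_le_linSys (m := c + 1) p (LinearMap.ker (LinearMap.pi fun j => Dres (p j) N c))
    (fun F hF i => by
      refine vanish_of_E (N := N) (by omega) (p i) F.2 ?_
      have h3 : (LinearMap.pi fun j => Dres (p j) N c) F = 0 := hF
      have h4 := congrArg Subtype.val (congrFun h3 i)
      exact h4)
  have h5 : (n + (c + N)).choose n ≤
      Module.finrank ℂ (linSys n (c + N) (fun _ => c + 1) p) + s * (n + c).choose n := by omega
  have h6 : (((n + (c + N)).choose n : ℕ) : ℤ) ≤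
      ((Module.finrank ℂ (linSys n (c + N) (fun _ => c + 1) p) + s * (n + c).choose n : ℕ) : ℤ) := by
    exact_mod_cast h5
  push_cast at h6
  rw [show n + (c + 1) - 1 = n + c by omega]
  linarith

/-- The count with the correction by the lines through pairs of points. -/
theorem pair_linSys {n d s m : ℕ} (hmd : d + 2 ≤ 2 * m) (h3 : 3 * m + n ≤ 2 * d + 3) (hm : m ≤ d)
    (hs : s ≤ 2 ^ n + 1) :
    ∃ P : MvPolynomial (Fin s × Fin (n + 1)) ℂ, P ≠ 0 ∧ ∀ p : Fin s → Fin (n + 1) → ℂ,
      eval (fun x : Fin s × Fin (n + 1) => p x.1 x.2) P ≠ 0 →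
      ((n + d).choose n : ℤ) - s * ((n + m - 1).choose n : ℤ) +
        s.choose 2 * ((n + (2 * m - d) - 2).choose n : ℤ) ≤
      Module.finrank ℂ (linSys n d (fun _ => m) p) := by
  obtain ⟨N, hN⟩ : ∃ N, N = d + 1 - m := ⟨_, rfl⟩
  obtain ⟨b, hb⟩ : ∃ b, b = 2 * m - d - 2 := ⟨_, rfl⟩
  obtain rfl : d = b + N + N := by omega
  obtain rfl : m = b + N + 1 := by omega
  obtain ⟨P, hP0, hP⟩ := pair_bound (K := ℂ) (n := n) (s := s) b N (by omega) hs
  refine ⟨P, hP0, fun p hp => ?_⟩
  have h1 := hP p hp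
  have h2 := finrank_le_linSys (m := b + N + 1) p (LinearMap.ker (Psi p N b))
    (fun F hF i => by
      refine vanish_of_E (N := N) (by omega) (p i) F.2 ?_
      have h3 : (Psi p N b) F = 0 := hF
      have h4 := congrArg Subtype.val (congrFun h3 i)
      exact h4)
  have h5 : (n + (b + N + N)).choose n + s.choose 2 * (n + b).choose n ≤
      Module.finrank ℂ (linSys n (b + N + N) (fun _ => b + N + 1) p) +
        s * (n + (b + N)).choose n := by omega
  have h6 : (((n + (b + N + N)).choose n + s.choose 2 * (n + b).choose n : ℕ) : ℤ) ≤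
      ((Module.finrank ℂ (linSys n (b + N + N) (fun _ => b + N + 1) p) +
        s * (n + (b + N)).choose n : ℕ) : ℤ) := by
    exact_mod_cast h5
  push_cast at h6
  rw [show n + (b + N + 1) - 1 = n + (b + N) by omega,
    show n + (2 * (b + N + 1) - (b + N + N)) - 2 = n + b by omega]
  linarith

/-- The weak inequality in all the ranges which do not need further numerical work. -/
theorem weak_of {n s d m : ℕ} (hn : 2 ≤ n) (hd : 1 ≤ d) (hm : 1 ≤ m)
    (h : 2 * m ≤ d + 1 ∨ 3 * m + n ≤ 2 * d + 3 ∨ ldim n d (fun _ : Fin s => m) = 0) :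
    ∃ P : MvPolynomial (Fin s × Fin (n + 1)) ℂ, P ≠ 0 ∧ ∀ p : Fin s → Fin (n + 1) → ℂ,
      eval (fun x : Fin s × Fin (n + 1) => p x.1 x.2) P ≠ 0 →
      ldim n d (fun _ : Fin s => m) ≤ Module.finrank ℂ (linSys n d (fun _ => m) p) := by
  have hzero : ldim n d (fun _ : Fin s => m) = 0 → ∃ P : MvPolynomial (Fin s × Fin (n + 1)) ℂ,
      P ≠ 0 ∧ ∀ p : Fin s → Fin (n + 1) → ℂ,
      eval (fun x : Fin s × Fin (n + 1) => p x.1 x.2) P ≠ 0 →
      ldim n d (fun _ : Fin s => m) ≤ Module.finrank ℂ (linSys n d (fun _ => m) p) := by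
    intro h0
    refine ⟨1, one_ne_zero, fun p _ => ?_⟩
    rw [h0]
    positivity
  have hsmall : 2 * m ≤ d + 1 → ∃ P : MvPolynomial (Fin s × Fin (n + 1)) ℂ,
      P ≠ 0 ∧ ∀ p : Fin s → Fin (n + 1) → ℂ,
      eval (fun x : Fin s × Fin (n + 1) => p x.1 x.2) P ≠ 0 →
      ldim n d (fun _ : Fin s => m) ≤ Module.finrank ℂ (linSys n d (fun _ => m) p) := by
    intro h2
    refine ⟨1, one_ne_zero, fun p _ => (ldim_le n d _).trans (max_le ?_ (by positivity))⟩
    have h3 := simple_linSys (n := n) (d := d) (s := s) (m := m) hm (by omega) p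
    rw [lvdim_pairs hn, Nat.choose_eq_zero_of_lt (show n + (2 * m - d) - 2 < n by omega)]
    · push_cast
      linarith
    · intro c hc _
      obtain ⟨c, rfl⟩ : ∃ e, c = e + 3 := ⟨c - 3, by omega⟩
      have : (c + 3) * m < (c + 3 - 1) * d + (c + 3) := by
        rw [show c + 3 - 1 = c + 2 by omega]
        nlinarith
      omega
  rcases h with h | h | h
  · exact hsmall h
  · rcases Nat.lt_or_ge (2 * m) (d + 2) with h2 | h2
    · exact hsmall (by omega)
    · rcases Nat.lt_or_ge (2 ^ n + 1) s with hs | hs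
      · refine hzero (ldim_many hn (by omega) ?_ hd h2)
        have : 2 ^ 2 ≤ 2 ^ n := Nat.pow_le_pow_right (by norm_num) hn
        omega
      · have hmd : m ≤ d := by omega
        obtain ⟨P, hP0, hP⟩ := pair_linSys (n := n) (d := d) (s := s) (m := m) h2 h hmd hs
        refine ⟨P, hP0, fun p hp => (ldim_le n d _).trans (max_le ?_ (by positivity))⟩
        rw [lvdim_pairs hn]
        · exact hP p hp
        · intro c hc hcn
          obtain ⟨c, rfl⟩ : ∃ e, c = e + 3 := ⟨c - 3, by omega⟩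
          have h5 : 3 * m ≤ 2 * d := by omega
          have : (c + 3) * m ≤ (c + 3 - 1) * d := by
            rw [show c + 3 - 1 = c + 2 by omega]
            nlinarith
          omega
  · exact hzero h

end Pool.Agent.TH142.WF
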