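import Pool.Agent.TH142.WF.Main
import Pool.Agent.TH142.WF.Cube

set_option autoImplicit false
set_option maxHeartbeats 4000000

/-!
# The weak Fröberg–Iarrobino inequality, with cubes of smaller dimension
-/

open MvPolynomial

namespace Pool.Agent.TH142.WF.Cube

open Pool.Agent.H732R3.FI Pool.Agent.TH142.WF

/-- The count with the correction by the lines through pairs of points. -/
theorem pair_linSys {n c d s m : ℕ} (hcn : c ≤ n) (hmd : d + 2 ≤ 2 * m)
    (h3 : 3 * m + c ≤ 2 * d + 3) (hm : m ≤ d) (hs : s ≤ 2 ^ c + 1) :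
    ∃ P : MvPolynomial (Fin s × Fin (n + 1)) ℂ, P ≠ 0 ∧ ∀ p : Fin s → Fin (n + 1) → ℂ,
      eval (fun x : Fin s × Fin (n + 1) => p x.1 x.2) P ≠ 0 →
      ((n + d).choose n : ℤ) - s * ((n + m - 1).choose n : ℤ) +
        s.choose 2 * ((n + (2 * m - d) - 2).choose n : ℤ) ≤
      Module.finrank ℂ (linSys n d (fun _ => m) p) := by
  obtain ⟨N, hN⟩ : ∃ N, N = d + 1 - m := ⟨_, rfl⟩
  obtain ⟨b, hb⟩ : ∃ b, b = 2 * m - d - 2 := ⟨_, rfl⟩
  obtain rfl : d = b + N + N := by omega
  obtain rfl : m = b + N + 1 := by omega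
  obtain ⟨P, hP0, hP⟩ := Cube.pair_bound (K := ℂ) (n := n) (s := s) hcn b N (by omega) hs
  refine ⟨P, hP0, fun p hp => ?_⟩
  have h1 := hP p hp
  have h2 := finrank_le_linSys (m := b + N + 1) p (LinearMap.ker (Psi p N b))
    (fun F hF i => by
      refine vanish_of_E (N := N) (by omega) (p i) F.2 ?_
      have h3 : (Psi p N b) F = 0 := hF
      have h4 := congrArg Subtype.val (congrFun h3 i)
      exact h4)
  have h5 : (n + (b + N + N)).choose n + s.choose 2 * (n + b).choose n ≤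
      Module.finrank ℂ (linSys n (b + N + N) (fun _ => b + N + 1) p) +
        s * (n + (b + N)).choose n := by omega
  have h6 : (((n + (b + N + N)).choose n + s.choose 2 * (n + b).choose n : ℕ) : ℤ) ≤
      ((Module.finrank ℂ (linSys n (b + N + N) (fun _ => b + N + 1) p) +
        s * (n + (b + N)).choose n : ℕ) : ℤ) := by
    exact_mod_cast h5
  push_cast at h6
  rw [show n + (b + N + 1) - 1 = n + (b + N) by omega,
    show n + (2 * (b + N + 1) - (b + N + N)) - 2 = n + b by omega]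
  linarith

/-- The weak inequality in all the ranges which do not need further numerical work. -/
theorem weak_of {n s d m : ℕ} (hn : 2 ≤ n) (hd : 1 ≤ d) (hm : 1 ≤ m)
    (h : 2 * m ≤ d + 1 ∨ (∃ c, 1 ≤ c ∧ c ≤ n ∧ s ≤ 2 ^ c + 1 ∧ 3 * m + c ≤ 2 * d + 3) ∨
      ldim n d (fun _ : Fin s => m) = 0) :
    ∃ P : MvPolynomial (Fin s × Fin (n + 1)) ℂ, P ≠ 0 ∧ ∀ p : Fin s → Fin (n + 1) → ℂ,
      eval (fun x : Fin s × Fin (n + 1) => p x.1 x.2) P ≠ 0 →
      ldim n d (fun _ : Fin s => m) ≤ Module.finrank ℂ (linSys n d (fun _ => m) p) := by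
  have hzero : ldim n d (fun _ : Fin s => m) = 0 → ∃ P : MvPolynomial (Fin s × Fin (n + 1)) ℂ,
      P ≠ 0 ∧ ∀ p : Fin s → Fin (n + 1) → ℂ,
      eval (fun x : Fin s × Fin (n + 1) => p x.1 x.2) P ≠ 0 →
      ldim n d (fun _ : Fin s => m) ≤ Module.finrank ℂ (linSys n d (fun _ => m) p) := by
    intro h0
    refine ⟨1, one_ne_zero, fun p _ => ?_⟩
    rw [h0]
    positivity
  have hsmall : 2 * m ≤ d + 1 → ∃ P : MvPolynomial (Fin s × Fin (n + 1)) ℂ,
      P ≠ 0 ∧ ∀ p : Fin s → Fin (n + 1) → ℂ,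
      eval (fun x : Fin s × Fin (n + 1) => p x.1 x.2) P ≠ 0 →
      ldim n d (fun _ : Fin s => m) ≤ Module.finrank ℂ (linSys n d (fun _ => m) p) := by
    intro h2
    refine ⟨1, one_ne_zero, fun p _ => (ldim_le n d _).trans (max_le ?_ (by positivity))⟩
    have h3 := simple_linSys (n := n) (d := d) (s := s) (m := m) hm (by omega) p
    rw [lvdim_pairs hn, Nat.choose_eq_zero_of_lt (show n + (2 * m - d) - 2 < n by omega)]
    · push_cast
      linarith
    · intro c hc _
      obtain ⟨c, rfl⟩ : ∃ e, c = e + 3 := ⟨c - 3, by omega⟩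
      have : (c + 3) * m < (c + 3 - 1) * d + (c + 3) := by
        rw [show c + 3 - 1 = c + 2 by omega]
        nlinarith
      omega
  rcases h with h | h | h
  · exact hsmall h
  · rcases Nat.lt_or_ge (2 * m) (d + 2) with h2 | h2
    · exact hsmall (by omega)
    · obtain ⟨e, he1, hen, hs, h⟩ := h
      have hmd : m ≤ d := by omega
      obtain ⟨P, hP0, hP⟩ := pair_linSys (n := n) (c := e) (d := d) (s := s) (m := m) hen h2 h hmd hs
      refine ⟨P, hP0, fun p hp => (ldim_le n d _).trans (max_le ?_ (by positivity))⟩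
      rw [lvdim_pairs hn]
      · exact hP p hp
      · intro c hc hcn
        obtain ⟨c, rfl⟩ : ∃ e, c = e + 3 := ⟨c - 3, by omega⟩
        have h5 : 3 * m ≤ 2 * d + 2 := by omega
        have : (c + 3) * m < (c + 3 - 1) * d + (c + 3) := by
          rw [show c + 3 - 1 = c + 2 by omega]
          nlinarith
        omega
  · exact hzero h

end Pool.Agent.TH142.WF.Cube
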