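import Pool.Agent.TH142.WF.Grid

set_option autoImplicit false
set_option maxHeartbeats 4000000

/-!
# General points: openness of the independence, and the lower bound given by the pairs of points
-/

open MvPolynomial

namespace Pool.Agent.TH142.WF

open Pool.Agent.H732R3.FI

variable {K : Type*} [Field K]

/-- Linear functionals of iterated directional derivatives depend polynomially on the direction. -/
theorem poly_dep {σ : Type*} [Fintype σ] (F : MvPolynomial σ K) (N : ℕ)
    (φ : MvPolynomial σ K →ₗ[K] K) :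
    ∃ Q : MvPolynomial σ K, ∀ v : σ → K, φ ((E v ^ N) F) = eval v Q := by
  induction N generalizing φ with
  | zero => exact ⟨C (φ F), fun v => by rw [pow_zero, Module.End.one_apply, eval_C]⟩
  | succ N ih =>
    choose Q hQ using fun i : σ => ih (φ ∘ₗ (pderiv i).toLinearMap)
    refine ⟨∑ i, X i * Q i, fun v => ?_⟩
    rw [pow_succ', Module.End.mul_apply, E_apply, DD_apply, map_sum, map_sum]
    refine Finset.sum_congr rfl fun i _ => ?_
    rw [map_smul, smul_eq_mul, map_mul, eval_X, ← hQ i v]
    rfl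

theorem exists_poly {n s : ℕ} (b N : ℕ) (j : Fin s) (p0 : Fin s → Fin (n + 1) → K)
    (h0 : ∀ h : Fin s → MvPolynomial (Fin (n + 1)) K, (∀ l, (h l).IsHomogeneous b) →
      ∃ G : MvPolynomial (Fin (n + 1)) K, G.IsHomogeneous (b + N) ∧
        ∀ l, l ≠ j → (E (p0 l) ^ N) G = h l) :
    ∃ P : MvPolynomial (Fin s × Fin (n + 1)) K, P ≠ 0 ∧ ∀ p : Fin s → Fin (n + 1) → K,
      eval (fun x : Fin s × Fin (n + 1) => p x.1 x.2) P ≠ 0 →
      ∀ h : Fin s → MvPolynomial (Fin (n + 1)) K, (∀ l, (h l).IsHomogeneous b) →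
      ∃ G : MvPolynomial (Fin (n + 1)) K, G.IsHomogeneous (b + N) ∧
        ∀ l, l ≠ j → (E (p l) ^ N) G = h l := by
  classical
  let V := homogeneousSubmodule (Fin (n + 1)) K b
  let B : Module.Basis (Fin (Module.finrank K V)) K V := Module.finBasis K V
  let T := {l : Fin s // l ≠ j} × Fin (Module.finrank K V)
  have hG : ∀ t : T, ∃ G : MvPolynomial (Fin (n + 1)) K, G.IsHomogeneous (b + N) ∧
      ∀ l, l ≠ j → (E (p0 l) ^ N) G =
        if l = t.1.1 then (B t.2 : MvPolynomial (Fin (n + 1)) K) else 0 := by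
    intro t
    refine h0 _ fun l => ?_
    split_ifs
    · exact (B t.2).2
    · exact isHomogeneous_zero _ _ _
  choose G hGh hGe using hG
  have hφ : ∀ a, ∃ φ : MvPolynomial (Fin (n + 1)) K →ₗ[K] K, φ ∘ₗ V.subtype = B.coord a :=
    fun a => LinearMap.exists_extend _
  choose φ hφ using hφ
  have hφ' : ∀ a (x : V), φ a x.1 = B.coord a x := fun a x => by rw [← hφ a]; rfl
  choose Q hQ using fun (t t' : T) => poly_dep (G t) N (φ t'.2)
  let M : Matrix T T (MvPolynomial (Fin s × Fin (n + 1)) K) :=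
    fun t t' => rename (fun k => (t'.1.1, k)) (Q t t')
  have hM : ∀ (p : Fin s → Fin (n + 1) → K) t t',
      eval (fun x : Fin s × Fin (n + 1) => p x.1 x.2) (M t t') =
        φ t'.2 ((E (p t'.1.1) ^ N) (G t)) := by
    intro p t t'
    rw [hQ t t' (p t'.1.1)]
    change eval _ (rename _ (Q t t')) = _
    rw [eval_rename]
    rfl
  have hdet : ∀ p : Fin s → Fin (n + 1) → K, eval (fun x : Fin s × Fin (n + 1) => p x.1 x.2) M.det =
      (Matrix.of fun t t' : T => φ t'.2 ((E (p t'.1.1) ^ N) (G t))).det := by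
    intro p
    rw [RingHom.map_det]
    congr 1
    ext t t'
    exact hM p t t'
  refine ⟨M.det, ?_, ?_⟩
  · intro h
    have h1 := hdet p0
    rw [h, map_zero] at h1
    have h2 : (Matrix.of fun t t' : T => φ t'.2 ((E (p0 t'.1.1) ^ N) (G t))) =
        (1 : Matrix T T K) := by
      ext t t'
      rw [Matrix.of_apply, hGe t t'.1.1 t'.1.2, Matrix.one_apply]
      by_cases h3 : t'.1.1 = t.1.1
      · rw [if_pos h3, hφ', Module.Basis.coord_apply, Module.Basis.repr_self, Finsupp.single_apply]
        have h4 : t'.1 = t.1 := Subtype.ext h3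
        by_cases h5 : t.2 = t'.2
        · rw [if_pos h5, if_pos (Prod.ext h4.symm h5)]
        · rw [if_neg h5, if_neg (fun h => h5 (congrArg Prod.snd h))]
      · rw [if_neg h3, map_zero, if_neg]
        intro h6
        exact h3 (by rw [h6])
    rw [h2, Matrix.det_one] at h1
    exact one_ne_zero h1.symm
  · intro p hp h hh
    let A : Matrix T T K := Matrix.of fun t t' : T => φ t'.2 ((E (p t'.1.1) ^ N) (G t))
    have hAd : IsUnit A.det := isUnit_iff_ne_zero.mpr (by rw [← hdet p]; exact hp)
    let w : T → K := fun t => B.coord t.2 ⟨h t.1.1, hh t.1.1⟩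
    let c : T → K := Matrix.vecMul w A⁻¹
    have hc : Matrix.vecMul c A = w := by
      change Matrix.vecMul (Matrix.vecMul w A⁻¹) A = w
      rw [Matrix.vecMul_vecMul, Matrix.nonsing_inv_mul _ hAd, Matrix.vecMul_one]
    have hsum : (∑ t, c t • G t).IsHomogeneous (b + N) :=
      (homogeneousSubmodule (Fin (n + 1)) K (b + N)).sum_mem
        fun t _ => Submodule.smul_mem _ _ (hGh t)
    refine ⟨∑ t, c t • G t, hsum, ?_⟩
    intro l hl
    have hom : ((E (p l) ^ N) (∑ t, c t • G t)).IsHomogeneous b := Epow_hom _ _ hsum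
    have key : (⟨_, hom⟩ : V) = ⟨h l, hh l⟩ := by
      apply B.ext_elem
      intro a
      rw [← Module.Basis.coord_apply, ← Module.Basis.coord_apply, ← hφ']
      change φ a ((E (p l) ^ N) (∑ t, c t • G t)) = _
      rw [map_sum, map_sum]
      have h7 := congrFun hc (⟨l, hl⟩, a)
      rw [show (B.coord a) ⟨h l, hh l⟩ = w (⟨l, hl⟩, a) from rfl, ← h7]
      change _ = ∑ t, c t * A t (⟨l, hl⟩, a)
      refine Finset.sum_congr rfl fun t _ => ?_
      rw [map_smul, map_smul, smul_eq_mul]
      rfl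
    exact congrArg Subtype.val key

variable [CharZero K]

theorem exists_general {n s : ℕ} (b N : ℕ) (hN : b + n ≤ N) (hs : s ≤ 2 ^ n + 1) :
    ∃ P : MvPolynomial (Fin s × Fin (n + 1)) K, P ≠ 0 ∧ ∀ p : Fin s → Fin (n + 1) → K,
      eval (fun x : Fin s × Fin (n + 1) => p x.1 x.2) P ≠ 0 →
      ∀ j, ∀ h : Fin s → MvPolynomial (Fin (n + 1)) K, (∀ l, (h l).IsHomogeneous b) →
      ∃ G : MvPolynomial (Fin (n + 1)) K, G.IsHomogeneous (b + N) ∧
        ∀ l, l ≠ j → (E (p l) ^ N) G = h l := by
  classical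
  have h1 : ∀ j : Fin s, ∃ P : MvPolynomial (Fin s × Fin (n + 1)) K, P ≠ 0 ∧
      ∀ p : Fin s → Fin (n + 1) → K, eval (fun x : Fin s × Fin (n + 1) => p x.1 x.2) P ≠ 0 →
      ∀ h : Fin s → MvPolynomial (Fin (n + 1)) K, (∀ l, (h l).IsHomogeneous b) →
      ∃ G : MvPolynomial (Fin (n + 1)) K, G.IsHomogeneous (b + N) ∧
        ∀ l, l ≠ j → (E (p l) ^ N) G = h l := by
    intro j
    have hcard : Fintype.card {l : Fin s // l ≠ j} ≤ Fintype.card (Fin n → Bool) := by
      rw [Fintype.card_subtype_compl, Fintype.card_subtype_eq, Fintype.card_fin]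
      simp only [Fintype.card_pi, Fintype.card_bool, Finset.prod_const, Finset.card_univ,
        Fintype.card_fin]
      have h2n : 1 ≤ 2 ^ n := Nat.one_le_two_pow
      omega
    obtain ⟨e⟩ := Function.Embedding.nonempty_of_card_le hcard
    refine exists_poly b N j (fun l => if h : l ≠ j then qq (e ⟨l, h⟩) else 0) ?_
    intro h hh
    obtain ⟨G, hG, hGe⟩ := grid_surj (K := K) (n := n) b N hN
      (Function.extend e (fun l => h l.1) (fun _ => 0)) (by
        intro δ
        by_cases hδ : ∃ l, e l = δ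
        · obtain ⟨l, rfl⟩ := hδ
          rw [e.injective.extend_apply]
          exact hh _
        · rw [Function.extend_apply' _ _ _ hδ]
          exact isHomogeneous_zero _ _ _)
    refine ⟨G, hG, fun l hl => ?_⟩
    rw [dif_pos hl, hGe, e.injective.extend_apply]
  choose P hP0 hP using h1
  refine ⟨∏ j, P j, Finset.prod_ne_zero_iff.mpr fun j _ => hP0 j, fun p hp j => ?_⟩
  rw [map_prod, Finset.prod_ne_zero_iff] at hp
  exact hP j p (hp j (Finset.mem_univ _))

/-- The lower bound with the correction by the lines through pairs of points, for general points. -/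
theorem pair_bound {n s : ℕ} (b N : ℕ) (hN : b + n ≤ N) (hs : s ≤ 2 ^ n + 1) :
    ∃ P : MvPolynomial (Fin s × Fin (n + 1)) K, P ≠ 0 ∧ ∀ p : Fin s → Fin (n + 1) → K,
      eval (fun x : Fin s × Fin (n + 1) => p x.1 x.2) P ≠ 0 →
      (n + (b + N + N)).choose n + s.choose 2 * (n + b).choose n ≤
        Module.finrank K (LinearMap.ker (Psi p N b)) + s * (n + (b + N)).choose n := by
  classical
  obtain ⟨P, hP0, hP⟩ := exists_general (K := K) b N hN hs
  refine ⟨P, hP0, fun p hp => ?_⟩
  have h := count0 p N b (fun i j hij h => by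
    obtain ⟨G, hG, hGe⟩ := hP p hp j (fun l => if l = i then (h : MvPolynomial (Fin (n + 1)) K)
      else 0) (by
        intro l
        split_ifs
        · exact h.2
        · exact isHomogeneous_zero _ _ _)
    refine ⟨⟨G, hG⟩, Subtype.ext ?_, fun l hli hlj => Subtype.ext ?_⟩
    · rw [Dres_coe, hGe i hij, if_pos rfl]
    · rw [Dres_coe, hGe l hlj, if_neg hli]
      rfl)
  rwa [finrank_hom, finrank_hom, finrank_hom] at h

omit [CharZero K] in
/-- The trivial lower bound. -/
theorem simple_bound {n s : ℕ} (p : Fin s → Fin (n + 1) → K) (c N : ℕ) :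
    (n + (c + N)).choose n ≤
      Module.finrank K (LinearMap.ker (LinearMap.pi fun j => Dres (p j) N c)) +
        s * (n + c).choose n := by
  have h1 := LinearMap.finrank_range_add_finrank_ker (LinearMap.pi fun j => Dres (p j) N c)
  have h2 := Submodule.finrank_le (LinearMap.range (LinearMap.pi fun j => Dres (p j) N c))
  have h4 : Module.finrank K (Fin s → ↥(homogeneousSubmodule (Fin (n + 1)) K c)) =
      s * (n + c).choose n := by
    rw [Module.finrank_pi_fintype, ← finrank_hom (k := K)]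
    simp
  rw [h4] at h2
  rw [finrank_hom] at h1
  omega

end Pool.Agent.TH142.WF
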