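import Pool.Agent.TH142.WF.Three

set_option autoImplicit false
set_option maxHeartbeats 4000000

/-!
# Empty systems in low dimension
-/

namespace Pool.Agent.TH142.WF

theorem choose6 (a : ℕ) : 720 * (a.choose 6 : ℤ) =
    a * (a - 1) * (a - 2) * (a - 3) * (a - 4) * (a - 5) := by
  induction a with
  | zero => simp
  | succ a ih =>
    rw [Nat.choose_succ_succ' a 5]
    push_cast
    linear_combination ih + 6 * choose5 a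

theorem bigc_6_13 {d : ℕ} (hd : 3 ≤ d) :
    lvdim 6 d (fun _ : Fin 13 => (2 * d + 2) / 3) < 0 := by
  rw [lvdim_pairs (by norm_num) (fun c hc hcn => by
    rcases (by omega : c = 3 ∨ c = 4 ∨ c = 5 ∨ c = 6) with rfl | rfl | rfl | rfl <;> omega),
    show ((13 : ℕ).choose 2 : ℤ) = 78 by decide +kernel]
  rcases (by omega : d % 3 = 0 ∨ d % 3 = 1 ∨ d % 3 = 2) with h | h | h
  · obtain ⟨u, rfl⟩ : ∃ u, d = 3 * (u + 1) + 0 := ⟨d / 3 - 1, by omega⟩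
    rw [show 6 + (3 * (u + 1) + 0) = 3 * u + 9 by ring,
      show 6 + (2 * (3 * (u + 1) + 0) + 2) / 3 - 1 = 2 * u + 7 by omega,
      show 6 + (2 * ((2 * (3 * (u + 1) + 0) + 2) / 3) - (3 * (u + 1) + 0)) - 2 = u + 5 by omega]
    have h0 : (0 : ℤ) < 5040 * (u : ℤ) ^ 0 + 18720 * (u : ℤ) ^ 1 + 22870 * (u : ℤ) ^ 2 + 13455 * (u : ℤ) ^ 3 + 4105 * (u : ℤ) ^ 4 + 585 * (u : ℤ) ^ 5 + 25 * (u : ℤ) ^ 6 := by
      clear h hd
      positivity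
    have e1 := choose6 (3 * u + 9)
    have e2 := choose6 (2 * u + 7)
    have e3 := choose6 (u + 5)
    push_cast at e1 e2 e3 ⊢
    have key : 720 * (((3 * u + 9).choose 6 : ℤ) - 13 * ((2 * u + 7).choose 6 : ℤ) +
        78 * ((u + 5).choose 6 : ℤ)) = -(5040 * (u : ℤ) ^ 0 + 18720 * (u : ℤ) ^ 1 + 22870 * (u : ℤ) ^ 2 + 13455 * (u : ℤ) ^ 3 + 4105 * (u : ℤ) ^ 4 + 585 * (u : ℤ) ^ 5 + 25 * (u : ℤ) ^ 6) := by
      linear_combination e1 - 13 * e2 + 78 * e3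
    linarith only [key, h0]
  · obtain ⟨u, rfl⟩ : ∃ u, d = 3 * (u + 1) + 1 := ⟨d / 3 - 1, by omega⟩
    rw [show 6 + (3 * (u + 1) + 1) = 3 * u + 10 by ring,
      show 6 + (2 * (3 * (u + 1) + 1) + 2) / 3 - 1 = 2 * u + 8 by omega,
      show 6 + (2 * ((2 * (3 * (u + 1) + 1) + 2) / 3) - (3 * (u + 1) + 1)) - 2 = u + 6 by omega]
    have h0 : (0 : ℤ) < 54720 * (u : ℤ) ^ 0 + 117180 * (u : ℤ) ^ 1 + 104620 * (u : ℤ) ^ 2 + 47985 * (u : ℤ) ^ 3 + 11275 * (u : ℤ) ^ 4 + 1155 * (u : ℤ) ^ 5 + 25 * (u : ℤ) ^ 6 := by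
      clear h hd
      positivity
    have e1 := choose6 (3 * u + 10)
    have e2 := choose6 (2 * u + 8)
    have e3 := choose6 (u + 6)
    push_cast at e1 e2 e3 ⊢
    have key : 720 * (((3 * u + 10).choose 6 : ℤ) - 13 * ((2 * u + 8).choose 6 : ℤ) +
        78 * ((u + 6).choose 6 : ℤ)) = -(54720 * (u : ℤ) ^ 0 + 117180 * (u : ℤ) ^ 1 + 104620 * (u : ℤ) ^ 2 + 47985 * (u : ℤ) ^ 3 + 11275 * (u : ℤ) ^ 4 + 1155 * (u : ℤ) ^ 5 + 25 * (u : ℤ) ^ 6) := by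
      linear_combination e1 - 13 * e2 + 78 * e3
    linarith only [key, h0]
  · obtain ⟨u, rfl⟩ : ∃ u, d = 3 * (u + 1) + 2 := ⟨d / 3 - 1, by omega⟩
    rw [show 6 + (3 * (u + 1) + 2) = 3 * u + 11 by ring,
      show 6 + (2 * (3 * (u + 1) + 2) + 2) / 3 - 1 = 2 * u + 9 by omega,
      show 6 + (2 * ((2 * (3 * (u + 1) + 2) + 2) / 3) - (3 * (u + 1) + 2)) - 2 = u + 7 by omega]
    have h0 : (0 : ℤ) < 60480 * (u : ℤ) ^ 0 + 204420 * (u : ℤ) ^ 1 + 209020 * (u : ℤ) ^ 2 + 94095 * (u : ℤ) ^ 3 + 19915 * (u : ℤ) ^ 4 + 1725 * (u : ℤ) ^ 5 + 25 * (u : ℤ) ^ 6 := by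
      clear h hd
      positivity
    have e1 := choose6 (3 * u + 11)
    have e2 := choose6 (2 * u + 9)
    have e3 := choose6 (u + 7)
    push_cast at e1 e2 e3 ⊢
    have key : 720 * (((3 * u + 11).choose 6 : ℤ) - 13 * ((2 * u + 9).choose 6 : ℤ) +
        78 * ((u + 7).choose 6 : ℤ)) = -(60480 * (u : ℤ) ^ 0 + 204420 * (u : ℤ) ^ 1 + 209020 * (u : ℤ) ^ 2 + 94095 * (u : ℤ) ^ 3 + 19915 * (u : ℤ) ^ 4 + 1725 * (u : ℤ) ^ 5 + 25 * (u : ℤ) ^ 6) := by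
      linear_combination e1 - 13 * e2 + 78 * e3
    linarith only [key, h0]

theorem allc_6_13 {d m : ℕ} (hd : 3 ≤ d) (h2 : d + 2 ≤ 2 * m) (h3 : 2 * d + 3 < 3 * m + 4) :
    ldim 6 d (fun _ : Fin 13 => m) = 0 := by
  exact ldim_zero (fun _ => (2 * d + 2) / 3) (fun _ => by omega) (bigc_6_13 hd)

theorem bigc_6_14 {d : ℕ} (hd : 3 ≤ d) :
    lvdim 6 d (fun _ : Fin 14 => (2 * d + 2) / 3) < 0 := by
  rw [lvdim_pairs (by norm_num) (fun c hc hcn => by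
    rcases (by omega : c = 3 ∨ c = 4 ∨ c = 5 ∨ c = 6) with rfl | rfl | rfl | rfl <;> omega),
    show ((14 : ℕ).choose 2 : ℤ) = 91 by decide +kernel]
  rcases (by omega : d % 3 = 0 ∨ d % 3 = 1 ∨ d % 3 = 2) with h | h | h
  · obtain ⟨u, rfl⟩ : ∃ u, d = 3 * (u + 1) + 0 := ⟨d / 3 - 1, by omega⟩
    rw [show 6 + (3 * (u + 1) + 0) = 3 * u + 9 by ring,
      show 6 + (2 * (3 * (u + 1) + 0) + 2) / 3 - 1 = 2 * u + 7 by omega,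
      show 6 + (2 * ((2 * (3 * (u + 1) + 0) + 2) / 3) - (3 * (u + 1) + 0)) - 2 = u + 5 by omega]
    have h0 : (0 : ℤ) < 10080 * (u : ℤ) ^ 0 + 33216 * (u : ℤ) ^ 1 + 39724 * (u : ℤ) ^ 2 + 23850 * (u : ℤ) ^ 3 + 7720 * (u : ℤ) ^ 4 + 1254 * (u : ℤ) ^ 5 + 76 * (u : ℤ) ^ 6 := by
      clear h hd
      positivity
    have e1 := choose6 (3 * u + 9)
    have e2 := choose6 (2 * u + 7)
    have e3 := choose6 (u + 5)
    push_cast at e1 e2 e3 ⊢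
    have key : 720 * (((3 * u + 9).choose 6 : ℤ) - 14 * ((2 * u + 7).choose 6 : ℤ) +
        91 * ((u + 5).choose 6 : ℤ)) = -(10080 * (u : ℤ) ^ 0 + 33216 * (u : ℤ) ^ 1 + 39724 * (u : ℤ) ^ 2 + 23850 * (u : ℤ) ^ 3 + 7720 * (u : ℤ) ^ 4 + 1254 * (u : ℤ) ^ 5 + 76 * (u : ℤ) ^ 6) := by
      linear_combination e1 - 14 * e2 + 91 * e3
    linarith only [key, h0]
  · obtain ⟨u, rfl⟩ : ∃ u, d = 3 * (u + 1) + 1 := ⟨d / 3 - 1, by omega⟩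
    rw [show 6 + (3 * (u + 1) + 1) = 3 * u + 10 by ring,
      show 6 + (2 * (3 * (u + 1) + 1) + 2) / 3 - 1 = 2 * u + 8 by omega,
      show 6 + (2 * ((2 * (3 * (u + 1) + 1) + 2) / 3) - (3 * (u + 1) + 1)) - 2 = u + 6 by omega]
    have h0 : (0 : ℤ) < 65520 * (u : ℤ) ^ 0 + 143352 * (u : ℤ) ^ 1 + 132124 * (u : ℤ) ^ 2 + 63510 * (u : ℤ) ^ 3 + 16120 * (u : ℤ) ^ 4 + 1938 * (u : ℤ) ^ 5 + 76 * (u : ℤ) ^ 6 := by
      clear h hd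
      positivity
    have e1 := choose6 (3 * u + 10)
    have e2 := choose6 (2 * u + 8)
    have e3 := choose6 (u + 6)
    push_cast at e1 e2 e3 ⊢
    have key : 720 * (((3 * u + 10).choose 6 : ℤ) - 14 * ((2 * u + 8).choose 6 : ℤ) +
        91 * ((u + 6).choose 6 : ℤ)) = -(65520 * (u : ℤ) ^ 0 + 143352 * (u : ℤ) ^ 1 + 132124 * (u : ℤ) ^ 2 + 63510 * (u : ℤ) ^ 3 + 16120 * (u : ℤ) ^ 4 + 1938 * (u : ℤ) ^ 5 + 76 * (u : ℤ) ^ 6) := by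
      linear_combination e1 - 14 * e2 + 91 * e3
    linarith only [key, h0]
  · obtain ⟨u, rfl⟩ : ∃ u, d = 3 * (u + 1) + 2 := ⟨d / 3 - 1, by omega⟩
    rw [show 6 + (3 * (u + 1) + 2) = 3 * u + 11 by ring,
      show 6 + (2 * (3 * (u + 1) + 2) + 2) / 3 - 1 = 2 * u + 9 by omega,
      show 6 + (2 * ((2 * (3 * (u + 1) + 2) + 2) / 3) - (3 * (u + 1) + 2)) - 2 = u + 7 by omega]
    have h0 : (0 : ℤ) < 55440 * (u : ℤ) ^ 0 + 220488 * (u : ℤ) ^ 1 + 240964 * (u : ℤ) ^ 2 + 114570 * (u : ℤ) ^ 3 + 26080 * (u : ℤ) ^ 4 + 2622 * (u : ℤ) ^ 5 + 76 * (u : ℤ) ^ 6 := by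
      clear h hd
      positivity
    have e1 := choose6 (3 * u + 11)
    have e2 := choose6 (2 * u + 9)
    have e3 := choose6 (u + 7)
    push_cast at e1 e2 e3 ⊢
    have key : 720 * (((3 * u + 11).choose 6 : ℤ) - 14 * ((2 * u + 9).choose 6 : ℤ) +
        91 * ((u + 7).choose 6 : ℤ)) = -(55440 * (u : ℤ) ^ 0 + 220488 * (u : ℤ) ^ 1 + 240964 * (u : ℤ) ^ 2 + 114570 * (u : ℤ) ^ 3 + 26080 * (u : ℤ) ^ 4 + 2622 * (u : ℤ) ^ 5 + 76 * (u : ℤ) ^ 6) := by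
      linear_combination e1 - 14 * e2 + 91 * e3
    linarith only [key, h0]

theorem allc_6_14 {d m : ℕ} (hd : 3 ≤ d) (h2 : d + 2 ≤ 2 * m) (h3 : 2 * d + 3 < 3 * m + 4) :
    ldim 6 d (fun _ : Fin 14 => m) = 0 := by
  exact ldim_zero (fun _ => (2 * d + 2) / 3) (fun _ => by omega) (bigc_6_14 hd)

theorem bigc_6_15 {d : ℕ} (hd : 3 ≤ d) :
    lvdim 6 d (fun _ : Fin 15 => (2 * d + 2) / 3) < 0 := by
  rw [lvdim_pairs (by norm_num) (fun c hc hcn => by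
    rcases (by omega : c = 3 ∨ c = 4 ∨ c = 5 ∨ c = 6) with rfl | rfl | rfl | rfl <;> omega),
    show ((15 : ℕ).choose 2 : ℤ) = 105 by decide +kernel]
  rcases (by omega : d % 3 = 0 ∨ d % 3 = 1 ∨ d % 3 = 2) with h | h | h
  · obtain ⟨u, rfl⟩ : ∃ u, d = 3 * (u + 1) + 0 := ⟨d / 3 - 1, by omega⟩
    rw [show 6 + (3 * (u + 1) + 0) = 3 * u + 9 by ring,
      show 6 + (2 * (3 * (u + 1) + 0) + 2) / 3 - 1 = 2 * u + 7 by omega,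
      show 6 + (2 * ((2 * (3 * (u + 1) + 0) + 2) / 3) - (3 * (u + 1) + 0)) - 2 = u + 5 by omega]
    have h0 : (0 : ℤ) < 15120 * (u : ℤ) ^ 0 + 47592 * (u : ℤ) ^ 1 + 56304 * (u : ℤ) ^ 2 + 34020 * (u : ℤ) ^ 3 + 11250 * (u : ℤ) ^ 4 + 1908 * (u : ℤ) ^ 5 + 126 * (u : ℤ) ^ 6 := by
      clear h hd
      positivity
    have e1 := choose6 (3 * u + 9)
    have e2 := choose6 (2 * u + 7)
    have e3 := choose6 (u + 5)
    push_cast at e1 e2 e3 ⊢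
    have key : 720 * (((3 * u + 9).choose 6 : ℤ) - 15 * ((2 * u + 7).choose 6 : ℤ) +
        105 * ((u + 5).choose 6 : ℤ)) = -(15120 * (u : ℤ) ^ 0 + 47592 * (u : ℤ) ^ 1 + 56304 * (u : ℤ) ^ 2 + 34020 * (u : ℤ) ^ 3 + 11250 * (u : ℤ) ^ 4 + 1908 * (u : ℤ) ^ 5 + 126 * (u : ℤ) ^ 6) := by
      linear_combination e1 - 15 * e2 + 105 * e3
    linarith only [key, h0]
  · obtain ⟨u, rfl⟩ : ∃ u, d = 3 * (u + 1) + 1 := ⟨d / 3 - 1, by omega⟩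
    rw [show 6 + (3 * (u + 1) + 1) = 3 * u + 10 by ring,
      show 6 + (2 * (3 * (u + 1) + 1) + 2) / 3 - 1 = 2 * u + 8 by omega,
      show 6 + (2 * ((2 * (3 * (u + 1) + 1) + 2) / 3) - (3 * (u + 1) + 1)) - 2 = u + 6 by omega]
    have h0 : (0 : ℤ) < 75600 * (u : ℤ) ^ 0 + 167760 * (u : ℤ) ^ 1 + 158004 * (u : ℤ) ^ 2 + 78300 * (u : ℤ) ^ 3 + 20790 * (u : ℤ) ^ 4 + 2700 * (u : ℤ) ^ 5 + 126 * (u : ℤ) ^ 6 := by
      clear h hd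
      positivity
    have e1 := choose6 (3 * u + 10)
    have e2 := choose6 (2 * u + 8)
    have e3 := choose6 (u + 6)
    push_cast at e1 e2 e3 ⊢
    have key : 720 * (((3 * u + 10).choose 6 : ℤ) - 15 * ((2 * u + 8).choose 6 : ℤ) +
        105 * ((u + 6).choose 6 : ℤ)) = -(75600 * (u : ℤ) ^ 0 + 167760 * (u : ℤ) ^ 1 + 158004 * (u : ℤ) ^ 2 + 78300 * (u : ℤ) ^ 3 + 20790 * (u : ℤ) ^ 4 + 2700 * (u : ℤ) ^ 5 + 126 * (u : ℤ) ^ 6) := by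
      linear_combination e1 - 15 * e2 + 105 * e3
    linarith only [key, h0]
  · obtain ⟨u, rfl⟩ : ∃ u, d = 3 * (u + 1) + 2 := ⟨d / 3 - 1, by omega⟩
    rw [show 6 + (3 * (u + 1) + 2) = 3 * u + 11 by ring,
      show 6 + (2 * (3 * (u + 1) + 2) + 2) / 3 - 1 = 2 * u + 9 by omega,
      show 6 + (2 * ((2 * (3 * (u + 1) + 2) + 2) / 3) - (3 * (u + 1) + 2)) - 2 = u + 7 by omega]
    have h0 : (0 : ℤ) < 45360 * (u : ℤ) ^ 0 + 228528 * (u : ℤ) ^ 1 + 267804 * (u : ℤ) ^ 2 + 133380 * (u : ℤ) ^ 3 + 31950 * (u : ℤ) ^ 4 + 3492 * (u : ℤ) ^ 5 + 126 * (u : ℤ) ^ 6 := by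
      clear h hd
      positivity
    have e1 := choose6 (3 * u + 11)
    have e2 := choose6 (2 * u + 9)
    have e3 := choose6 (u + 7)
    push_cast at e1 e2 e3 ⊢
    have key : 720 * (((3 * u + 11).choose 6 : ℤ) - 15 * ((2 * u + 9).choose 6 : ℤ) +
        105 * ((u + 7).choose 6 : ℤ)) = -(45360 * (u : ℤ) ^ 0 + 228528 * (u : ℤ) ^ 1 + 267804 * (u : ℤ) ^ 2 + 133380 * (u : ℤ) ^ 3 + 31950 * (u : ℤ) ^ 4 + 3492 * (u : ℤ) ^ 5 + 126 * (u : ℤ) ^ 6) := by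
      linear_combination e1 - 15 * e2 + 105 * e3
    linarith only [key, h0]

theorem allc_6_15 {d m : ℕ} (hd : 3 ≤ d) (h2 : d + 2 ≤ 2 * m) (h3 : 2 * d + 3 < 3 * m + 4) :
    ldim 6 d (fun _ : Fin 15 => m) = 0 := by
  exact ldim_zero (fun _ => (2 * d + 2) / 3) (fun _ => by omega) (bigc_6_15 hd)

theorem bigc_6_16 {d : ℕ} (hd : 3 ≤ d) :
    lvdim 6 d (fun _ : Fin 16 => (2 * d + 2) / 3) < 0 := by
  rw [lvdim_pairs (by norm_num) (fun c hc hcn => by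
    rcases (by omega : c = 3 ∨ c = 4 ∨ c = 5 ∨ c = 6) with rfl | rfl | rfl | rfl <;> omega),
    show ((16 : ℕ).choose 2 : ℤ) = 120 by decide +kernel]
  rcases (by omega : d % 3 = 0 ∨ d % 3 = 1 ∨ d % 3 = 2) with h | h | h
  · obtain ⟨u, rfl⟩ : ∃ u, d = 3 * (u + 1) + 0 := ⟨d / 3 - 1, by omega⟩
    rw [show 6 + (3 * (u + 1) + 0) = 3 * u + 9 by ring,
      show 6 + (2 * (3 * (u + 1) + 0) + 2) / 3 - 1 = 2 * u + 7 by omega,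
      show 6 + (2 * ((2 * (3 * (u + 1) + 0) + 2) / 3) - (3 * (u + 1) + 0)) - 2 = u + 5 by omega]
    have h0 : (0 : ℤ) < 20160 * (u : ℤ) ^ 0 + 61848 * (u : ℤ) ^ 1 + 72610 * (u : ℤ) ^ 2 + 43965 * (u : ℤ) ^ 3 + 14695 * (u : ℤ) ^ 4 + 2547 * (u : ℤ) ^ 5 + 175 * (u : ℤ) ^ 6 := by
      clear h hd
      positivity
    have e1 := choose6 (3 * u + 9)
    have e2 := choose6 (2 * u + 7)
    have e3 := choose6 (u + 5)
    push_cast at e1 e2 e3 ⊢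
    have key : 720 * (((3 * u + 9).choose 6 : ℤ) - 16 * ((2 * u + 7).choose 6 : ℤ) +
        120 * ((u + 5).choose 6 : ℤ)) = -(20160 * (u : ℤ) ^ 0 + 61848 * (u : ℤ) ^ 1 + 72610 * (u : ℤ) ^ 2 + 43965 * (u : ℤ) ^ 3 + 14695 * (u : ℤ) ^ 4 + 2547 * (u : ℤ) ^ 5 + 175 * (u : ℤ) ^ 6) := by
      linear_combination e1 - 16 * e2 + 120 * e3
    linarith only [key, h0]
  · obtain ⟨u, rfl⟩ : ∃ u, d = 3 * (u + 1) + 1 := ⟨d / 3 - 1, by omega⟩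
    rw [show 6 + (3 * (u + 1) + 1) = 3 * u + 10 by ring,
      show 6 + (2 * (3 * (u + 1) + 1) + 2) / 3 - 1 = 2 * u + 8 by omega,
      show 6 + (2 * ((2 * (3 * (u + 1) + 1) + 2) / 3) - (3 * (u + 1) + 1)) - 2 = u + 6 by omega]
    have h0 : (0 : ℤ) < 84960 * (u : ℤ) ^ 0 + 190404 * (u : ℤ) ^ 1 + 182260 * (u : ℤ) ^ 2 + 92355 * (u : ℤ) ^ 3 + 25285 * (u : ℤ) ^ 4 + 3441 * (u : ℤ) ^ 5 + 175 * (u : ℤ) ^ 6 := by
      clear h hd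
      positivity
    have e1 := choose6 (3 * u + 10)
    have e2 := choose6 (2 * u + 8)
    have e3 := choose6 (u + 6)
    push_cast at e1 e2 e3 ⊢
    have key : 720 * (((3 * u + 10).choose 6 : ℤ) - 16 * ((2 * u + 8).choose 6 : ℤ) +
        120 * ((u + 6).choose 6 : ℤ)) = -(84960 * (u : ℤ) ^ 0 + 190404 * (u : ℤ) ^ 1 + 182260 * (u : ℤ) ^ 2 + 92355 * (u : ℤ) ^ 3 + 25285 * (u : ℤ) ^ 4 + 3441 * (u : ℤ) ^ 5 + 175 * (u : ℤ) ^ 6) := by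
      linear_combination e1 - 16 * e2 + 120 * e3
    linarith only [key, h0]
  · obtain ⟨u, rfl⟩ : ∃ u, d = 3 * (u + 1) + 2 := ⟨d / 3 - 1, by omega⟩
    rw [show 6 + (3 * (u + 1) + 2) = 3 * u + 11 by ring,
      show 6 + (2 * (3 * (u + 1) + 2) + 2) / 3 - 1 = 2 * u + 9 by omega,
      show 6 + (2 * ((2 * (3 * (u + 1) + 2) + 2) / 3) - (3 * (u + 1) + 2)) - 2 = u + 7 by omega]
    have h0 : (0 : ℤ) < 30240 * (u : ℤ) ^ 0 + 228540 * (u : ℤ) ^ 1 + 289540 * (u : ℤ) ^ 2 + 150525 * (u : ℤ) ^ 3 + 37525 * (u : ℤ) ^ 4 + 4335 * (u : ℤ) ^ 5 + 175 * (u : ℤ) ^ 6 := by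
      clear h hd
      positivity
    have e1 := choose6 (3 * u + 11)
    have e2 := choose6 (2 * u + 9)
    have e3 := choose6 (u + 7)
    push_cast at e1 e2 e3 ⊢
    have key : 720 * (((3 * u + 11).choose 6 : ℤ) - 16 * ((2 * u + 9).choose 6 : ℤ) +
        120 * ((u + 7).choose 6 : ℤ)) = -(30240 * (u : ℤ) ^ 0 + 228540 * (u : ℤ) ^ 1 + 289540 * (u : ℤ) ^ 2 + 150525 * (u : ℤ) ^ 3 + 37525 * (u : ℤ) ^ 4 + 4335 * (u : ℤ) ^ 5 + 175 * (u : ℤ) ^ 6) := by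
      linear_combination e1 - 16 * e2 + 120 * e3
    linarith only [key, h0]

theorem allc_6_16 {d m : ℕ} (hd : 3 ≤ d) (h2 : d + 2 ≤ 2 * m) (h3 : 2 * d + 3 < 3 * m + 4) :
    ldim 6 d (fun _ : Fin 16 => m) = 0 := by
  exact ldim_zero (fun _ => (2 * d + 2) / 3) (fun _ => by omega) (bigc_6_16 hd)

theorem bigc_6_17 {d : ℕ} (hd : 3 ≤ d) :
    lvdim 6 d (fun _ : Fin 17 => (2 * d + 2) / 3) < 0 := by
  rw [lvdim_pairs (by norm_num) (fun c hc hcn => by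
    rcases (by omega : c = 3 ∨ c = 4 ∨ c = 5 ∨ c = 6) with rfl | rfl | rfl | rfl <;> omega),
    show ((17 : ℕ).choose 2 : ℤ) = 136 by decide +kernel]
  rcases (by omega : d % 3 = 0 ∨ d % 3 = 1 ∨ d % 3 = 2) with h | h | h
  · obtain ⟨u, rfl⟩ : ∃ u, d = 3 * (u + 1) + 0 := ⟨d / 3 - 1, by omega⟩
    rw [show 6 + (3 * (u + 1) + 0) = 3 * u + 9 by ring,
      show 6 + (2 * (3 * (u + 1) + 0) + 2) / 3 - 1 = 2 * u + 7 by omega,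
      show 6 + (2 * ((2 * (3 * (u + 1) + 0) + 2) / 3) - (3 * (u + 1) + 0)) - 2 = u + 5 by omega]
    have h0 : (0 : ℤ) < 25200 * (u : ℤ) ^ 0 + 75984 * (u : ℤ) ^ 1 + 88642 * (u : ℤ) ^ 2 + 53685 * (u : ℤ) ^ 3 + 18055 * (u : ℤ) ^ 4 + 3171 * (u : ℤ) ^ 5 + 223 * (u : ℤ) ^ 6 := by
      clear h hd
      positivity
    have e1 := choose6 (3 * u + 9)
    have e2 := choose6 (2 * u + 7)
    have e3 := choose6 (u + 5)
    push_cast at e1 e2 e3 ⊢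
    have key : 720 * (((3 * u + 9).choose 6 : ℤ) - 17 * ((2 * u + 7).choose 6 : ℤ) +
        136 * ((u + 5).choose 6 : ℤ)) = -(25200 * (u : ℤ) ^ 0 + 75984 * (u : ℤ) ^ 1 + 88642 * (u : ℤ) ^ 2 + 53685 * (u : ℤ) ^ 3 + 18055 * (u : ℤ) ^ 4 + 3171 * (u : ℤ) ^ 5 + 223 * (u : ℤ) ^ 6) := by
      linear_combination e1 - 17 * e2 + 136 * e3
    linarith only [key, h0]
  · obtain ⟨u, rfl⟩ : ∃ u, d = 3 * (u + 1) + 1 := ⟨d / 3 - 1, by omega⟩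
    rw [show 6 + (3 * (u + 1) + 1) = 3 * u + 10 by ring,
      show 6 + (2 * (3 * (u + 1) + 1) + 2) / 3 - 1 = 2 * u + 8 by omega,
      show 6 + (2 * ((2 * (3 * (u + 1) + 1) + 2) / 3) - (3 * (u + 1) + 1)) - 2 = u + 6 by omega]
    have h0 : (0 : ℤ) < 93600 * (u : ℤ) ^ 0 + 211284 * (u : ℤ) ^ 1 + 204892 * (u : ℤ) ^ 2 + 105675 * (u : ℤ) ^ 3 + 29605 * (u : ℤ) ^ 4 + 4161 * (u : ℤ) ^ 5 + 223 * (u : ℤ) ^ 6 := by
      clear h hd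
      positivity
    have e1 := choose6 (3 * u + 10)
    have e2 := choose6 (2 * u + 8)
    have e3 := choose6 (u + 6)
    push_cast at e1 e2 e3 ⊢
    have key : 720 * (((3 * u + 10).choose 6 : ℤ) - 17 * ((2 * u + 8).choose 6 : ℤ) +
        136 * ((u + 6).choose 6 : ℤ)) = -(93600 * (u : ℤ) ^ 0 + 211284 * (u : ℤ) ^ 1 + 204892 * (u : ℤ) ^ 2 + 105675 * (u : ℤ) ^ 3 + 29605 * (u : ℤ) ^ 4 + 4161 * (u : ℤ) ^ 5 + 223 * (u : ℤ) ^ 6) := by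
      linear_combination e1 - 17 * e2 + 136 * e3
    linarith only [key, h0]
  · obtain ⟨u, rfl⟩ : ∃ u, d = 3 * (u + 1) + 2 := ⟨d / 3 - 1, by omega⟩
    rw [show 6 + (3 * (u + 1) + 2) = 3 * u + 11 by ring,
      show 6 + (2 * (3 * (u + 1) + 2) + 2) / 3 - 1 = 2 * u + 9 by omega,
      show 6 + (2 * ((2 * (3 * (u + 1) + 2) + 2) / 3) - (3 * (u + 1) + 2)) - 2 = u + 7 by omega]
    have h0 : (0 : ℤ) < 10080 * (u : ℤ) ^ 0 + 220524 * (u : ℤ) ^ 1 + 306172 * (u : ℤ) ^ 2 + 166005 * (u : ℤ) ^ 3 + 42805 * (u : ℤ) ^ 4 + 5151 * (u : ℤ) ^ 5 + 223 * (u : ℤ) ^ 6 := by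
      clear h hd
      positivity
    have e1 := choose6 (3 * u + 11)
    have e2 := choose6 (2 * u + 9)
    have e3 := choose6 (u + 7)
    push_cast at e1 e2 e3 ⊢
    have key : 720 * (((3 * u + 11).choose 6 : ℤ) - 17 * ((2 * u + 9).choose 6 : ℤ) +
        136 * ((u + 7).choose 6 : ℤ)) = -(10080 * (u : ℤ) ^ 0 + 220524 * (u : ℤ) ^ 1 + 306172 * (u : ℤ) ^ 2 + 166005 * (u : ℤ) ^ 3 + 42805 * (u : ℤ) ^ 4 + 5151 * (u : ℤ) ^ 5 + 223 * (u : ℤ) ^ 6) := by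
      linear_combination e1 - 17 * e2 + 136 * e3
    linarith only [key, h0]

theorem allc_6_17 {d m : ℕ} (hd : 3 ≤ d) (h2 : d + 2 ≤ 2 * m) (h3 : 2 * d + 3 < 3 * m + 4) :
    ldim 6 d (fun _ : Fin 17 => m) = 0 := by
  exact ldim_zero (fun _ => (2 * d + 2) / 3) (fun _ => by omega) (bigc_6_17 hd)

end Pool.Agent.TH142.WF
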