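import Pool.Agent.TH142.WF.Num

set_option autoImplicit false
set_option maxHeartbeats 4000000

/-!
# Empty systems in low dimension
-/

namespace Pool.Agent.TH142.WF

theorem choose2 (a : ℕ) : 2 * (a.choose 2 : ℤ) = a * (a - 1) := by
  induction a with
  | zero => simp
  | succ a ih =>
    rw [Nat.choose_succ_succ' a 1, Nat.choose_one_right]
    push_cast
    linear_combination ih

theorem choose3 (a : ℕ) : 6 * (a.choose 3 : ℤ) = a * (a - 1) * (a - 2) := by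
  induction a with
  | zero => simp
  | succ a ih =>
    rw [Nat.choose_succ_succ' a 2]
    push_cast
    linear_combination ih + 3 * choose2 a

theorem choose4 (a : ℕ) : 24 * (a.choose 4 : ℤ) = a * (a - 1) * (a - 2) * (a - 3) := by
  induction a with
  | zero => simp
  | succ a ih =>
    rw [Nat.choose_succ_succ' a 3]
    push_cast
    linear_combination ih + 4 * choose3 a

theorem choose5 (a : ℕ) : 120 * (a.choose 5 : ℤ) = a * (a - 1) * (a - 2) * (a - 3) * (a - 4) := by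
  induction a with
  | zero => simp
  | succ a ih =>
    rw [Nat.choose_succ_succ' a 4]
    push_cast
    linear_combination ih + 5 * choose4 a

theorem big_3_6 {d : ℕ} (hd : 8 ≤ d) :
    lvdim 3 d (fun _ : Fin 6 => 2 * d / 3) < 0 := by
  rw [lvdim_pairs (by norm_num) (fun c hc hcn => by
    obtain rfl : c = 3 := by omega
    omega),
    show ((6 : ℕ).choose 2 : ℤ) = 15 by decide +kernel]
  rcases (by omega : d % 3 = 0 ∨ d % 3 = 1 ∨ d % 3 = 2) with h | h | h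
  · obtain ⟨u, rfl⟩ : ∃ u, d = 3 * (u + 1) + 0 := ⟨d / 3 - 1, by omega⟩
    rw [show 3 + (3 * (u + 1) + 0) = 3 * u + 6 by ring,
      show 3 + 2 * (3 * (u + 1) + 0) / 3 - 1 = 2 * u + 4 by omega,
      show 3 + (2 * (2 * (3 * (u + 1) + 0) / 3) - (3 * (u + 1) + 0)) - 2 = u + 2 by omega]
    have h0 : (0 : ℤ) < 24 * (u : ℤ) ^ 0 + 60 * (u : ℤ) ^ 1 + 36 * (u : ℤ) ^ 2 + 6 * (u : ℤ) ^ 3 := by
      clear h hd
      positivity
    have e1 := choose3 (3 * u + 6)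
    have e2 := choose3 (2 * u + 4)
    have e3 := choose3 (u + 2)
    push_cast at e1 e2 e3 ⊢
    have key : 6 * (((3 * u + 6).choose 3 : ℤ) - 6 * ((2 * u + 4).choose 3 : ℤ) +
        15 * ((u + 2).choose 3 : ℤ)) = -(24 * (u : ℤ) ^ 0 + 60 * (u : ℤ) ^ 1 + 36 * (u : ℤ) ^ 2 + 6 * (u : ℤ) ^ 3) := by
      linear_combination e1 - 6 * e2 + 15 * e3
    linarith only [key, h0]
  · obtain ⟨u, rfl⟩ : ∃ u, d = 3 * (u + 3) + 1 := ⟨d / 3 - 3, by omega⟩
    rw [show 3 + (3 * (u + 3) + 1) = 3 * u + 13 by ring,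
      show 3 + 2 * (3 * (u + 3) + 1) / 3 - 1 = 2 * u + 8 by omega,
      show 3 + (2 * (2 * (3 * (u + 3) + 1) / 3) - (3 * (u + 3) + 1)) - 2 = u + 3 by omega]
    have h0 : (0 : ℤ) < 210 * (u : ℤ) ^ 0 + 294 * (u : ℤ) ^ 1 + 90 * (u : ℤ) ^ 2 + 6 * (u : ℤ) ^ 3 := by
      clear h hd
      positivity
    have e1 := choose3 (3 * u + 13)
    have e2 := choose3 (2 * u + 8)
    have e3 := choose3 (u + 3)
    push_cast at e1 e2 e3 ⊢
    have key : 6 * (((3 * u + 13).choose 3 : ℤ) - 6 * ((2 * u + 8).choose 3 : ℤ) +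
        15 * ((u + 3).choose 3 : ℤ)) = -(210 * (u : ℤ) ^ 0 + 294 * (u : ℤ) ^ 1 + 90 * (u : ℤ) ^ 2 + 6 * (u : ℤ) ^ 3) := by
      linear_combination e1 - 6 * e2 + 15 * e3
    linarith only [key, h0]
  · obtain ⟨u, rfl⟩ : ∃ u, d = 3 * (u + 1) + 2 := ⟨d / 3 - 1, by omega⟩
    rw [show 3 + (3 * (u + 1) + 2) = 3 * u + 8 by ring,
      show 3 + 2 * (3 * (u + 1) + 2) / 3 - 1 = 2 * u + 5 by omega,
      show 3 + (2 * (2 * (3 * (u + 1) + 2) / 3) - (3 * (u + 1) + 2)) - 2 = u + 2 by omega]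
    have h0 : (0 : ℤ) < 24 * (u : ℤ) ^ 0 + 96 * (u : ℤ) ^ 1 + 54 * (u : ℤ) ^ 2 + 6 * (u : ℤ) ^ 3 := by
      clear h hd
      positivity
    have e1 := choose3 (3 * u + 8)
    have e2 := choose3 (2 * u + 5)
    have e3 := choose3 (u + 2)
    push_cast at e1 e2 e3 ⊢
    have key : 6 * (((3 * u + 8).choose 3 : ℤ) - 6 * ((2 * u + 5).choose 3 : ℤ) +
        15 * ((u + 2).choose 3 : ℤ)) = -(24 * (u : ℤ) ^ 0 + 96 * (u : ℤ) ^ 1 + 54 * (u : ℤ) ^ 2 + 6 * (u : ℤ) ^ 3) := by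
      linear_combination e1 - 6 * e2 + 15 * e3
    linarith only [key, h0]

theorem all_3_6 {d m : ℕ} (hd : 3 ≤ d) (h2 : d + 2 ≤ 2 * m) (h3 : 2 * d + 3 < 3 * m + 3) :
    ldim 3 d (fun _ : Fin 6 => m) = 0 := by
  rcases Nat.lt_or_ge d 8 with h | h
  · interval_cases d
    · exact ldim_zero (fun _ => 2) (fun _ => by omega) (by
        rw [lvdim_const]
        decide +kernel)
    · exact ldim_zero (fun _ => 3) (fun _ => by omega) (by
        rw [lvdim_const]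
        decide +kernel)
    · exact ldim_zero (fun _ => 4) (fun _ => by omega) (by
        rw [lvdim_const]
        decide +kernel)
    · exact ldim_zero (fun _ => 4) (fun _ => by omega) (by
        rw [lvdim_const]
        decide +kernel)
    · exact ldim_zero (fun _ => 5) (fun _ => by omega) (by
        rw [lvdim_const]
        decide +kernel)
  · exact ldim_zero (fun _ => 2 * d / 3) (fun _ => by omega) (big_3_6 h)

theorem big_3_7 {d : ℕ} (hd : 5 ≤ d) :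
    lvdim 3 d (fun _ : Fin 7 => 2 * d / 3) < 0 := by
  rw [lvdim_pairs (by norm_num) (fun c hc hcn => by
    obtain rfl : c = 3 := by omega
    omega),
    show ((7 : ℕ).choose 2 : ℤ) = 21 by decide +kernel]
  rcases (by omega : d % 3 = 0 ∨ d % 3 = 1 ∨ d % 3 = 2) with h | h | h
  · obtain ⟨u, rfl⟩ : ∃ u, d = 3 * (u + 1) + 0 := ⟨d / 3 - 1, by omega⟩
    rw [show 3 + (3 * (u + 1) + 0) = 3 * u + 6 by ring,
      show 3 + 2 * (3 * (u + 1) + 0) / 3 - 1 = 2 * u + 4 by omega,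
      show 3 + (2 * (2 * (3 * (u + 1) + 0) / 3) - (3 * (u + 1) + 0)) - 2 = u + 2 by omega]
    have h0 : (0 : ℤ) < 48 * (u : ℤ) ^ 0 + 100 * (u : ℤ) ^ 1 + 54 * (u : ℤ) ^ 2 + 8 * (u : ℤ) ^ 3 := by
      clear h hd
      positivity
    have e1 := choose3 (3 * u + 6)
    have e2 := choose3 (2 * u + 4)
    have e3 := choose3 (u + 2)
    push_cast at e1 e2 e3 ⊢
    have key : 6 * (((3 * u + 6).choose 3 : ℤ) - 7 * ((2 * u + 4).choose 3 : ℤ) +
        21 * ((u + 2).choose 3 : ℤ)) = -(48 * (u : ℤ) ^ 0 + 100 * (u : ℤ) ^ 1 + 54 * (u : ℤ) ^ 2 + 8 * (u : ℤ) ^ 3) := by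
      linear_combination e1 - 7 * e2 + 21 * e3
    linarith only [key, h0]
  · obtain ⟨u, rfl⟩ : ∃ u, d = 3 * (u + 2) + 1 := ⟨d / 3 - 2, by omega⟩
    rw [show 3 + (3 * (u + 2) + 1) = 3 * u + 10 by ring,
      show 3 + 2 * (3 * (u + 2) + 1) / 3 - 1 = 2 * u + 6 by omega,
      show 3 + (2 * (2 * (3 * (u + 2) + 1) / 3) - (3 * (u + 2) + 1)) - 2 = u + 2 by omega]
    have h0 : (0 : ℤ) < 120 * (u : ℤ) ^ 0 + 268 * (u : ℤ) ^ 1 + 114 * (u : ℤ) ^ 2 + 8 * (u : ℤ) ^ 3 := by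
      clear h hd
      positivity
    have e1 := choose3 (3 * u + 10)
    have e2 := choose3 (2 * u + 6)
    have e3 := choose3 (u + 2)
    push_cast at e1 e2 e3 ⊢
    have key : 6 * (((3 * u + 10).choose 3 : ℤ) - 7 * ((2 * u + 6).choose 3 : ℤ) +
        21 * ((u + 2).choose 3 : ℤ)) = -(120 * (u : ℤ) ^ 0 + 268 * (u : ℤ) ^ 1 + 114 * (u : ℤ) ^ 2 + 8 * (u : ℤ) ^ 3) := by
      linear_combination e1 - 7 * e2 + 21 * e3
    linarith only [key, h0]
  · obtain ⟨u, rfl⟩ : ∃ u, d = 3 * (u + 1) + 2 := ⟨d / 3 - 1, by omega⟩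
    rw [show 3 + (3 * (u + 1) + 2) = 3 * u + 8 by ring,
      show 3 + 2 * (3 * (u + 1) + 2) / 3 - 1 = 2 * u + 5 by omega,
      show 3 + (2 * (2 * (3 * (u + 1) + 2) / 3) - (3 * (u + 1) + 2)) - 2 = u + 2 by omega]
    have h0 : (0 : ℤ) < 84 * (u : ℤ) ^ 0 + 178 * (u : ℤ) ^ 1 + 84 * (u : ℤ) ^ 2 + 8 * (u : ℤ) ^ 3 := by
      clear h hd
      positivity
    have e1 := choose3 (3 * u + 8)
    have e2 := choose3 (2 * u + 5)
    have e3 := choose3 (u + 2)
    push_cast at e1 e2 e3 ⊢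
    have key : 6 * (((3 * u + 8).choose 3 : ℤ) - 7 * ((2 * u + 5).choose 3 : ℤ) +
        21 * ((u + 2).choose 3 : ℤ)) = -(84 * (u : ℤ) ^ 0 + 178 * (u : ℤ) ^ 1 + 84 * (u : ℤ) ^ 2 + 8 * (u : ℤ) ^ 3) := by
      linear_combination e1 - 7 * e2 + 21 * e3
    linarith only [key, h0]

theorem all_3_7 {d m : ℕ} (hd : 3 ≤ d) (h2 : d + 2 ≤ 2 * m) (h3 : 2 * d + 3 < 3 * m + 3) :
    ldim 3 d (fun _ : Fin 7 => m) = 0 := by
  rcases Nat.lt_or_ge d 5 with h | h
  · interval_cases d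
    · exact ldim_zero (fun _ => 3) (fun _ => by omega) (by
        rw [lvdim_const]
        decide +kernel)
    · exact ldim_zero (fun _ => 3) (fun _ => by omega) (by
        rw [lvdim_const]
        decide +kernel)
  · exact ldim_zero (fun _ => 2 * d / 3) (fun _ => by omega) (big_3_7 h)

end Pool.Agent.TH142.WF
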